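import Pool.Agent.Helper85.REC.Stmts14

/-!
# Reciprocity, part 14b: fundamental characters (the parts of the row FDC)
Proofs: /team-store/rec_blueprint14b.md   [helper85]
-/

set_option autoImplicit false

open scoped Classical
open NumberField Polynomial

namespace REC

open Pool.Agent.Helper13.ZL (Pl q)
open MU

/-- the value at `σ` of the fundamental character of level `r` (for the prime `ker θ`) is `a` -/
def FCh {F k : Type} [Field F] [NumberField F] [Field k] (l : ℕ) (θ : Zb F →+* k) (r : ℕ)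
    (σ : Gal F) (a : k) : Prop :=
  ∃ y z : Zb F, y ^ (l ^ r - 1) = l ∧
    (z : AlgebraicClosure F) * (y : AlgebraicClosure F) = σ (y : AlgebraicClosure F) ∧ θ z = a

/-- TCH: properties of the fundamental characters. -/
def ST_TCH : Prop :=
  ∀ (F : Type) [Field F] [NumberField F], ∃ c : ℕ, ∀ (l : ℕ) [Fact l.Prime], c < l →
    ∀ (k : Type) [Field k] (θ : Zb F →+* k), θ l = 0 →
    (∀ (r : ℕ) (σ : Gal F), 0 < r → CongPow (RingHom.ker θ) 1 σ →
      ∃ a : k, FCh l θ r σ a ∧ a ^ (l ^ r - 1) = 1) ∧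
    (∀ (r : ℕ) (σ : Gal F) (a b : k), 0 < r → CongPow (RingHom.ker θ) 1 σ → FCh l θ r σ a →
      FCh l θ r σ b → a = b) ∧
    (∀ (r : ℕ) (σ τ : Gal F) (a b : k), 0 < r → CongPow (RingHom.ker θ) 1 σ →
      CongPow (RingHom.ker θ) 1 τ → FCh l θ r σ a → FCh l θ r τ b → FCh l θ r (σ * τ) (a * b)) ∧
    (∀ (r s : ℕ) (σ : Gal F) (a : k), 0 < r → 0 < s → CongPow (RingHom.ker θ) 1 σ →
      FCh l θ (r * s) σ a → FCh l θ r σ (a ^ ((l ^ (r * s) - 1) / (l ^ r - 1)))) ∧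
    ∀ (v : Pl F) (f : ℕ), OverP v (RingHom.ker θ) → q v = l ^ f →
      (∀ (r : ℕ) (φ σ : Gal F) (a : k), 0 < r → CongPow (RingHom.ker θ) (q v) φ →
        CongPow (RingHom.ker θ) 1 σ → FCh l θ r σ a → FCh l θ r (φ * σ * φ⁻¹) (a ^ q v)) ∧
      ∀ (π : 𝓞 F), π ∈ v.asIdeal → π ∉ v.asIdeal ^ 2 → ∀ (σ : Gal F) (u : 𝓞 F) (ub : Zb F),
        CongPow (RingHom.ker θ) 1 σ → u ∉ v.asIdeal → Tm v (RingHom.ker θ) π σ u →
        (ub : AlgebraicClosure F) = algebraMap F (AlgebraicClosure F) (u : F) →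
        FCh l θ f σ (θ ub)

/-- DIG: digits. -/
def ST_DIG : Prop :=
  ∀ (l r f : ℕ) (a : ℕ → ℕ), 1 < l → 0 < r → (∀ i, a i + 1 < l) → (∀ i, a (i + r) = a i) →
    (l ^ r - 1) ∣ (∑ i ∈ Finset.range r, l ^ i * a i) * (l ^ f - 1) → ∀ i, a (i + f) = a i

/-- EMF: embeddings over a place above a large prime. -/
def ST_EMF : Prop :=
  ∀ (F : Type) [Field F] [NumberField F], ∃ c : ℕ, ∀ (l : ℕ) [Fact l.Prime], c < l →
    ∀ (k : Type) [Field k] [IsAlgClosed k] (ι : 𝓞 (AlgebraicClosure F) →+* k), ι l = 0 →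
    ∀ v : Pl F, (l : 𝓞 F) ∈ v.asIdeal →
    ∃ (θ : Zb F →+* k) (f : ℕ) (T : Fin f → F →+* AlgebraicClosure F), θ l = 0 ∧
      OverP v (RingHom.ker θ) ∧ 0 < f ∧ q v = l ^ f ∧ Function.Injective T ∧
      (∀ τ : F →+* AlgebraicClosure F, (∃ i, T i = τ) ↔
        RingHom.ker (ι.comp (RingOfIntegers.mapRingHom τ)) = v.asIdeal) ∧
      ∀ (i : Fin f) (x : 𝓞 F) (xb : Zb F),
        (xb : AlgebraicClosure F) = algebraMap F (AlgebraicClosure F) (x : F) →
        ι (RingOfIntegers.mapRingHom (T i) x) = θ xb ^ (l ^ (i : ℕ))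

end REC
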