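import Pool.Agent.Helper85.REC.LIN0

/-!
# REC, IR2: irreducibility in rank two
-/

set_option autoImplicit false
set_option maxHeartbeats 800000

open scoped Classical
open NumberField Polynomial

namespace REC

open Pool.Agent.Helper13.ZL (Pl q)
open MU

/-- a Galois extension of `ℚ` which contains `F` -/
theorem ir_gal (F : Type) [Field F] [NumberField F] : ∃ (L : Type) (_ : Field L)
    (_ : NumberField L) (_ : IsGalois ℚ L), Nonempty (F →+* L) := by
  have hAlg : Algebra.IsAlgebraic ℚ (AlgebraicClosure F) :=
    Algebra.IsAlgebraic.trans ℚ F (AlgebraicClosure F)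
  have hAC : IsAlgClosure ℚ (AlgebraicClosure F) := ⟨inferInstance, hAlg⟩
  have hNor : Normal ℚ (AlgebraicClosure F) := IsAlgClosure.normal ℚ (AlgebraicClosure F)
  let L := IntermediateField.normalClosure ℚ F (AlgebraicClosure F)
  have hfd : FiniteDimensional ℚ L := inferInstance
  have hch : CharZero L := inferInstance
  have hN : NumberField L := { to_charZero := hch, to_finiteDimensional := by convert hfd }
  have hn := normalClosure.normal ℚ F (AlgebraicClosure F)
  refine ⟨L, inferInstance, hN, ?_, ⟨algebraMap F L⟩⟩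
  have hn' : Normal ℚ L := by
    convert hn
    exact Subsingleton.elim _ _
  exact { }

/-- the dimension of a stable subspace in rank two -/
theorem ir_dim {K : Type} [Field K] {m : ℕ} (B : Matrix (Fin 2) (Fin m) K)
    (C : Matrix (Fin m) (Fin 2) K) (h : C * B = 1) : m ≤ 2 := by
  have h1 : (1 : Matrix (Fin m) (Fin m) K).rank ≤ 2 := by
    rw [← h]
    refine (Matrix.rank_mul_le_right C B).trans ?_
    refine (Matrix.rank_le_card_height B).trans ?_
    simp
  rwa [Matrix.rank_one, Fintype.card_fin] at h1

theorem st_IR2 (hRLN : ST_RLN) (hLLN : ST_LLN) (hREL1 : ST_REL1) (hRELK : ST_RELK)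
    (hPATC : ST_PATC) (hHS2 : ST_HS2) (hLIN0 : ST_LIN0) : ST_IR2 := by
  intro F _ _ S hS w h M hh hor
  obtain ⟨L, _, _, _, hL⟩ := ir_gal F
  -- no exact relation
  have hno : ∀ e : (F →+* L) → ℕ, Rel M L e → False := by
    intro e he
    rcases hor with hor | hor
    · obtain ⟨c, hc, hcw⟩ := hPATC F L S hS 2 w h M two_pos hor e he
      obtain ⟨τ⟩ := hL
      obtain ⟨i, hi⟩ := he.1 τ
      rw [hc] at hi
      have h1 := hHS2 F S hS w h M
      fin_cases i
      · apply hh
        change c = h 0 at hi
        omega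
      · apply hh
        change c = h 1 at hi
        omega
    · obtain ⟨l, hl, H, hH, B, A, hBA⟩ := hLIN0 F L S hS w h M e he
      rcases hor l H hH 1 B A hBA with h1 | h1 <;> omega
  constructor
  · intro l _
    rcases hor with hor | hor
    · intro m B A hBA
      obtain ⟨C, hC⟩ := hBA.1
      have hm := ir_dim B C hC
      by_contra hcon
      push Not at hcon
      obtain rfl : m = 1 := by omega
      obtain ⟨e, he⟩ := hLLN F S hS 2 w h M l B A hBA
      obtain ⟨e', he'⟩ := hRELK F L S hS 2 w h M l e he
      exact hno e' he'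
    · intro m B A hBA
      refine hor l ⊤ isOpen_univ m B (fun g => A g) ⟨hBA.1, fun g => ?_⟩
      exact hBA.2 g
  · by_contra hcon
    push Not at hcon
    obtain ⟨c, hc⟩ := hRLN F S hS 2 w h M
    obtain ⟨e', he'⟩ := hREL1 F L S hS 2 w h M (by
      intro c'
      obtain ⟨l, hl, hcl, hirr⟩ := hcon (max c c')
      refine ⟨l, hl, (le_max_right c c').trans_lt hcl, ?_⟩
      unfold IsIrr at hirr
      push Not at hirr
      obtain ⟨m, B, A, hBA, hm0, hm2⟩ := hirr
      obtain ⟨C, hC⟩ := hBA.1
      have hm := ir_dim B C hC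
      obtain rfl : m = 1 := by omega
      exact hc l ((le_max_left c c').trans_lt hcl) B A hBA)
    exact hno e' he'

end REC
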