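import Pool.Agent.Helper85.REC.Dns

/-!
# Groups of two by two matrices over `ℤ_l` whose eigenvalues are in `ℚ_l`

If the discriminants of the (`N`-th powers of the) elements of an open subgroup are squares, then an
open subgroup has a stable line.
-/

set_option autoImplicit false

namespace REC

variable {l : ℕ} [Fact l.Prime]

/-- the discriminant of a two by two matrix -/
def dsc {R : Type} [CommRing R] (A : Matrix (Fin 2) (Fin 2) R) : R :=
  (A 0 0 + A 1 1) ^ 2 - 4 * (A 0 0 * A 1 1 - A 0 1 * A 1 0)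

/-- `A ≡ 1` modulo `l ^ K` -/
def Cg (K : ℕ) {n : ℕ} (A : Matrix (Fin n) (Fin n) ℤ_[l]) : Prop :=
  ∀ i j, (l : ℤ_[l]) ^ K ∣ (A - 1) i j

theorem gl_open {Γ : Type} [Group Γ] [TopologicalSpace Γ] [IsTopologicalGroup Γ] {n : ℕ}
    (r : Γ →* Matrix.GeneralLinearGroup (Fin n) ℤ_[l]) (hr : Continuous r) (K : ℕ) :
    ∃ H : Subgroup Γ, IsOpen (H : Set Γ) ∧
      ∀ g, g ∈ H ↔ Cg K (r g : Matrix (Fin n) (Fin n) ℤ_[l]) := by
  let φ : Matrix.GeneralLinearGroup (Fin n) ℤ_[l] →*
      Matrix.GeneralLinearGroup (Fin n) (ZMod (l ^ K)) :=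
    Matrix.GeneralLinearGroup.map (PadicInt.toZModPow K)
  have hmem : ∀ g, g ∈ (φ.comp r).ker ↔ Cg K (r g : Matrix (Fin n) (Fin n) ℤ_[l]) := by
    intro g
    rw [MonoidHom.mem_ker, MonoidHom.comp_apply, Matrix.GeneralLinearGroup.ext_iff]
    refine forall_congr' fun i => forall_congr' fun j => ?_
    rw [← Ideal.mem_span_singleton, ← PadicInt.ker_toZModPow, RingHom.mem_ker, Matrix.sub_apply,
      map_sub, sub_eq_zero]
    have h1 : (PadicInt.toZModPow K) ((1 : Matrix (Fin n) (Fin n) ℤ_[l]) i j) =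
        ((1 : Matrix.GeneralLinearGroup (Fin n) (ZMod (l ^ K))) :
          Matrix (Fin n) (Fin n) (ZMod (l ^ K))) i j := by
      rw [Units.val_one, Matrix.one_apply, Matrix.one_apply]
      split_ifs <;> simp
    rw [h1]
    rfl
  refine ⟨(φ.comp r).ker, ?_, hmem⟩
  have h2 : ((φ.comp r).ker : Set Γ) = ⋂ i : Fin n, ⋂ j : Fin n,
      {g | ‖((r g : Matrix (Fin n) (Fin n) ℤ_[l]) - 1) i j‖ < (l : ℝ) ^ (-(K : ℤ) + 1)} := by
    ext g
    rw [Set.mem_iInter]
    simp only [Set.mem_iInter]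
    change g ∈ (φ.comp r).ker ↔ _
    rw [hmem]
    refine forall_congr' fun i => forall_congr' fun j => ?_
    rw [← Ideal.mem_span_singleton, ← PadicInt.norm_le_pow_iff_mem_span_pow,
      PadicInt.norm_le_pow_iff_norm_lt_pow_add_one]
    rfl
  rw [h2]
  refine isOpen_iInter_of_finite fun i => isOpen_iInter_of_finite fun j => ?_
  have hc : Continuous fun g => ‖((r g : Matrix (Fin n) (Fin n) ℤ_[l]) - 1) i j‖ := by
    refine continuous_norm.comp ?_
    have h3 : Continuous fun g => (r g : Matrix (Fin n) (Fin n) ℤ_[l]) :=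
      Units.continuous_val.comp hr
    exact ((h3.sub continuous_const).matrix_elem i j)
  exact isOpen_lt hc continuous_const

theorem gl_pow_eq {R : Type} [CommRing R] (A : Matrix (Fin 2) (Fin 2) R) (N : ℕ) :
    ∃ U V : R, A ^ N = U • A + V • (1 : Matrix (Fin 2) (Fin 2) R) ∧
      ∀ c : R, (∀ i j, c ∣ (A - 1) i j) → c ∣ U - N ∧ c ∣ V + N - 1 := by
  induction N with
  | zero =>
    refine ⟨0, 1, by simp, fun c _ => ⟨by simp, by simp⟩⟩
  | succ N ih =>
    obtain ⟨U, V, h1, h2⟩ := ih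
    set T := A 0 0 + A 1 1 with hT
    set D := A 0 0 * A 1 1 - A 0 1 * A 1 0 with hD
    refine ⟨U * T + V, -(U * D), ?_, fun c hc => ?_⟩
    · rw [pow_succ, h1]
      ext i j
      fin_cases i <;> fin_cases j <;>
      simp [Matrix.mul_apply, Fin.sum_univ_two, hT, hD] <;> ring
    · obtain ⟨h3, h4⟩ := h2 c hc
      have h00 : c ∣ A 0 0 - 1 := by simpa using hc 0 0
      have h11 : c ∣ A 1 1 - 1 := by simpa using hc 1 1
      have h01 : c ∣ A 0 1 := by simpa using hc 0 1
      have hT2 : c ∣ T - 2 := by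
        have : T - 2 = (A 0 0 - 1) + (A 1 1 - 1) := by rw [hT]; ring
        rw [this]
        exact dvd_add h00 h11
      have hD1 : c ∣ D - 1 := by
        have : D - 1 = A 1 1 * (A 0 0 - 1) + (A 1 1 - 1) - A 1 0 * A 0 1 := by rw [hD]; ring
        rw [this]
        exact dvd_sub (dvd_add (Dvd.dvd.mul_left h00 _) h11) (Dvd.dvd.mul_left h01 _)
      constructor
      · have : U * T + V - ((N + 1 : ℕ) : R) = U * (T - 2) + 2 * (U - N) + (V + N - 1) := by
          push_cast
          ring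
        rw [this]
        exact dvd_add (dvd_add (Dvd.dvd.mul_left hT2 _) (Dvd.dvd.mul_left h3 _)) h4
      · have : -(U * D) + ((N + 1 : ℕ) : R) - 1 = -(U * (D - 1)) - (U - N) := by
          push_cast
          ring
        rw [this]
        exact dvd_sub (Dvd.dvd.mul_left hD1 _).neg_right h3

theorem dsc_lin {R : Type} [CommRing R] (A : Matrix (Fin 2) (Fin 2) R) (U V : R) :
    dsc (U • A + V • (1 : Matrix (Fin 2) (Fin 2) R)) = U ^ 2 * dsc A := by
  simp [dsc]
  ring

/-- the discriminant of `A` is a square if the one of `A ^ N` is and `A` is close to `1` -/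
theorem gl_sq_root (K N : ℕ) (hN : ¬ (l : ℤ_[l]) ^ K ∣ (N : ℤ_[l])) (A : Matrix (Fin 2) (Fin 2) ℤ_[l])
    (hA : Cg K A) (h : IsSquare (dsc (A ^ N))) : IsSquare (dsc A) := by
  obtain ⟨U, V, h1, h2⟩ := gl_pow_eq A N
  obtain ⟨h3, -⟩ := h2 _ hA
  have hU : U ≠ 0 := by
    rintro rfl
    rw [zero_sub, dvd_neg] at h3
    exact hN h3
  rw [h1, dsc_lin] at h
  obtain ⟨w, hw⟩ := h
  have h4 : U ^ 2 ∣ w ^ 2 := ⟨dsc A, by rw [hw]; ring⟩
  obtain ⟨v, rfl⟩ := (UniqueFactorizationMonoid.pow_dvd_pow_iff_dvd two_ne_zero).mp h4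
  refine ⟨v, ?_⟩
  exact mul_left_cancel₀ (pow_ne_zero 2 hU) (by linear_combination hw)

/-! ## conjugation -/

theorem dsc_eq {R : Type} [CommRing R] (A : Matrix (Fin 2) (Fin 2) R) :
    dsc A = A.trace ^ 2 - 4 * A.det := by
  rw [Matrix.det_fin_two, Matrix.trace_fin_two, dsc]

theorem dsc_conj {R : Type} [CommRing R] [IsDomain R] (X Y P : Matrix (Fin 2) (Fin 2) R)
    (hP : P.det ≠ 0) (h : X * P = P * Y) : dsc X = dsc Y := by
  have h1 : X.det = Y.det := by
    have := congrArg Matrix.det h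
    rw [Matrix.det_mul, Matrix.det_mul, mul_comm] at this
    exact mul_left_cancel₀ hP this
  have h2 : X.trace = Y.trace := by
    have h3 : P.det * X.trace = P.det * Y.trace := by
      have h4 : (X * P * P.adjugate).trace = (P.adjugate * (P * Y)).trace := by
        rw [h, Matrix.trace_mul_comm]
      rw [Matrix.mul_assoc, Matrix.mul_adjugate, ← Matrix.mul_assoc, Matrix.adjugate_mul] at h4
      simpa using h4
    exact mul_left_cancel₀ hP h3
  rw [dsc_eq, dsc_eq, h1, h2]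

theorem gl_cancel {R : Type} [CommRing R] [IsDomain R] {n : ℕ} (X Y P : Matrix (Fin n) (Fin n) R)
    (hP : P.det ≠ 0) (h : P * X = P * Y) : X = Y := by
  have h1 : P.adjugate * (P * X) = P.adjugate * (P * Y) := by rw [h]
  rw [← Matrix.mul_assoc, ← Matrix.mul_assoc, Matrix.adjugate_mul, Matrix.smul_mul,
    Matrix.smul_mul, Matrix.one_mul, Matrix.one_mul] at h1
  ext i j
  have h2 := congrFun (congrFun h1 i) j
  simp only [Matrix.smul_apply, smul_eq_mul] at h2
  exact mul_left_cancel₀ hP h2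

/-- matrices close to `1` in another basis -/
theorem gl_base {n : ℕ} (P : Matrix (Fin n) (Fin n) ℤ_[l]) (hP : P.det ≠ 0) : ∃ c : ℕ, ∀ (j : ℕ)
    (B : Matrix (Fin n) (Fin n) ℤ_[l]), Cg (c + j) B →
      ∃ B' : Matrix (Fin n) (Fin n) ℤ_[l], B * P = P * B' ∧ Cg j B' := by
  refine ⟨P.det.valuation, fun j B hB => ?_⟩
  set c := P.det.valuation
  set w := PadicInt.unitCoeff hP
  have hw : P.det = (w : ℤ_[l]) * (l : ℤ_[l]) ^ c := PadicInt.unitCoeff_spec hP
  choose X hX using hB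
  have hX' : B = 1 + (l : ℤ_[l]) ^ (c + j) • Matrix.of X := by
    ext a b
    have := hX a b
    rw [Matrix.sub_apply] at this
    rw [Matrix.add_apply, Matrix.smul_apply, Matrix.of_apply, smul_eq_mul, ← this]
    ring
  refine ⟨1 + ((l : ℤ_[l]) ^ j * ((w⁻¹ : ℤ_[l]ˣ) : ℤ_[l])) •
    (P.adjugate * Matrix.of X * P), ?_, fun a b => ?_⟩
  · rw [hX', Matrix.add_mul, Matrix.mul_add, Matrix.one_mul, Matrix.mul_one, Matrix.mul_smul,
      Matrix.mul_assoc P.adjugate, ← Matrix.mul_assoc P, Matrix.mul_adjugate, Matrix.smul_mul,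
      Matrix.smul_mul, Matrix.one_mul, smul_smul]
    congr 2
    rw [hw]
    have : (w : ℤ_[l]) * ((w⁻¹ : ℤ_[l]ˣ) : ℤ_[l]) = 1 := by
      rw [← Units.val_mul, mul_inv_cancel, Units.val_one]
    rw [pow_add]
    linear_combination -((l : ℤ_[l]) ^ c * (l : ℤ_[l]) ^ j) * this
  · rw [add_sub_cancel_left, Matrix.smul_apply, smul_eq_mul, mul_assoc]
    exact dvd_mul_right _ _

/-- eigenvectors -/
theorem gl_eig {R : Type} [CommRing R] [IsDomain R] (A : Matrix (Fin 2) (Fin 2) R) (x y : R)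
    (hxy : x ≠ y) (h1 : x + y = A 0 0 + A 1 1) (h2 : x * y = A 0 0 * A 1 1 - A 0 1 * A 1 0) :
    ∃ P : Matrix (Fin 2) (Fin 2) R, P.det ≠ 0 ∧ A * P = P * Matrix.diagonal ![x, y] := by
  have key : ∀ z : R, z ^ 2 - (A 0 0 + A 1 1) * z + (A 0 0 * A 1 1 - A 0 1 * A 1 0) = 0 →
      ∃ v : Fin 2 → R, v ≠ 0 ∧ A.mulVec v = z • v := by
    intro z hz
    have hdet : (A - z • (1 : Matrix (Fin 2) (Fin 2) R)).det = 0 := by
      rw [Matrix.det_fin_two]
      simp only [Matrix.sub_apply, Matrix.smul_apply, Matrix.one_apply, smul_eq_mul]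
      simp
      linear_combination hz
    obtain ⟨v, hv, hv1⟩ := Matrix.exists_mulVec_eq_zero_iff.mpr hdet
    refine ⟨v, hv, ?_⟩
    rw [Matrix.sub_mulVec, Matrix.smul_mulVec, Matrix.one_mulVec, sub_eq_zero] at hv1
    exact hv1
  obtain ⟨v, hv, hv1⟩ := key x (by rw [← h1, ← h2]; ring)
  obtain ⟨u, hu, hu1⟩ := key y (by rw [← h1, ← h2]; ring)
  have hv0 : A 0 0 * v 0 + A 0 1 * v 1 = x * v 0 := by
    simpa [Matrix.mulVec, dotProduct, Fin.sum_univ_two] using congrFun hv1 0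
  have hv2 : A 1 0 * v 0 + A 1 1 * v 1 = x * v 1 := by
    simpa [Matrix.mulVec, dotProduct, Fin.sum_univ_two] using congrFun hv1 1
  have hu0 : A 0 0 * u 0 + A 0 1 * u 1 = y * u 0 := by
    simpa [Matrix.mulVec, dotProduct, Fin.sum_univ_two] using congrFun hu1 0
  have hu2 : A 1 0 * u 0 + A 1 1 * u 1 = y * u 1 := by
    simpa [Matrix.mulVec, dotProduct, Fin.sum_univ_two] using congrFun hu1 1
  have hxy' : x - y ≠ 0 := sub_ne_zero.mpr hxy
  refine ⟨!![v 0, u 0; v 1, u 1], ?_, ?_⟩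
  · rw [Matrix.det_fin_two_of]
    intro hd
    have h3 : ∀ i, (x - y) * u 0 * v i = 0 := by
      intro i
      fin_cases i
      · simp only [Fin.zero_eta]
        linear_combination (-u 0) * hv0 + v 0 * hu0 + A 0 1 * hd * (-1)
      · simp only [Fin.mk_one]
        linear_combination (-u 0) * hv2 + v 0 * hu2 + (y - A 1 1) * hd
    have h4 : ∀ i, (x - y) * u 1 * v i = 0 := by
      intro i
      fin_cases i
      · simp only [Fin.zero_eta]
        linear_combination (-u 1) * hv0 + v 1 * hu0 + (A 0 0 - y) * hd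
      · simp only [Fin.mk_one]
        linear_combination (-u 1) * hv2 + v 1 * hu2 + A 1 0 * hd
    have h5 : ∃ i, v i ≠ 0 := by
      by_contra hcon
      push Not at hcon
      exact hv (funext hcon)
    obtain ⟨i, hi⟩ := h5
    have h6 : u 0 = 0 := by
      rcases mul_eq_zero.mp (h3 i) with h | h
      · exact (mul_eq_zero.mp h).resolve_left hxy'
      · exact absurd h hi
    have h7 : u 1 = 0 := by
      rcases mul_eq_zero.mp (h4 i) with h | h
      · exact (mul_eq_zero.mp h).resolve_left hxy'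
      · exact absurd h hi
    apply hu
    funext j
    fin_cases j
    · exact h6
    · exact h7
  · ext i j
    fin_cases i <;> fin_cases j <;> simp [Matrix.mul_apply, Fin.sum_univ_two]
    · rw [hv0]; ring
    · rw [hu0]; ring
    · rw [hv2]; ring
    · rw [hu2]; ring

end REC
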