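import Pool.Agent.Helper85.REC.Stmts6
import Pool.Agent.Helper3.MU.Base

/-!
# REC, LIN0: the exact relation gives a line stable under an open subgroup
-/

set_option autoImplicit false
set_option maxHeartbeats 800000

open scoped Classical
open NumberField Polynomial Topology

namespace REC

open Pool.Agent.Helper13.ZL (Pl q)
open MU

/-- totally positive generators of powers of the places -/
theorem lin_gen (F : Type) [Field F] [NumberField F] : ∃ m : ℕ, 0 < m ∧ ∀ v : Pl F,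
    ∃ x : 𝓞 F, TotPos (x : F) ∧ Ideal.span {x} = v.asIdeal ^ m := by
  refine ⟨Fintype.card (ClassGroup (𝓞 F)) * 2, Nat.mul_pos Fintype.card_pos two_pos, fun v => ?_⟩
  have hv : v.asIdeal ∈ nonZeroDivisors (Ideal (𝓞 F)) := mem_nonZeroDivisors_of_ne_zero v.ne_bot
  have h1 : ClassGroup.mk0 (⟨v.asIdeal, hv⟩ ^ Fintype.card (ClassGroup (𝓞 F))) = 1 := by
    rw [map_pow, pow_card_eq_one]
  rw [ClassGroup.mk0_eq_one_iff] at h1
  obtain ⟨y, hy⟩ := h1
  have hy' : v.asIdeal ^ Fintype.card (ClassGroup (𝓞 F)) = Ideal.span {y} := by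
    have h2 := hy
    rw [SubmonoidClass.coe_pow, Ideal.submodule_span_eq] at h2
    exact h2
  have hy0 : y ≠ 0 := by
    rintro rfl
    rw [Ideal.span_singleton_eq_bot.mpr rfl] at hy'
    exact v.ne_bot (pow_eq_zero_iff (Fintype.card_ne_zero)  |>.mp hy')
  refine ⟨y ^ 2, fun σ => ?_, ?_⟩
  · have h3 : σ (((y ^ 2 : 𝓞 F)) : F) = (σ (y : F)) ^ 2 := by
      have h5 : (((y ^ 2 : 𝓞 F)) : F) = (y : F) ^ 2 := rfl
      rw [h5, map_pow]
    rw [h3]
    have h4 : σ (y : F) ≠ 0 := by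
      intro h5
      exact hy0 (RingOfIntegers.ext ((map_eq_zero σ).mp h5))
    positivity
  · rw [pow_mul, hy', Ideal.span_singleton_pow]

/-- a root in `ℤ_l` of the characteristic polynomial -/
theorem lin_sq {l : ℕ} [Fact l.Prime] {L : Type} [Field L] [NumberField L] (ι : L →+* ℚ_[l])
    (X : Matrix (Fin 2) (Fin 2) ℤ_[l]) (P : ℤ[X]) (β : 𝓞 L) (hβ : aeval β P = 0)
    (hP : X.charpoly = P.map (Int.castRingHom ℤ_[l])) : IsSquare (dsc X) := by
  have h1 : aeval (ι (β : L)) P = 0 := by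
    have h2 : aeval (β : L) P = 0 := by
      have h3 : aeval (algebraMap (𝓞 L) L β) P = 0 := by
        rw [aeval_algebraMap_apply, hβ, map_zero]
      exact h3
    have h4 : aeval (ι (β : L)) P = ι (aeval (β : L) P) := by
      rw [aeval_def, aeval_def, Polynomial.hom_eval₂]
      congr 1
      exact Subsingleton.elim _ _
    rw [h4, h2, map_zero]
  have hint : IsIntegral ℤ_[l] (ι (β : L)) := by
    have h5 : IsIntegral ℤ (ι (β : L)) := map_isIntegral_int ι (RingOfIntegers.isIntegral_coe β)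
    exact h5.tower_top
  obtain ⟨r, hr⟩ := (IsIntegrallyClosed.isIntegral_iff (R := ℤ_[l]) (K := ℚ_[l])).mp hint
  have h6 : eval r X.charpoly = 0 := by
    have h7 : algebraMap ℤ_[l] ℚ_[l] (eval r X.charpoly) = 0 := by
      rw [hP, eval_map, Polynomial.hom_eval₂, hr]
      have h8 : ((algebraMap ℤ_[l] ℚ_[l]).comp (Int.castRingHom ℤ_[l])) =
          algebraMap ℤ ℚ_[l] := Subsingleton.elim _ _
      rw [h8]
      exact h1
    exact (FaithfulSMul.algebraMap_injective ℤ_[l] ℚ_[l]) (by rw [h7, map_zero])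
  rw [Matrix.charpoly_fin_two] at h6
  simp only [eval_add, eval_sub, eval_pow, eval_X, eval_mul, eval_C] at h6
  refine ⟨2 * r - X.trace, ?_⟩
  rw [dsc_eq]
  linear_combination (-4) * h6

theorem lin_continuous {F : Type} [Field F] [NumberField F] {S : Finset ℕ} {w : ℕ}
    {h : Fin 2 → ℕ} (M : Mot F S 2 w h) (l : ℕ) [Fact l.Prime] (m : ℕ) :
    Continuous fun g : Gal F => dsc ((M.ρ l g : Matrix (Fin 2) (Fin 2) ℤ_[l]) ^ m) := by
  have h1 : Continuous fun g : Gal F => ((M.ρ l g : Matrix.GeneralLinearGroup (Fin 2) ℤ_[l]) :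
      Matrix (Fin 2) (Fin 2) ℤ_[l]) := Units.continuous_val.comp (M.continuous l)
  have h2 : Continuous fun g : Gal F => ((M.ρ l g : Matrix (Fin 2) (Fin 2) ℤ_[l]) ^ m) :=
    h1.pow m
  have h3 : ∀ i j, Continuous fun g : Gal F => ((M.ρ l g : Matrix (Fin 2) (Fin 2) ℤ_[l]) ^ m) i j :=
    fun i j => h2.matrix_elem i j
  unfold dsc
  exact (((h3 0 0).add (h3 1 1)).pow 2).sub (continuous_const.mul
    (((h3 0 0).mul (h3 1 1)).sub ((h3 0 1).mul (h3 1 0))))

theorem st_LIN0 (hSPQ : ST_SPQ) (hFRB : ST_FRB) (hOVP : ST_OVP) : ST_LIN0 := by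
  intro F L _ _ _ _ _ _ S hS w h M e hRel
  obtain ⟨-, S', hSS', hrel⟩ := hRel
  obtain ⟨l, hl, -, ⟨ι⟩⟩ := hSPQ L 0
  obtain ⟨m, hm, hgen⟩ := lin_gen F
  obtain ⟨-, -, hO3, -, -, -, hO7⟩ := hOVP F
  -- Frobenius elements
  have key : ∀ (p : ℕ) (𝔓 : Ideal (Zb F)) (k : ℕ) (σ : Gal F), p.Prime → p ∉ insert l S' →
      Over p 𝔓 → 1 ≤ k → CongPow 𝔓 (p ^ k) σ →
      IsSquare (dsc ((M.ρ l σ⁻¹ : Matrix (Fin 2) (Fin 2) ℤ_[l]) ^ m)) := by
    intro p 𝔓 k σ hp hpS h𝔓 hk hσ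
    simp only [Finset.mem_insert, not_or] at hpS
    obtain ⟨v, hv⟩ := hO3 p 𝔓 hp h𝔓
    obtain ⟨j, hj⟩ := hO7 v 𝔓 hv p k σ hp h𝔓 hσ
    have hj0 : 0 < j := by
      rcases Nat.eq_zero_or_pos j with h0 | h0
      · rw [h0, pow_zero] at hj
        have := Nat.one_lt_pow (by omega : k ≠ 0) hp.one_lt
        omega
      · exact h0
    obtain ⟨x, hx1, hx2⟩ := hgen v
    have hpv : (p : 𝓞 F) ∈ v.asIdeal := by
      have := (hv.2 (p : 𝓞 F) (p : Zb F) (by simp)).mp h𝔓.2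
      exact this
    have hσm : CongPow 𝔓 (p ^ (k * m)) ((σ ^ m : Gal F)) := by
      rw [pow_mul]
      exact congPow_pow 𝔓 (p ^ k) σ hσ m
    obtain ⟨P, -, hP⟩ := M.pure p hp (fun h => hpS.2 (hSS' h)) 𝔓 h𝔓 (k * m) (σ ^ m)
      (Nat.mul_pos hk hm) hσm
    have hσ' : CongPow 𝔓 (q v ^ j) σ := by
      rw [← hj]
      exact hσ
    have h1 := hrel v p 𝔓 j m σ x P hp hpS.2 hpv hv hj0 hm hσ' hx1 hx2 (by
      intro l' _ hl'
      have := hP l' hl'
      rwa [map_inv] at this)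
    have h2 := hP l (fun h => hpS.1 h.symm)
    have h3 := lin_sq ι _ P _ h1 h2
    rw [← inv_pow, map_pow, Units.val_pow_eq_pow_val] at h3
    exact h3
  -- all elements
  have hall : ∀ g : Gal F, IsSquare (dsc ((M.ρ l g : Matrix (Fin 2) (Fin 2) ℤ_[l]) ^ m)) := by
    intro g
    by_contra hne
    have hopen : IsOpen {x : Gal F |
        ¬ IsSquare (dsc ((M.ρ l (g * x) : Matrix (Fin 2) (Fin 2) ℤ_[l]) ^ m))} := by
      have h3 : IsClosed {x : Gal F |
          IsSquare (dsc ((M.ρ l (g * x) : Matrix (Fin 2) (Fin 2) ℤ_[l]) ^ m))} :=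
        gl_sq_closed.preimage ((lin_continuous M l m).comp (continuous_const_mul g))
      exact h3.isOpen_compl
    have hmem : {x : Gal F |
        ¬ IsSquare (dsc ((M.ρ l (g * x) : Matrix (Fin 2) (Fin 2) ℤ_[l]) ^ m))} ∈
        𝓝 (1 : Gal F) := by
      apply hopen.mem_nhds
      simpa using hne
    obtain ⟨E, hE, hEn, hEs⟩ :=
      (krullTopology_mem_nhds_one_iff_of_normal F (AlgebraicClosure F) _).1 hmem
    have hEgal : IsGalois F E := { }
    have hUn : E.fixingSubgroup.Normal := (InfiniteGalois.normal_iff_isGalois E).2 hEgal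
    obtain ⟨p, 𝔓, k, σ, hp, hpS, h𝔓, hk, hσ, hgσ⟩ := hFRB F E.fixingSubgroup hUn
      E.fixingSubgroup_isOpen (insert l S') g⁻¹
    rw [inv_inv] at hgσ
    have h4 : g⁻¹ * σ⁻¹ ∈ E.fixingSubgroup := by
      have h5 := hUn.conj_mem _ (E.fixingSubgroup.inv_mem hgσ) g⁻¹
      have h6 : g⁻¹ * (g * σ)⁻¹ * g⁻¹⁻¹ = g⁻¹ * σ⁻¹ := by group
      rwa [h6] at h5
    have h7 := hEs h4
    apply h7
    have h8 : g * (g⁻¹ * σ⁻¹) = σ⁻¹ := by group
    change IsSquare (dsc ((M.ρ l (g * (g⁻¹ * σ⁻¹)) : Matrix (Fin 2) (Fin 2) ℤ_[l]) ^ m))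
    rw [h8]
    exact key p 𝔓 k σ hp hpS h𝔓 hk hσ
  obtain ⟨H, hH, -, u, hu0, hu⟩ := gl2_line (M.ρ l) (M.continuous l) ⊤ isOpen_univ m hm.ne'
    (fun g _ => hall g)
  refine ⟨l, hl, H, hH, ?_⟩
  obtain ⟨i₀, hi₀⟩ : ∃ i, u i ≠ 0 := by
    by_contra hcon
    push Not at hcon
    exact hu0 (funext hcon)
  set a : ℤ_[l] →+* ℚ_[l] := algebraMap ℤ_[l] ℚ_[l] with ha
  have hinj : Function.Injective a := FaithfulSMul.algebraMap_injective ℤ_[l] ℚ_[l]
  have hi₀' : a (u i₀) ≠ 0 := fun h0 => hi₀ (hinj (by rw [h0, map_zero]))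
  refine ⟨Matrix.of fun i _ => a (u i), fun g => Matrix.of fun _ _ =>
    a ((M.ρ l (g : Gal F) : Matrix (Fin 2) (Fin 2) ℤ_[l]).mulVec u i₀) / a (u i₀),
    ⟨Matrix.of fun _ j => if j = i₀ then (a (u i₀))⁻¹ else 0, ?_⟩, fun g => ?_⟩
  · ext c b
    have hc : c = 0 := Subsingleton.elim _ _
    have hb : b = 0 := Subsingleton.elim _ _
    subst hc hb
    rw [Matrix.mul_apply, Finset.sum_eq_single i₀]
    · rw [Matrix.of_apply, Matrix.of_apply, if_pos rfl, inv_mul_cancel₀ hi₀', Matrix.one_apply_eq]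
    · intro b _ hb
      rw [Matrix.of_apply, if_neg hb, zero_mul]
    · intro h
      exact absurd (Finset.mem_univ _) h
  · ext i b
    have h1 : ((rat (M.ρ l)).comp H.subtype g * Matrix.of fun i _ => a (u i)) i b =
        a ((M.ρ l (g : Gal F) : Matrix (Fin 2) (Fin 2) ℤ_[l]).mulVec u i) := by
      rw [Matrix.mul_apply, Matrix.mulVec, dotProduct, map_sum]
      refine Finset.sum_congr rfl fun j _ => ?_
      rw [map_mul]
      rfl
    rw [h1, Matrix.mul_apply, Fin.sum_univ_one, Matrix.of_apply]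
    change _ = a (u i) * (a ((M.ρ l (g : Gal F) : Matrix (Fin 2) (Fin 2) ℤ_[l]).mulVec u i₀) /
      a (u i₀))
    rw [mul_div_assoc', eq_div_iff hi₀', ← map_mul, ← map_mul]
    congr 1
    have h3 := hu g g.2
    have h4 : ∀ i j, (M.ρ l (g : Gal F) : Matrix (Fin 2) (Fin 2) ℤ_[l]).mulVec u i * u j =
        u i * (M.ρ l (g : Gal F) : Matrix (Fin 2) (Fin 2) ℤ_[l]).mulVec u j := by
      intro i j
      fin_cases i <;> fin_cases j
      · exact mul_comm _ _
      · exact (mul_comm _ _).trans h3.symm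
      · exact (mul_comm _ _).trans h3
      · exact mul_comm _ _
    exact h4 i i₀

end REC
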