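import Pool.Agent.Helper85.REC.Stmts12

/-!
# Reciprocity, part 12: motives with coefficients, the exact relation for subspaces
Proofs: /team-store/rec_blueprint12.md   [helper85]
-/

set_option autoImplicit false

open scoped Classical
open NumberField Polynomial

namespace REC

open Pool.Agent.Helper13.ZL (Pl q)
open MU

section

variable {F : Type} [Field F] [NumberField F] {S : Finset ℕ} {n w : ℕ} {h : Fin n → ℕ}

/-- The endomorphism `om` of `M` generates a field with minimal polynomial `R`, and `M` has rank `d`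
over this field; the traces of `om ^ i` times a Frobenius element are integers and independent
of `l`. -/
structure IsAct (M : Mot F S n w h) (R : ℤ[X]) (d : ℕ) (om : Matrix (Fin n) (Fin n) ℤ) : Prop where
  monic : R.Monic
  irr : Irreducible (R.map (Int.castRingHom ℚ))
  rank : n = d * R.natDegree
  root : aeval om R = 0
  comm : ∀ (l : ℕ) [Fact l.Prime] (g : Gal F),
    om.map (Int.castRingHom ℤ_[l]) * (M.ρ l g : Matrix (Fin n) (Fin n) ℤ_[l]) =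
      (M.ρ l g : Matrix (Fin n) (Fin n) ℤ_[l]) * om.map (Int.castRingHom ℤ_[l])
  trace : ∀ p : ℕ, p.Prime → p ∉ S → ∀ 𝔓 : Ideal (Zb F), Over p 𝔓 → ∀ (k : ℕ) (σ : Gal F), 1 ≤ k →
    CongPow 𝔓 (p ^ k) σ → ∀ i : ℕ, ∃ a : ℤ, ∀ (l : ℕ) [Fact l.Prime], l ≠ p →
      (om.map (Int.castRingHom ℤ_[l]) ^ i * (M.ρ l σ⁻¹ : Matrix (Fin n) (Fin n) ℤ_[l])).trace = a

/-- Motives with coefficients whose rational realizations are completely reducible and whose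
reductions are almost all absolutely irreducible over the coefficient ring: a stable subspace of an
eigenspace of `om` is `0` or of dimension `d`. -/
def Eat (M : Mot F S n w h) : Prop :=
  (∀ (l : ℕ) [Fact l.Prime], IsSS (rat (M.ρ l))) ∧
  ∃ (R : ℤ[X]) (d : ℕ) (om : Matrix (Fin n) (Fin n) ℤ), IsAct M R d om ∧
  ∃ c : ℕ, ∀ (l : ℕ) [Fact l.Prime], c < l → ∀ (k : Type) [Field k] (κ : ZMod l →+* k) (lam : k)
    (m : ℕ) (B : Matrix (Fin n) (Fin m) k) (A : Gal F → Matrix (Fin m) (Fin m) k),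
    IsSub (mapk κ (res (M.ρ l))) B A → om.map (Int.castRingHom k) * B = lam • B → m = 0 ∨ m = d

/-- Motives with coefficients and large image: for almost all `l` the image of the Galois group on
the eigenspaces of `om` in `ℚ_l ^ n` contains an open subgroup of `SL_d(ℚ_l)`. -/
def SLB (M : Mot F S n w h) : Prop :=
  (∀ (l : ℕ) [Fact l.Prime], IsSS (rat (M.ρ l))) ∧ FLT M ∧
  ∃ (R : ℤ[X]) (d : ℕ) (om : Matrix (Fin n) (Fin n) ℤ), IsAct M R d om ∧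
  ∃ c : ℕ, ∀ (l : ℕ) [Fact l.Prime], c < l → ∀ lam : ℚ_[l],
    eval₂ (Int.castRingHom ℚ_[l]) lam R = 0 →
    ∃ (B : Matrix (Fin n) (Fin d) ℚ_[l]) (A : Gal F → Matrix (Fin d) (Fin d) ℚ_[l]) (N : ℕ),
      IsSub (rat (M.ρ l)) B A ∧ om.map (Int.castRingHom ℚ_[l]) * B = lam • B ∧
      ∀ X : Matrix (Fin d) (Fin d) ℤ_[l], X.det = 1 →
        (∃ Y : Matrix (Fin d) (Fin d) ℤ_[l], X = 1 + (l : ℤ_[l]) ^ N • Y) →
        ∃ g : Gal F, A g = X.map (algebraMap ℤ_[l] ℚ_[l])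

/-- joint eigenvalues `(la b, al b)` of `om` and `g` (for all `l ≠ p`) -/
def Jev (M : Mot F S n w h) (R : ℤ[X]) (d : ℕ) (om : Matrix (Fin n) (Fin n) ℤ) (p : ℕ)
    (g : Gal F) (la al : Fin n → 𝓞 (AlgebraicClosure F)) : Prop :=
  (∀ b, aeval (la b) R = 0) ∧
  (∀ r : 𝓞 (AlgebraicClosure F), aeval r R = 0 → (Finset.univ.filter fun b => la b = r).card = d) ∧
  ∀ i s : ℕ, ∃ a : ℤ, ∑ b, la b ^ i * al b ^ s = a ∧ ∀ (l : ℕ) [Fact l.Prime], l ≠ p →
    (om.map (Int.castRingHom ℤ_[l]) ^ i * (M.ρ l g : Matrix (Fin n) (Fin n) ℤ_[l]) ^ s).trace = a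

end

/-- JEV: existence of joint eigenvalues. -/
def ST_JEV : Prop :=
  ∀ (F : Type) [Field F] [NumberField F] (S : Finset ℕ), (∀ p ∈ S, p.Prime) →
    ∀ (n w : ℕ) (h : Fin n → ℕ) (M : Mot F S n w h) (R : ℤ[X]) (d : ℕ)
      (om : Matrix (Fin n) (Fin n) ℤ), IsAct M R d om →
    ∀ p : ℕ, p.Prime → p ∉ S → ∀ 𝔓 : Ideal (Zb F), Over p 𝔓 → ∀ (k : ℕ) (σ : Gal F), 1 ≤ k →
      CongPow 𝔓 (p ^ k) σ → ∃ la al : Fin n → 𝓞 (AlgebraicClosure F), Jev M R d om p σ⁻¹ la al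

/-- JSB: the eigenvalues on a subspace. -/
def ST_JSB : Prop :=
  ∀ (k : Type) [Field k] [IsAlgClosed k] (n j : ℕ) (X Y : Matrix (Fin n) (Fin n) k)
    (la al : Fin n → k), (∀ i : ℕ, 0 < i → i ≤ n → (i : k) ≠ 0) → X * Y = Y * X →
    (∀ i s : ℕ, (X ^ i * Y ^ s).trace = ∑ b, la b ^ i * al b ^ s) →
    ∀ (lam : k) (B : Matrix (Fin n) (Fin j) k) (A : Matrix (Fin j) (Fin j) k)
      (C : Matrix (Fin j) (Fin n) k), C * B = 1 → X * B = lam • B → Y * B = B * A →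
      ∃ J : Finset (Fin n), J.card = j ∧ (∀ b ∈ J, la b = lam) ∧
        A.charpoly = ∏ b ∈ J, (Polynomial.X - Polynomial.C (al b))

section

variable {F : Type} [Field F] [NumberField F] {S : Finset ℕ} {n w : ℕ} {h : Fin n → ℕ}

/-- a stable subspace (columns of `B`) of the eigenspace of `om` modulo `l`; on inertia its
determinant `δ` is given by the exponents `e` -/
def WDat (M : Mot F S n w h) (om : Matrix (Fin n) (Fin n) ℤ) (j l : ℕ) [Fact l.Prime]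
    (e : (F →+* AlgebraicClosure F) → ℕ) (lam : 𝓞 (AlgebraicClosure F)) : Prop :=
  ∃ (k : Type) (_ : Field k) (_ : IsAlgClosed k) (κ : ZMod l →+* k)
    (ι : 𝓞 (AlgebraicClosure F) →+* k) (B : Matrix (Fin n) (Fin j) k)
    (A : Gal F → Matrix (Fin j) (Fin j) k) (δ : Gal F →* kˣ),
    IsSub (mapk κ (res (M.ρ l))) B A ∧ om.map (Int.castRingHom k) * B = ι lam • B ∧
    (∀ g, ((δ g : kˣ) : k) = (A g).det) ∧ IsOpen (δ.ker : Set (Gal F)) ∧
    (∀ v : Pl F, (l : 𝓞 F) ∉ v.asIdeal → Unr δ v) ∧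
    ∀ v : Pl F, (l : 𝓞 F) ∈ v.asIdeal → ∀ (π : 𝓞 F), π ∈ v.asIdeal → π ∉ v.asIdeal ^ 2 →
      ∀ 𝔓 : Ideal (Zb F), OverP v 𝔓 → ∀ σ : Gal F, CongPow 𝔓 1 σ → ∀ u : 𝓞 F, u ∉ v.asIdeal →
        Tm v 𝔓 π σ u → ((δ σ : kˣ) : k) * tmp ι v e u = 1

/-- The exact relation: if `(x) = v ^ m`, `x` totally positive, then the product of the
`τ x ^ (e τ)` is a product of `j` eigenvalues of the `m`-th power of the geometric Frobenius at
`v` on the eigenspace of `om` for `lam`. -/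
def RelJ (M : Mot F S n w h) (R : ℤ[X]) (d : ℕ) (om : Matrix (Fin n) (Fin n) ℤ) (j : ℕ)
    (e : (F →+* AlgebraicClosure F) → ℕ) (lam : 𝓞 (AlgebraicClosure F)) : Prop :=
  ∀ (v : Pl F) (p : ℕ) (𝔓 : Ideal (Zb F)) (a m : ℕ) (σ : Gal F) (x : 𝓞 F)
    (la al : Fin n → 𝓞 (AlgebraicClosure F)), p.Prime → p ∉ S → (p : 𝓞 F) ∈ v.asIdeal →
    OverP v 𝔓 → 0 < a → 0 < m → CongPow 𝔓 (q v ^ a) σ → TotPos (x : F) →
    Ideal.span {x} = v.asIdeal ^ m → Jev M R d om p (σ ^ m)⁻¹ la al →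
    ∃ J : Finset (Fin n), J.card = j ∧ (∀ b ∈ J, la b = lam) ∧
      ∏ b ∈ J, al b = ∏ τ : F →+* AlgebraicClosure F, RingOfIntegers.mapRingHom τ x ^ (e τ * a)

end

/-- WDT: the data of a stable subspace (from OVP; see FD2, DAT). -/
def ST_WDT : Prop :=
  ∀ (F : Type) [Field F] [NumberField F] (S : Finset ℕ), (∀ p ∈ S, p.Prime) →
    ∀ (n w : ℕ) (h : Fin n → ℕ) (M : Mot F S n w h) (R : ℤ[X]) (d : ℕ)
      (om : Matrix (Fin n) (Fin n) ℤ), IsAct M R d om → FLT M →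
    ∃ c : ℕ, ∀ (l : ℕ) [Fact l.Prime], c < l → ∀ (k : Type) [Field k] (κ : ZMod l →+* k) (μ : k)
      (m : ℕ) (B : Matrix (Fin n) (Fin m) k) (A : Gal F → Matrix (Fin m) (Fin m) k),
      IsSub (mapk κ (res (M.ρ l))) B A → om.map (Int.castRingHom k) * B = μ • B → m ≠ 0 →
      m ≤ d ∧ ∃ (e : (F →+* AlgebraicClosure F) → ℕ) (lam : 𝓞 (AlgebraicClosure F)),
        (∀ τ, ∃ J : Finset (Fin n), J.card = m ∧ e τ = ∑ i ∈ J, h i) ∧ aeval lam R = 0 ∧
        WDat M om m l e lam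

/-- RLJ: the exact relation from the data at infinitely many `l`
(from LART, EV, FRV, CNV, JSB; see REL3). -/
def ST_RLJ : Prop :=
  ∀ (F : Type) [Field F] [NumberField F] (S : Finset ℕ), (∀ p ∈ S, p.Prime) →
    ∀ (n w : ℕ) (h : Fin n → ℕ) (M : Mot F S n w h) (R : ℤ[X]) (d : ℕ)
      (om : Matrix (Fin n) (Fin n) ℤ), IsAct M R d om → ∀ (j : ℕ)
      (e : (F →+* AlgebraicClosure F) → ℕ) (lam : 𝓞 (AlgebraicClosure F)), aeval lam R = 0 →
      (∀ c : ℕ, ∃ (l : ℕ) (_ : Fact l.Prime), c < l ∧ WDat M om j l e lam) →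
      RelJ M R d om j e lam

/-- YFF: an element of the field with `l ^ d` elements. -/
def ST_YFF : Prop :=
  ∀ (d l : ℕ) [Fact l.Prime], 2 ≤ d → 2 ^ d < l →
    ∃ (y : Fin d → AlgebraicClosure (ZMod l)) (f : (ZMod l)[X]), f.Monic ∧ f.natDegree = d ∧
      f.coeff (d - 1) = 0 ∧ f.map (algebraMap (ZMod l) (AlgebraicClosure (ZMod l))) =
        ∏ i, (Polynomial.X - Polynomial.C (y i)) ∧
      ∀ J : Finset (Fin d), J.Nonempty → J ≠ Finset.univ → ∀ a : ZMod l,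
        ∑ i ∈ J, y i ≠ algebraMap (ZMod l) (AlgebraicClosure (ZMod l)) a

/-- SLD: an element of `SL_d(ℤ_l)` such that no product of `j` eigenvalues is in `ℚ_l`, for
`0 < j < d` (from YFF). -/
def ST_SLD : Prop :=
  ∀ (d l N m : ℕ) [Fact l.Prime], 2 ≤ d → 2 ^ d < l → ¬ l ∣ m → 1 ≤ N →
    ∃ C : Matrix (Fin d) (Fin d) ℤ_[l], (1 + (l : ℤ_[l]) ^ N • C).det = 1 ∧
      ∀ C' Y : Matrix (Fin d) (Fin d) ℤ_[l], C' = C + (l : ℤ_[l]) • Y →
        ∀ s : Multiset (AlgebraicClosure ℚ_[l]),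
          s ≤ ((((1 + (l : ℤ_[l]) ^ N • C') ^ m).map (algebraMap ℤ_[l] ℚ_[l])).charpoly.map
            (algebraMap ℚ_[l] (AlgebraicClosure ℚ_[l]))).roots → 0 < s.card → s.card < d →
          ∀ b : ℚ_[l], s.prod ≠ algebraMap ℚ_[l] (AlgebraicClosure ℚ_[l]) b

/-- SPR: primes which split (from SPQ). -/
def ST_SPR : Prop :=
  ∀ (F : Type) [Field F] [NumberField F] (lam : AlgebraicClosure F) (c : ℕ),
    ∃ (l : ℕ) (_ : Fact l.Prime) (φ : AlgebraicClosure F →+* AlgebraicClosure ℚ_[l]), c < l ∧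
      (∃ a : ℚ_[l], φ lam = algebraMap ℚ_[l] (AlgebraicClosure ℚ_[l]) a) ∧
      ∀ (τ : F →+* AlgebraicClosure F) (x : F),
        ∃ a : ℚ_[l], φ (τ x) = algebraMap ℚ_[l] (AlgebraicClosure ℚ_[l]) a

/-- SLE: large image implies residual irreducibility over the coefficient ring, for almost all `l`
(from WDT, RLJ, JEV, JSB, SLD, SPR, OVP, FRB). -/
def ST_SLE : Prop :=
  ∀ (F : Type) [Field F] [NumberField F] (S : Finset ℕ), (∀ p ∈ S, p.Prime) →
    ∀ (n w : ℕ) (h : Fin n → ℕ) (M : Mot F S n w h), SLB M → Eat M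

end REC
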