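import Pool.Agent.Helper85.REC.Stmts14
import Pool.Agent.Helper27.REC.WDT
import Pool.Agent.Helper61.REC.DATb
import Pool.Agent.Helper40.MU.Her

/-!
# REC, part 14, row BIG: large residual images in rank two
[helper85]
-/

set_option autoImplicit false

open scoped Classical
open NumberField Polynomial

namespace REC

open Pool.Agent.Helper13.ZL (Pl q)
open MU

namespace Big

theorem isSub_vec {G K : Type} [Group G] [Field K] (r : G →* Matrix (Fin 2) (Fin 2) K)
    (w : Fin 2 → K) (hw : w ≠ 0) (b : G → K) (h : ∀ g, (r g).mulVec w = b g • w) :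
    IsSub r (Matrix.of fun i (_ : Fin 1) => w i) (fun g => Matrix.of fun _ _ => b g) := by
  obtain ⟨i, hi⟩ := Function.ne_iff.1 hw
  refine ⟨⟨Matrix.of fun _ j => if j = i then (w i)⁻¹ else 0, ?_⟩, fun g => ?_⟩
  · ext a b
    rw [Matrix.mul_apply, Fin.sum_univ_two]
    have hi' : w i ≠ 0 := hi
    have ha : a = b := Subsingleton.elim _ _
    subst ha
    fin_cases i <;> simp_all
  · ext a c
    rw [Matrix.mul_apply, Matrix.mul_apply]
    have h1 := congrFun (h g) a
    rw [Matrix.mulVec, dotProduct] at h1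
    simpa [mul_comm] using h1

/-- no common eigenvector over an extension field -/
theorem big_line {G K k : Type} [Group G] [Field K] [Field k] (κ : K →+* k)
    (r : G →* Matrix (Fin 2) (Fin 2) K) (hirr : IsIrr r)
    (hcom : ∀ u : Matrix (Fin 2) (Fin 2) K, (∀ g, u * r g = r g * u) →
      ∃ a : K, u = a • (1 : Matrix (Fin 2) (Fin 2) K))
    (v : Fin 2 → k) (hv : v ≠ 0) (h : ∀ g, ∃ a : k, ((r g).map κ).mulVec v = a • v) : False := by
  -- no rational eigenvector
  have key : ∀ (w : Fin 2 → K), w ≠ 0 → ¬ ∀ g, ∃ b : K, (r g).mulVec w = b • w := by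
    intro w hw h1
    choose b hb using h1
    have h2 := hirr 1 _ _ (isSub_vec r w hw b hb)
    omega
  by_cases hd : ∃ x y : K, (x ≠ 0 ∨ y ≠ 0) ∧ κ x * v 0 + κ y * v 1 = 0
  · obtain ⟨x, y, hxy, h0⟩ := hd
    -- `v` is proportional to `(- y, x)`
    obtain ⟨μ, hμ0, hμ1⟩ : ∃ μ : k, v 0 = - μ * κ y ∧ v 1 = μ * κ x := by
      by_cases hx : x = 0
      · have hy : y ≠ 0 := by
          rcases hxy with h1 | h1
          · exact absurd hx h1
          · exact h1
        have hy' : κ y ≠ 0 := (map_ne_zero κ).2 hy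
        refine ⟨- v 0 / κ y, ?_, ?_⟩
        · field_simp
        · rw [hx, map_zero, zero_mul, zero_add] at h0
          rw [hx, map_zero, mul_zero]
          exact (mul_eq_zero.1 h0).resolve_left hy'
      · have hx' : κ x ≠ 0 := (map_ne_zero κ).2 hx
        refine ⟨v 1 / κ x, ?_, ?_⟩
        · field_simp
          linear_combination h0
        · field_simp
    have hμ : μ ≠ 0 := by
      rintro rfl
      apply hv
      funext i
      fin_cases i
      · simpa using hμ0
      · simpa using hμ1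
    refine key ![-y, x] ?_ ?_
    · intro h1
      have h2 := congrFun h1 0
      have h3 := congrFun h1 1
      simp at h2 h3
      rcases hxy with h4 | h4
      · exact h4 h3
      · exact h4 h2
    · intro g
      obtain ⟨a, ha⟩ := h g
      have e0 := congrFun ha 0
      have e1 := congrFun ha 1
      rw [Matrix.mulVec, dotProduct, Fin.sum_univ_two] at e0 e1
      simp only [Matrix.map_apply, Pi.smul_apply, smul_eq_mul, hμ0, hμ1] at e0 e1
      have f0 : κ (r g 0 0) * (- κ y) + κ (r g 0 1) * κ x = a * (- κ y) :=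
        mul_left_cancel₀ hμ (by linear_combination e0)
      have f1 : κ (r g 1 0) * (- κ y) + κ (r g 1 1) * κ x = a * κ x :=
        mul_left_cancel₀ hμ (by linear_combination e1)
      have hab : ∃ b : K, a = κ b := by
        by_cases hx : x = 0
        · have hy : y ≠ 0 := by
            rcases hxy with h1 | h1
            · exact absurd hx h1
            · exact h1
          have hy' : κ y ≠ 0 := (map_ne_zero κ).2 hy
          refine ⟨r g 0 0, ?_⟩
          rw [hx, map_zero, mul_zero, add_zero] at f0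
          exact (mul_right_cancel₀ (neg_ne_zero.2 hy') f0).symm
        · have hx' : κ x ≠ 0 := (map_ne_zero κ).2 hx
          refine ⟨(r g 1 0 * (-y) + r g 1 1 * x) / x, ?_⟩
          rw [map_div₀, map_add, map_mul, map_mul, map_neg, eq_div_iff hx', f1]
      obtain ⟨b, rfl⟩ := hab
      refine ⟨b, ?_⟩
      funext i
      apply κ.injective
      rw [Matrix.mulVec, dotProduct, Fin.sum_univ_two]
      fin_cases i
      · simpa using f0
      · simpa using f1
  · push Not at hd
    have hli : ∀ x y : K, κ x * v 0 + κ y * v 1 = 0 → x = 0 ∧ y = 0 := by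
      intro x y h0
      by_contra h1
      refine hd x y ?_ h0
      by_contra h2
      push Not at h2
      exact h1 h2
    have hc : ∀ g g', r g * r g' = r g' * r g := by
      intro g g'
      obtain ⟨a, ha⟩ := h g
      obtain ⟨a', ha'⟩ := h g'
      have h1 : ((r g * r g' - r g' * r g).map κ).mulVec v = 0 := by
        rw [Matrix.map_sub κ (map_sub κ), Matrix.map_mul, Matrix.map_mul, Matrix.sub_mulVec,
          ← Matrix.mulVec_mulVec, ← Matrix.mulVec_mulVec, ha, ha', Matrix.mulVec_smul,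
          Matrix.mulVec_smul, ha, ha', smul_smul, smul_smul, mul_comm a a', sub_self]
      have h2 : ∀ i j, (r g * r g' - r g' * r g) i j = 0 := by
        intro i j
        have h3 := congrFun h1 i
        rw [Matrix.mulVec, dotProduct, Fin.sum_univ_two] at h3
        obtain ⟨h4, h5⟩ := hli _ _ h3
        fin_cases j
        · exact h4
        · exact h5
      rw [← sub_eq_zero]
      ext i j
      exact h2 i j
    refine key ![1, 0] (fun h1 => one_ne_zero (congrFun h1 0)) fun g => ?_
    obtain ⟨a, ha⟩ := hcom (r g) (fun g' => hc g g')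
    refine ⟨a, ?_⟩
    rw [ha, Matrix.smul_mulVec, Matrix.one_mulVec]

/-- one prime `l` -/
theorem big_key (hSLG : ST_SLG) (hDKS : ST_DKS) (l : ℕ) [Fact l.Prime] {G : Type} [Group G]
    (r : G →* Matrix.GeneralLinearGroup (Fin 2) ℤ_[l]) (hirr : IsIrr (res r))
    (hcom : ∀ u : Matrix (Fin 2) (Fin 2) (ZMod l), (∀ g, u * res r g = res r g * u) →
      ∃ a : ZMod l, u = a • (1 : Matrix (Fin 2) (Fin 2) (ZMod l)))
    (H : Subgroup G) [H.Normal] (hH : H.index ≠ 0) (hl : H.index < l)
    (Y : Matrix (Fin 2) (Fin 2) (ZMod l)) (hY : Y.det = 1) (hYn : ∀ g ∈ H, res r g ≠ Y) :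
    (∃ C : Subgroup G, C.index = 2 ∧ (∀ g, g ∉ C → (res r g).trace = 0) ∧
      (∀ g, res r g = 1 → g ∈ C) ∧
      ∀ g ∈ C, ∀ g' ∈ C, res r g * res r g' = res r g' * res r g) ∨
    ∀ g, ∃ a : ZMod l, (res r g) ^ 120 = a • (1 : Matrix (Fin 2) (Fin 2) (ZMod l)) := by
  set fl : G →* Matrix.GeneralLinearGroup (Fin 2) (ZMod l) :=
    (Matrix.GeneralLinearGroup.map (PadicInt.toZMod (p := l))).comp r with hfl
  have hflv : ∀ g, ((fl g : Matrix.GeneralLinearGroup (Fin 2) (ZMod l)) :
      Matrix (Fin 2) (Fin 2) (ZMod l)) = res r g := fun g => rfl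
  have hcard : ¬ l ∣ Nat.card (H.map fl) := by
    intro hdvd
    obtain ⟨x, hx, hxY⟩ := hSLG l fl.range (H.map fl) (fun x hx => by
        obtain ⟨g, -, rfl⟩ := hx
        exact ⟨g, rfl⟩) (by
        rintro _ ⟨g, rfl⟩ _ ⟨x, hx, rfl⟩
        exact ⟨g * x * g⁻¹, ‹H.Normal›.conj_mem x hx g, by rw [map_mul, map_mul, map_inv]⟩) (by
        intro v hv
        by_contra h1
        push Not at h1
        have h2 : ∀ g, ∃ a : ZMod l, (res r g).mulVec v = a • v := fun g => by
          obtain ⟨a, ha⟩ := h1 (fl g) ⟨g, rfl⟩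
          exact ⟨a, ha⟩
        choose b hb using h2
        have h3 := hirr 1 _ _ (isSub_vec (res r) v hv b hb)
        omega) hdvd Y hY
    obtain ⟨g, hg, rfl⟩ := hx
    exact hYn g hg hxY
  have hcard' : ¬ l ∣ Nat.card fl.range := by
    intro hdvd
    obtain ⟨x, hx⟩ := exists_prime_orderOf_dvd_card' l hdvd
    obtain ⟨g, hg⟩ := x.2
    have h1 : orderOf (fl g) = l := by rw [hg, Subgroup.orderOf_coe, hx]
    have h2 : orderOf ((fl g) ^ H.index) = l := by
      rw [Nat.Coprime.orderOf_pow, h1]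
      rw [h1]
      exact Nat.coprime_of_lt_prime hH hl Fact.out
    have h3 : (fl g) ^ H.index ∈ H.map fl := by
      rw [← map_pow]
      exact ⟨_, H.pow_index_mem g, rfl⟩
    have h4 := Subgroup.orderOf_dvd_natCard _ h3
    rw [h2] at h4
    exact hcard h4
  set κ : ZMod l →+* AlgebraicClosure (ZMod l) := algebraMap _ _ with hκ
  set fk : G →* Matrix.GeneralLinearGroup (Fin 2) (AlgebraicClosure (ZMod l)) :=
    (Matrix.GeneralLinearGroup.map κ).comp fl with hfk
  have hfkv : ∀ g, ((fk g : Matrix.GeneralLinearGroup (Fin 2) (AlgebraicClosure (ZMod l))) :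
      Matrix (Fin 2) (Fin 2) (AlgebraicClosure (ZMod l))) = (res r g).map κ := fun g => rfl
  have hrange : fk.range = fl.range.map (Matrix.GeneralLinearGroup.map κ) := by
    rw [hfk, MonoidHom.range_comp]
  have hfin : Finite fk.range := by
    rw [hrange]
    have h1 : (fl.range : Set (Matrix.GeneralLinearGroup (Fin 2) (ZMod l))).Finite := Set.toFinite _
    exact (h1.image (Matrix.GeneralLinearGroup.map κ)).to_subtype
  have hck : ((Nat.card fk.range : ℕ) : AlgebraicClosure (ZMod l)) ≠ 0 := by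
    rw [Ne, CharP.cast_eq_zero_iff (AlgebraicClosure (ZMod l)) l]
    intro hdvd
    apply hcard'
    refine hdvd.trans ?_
    rw [hrange]
    exact Subgroup.card_map_dvd _ _
  rcases hDKS (AlgebraicClosure (ZMod l)) fk.range hfin hck with ⟨v, hv, h1⟩ | ⟨C, hC, hC2, hCc, hCt⟩
    | h1
  · exact (big_line κ (res r) hirr hcom v hv fun g => by
      obtain ⟨a, ha⟩ := h1 (fk g) ⟨g, rfl⟩
      exact ⟨a, ha⟩).elim
  · left
    refine ⟨C.comap fk, ?_, ?_, ?_, ?_⟩
    · rw [Subgroup.index_comap, hC2]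
    · intro g hg
      have h1 := hCt (fk g) ⟨g, rfl⟩ hg
      rw [hfkv] at h1
      apply κ.injective
      rw [map_zero, ← h1]
      exact (AddMonoidHom.map_trace κ.toAddMonoidHom (res r g))
    · intro g hg
      show fk g ∈ C
      have h1 : fk g = 1 := by
        apply Units.ext
        rw [hfkv, hg, Matrix.map_one _ (map_zero _) (map_one _)]
        rfl
      rw [h1]
      exact C.one_mem
    · intro g hg g' hg'
      have h1 := hCc (fk g) hg (fk g') hg'
      have h2 : ((res r g * res r g').map κ) = ((res r g' * res r g).map κ) := by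
        rw [Matrix.map_mul, Matrix.map_mul, ← hfkv, ← hfkv, ← Units.val_mul, ← Units.val_mul, h1]
      exact Matrix.map_injective κ.injective h2
  · right
    intro g
    obtain ⟨a, ha⟩ := h1 (fk g) ⟨g, rfl⟩
    rw [hfkv] at ha
    have h2 : ((res r g) ^ 120).map κ = a • (1 : Matrix (Fin 2) (Fin 2) _) := by
      rw [← ha]
      exact map_pow κ.mapMatrix (res r g) 120
    refine ⟨((res r g) ^ 120) 0 0, ?_⟩
    have h00 := congrFun (congrFun h2 0) 0
    have h01 := congrFun (congrFun h2 0) 1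
    have h10 := congrFun (congrFun h2 1) 0
    have h11 := congrFun (congrFun h2 1) 1
    simp only [Matrix.map_apply, Matrix.smul_apply, Matrix.one_apply, smul_eq_mul] at h00 h01 h10 h11
    norm_num at h00 h01 h10 h11
    ext i j
    fin_cases i <;> fin_cases j
    · simp
    · simpa using h01
    · simpa using h10
    · simp only [Matrix.smul_apply, Matrix.one_apply, smul_eq_mul]
      apply κ.injective
      simp [h00, h11]

section

variable {F : Type} [Field F] [NumberField F] {S : Finset ℕ} {w : ℕ} {h : Fin 2 → ℕ}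

/-- an open subgroup of index two contains the inertia groups away from `l` -/
theorem big_inr (M : Mot F S 2 w h) (l : ℕ) [Fact l.Prime] (hl : l ≠ 2) (C : Subgroup (Gal F))
    (hC : C.index = 2) (hC1 : ∀ g, res (M.ρ l) g = 1 → g ∈ C) (p : ℕ) (hp : p.Prime) (hpl : p ≠ l)
    (𝔓 : Ideal (Zb F)) (h𝔓 : Over p 𝔓) (σ : Gal F) (hσ : CongPow 𝔓 1 σ) : σ ∈ C := by
  have h1 := Pool.Agent.Helper27.REC.inr_unip' M two_ne_zero l p hp hpl 𝔓 h𝔓 σ hσ
  have hl2 : 2 ≤ l := (Fact.out : l.Prime).two_le
  have h2 : (res (M.ρ l) σ) ^ l = 1 := by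
    have h3 : res (M.ρ l) σ = 1 + (res (M.ρ l) σ - 1) := by abel
    have : CharP (Matrix (Fin 2) (Fin 2) (ZMod l)) l := inferInstance
    rw [h3, add_pow_char_of_commute l (Commute.one_left _), one_pow]
    have h4 : (res (M.ρ l) σ - 1) ^ l = 0 := pow_eq_zero_of_le hl2 h1
    rw [h4, add_zero]
  have h5 : σ ^ l ∈ C := hC1 _ (by rw [map_pow, h2])
  have h6 : σ ^ 2 ∈ C := Subgroup.sq_mem_of_index_two hC σ
  obtain ⟨m, hm⟩ := (Fact.out : l.Prime).odd_of_ne_two hl
  have h7 : σ = σ ^ l * ((σ ^ 2) ^ m)⁻¹ := by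
    rw [← pow_mul, hm, pow_succ', mul_assoc, mul_inv_cancel, mul_one]
  rw [h7]
  exact C.mul_mem h5 (C.inv_mem (C.pow_mem h6 m))

end

end Big

open Big

theorem st_BIG (hATC : ST_ATC) (hSLG : ST_SLG) (hDKS : ST_DKS) (hDIH : ST_DIH) (hNRB : ST_NRB)
    (hSC2 : ST_SC2) : ST_BIG := by
  intro F _ _ S hS w h M hinj hflc hss
  rcases hATC F S hS w h M hinj hflc hss with hpab | hatm
  · exact Or.inl hpab
  by_cases hpab : Pab M
  · exact Or.inl hpab
  right
  intro H hH
  by_contra hcon
  push Not at hcon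
  -- the normal core
  have hHf : H.FiniteIndex := by
    have := Subgroup.quotient_finite_of_isOpen H hH
    exact Subgroup.finiteIndex_of_finite_quotient
  have hH'n : H.normalCore.Normal := H.normalCore_normal
  have hH'i : H.normalCore.index ≠ 0 := Subgroup.FiniteIndex.index_ne_zero
  obtain ⟨ca, hca⟩ := hatm.2
  obtain ⟨cd, hcd⟩ := hDIH F S hS w h M hinj hflc
  obtain ⟨Y₀, hY₀n, hY₀o, hY₀⟩ := st_HER F ∅ (by simp) 2
  have key : ∀ c : ℕ, ∃ (l : ℕ) (_ : Fact l.Prime), c < l ∧
      ((∀ g ∈ Y₀, ∀ g' ∈ Y₀, res (M.ρ l) g * res (M.ρ l) g' = res (M.ρ l) g' * res (M.ρ l) g) ∨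
      ∀ g : Gal F, ∃ a : ZMod l,
        (res (M.ρ l) g) ^ 120 = a • (1 : Matrix (Fin 2) (Fin 2) (ZMod l))) := by
    intro c
    obtain ⟨l, hl, hcl, Y, hY, hYn⟩ := hcon (c + ca + cd + H.normalCore.index + 2)
    refine ⟨l, hl, by omega, ?_⟩
    rcases big_key hSLG hDKS l (M.ρ l) (hca l (by omega)).1 (hca l (by omega)).2 H.normalCore hH'i
      (by omega) Y hY (fun g hg => hYn g (H.normalCore_le hg)) with ⟨C, hC2, hCt, hC1, hCc⟩ | h1
    · left
      have hCo : IsOpen (C : Set (Gal F)) :=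
        Pool.Agent.Helper61.REC.open_of_res (M.continuous l) C hC1
      have h2 : Y₀ ≤ C := by
        refine hY₀ C (Subgroup.normal_of_index_eq_two hC2) (Subgroup.isClosed_of_isOpen C hCo)
          (by rw [hC2]; exact two_ne_zero) (by rw [hC2]) ?_
        intro p hp _ 𝔓 h𝔓 σ hσ
        by_cases hpl : p = l
        · subst hpl
          exact hcd p (by omega) C hC2 hCt 𝔓 h𝔓 σ hσ
        · exact big_inr M l (by omega) C hC2 hC1 p hp hpl 𝔓 h𝔓 σ hσ
      exact fun g hg g' hg' => hCc g (h2 hg) g' (h2 hg')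
    · exact Or.inr h1
  apply hpab
  by_cases hA : ∀ c : ℕ, ∃ (l : ℕ) (_ : Fact l.Prime), c < l ∧
      ∀ g ∈ Y₀, ∀ g' ∈ Y₀, res (M.ρ l) g * res (M.ρ l) g' = res (M.ρ l) g' * res (M.ρ l) g
  · exact hNRB F S hS w h M hatm Y₀ hY₀n hY₀o hA
  · push Not at hA
    obtain ⟨c₀, hc₀⟩ := hA
    refine hSC2 F S hS w h M hss 120 (by norm_num) fun c => ?_
    obtain ⟨l, hl, hcl, h1⟩ := key (c + c₀)
    refine ⟨l, hl, by omega, ?_⟩
    rcases h1 with h1 | h1
    · obtain ⟨g, hg, g', hg', h2⟩ := hc₀ l hl (by omega)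
      exact absurd (h1 g hg g' hg') h2
    · exact h1

end REC
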