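import Pool.Agent.Helper85.REC.BIG

/-!
# REC, part 14, row NRB: commutative residual representations on an open subgroup
[helper85]
-/

set_option autoImplicit false

open scoped Classical
open NumberField Polynomial

namespace REC

open Pool.Agent.Helper13.ZL (Pl q)
open MU

namespace Nrb

/-- the centralizer of a matrix of rank two which is not scalar -/
theorem cent2 {K : Type} [Field K] (x y : Matrix (Fin 2) (Fin 2) K) (h : x * y = y * x)
    (hx : x 0 1 ≠ 0 ∨ x 1 0 ≠ 0 ∨ x 0 0 ≠ x 1 1) :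
    ∃ α β : K, y = α • (1 : Matrix (Fin 2) (Fin 2) K) + β • x := by
  have e := fun i j => congrFun (congrFun h i) j
  simp only [Matrix.mul_apply, Fin.sum_univ_two] at e
  have e00 := e 0 0
  have e01 := e 0 1
  have e10 := e 1 0
  rcases hx with h1 | h1 | h1
  · refine ⟨y 0 0 - y 0 1 / x 0 1 * x 0 0, y 0 1 / x 0 1, ?_⟩
    ext i j
    fin_cases i <;> fin_cases j <;>
      simp only [Matrix.add_apply, Matrix.smul_apply, Matrix.one_apply, smul_eq_mul] <;>
      norm_num <;> field_simp <;>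
      first
        | ring1
        | linear_combination e00
        | linear_combination -e00
        | linear_combination e01
  · refine ⟨y 0 0 - y 1 0 / x 1 0 * x 0 0, y 1 0 / x 1 0, ?_⟩
    ext i j
    fin_cases i <;> fin_cases j <;>
      simp only [Matrix.add_apply, Matrix.smul_apply, Matrix.one_apply, smul_eq_mul] <;>
      norm_num <;> field_simp <;>
      first
        | ring1
        | linear_combination e00
        | linear_combination -e00
        | linear_combination e10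
        | linear_combination -e10
  · have h2 : x 0 0 - x 1 1 ≠ 0 := sub_ne_zero.2 h1
    refine ⟨y 0 0 - (y 0 0 - y 1 1) / (x 0 0 - x 1 1) * x 0 0,
      (y 0 0 - y 1 1) / (x 0 0 - x 1 1), ?_⟩
    ext i j
    fin_cases i <;> fin_cases j <;>
      simp only [Matrix.add_apply, Matrix.smul_apply, Matrix.one_apply, smul_eq_mul] <;>
      norm_num <;> field_simp <;>
      first
        | ring1
        | linear_combination e01
        | linear_combination -e01
        | linear_combination e10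
        | linear_combination -e10

theorem nsc_of {K : Type} [Field K] (x : Matrix (Fin 2) (Fin 2) K)
    (h : x.trace ^ 2 ≠ 4 * x.det) : x 0 1 ≠ 0 ∨ x 1 0 ≠ 0 ∨ x 0 0 ≠ x 1 1 := by
  by_contra h1
  push Not at h1
  obtain ⟨h2, h3, h4⟩ := h1
  apply h
  rw [Matrix.trace_fin_two, Matrix.det_fin_two, h2, h4]
  ring

theorem nrb_key {G K : Type} [Group G] [Field K] (h2 : (2 : K) ≠ 0)
    (r : G →* Matrix (Fin 2) (Fin 2) K)
    (hcom : ∀ u : Matrix (Fin 2) (Fin 2) K, (∀ g, u * r g = r g * u) →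
      ∃ a : K, u = a • (1 : Matrix (Fin 2) (Fin 2) K))
    (Y : Subgroup G) [Y.Normal] (hY : ∀ g ∈ Y, ∀ g' ∈ Y, r g * r g' = r g' * r g) :
    (∃ g₀, ∀ y ∈ Y, (r (g₀ * y)).trace = 0) ∨ ∀ y ∈ Y, (r y).trace ^ 2 = 4 * (r y).det := by
  by_cases hsc : ∀ y ∈ Y, (r y).trace ^ 2 = 4 * (r y).det
  · exact Or.inr hsc
  left
  push Not at hsc
  obtain ⟨y₀, hy₀, hd⟩ := hsc
  have hns := nsc_of _ hd
  -- some `g₀` does not commute with `y₀`
  obtain ⟨g₀, hg₀⟩ : ∃ g₀, r y₀ * r g₀ ≠ r g₀ * r y₀ := by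
    by_contra h1
    push Not at h1
    obtain ⟨a, ha⟩ := hcom _ h1
    apply hd
    rw [ha, Matrix.trace_fin_two, Matrix.det_fin_two]
    simp
    ring
  have hinv : ∀ g : G, r g * r g⁻¹ = 1 := fun g => by rw [← map_mul, mul_inv_cancel, map_one]
  have hinv' : ∀ g : G, r g⁻¹ * r g = 1 := fun g => by rw [← map_mul, inv_mul_cancel, map_one]
  have hc1 : r y₀ * r (g₀ * y₀ * g₀⁻¹) = r (g₀ * y₀ * g₀⁻¹) * r y₀ :=
    hY y₀ hy₀ _ (‹Y.Normal›.conj_mem y₀ hy₀ g₀)
  obtain ⟨α, β, hαβ⟩ := cent2 _ _ hc1 hns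
  -- trace and determinant
  have ht : (r (g₀ * y₀ * g₀⁻¹)).trace = (r y₀).trace := by
    rw [map_mul, map_mul, Matrix.trace_mul_comm, ← Matrix.mul_assoc, hinv', Matrix.one_mul]
  have hdt : (r (g₀ * y₀ * g₀⁻¹)).det = (r y₀).det := by
    have h3 : (r g₀).det * (r g₀⁻¹).det = 1 := by rw [← Matrix.det_mul, hinv, Matrix.det_one]
    rw [map_mul, map_mul, Matrix.det_mul, Matrix.det_mul]
    linear_combination (r y₀).det * h3
  have e1 : 2 * α + β * (r y₀).trace = (r y₀).trace := by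
    have h3 : (r (g₀ * y₀ * g₀⁻¹)).trace = 2 * α + β * (r y₀).trace := by
      rw [hαβ, Matrix.trace_add, Matrix.trace_smul, Matrix.trace_smul, Matrix.trace_one,
        Fintype.card_fin, smul_eq_mul, smul_eq_mul]
      push_cast
      ring
    rw [← h3, ht]
  have e2 : (β ^ 2 - 1) * ((r y₀).trace ^ 2 - 4 * (r y₀).det) = 0 := by
    have h3 : (r (g₀ * y₀ * g₀⁻¹)).trace ^ 2 - 4 * (r (g₀ * y₀ * g₀⁻¹)).det =
        β ^ 2 * ((r y₀).trace ^ 2 - 4 * (r y₀).det) := by
      rw [hαβ, Matrix.trace_fin_two, Matrix.trace_fin_two, Matrix.det_fin_two, Matrix.det_fin_two]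
      simp
      ring
    rw [ht, hdt] at h3
    linear_combination -h3
  have hβ : β ^ 2 = 1 := by
    have h3 := (mul_eq_zero.1 e2).resolve_right (sub_ne_zero.2 hd)
    exact sub_eq_zero.1 h3
  have hβ' : (β - 1) * (β + 1) = 0 := by linear_combination hβ
  rcases mul_eq_zero.1 hβ' with h3 | h3
  · exfalso
    have h4 : β = 1 := sub_eq_zero.1 h3
    subst h4
    have h5 : α = 0 := by
      have : 2 * α = 0 := by linear_combination e1
      exact (mul_eq_zero.1 this).resolve_left h2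
    rw [h5, zero_smul, zero_add, one_smul] at hαβ
    apply hg₀
    calc r y₀ * r g₀ = r (g₀ * y₀ * g₀⁻¹) * r g₀ := by rw [hαβ]
      _ = r g₀ * r y₀ := by
        rw [map_mul, map_mul, Matrix.mul_assoc, hinv', Matrix.mul_one]
  · have h4 : β = -1 := eq_neg_of_add_eq_zero_left h3
    subst h4
    have h5 : α = (r y₀).trace := by
      have : 2 * (α - (r y₀).trace) = 0 := by linear_combination e1
      exact sub_eq_zero.1 ((mul_eq_zero.1 this).resolve_left h2)
    refine ⟨g₀, fun y hy => ?_⟩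
    set z := r (g₀ * y) with hz
    have h6 : z * r y₀ = (r y₀).trace • z - r y₀ * z := by
      have h7 : z * r y₀ = r (g₀ * y₀ * g₀⁻¹) * z := by
        rw [hz, ← map_mul, ← map_mul]
        have h8 : g₀ * y₀ * g₀⁻¹ * (g₀ * y) = g₀ * (y₀ * y) := by group
        rw [h8, map_mul, map_mul, map_mul, map_mul, hY y₀ hy₀ y hy, Matrix.mul_assoc]
      rw [h7, hαβ, h5, Matrix.add_mul, Matrix.smul_mul, Matrix.one_mul, Matrix.smul_mul, neg_smul,
        one_smul, sub_eq_add_neg]
    have e := fun i j => congrFun (congrFun h6 i) j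
    simp only [Matrix.mul_apply, Fin.sum_univ_two, Matrix.sub_apply, Matrix.smul_apply,
      smul_eq_mul, Matrix.trace_fin_two] at e
    have e00 := e 0 0
    have e01 := e 0 1
    have e10 := e 1 0
    have e11 := e 1 1
    rw [Matrix.trace_fin_two]
    rcases hns with h7 | h7 | h7
    · have : r y₀ 0 1 * (z 0 0 + z 1 1) = 0 := by linear_combination e01
      exact (mul_eq_zero.1 this).resolve_left h7
    · have : r y₀ 1 0 * (z 0 0 + z 1 1) = 0 := by linear_combination e10
      exact (mul_eq_zero.1 this).resolve_left h7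
    · have : (r y₀ 0 0 - r y₀ 1 1) * (z 0 0 + z 1 1) = 0 := by linear_combination e00 - e11
      exact (mul_eq_zero.1 this).resolve_left (sub_ne_zero.2 h7)

/-- four matrices in a hyperplane -/
theorem comm_det {K : Type} [Field K] (x y w : Matrix (Fin 2) (Fin 2) K) (hw : w ≠ 0)
    (h0 : w.trace = 0) (h1 : (w * x).trace = 0) (h2 : (w * y).trace = 0)
    (h3 : (w * (x * y)).trace = 0) : (x * y - y * x).det = 0 := by
  obtain ⟨i, j, hij⟩ : ∃ i j, w i j ≠ 0 := by
    by_contra h4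
    push Not at h4
    exact hw (by ext i j; exact h4 i j)
  set P : Matrix (Fin 4) (Fin 4) K := !![1, 0, 0, 1; x 0 0, x 1 0, x 0 1, x 1 1;
    y 0 0, y 1 0, y 0 1, y 1 1;
    (x * y) 0 0, (x * y) 1 0, (x * y) 0 1, (x * y) 1 1] with hP
  have hPv : P.mulVec ![w 0 0, w 0 1, w 1 0, w 1 1] = 0 := by
    rw [Matrix.trace_fin_two] at h0 h1 h2 h3
    rw [Matrix.mul_apply, Matrix.mul_apply, Fin.sum_univ_two, Fin.sum_univ_two] at h1 h2 h3
    funext a
    fin_cases a <;> simp [hP, Matrix.mulVec, dotProduct, Fin.sum_univ_four] 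
    · linear_combination h0
    · linear_combination h1
    · linear_combination h2
    · simp only [Matrix.mul_apply, Fin.sum_univ_two] at h3 ⊢
      linear_combination h3
  have hdet : P.det = 0 := by
    by_contra h4
    have h5 := Matrix.eq_zero_of_mulVec_eq_zero h4 hPv
    apply hij
    have e0 := congrFun h5 0
    have e1 := congrFun h5 1
    have e2 := congrFun h5 2
    have e3 := congrFun h5 3
    simp at e0 e1 e2 e3
    fin_cases i <;> fin_cases j <;> assumption
  have h6 : (x * y - y * x).det = P.det ∨ (x * y - y * x).det = - P.det := by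
    right
    rw [hP, Matrix.det_fin_two]
    simp only [Matrix.sub_apply, Matrix.mul_apply, Fin.sum_univ_two]
    simp [Matrix.det_succ_row_zero, Fin.sum_univ_succ, Fin.succAbove]
    ring
  rcases h6 with h6 | h6 <;> rw [h6, hdet]
  exact neg_zero

theorem nrb_comm {G K : Type} [Group G] [Field K] (r : G →* Matrix (Fin 2) (Fin 2) K)
    (Y : Subgroup G) (hss : IsSS (r.comp Y.subtype)) (w : Matrix (Fin 2) (Fin 2) K) (hw : w ≠ 0)
    (ht : ∀ y ∈ Y, (w * r y).trace = 0) : ∀ g ∈ Y, ∀ g' ∈ Y, r g * r g' = r g' * r g := by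
  intro g hg g' hg'
  by_contra hne
  set x := r g with hx
  set y := r g' with hy
  set n := x * y - y * x with hn
  have hn0 : n ≠ 0 := sub_ne_zero.2 hne
  have hw0 : w.trace = 0 := by
    have := ht 1 Y.one_mem
    rwa [map_one, Matrix.mul_one] at this
  have hxy : (w * (x * y)).trace = 0 := by
    have := ht (g * g') (Y.mul_mem hg hg')
    rwa [map_mul] at this
  have hyx : (w * (y * x)).trace = 0 := by
    have := ht (g' * g) (Y.mul_mem hg' hg)
    rwa [map_mul] at this
  have hdet : n.det = 0 := comm_det x y w hw hw0 (ht g hg) (ht g' hg') hxy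
  have htr : n.trace = 0 := by
    rw [hn, Matrix.trace_sub, Matrix.trace_mul_comm, sub_self]
  have hwn : (w * n).trace = 0 := by
    rw [hn, Matrix.mul_sub, Matrix.trace_sub, hxy, hyx, sub_self]
  rw [Matrix.det_fin_two] at hdet
  rw [Matrix.trace_fin_two] at htr
  have hn11 : n 1 1 = - n 0 0 := by linear_combination htr
  rw [hn11] at hdet
  -- a nonzero column
  obtain ⟨i, j, hij⟩ : ∃ i j, n i j ≠ 0 := by
    by_contra h4
    push Not at h4
    exact hn0 (by ext i j; exact h4 i j)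
  set u : Fin 2 → K := fun i => n i j with hu
  have hu0 : u ≠ 0 := fun h => hij (congrFun h i)
  -- it is stable
  have hst : ∀ s : Y, ∃ a : K, ((r.comp Y.subtype) s).mulVec u = a • u := by
    intro s
    set z := r (s : G) with hz
    have h1 : (w * (n * z)).trace = 0 := by
      have e1 := ht (g * g' * s) (Y.mul_mem (Y.mul_mem hg hg') s.2)
      have e2 := ht (g' * g * s) (Y.mul_mem (Y.mul_mem hg' hg) s.2)
      rw [map_mul, map_mul] at e1 e2
      rw [hn, Matrix.sub_mul, Matrix.mul_sub, Matrix.trace_sub, e1, e2, sub_self]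
    have h2 := comm_det n z w hw hw0 hwn (ht s s.2) h1
    have h3 : (n * z).trace = 0 := by
      have h4 : (n * z - z * n).det + (n * z).trace ^ 2 =
          - (n 0 0 * (- n 0 0) - n 0 1 * n 1 0) * ((z 0 0 - z 1 1) ^ 2 + 4 * z 0 1 * z 1 0) := by
        rw [Matrix.det_fin_two, Matrix.trace_fin_two]
        simp only [Matrix.sub_apply, Matrix.mul_apply, Fin.sum_univ_two]
        rw [hn11]
        ring
      rw [h2, hdet, neg_zero, zero_mul, zero_add] at h4
      exact pow_eq_zero_iff two_ne_zero |>.1 h4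
    rw [Matrix.trace_fin_two] at h3
    simp only [Matrix.mul_apply, Fin.sum_univ_two] at h3
    rw [hn11] at h3
    have hcross : (z.mulVec u) 0 * u 1 - (z.mulVec u) 1 * u 0 = 0 := by
      simp only [Matrix.mulVec, dotProduct, Fin.sum_univ_two, hu]
      fin_cases j
      · simp only [Fin.zero_eta, Fin.isValue]
        linear_combination (n 1 0) * h3 + (z 1 0) * hdet
      · simp only [Fin.mk_one, Fin.isValue]
        rw [hn11]
        linear_combination - (n 0 1) * h3 - (z 0 1) * hdet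
    show ∃ a : K, z.mulVec u = a • u
    by_cases hu' : u 0 = 0
    · have hu1 : u 1 ≠ 0 := by
        intro h5
        apply hu0
        funext a
        fin_cases a
        · exact hu'
        · exact h5
      refine ⟨(z.mulVec u) 1 / u 1, ?_⟩
      funext a
      fin_cases a
      · simp only [Fin.zero_eta, Pi.smul_apply, smul_eq_mul, hu', mul_zero]
        rw [hu', mul_zero, sub_zero] at hcross
        exact (mul_eq_zero.1 hcross).resolve_right hu1
      · simp only [Fin.mk_one, Pi.smul_apply, smul_eq_mul]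
        field_simp
    · refine ⟨(z.mulVec u) 0 / u 0, ?_⟩
      funext a
      fin_cases a
      · simp only [Fin.zero_eta, Pi.smul_apply, smul_eq_mul]
        field_simp
      · simp only [Fin.mk_one, Pi.smul_apply, smul_eq_mul]
        rw [div_mul_eq_mul_div, eq_div_iff hu']
        linear_combination -hcross
  choose a ha using hst
  obtain ⟨C, hCB, hC⟩ := hss 1 _ _ (Big.isSub_vec (r.comp Y.subtype) u hu0 a ha)
  have hCn : C * n = 0 := by
    obtain ⟨A₁, hA₁⟩ : ∃ A₁ : Matrix (Fin 1) (Fin 1) K, A₁ = Matrix.of fun _ _ => a ⟨g, hg⟩ :=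
      ⟨_, rfl⟩
    obtain ⟨A₂, hA₂⟩ : ∃ A₂ : Matrix (Fin 1) (Fin 1) K, A₂ = Matrix.of fun _ _ => a ⟨g', hg'⟩ :=
      ⟨_, rfl⟩
    have e1 : C * x = A₁ * C := by
      rw [hA₁]
      exact hC ⟨g, hg⟩
    have e2 : C * y = A₂ * C := by
      rw [hA₂]
      exact hC ⟨g', hg'⟩
    have e3 : A₁ * A₂ = A₂ * A₁ := by
      ext b c
      simp [Matrix.mul_apply, hA₁, hA₂, mul_comm]
    rw [hn, Matrix.mul_sub, ← Matrix.mul_assoc, ← Matrix.mul_assoc, e1, e2, Matrix.mul_assoc,
      Matrix.mul_assoc, e1, e2, ← Matrix.mul_assoc, ← Matrix.mul_assoc, e3, sub_self]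
  have h5 := congrFun (congrFun hCB 0) 0
  have h6 := congrFun (congrFun hCn 0) j
  rw [Matrix.mul_apply] at h5 h6
  rw [Matrix.one_apply_eq] at h5
  exact one_ne_zero (h5.symm.trans h6)

/-- irreducible representations are completely reducible -/
theorem isSS_irr {G K : Type} [Group G] [Field K] {n : ℕ} (r : G →* Matrix (Fin n) (Fin n) K)
    (h : IsIrr r) : IsSS r := by
  intro m B A hBA
  rcases h m B A hBA with h0 | h0
  · subst h0
    refine ⟨0, Subsingleton.elim _ _, fun g => ?_⟩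
    ext i
    exact i.elim0
  · subst h0
    obtain ⟨⟨C, hC⟩, hA⟩ := hBA
    have hC' : B * C = 1 := mul_eq_one_comm.mp hC
    refine ⟨C, hC, fun g => ?_⟩
    calc C * r g = C * (r g * B) * C := by
          rw [Matrix.mul_assoc, Matrix.mul_assoc, hC', Matrix.mul_one]
      _ = A g * C := by rw [hA, ← Matrix.mul_assoc, hC, Matrix.one_mul]

end Nrb

open Nrb

theorem st_NRB (hTRM : ST_TRM) (hSCA : ST_SCA) (hCLF : ST_CLF) : ST_NRB := by
  intro F _ _ S hS w h M hatm Y hYn hYo hY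
  have hQ1 : ∀ {R : Type} [CommRing R] [Nontrivial R] (X : Matrix (Fin 2) (Fin 2) R),
      MvPolynomial.aeval (fun i => X.charpoly.coeff i) (MvPolynomial.X 1 : MvPolynomial ℕ ℤ) =
        - X.trace := by
    intro R _ _ X
    rw [MvPolynomial.aeval_X, Matrix.charpoly_fin_two]
    simp [coeff_C]
  have hQ2 : ∀ {R : Type} [CommRing R] [Nontrivial R] (X : Matrix (Fin 2) (Fin 2) R),
      MvPolynomial.aeval (fun i => X.charpoly.coeff i)
        (MvPolynomial.X 1 ^ 2 - 4 * MvPolynomial.X 0 : MvPolynomial ℕ ℤ) =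
        X.trace ^ 2 - 4 * X.det := by
    intro R _ _ X
    rw [map_sub, map_pow, map_mul, MvPolynomial.aeval_X, MvPolynomial.aeval_X,
      Matrix.charpoly_fin_two]
    simp [coeff_C]
  have hfin : Finite (Gal F ⧸ Y) := Subgroup.quotient_finite_of_isOpen Y hYo
  obtain ⟨ca, hca⟩ := hatm.2
  have hss : ∀ (l : ℕ) [Fact l.Prime], IsSS (rat (M.ρ l)) := fun l _ => isSS_irr _ (hatm.1 l)
  -- the two cases
  have key : ∀ c : ℕ, ∃ (l : ℕ) (_ : Fact l.Prime), c < l ∧
      ((∃ q : Gal F ⧸ Y, ∀ g : Gal F, (g : Gal F ⧸ Y) = q → (res (M.ρ l) g).trace = 0) ∨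
      ∀ y ∈ Y, (res (M.ρ l) y).trace ^ 2 = 4 * (res (M.ρ l) y).det) := by
    intro c
    obtain ⟨l, hl, hcl, hc⟩ := hY (c + ca + 2)
    refine ⟨l, hl, by omega, ?_⟩
    have h2 : (2 : ZMod l) ≠ 0 := by
      intro h3
      have h4 : ((2 : ℕ) : ZMod l) = 0 := by exact_mod_cast h3
      rw [ZMod.natCast_eq_zero_iff] at h4
      have := Nat.le_of_dvd (by norm_num) h4
      omega
    rcases nrb_key h2 (res (M.ρ l)) (hca l (by omega)).2 Y hc with ⟨g₀, hg₀⟩ | h1
    · left
      refine ⟨(g₀ : Gal F ⧸ Y), fun g hg => ?_⟩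
      have h3 : g₀⁻¹ * g ∈ Y := QuotientGroup.eq.1 hg.symm
      have h4 := hg₀ _ h3
      rwa [mul_inv_cancel_left] at h4
    · exact Or.inr h1
  refine ⟨hss, Y, hYo, ?_⟩
  intro l _ g hg g' hg'
  have hin : Function.Injective (algebraMap ℤ_[l] ℚ_[l]) := FaithfulSMul.algebraMap_injective _ _
  have hrss : IsSS ((rat (M.ρ l)).comp Y.subtype) := by
    refine hCLF (Gal F) Y ℚ_[l] Y.subtype 2 (rat (M.ρ l)) ?_ (hss l)
    rw [Subgroup.range_subtype]
    exact hYn
  have hfinal : rat (M.ρ l) g * rat (M.ρ l) g' = rat (M.ρ l) g' * rat (M.ρ l) g → M.ρ l g * M.ρ l g' =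
      M.ρ l g' * M.ρ l g := by
    intro h1
    apply Units.ext
    apply Matrix.map_injective hin
    rw [← map_mul, ← map_mul] at h1
    rw [← map_mul, ← map_mul]
    exact h1
  apply hfinal
  by_cases hA : ∃ q : Gal F ⧸ Y, ∀ c : ℕ, ∃ (l : ℕ) (_ : Fact l.Prime), c < l ∧
      ∀ g : Gal F, (g : Gal F ⧸ Y) = q → (res (M.ρ l) g).trace = 0
  · obtain ⟨q, hq⟩ := hA
    obtain ⟨g₀, rfl⟩ := QuotientGroup.mk_surjective q
    have hUo : IsOpen {g : Gal F | (g : Gal F ⧸ Y) = (g₀ : Gal F ⧸ Y)} := by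
      have h1 : {g : Gal F | (g : Gal F ⧸ Y) = (g₀ : Gal F ⧸ Y)} =
          (fun g => g₀⁻¹ * g) ⁻¹' (Y : Set (Gal F)) := by
        ext g
        show ((g : Gal F ⧸ Y) = (g₀ : Gal F ⧸ Y)) ↔ g₀⁻¹ * g ∈ Y
        rw [eq_comm, QuotientGroup.eq]
      rw [h1]
      exact hYo.preimage (continuous_const.mul continuous_id)
    have h2 := hTRM F S hS 2 w h M _ hUo (MvPolynomial.X 1) (fun c => by
      obtain ⟨l, hl, hcl, h3⟩ := hq c
      refine ⟨l, hl, hcl, fun σ hσ => ?_⟩
      rw [hQ1, h3 σ hσ, neg_zero]) l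
    refine nrb_comm (rat (M.ρ l)) Y hrss (rat (M.ρ l) g₀) ?_ ?_ g hg g' hg'
    · intro h3
      have h4 : rat (M.ρ l) g₀ * rat (M.ρ l) g₀⁻¹ = 1 := by rw [← map_mul, mul_inv_cancel, map_one]
      rw [h3, Matrix.zero_mul] at h4
      exact zero_ne_one h4
    · intro y hy
      have h3 : (g₀ * y : Gal F) ∈ {g : Gal F | (g : Gal F ⧸ Y) = (g₀ : Gal F ⧸ Y)} := by
        show ((g₀ * y : Gal F) : Gal F ⧸ Y) = (g₀ : Gal F ⧸ Y)
        rw [eq_comm, QuotientGroup.eq, inv_mul_cancel_left]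
        exact hy
      have h4 := h2 _ h3
      rw [hQ1, neg_eq_zero] at h4
      rw [← map_mul]
      have h5 : (rat (M.ρ l) (g₀ * y)).trace = algebraMap ℤ_[l] ℚ_[l]
          (((M.ρ l (g₀ * y) : Matrix.GeneralLinearGroup (Fin 2) ℤ_[l]) :
            Matrix (Fin 2) (Fin 2) ℤ_[l]).trace) :=
        (AddMonoidHom.map_trace (algebraMap ℤ_[l] ℚ_[l]).toAddMonoidHom _).symm
      rw [h5, h4, map_zero]
  · push Not at hA
    choose cq hcq using hA
    have hB : ∀ c : ℕ, ∃ (l : ℕ) (_ : Fact l.Prime), c < l ∧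
        ∀ y ∈ Y, (res (M.ρ l) y).trace ^ 2 = 4 * (res (M.ρ l) y).det := by
      intro c
      have : Fintype (Gal F ⧸ Y) := Fintype.ofFinite _
      obtain ⟨l, hl, hcl, h1⟩ := key (c + ∑ q, cq q)
      refine ⟨l, hl, by omega, ?_⟩
      rcases h1 with ⟨q, hq⟩ | h1
      · exfalso
        have h2 : cq q ≤ ∑ q, cq q :=
          Finset.single_le_sum (f := cq) (fun _ _ => Nat.zero_le _) (Finset.mem_univ q)
        obtain ⟨g, hg, h3⟩ := hcq q l hl (by omega)
        exact h3 (hq g hg)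
      · exact h1
    have h2 := hTRM F S hS 2 w h M _ hYo (MvPolynomial.X 1 ^ 2 - 4 * MvPolynomial.X 0) (fun c => by
      obtain ⟨l, hl, hcl, h3⟩ := hB c
      refine ⟨l, hl, hcl, fun σ hσ => ?_⟩
      rw [hQ2, h3 σ hσ, sub_self]) l
    have h3 := hSCA Y ℚ_[l] ((rat (M.ρ l)).comp Y.subtype) hrss (by
      intro y
      have h4 := h2 _ y.2
      rw [hQ2, sub_eq_zero] at h4
      have h5 : (((rat (M.ρ l)).comp Y.subtype) y).trace = algebraMap ℤ_[l] ℚ_[l]
          (((M.ρ l y : Matrix.GeneralLinearGroup (Fin 2) ℤ_[l]) :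
            Matrix (Fin 2) (Fin 2) ℤ_[l]).trace) :=
        (AddMonoidHom.map_trace (algebraMap ℤ_[l] ℚ_[l]).toAddMonoidHom _).symm
      have h6 : (((rat (M.ρ l)).comp Y.subtype) y).det = algebraMap ℤ_[l] ℚ_[l]
          (((M.ρ l y : Matrix.GeneralLinearGroup (Fin 2) ℤ_[l]) :
            Matrix (Fin 2) (Fin 2) ℤ_[l]).det) :=
        (RingHom.map_det (algebraMap ℤ_[l] ℚ_[l]) _).symm
      rw [h5, h6, ← map_pow, h4, map_mul, map_ofNat])
    obtain ⟨a, ha⟩ := h3 ⟨g, hg⟩
    have ha' : rat (M.ρ l) g = a • (1 : Matrix (Fin 2) (Fin 2) ℚ_[l]) := ha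
    rw [ha', Matrix.smul_mul, Matrix.one_mul, Matrix.mul_smul, Matrix.mul_one]

end REC
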