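import Pool.Agent.Helper85.REC.Stmts14

/-!
# REC, part 14, rows TRG and TNF: reductions in the tensor category
[helper85]
-/

set_option autoImplicit false

open scoped Classical
open NumberField Polynomial

namespace REC

open Pool.Agent.Helper13.ZL (Pl q)
open MU

namespace Trg

/-- the sum of the denominators -/
def densx {ι ι' : Type} [Fintype ι] [Fintype ι'] (A : Matrix ι ι' ℚ) : ℕ := ∑ i, ∑ j, (A i j).den

theorem map_inj_padicx {l : ℕ} {ι ι' : Type} [Fact l.Prime] {A B : Matrix ι ι' ℤ_[l]}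
    (h : A.map (algebraMap ℤ_[l] ℚ_[l]) = B.map (algebraMap ℤ_[l] ℚ_[l])) : A = B :=
  Matrix.map_injective (IsFractionRing.injective ℤ_[l] ℚ_[l]) h

theorem one_dec {ι R : Type} [Fintype ι] [CommRing R] (d d' : DecidableEq ι) :
    (@OfNat.ofNat (Matrix ι ι R) 1 (@One.toOfNat1 _ (@Matrix.one ι R d _ _))) =
      (@OfNat.ofNat (Matrix ι ι R) 1 (@One.toOfNat1 _ (@Matrix.one ι R d' _ _))) := by
  have h : d = d' := Subsingleton.elim d d'
  rw [h]

theorem exists_liftx {l : ℕ} {ι ι' : Type} [Fintype ι] [Fintype ι'] [Fact l.Prime]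
    (A : Matrix ι ι' ℚ) (h : densx A < l) : ∃ A' : Matrix ι ι' ℤ_[l],
      A'.map (algebraMap ℤ_[l] ℚ_[l]) = A.map (algebraMap ℚ ℚ_[l]) := by
  have h1 : ∀ i j, ‖((A i j : ℚ) : ℚ_[l])‖ ≤ 1 := by
    intro i j
    apply Padic.norm_rat_le_one
    intro h2
    have h3 := Nat.le_of_dvd (A i j).den_pos h2
    have h4 : (A i j).den ≤ ∑ j, (A i j).den :=
      Finset.single_le_sum (f := fun j => (A i j).den) (fun _ _ => Nat.zero_le _)
        (Finset.mem_univ j)
    have h5 : ∑ j, (A i j).den ≤ densx A :=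
      Finset.single_le_sum (f := fun i => ∑ j, (A i j).den) (fun _ _ => Nat.zero_le _)
        (Finset.mem_univ i)
    omega
  refine ⟨Matrix.of fun i j => ⟨((A i j : ℚ) : ℚ_[l]), h1 i j⟩, ?_⟩
  ext i j
  simp [Matrix.map_apply]

section

variable {F : Type} [Field F] [NumberField F] {m l : ℕ} [Fact l.Prime]

theorem twc_mul (B : Gal F →* Matrix.GeneralLinearGroup (Fin m) ℤ_[l]) (a : ℤ) (g g' : Gal F) :
    twc B a (g * g') = twc B a g * twc B a g' := by
  unfold twc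
  rw [map_mul, map_mul, mul_zpow, Units.val_mul, Units.val_mul, Matrix.smul_mul, Matrix.mul_smul,
    smul_smul]

theorem twc_one (B : Gal F →* Matrix.GeneralLinearGroup (Fin m) ℤ_[l]) (a : ℤ) :
    twc B a 1 = 1 := by
  unfold twc
  rw [map_one, map_one, one_zpow, Units.val_one, Units.val_one, one_smul]

/-- the twist as a homomorphism -/
noncomputable def twg (B : Gal F →* Matrix.GeneralLinearGroup (Fin m) ℤ_[l]) (a : ℤ) :
    Gal F →* Matrix.GeneralLinearGroup (Fin m) ℤ_[l] :=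
  MonoidHom.toHomUnits
    { toFun := fun g => twc B a g
      map_one' := twc_one B a
      map_mul' := fun g g' => twc_mul B a g g' }

theorem twg_val (B : Gal F →* Matrix.GeneralLinearGroup (Fin m) ℤ_[l]) (a : ℤ) (g : Gal F) :
    ((twg B a g : Matrix.GeneralLinearGroup (Fin m) ℤ_[l]) : Matrix (Fin m) (Fin m) ℤ_[l]) =
      twc B a g := rfl

theorem twg_comm (B : Gal F →* Matrix.GeneralLinearGroup (Fin m) ℤ_[l]) (a : ℤ) (g g' : Gal F)
    (h : B g * B g' = B g' * B g) : twg B a g * twg B a g' = twg B a g' * twg B a g := by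
  apply Units.ext
  have h1 : (B g : Matrix (Fin m) (Fin m) ℤ_[l]) * (B g' : Matrix (Fin m) (Fin m) ℤ_[l]) =
      (B g' : Matrix (Fin m) (Fin m) ℤ_[l]) * (B g : Matrix (Fin m) (Fin m) ℤ_[l]) := by
    rw [← Units.val_mul, ← Units.val_mul, h]
  rw [Units.val_mul, Units.val_mul, twg_val, twg_val]
  unfold twc
  rw [Matrix.smul_mul, Matrix.mul_smul, Matrix.smul_mul, Matrix.mul_smul, smul_smul, smul_smul, h1,
    mul_comm (((cyc l F g ^ a : ℤ_[l]ˣ) : ℤ_[l]))]

end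

end Trg

open Trg

theorem st_TRG (hBIG : ST_BIG) (hJNT : ST_JNT) (hTLH : ST_TLH) (hPPT : ST_PPT) (hSUY : ST_SUY)
    (hSYF : ST_SYF) (hAVS : ST_AVS) (hAVL : ST_AVL) (hSSL : ST_SSL) (hIXB : ST_IXB) : ST_TRG := by
  intro F _ _ S hS n w h M hMss hM
  refine ⟨hMss, ?_⟩
  obtain ⟨K, _, _, _, j, r, t, S₂, w₂, h₂, N, k, c, m, S₁, w₁, h₁, B, e, P, Q, hbc, hS₂, hS₁, hN,
    hunr, hpab, hPQ, hPQ0, hQP, hP⟩ := hM
  -- the open subgroup
  choose Ha hHao hHac using fun a => (hpab a).2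
  set H : Subgroup (Gal K) := ⨅ a, Ha a with hH
  have hHo : IsOpen (H : Set (Gal K)) := by
    rw [hH, Subgroup.coe_iInf]
    exact isOpen_iInter_of_finite fun a => hHao a
  have hHle : ∀ a, H ≤ Ha a := fun a => iInf_le _ a
  have hcomm : ∀ a (l : ℕ) [Fact l.Prime], ∀ g ∈ H, ∀ g' ∈ H,
      (B a).ρ l g * (B a).ρ l g' = (B a).ρ l g' * (B a).ρ l g := fun a l _ g hg g' hg' =>
    hHac a l g (hHle a hg) g' (hHle a hg')
  have hSL : ∀ i, SL2M (N i) := by
    intro i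
    rcases hBIG K (S₂ i) (hS₂ i) (w₂ i) (h₂ i) (N i) (hN i).1 (hN i).2.1 (hN i).2.2.2 with h1 | h1
    · exact absurd h1 (hN i).2.2.1
    · exact h1
  obtain ⟨cJ, hJ⟩ := hJNT K t S₂ w₂ h₂ N hS₂ hSL hunr H hHo
  choose cT hT using fun a b => hPPT K (S₁ a) (S₁ b) (hS₁ a) (hS₁ b) (m a) (m b) (w₁ a) (w₁ b)
    (h₁ a) (h₁ b) (B a) (B b) (hpab a) (hpab b) (e a) (e b) H hHo (hcomm a) (hcomm b)
  -- the index
  obtain ⟨hro, hridx⟩ := hIXB F K j r hbc
  set φ : H →* Gal F := r.comp H.subtype with hφ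
  have hφidx : φ.range.index ≠ 0 := by
    have h1 : φ.range = H.map r := by
      rw [hφ, MonoidHom.range_comp, Subgroup.range_subtype]
    rw [h1, Subgroup.index_map]
    refine mul_ne_zero ?_ hridx
    have h2 : H.index ≠ 0 := by
      have : Finite (Gal K ⧸ H) := Subgroup.quotient_finite_of_isOpen H hHo
      have : H.FiniteIndex := Subgroup.finiteIndex_of_finite_quotient
      exact Subgroup.FiniteIndex.index_ne_zero
    intro h3
    exact h2 (Nat.eq_zero_of_zero_dvd (h3 ▸ Subgroup.index_dvd_of_le le_sup_left))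
  refine ⟨(∑ a, densx (P a)) + (∑ a, densx (Q a)) + (∑ a, ∑ b, cT a b) + (∑ a, ∑ i, c a i) + cJ +
    φ.range.index, ?_⟩
  intro l hl hlt
  have hle : ∀ (f : Fin k → ℕ) (a : Fin k), f a ≤ ∑ a, f a := fun f a =>
    Finset.single_le_sum (f := f) (fun _ _ => Nat.zero_le _) (Finset.mem_univ a)
  have hlP : ∀ a, densx (P a) < l := fun a => by
    have := hle (fun a => densx (P a)) a
    omega
  have hlQ : ∀ a, densx (Q a) < l := fun a => by
    have := hle (fun a => densx (Q a)) a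
    omega
  have hlT : ∀ a b, cT a b < l := fun a b => by
    have h1 := hle (fun a => ∑ b, cT a b) a
    have h2 := hle (fun b => cT a b) b
    omega
  have hlc : ∀ a i, c a i < l := fun a i => by
    have h1 := hle (fun a => ∑ i, c a i) a
    have h2 : c a i ≤ ∑ i, c a i :=
      Finset.single_le_sum (f := fun i => c a i) (fun _ _ => Nat.zero_le _) (Finset.mem_univ i)
    omega
  have hlJ : cJ < l := by omega
  have hldvd : ¬ l ∣ φ.range.index := fun h => by
    have := Nat.le_of_dvd (Nat.pos_of_ne_zero hφidx) h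
    omega
  choose P' hP' using fun a => exists_liftx (l := l) (P a) (hlP a)
  choose Q' hQ' using fun a => exists_liftx (l := l) (Q a) (hlQ a)
  have hPQ' : ∀ a, P' a * Q' a = 1 := fun a => by
    apply map_inj_padicx
    rw [Matrix.map_mul, hP', hQ', ← Matrix.map_mul, hPQ, Matrix.map_one _ (map_zero _) (map_one _),
      Matrix.map_one _ (map_zero _) (map_one _)]
  have hPQ0' : ∀ a b, a ≠ b → P' a * Q' b = 0 := fun a b hab => by
    apply map_inj_padicx
    rw [Matrix.map_mul, hP', hQ', ← Matrix.map_mul, hPQ0 a b hab, Matrix.map_zero _ (map_zero _),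
      Matrix.map_zero _ (map_zero _)]
  have hQP' : ∑ a, Q' a * P' a = 1 := by
    apply map_inj_padicx
    have h5 : ∀ X : Matrix (Fin n) (Fin n) ℤ_[l],
        X.map (algebraMap ℤ_[l] ℚ_[l]) = (algebraMap ℤ_[l] ℚ_[l]).mapMatrix X := fun X => rfl
    have h6 : ∀ X : Matrix (Fin n) (Fin n) ℚ,
        X.map (algebraMap ℚ ℚ_[l]) = (algebraMap ℚ ℚ_[l]).mapMatrix X := fun X => rfl
    have h7 := congrArg (fun X : Matrix (Fin n) (Fin n) ℚ => X.map (algebraMap ℚ ℚ_[l])) hQP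
    rw [Matrix.map_one _ (map_zero _) (map_one _)] at h7 ⊢
    rw [← h7, h5, h6, map_sum, map_sum]
    refine Finset.sum_congr rfl fun a _ => ?_
    rw [← h5, ← h6, Matrix.map_mul, Matrix.map_mul, hP', hQ']
  -- the summands over `ℤ_l`
  let gg : Fin t → H →* Matrix.GeneralLinearGroup (Fin 2) ℤ_[l] := fun i =>
    ((N i).ρ l).comp H.subtype
  let BB : ∀ a, H →* Matrix.GeneralLinearGroup (Fin (m a)) ℤ_[l] := fun a =>
    (twg ((B a).ρ l) (e a)).comp H.subtype
  have hPr : ∀ a (g : H), P' a * (((M.ρ l).comp φ g : Matrix.GeneralLinearGroup (Fin n) ℤ_[l]) :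
      Matrix (Fin n) (Fin n) ℤ_[l]) =
      tpc (c a) (fun i => (gg i g : Matrix (Fin 2) (Fin 2) ℤ_[l]))
        (BB a g : Matrix (Fin (m a)) (Fin (m a)) ℤ_[l]) * P' a := fun a g => by
    apply map_inj_padicx
    rw [Matrix.map_mul, Matrix.map_mul, hP', ((hSYF ℤ_[l]).2.2.2.2.2 ℚ_[l]
      (algebraMap ℤ_[l] ℚ_[l]) t (m a) (c a) _ _).2]
    exact hP a l (g : Gal K)
  -- liftability
  have hcond : ∀ Y : Fin t → Matrix (Fin 2) (Fin 2) (ZMod l), (∀ i, (Y i).det = 1) →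
      ∃ x ∈ commutator H, ∀ i, res (gg i) x = Y i := by
    intro Y hY
    obtain ⟨x, hx, hxY⟩ := hJ l hlJ Y hY
    exact ⟨x, hx, fun i => hxY i⟩
  have hBc : ∀ a (x x' : H), BB a x * BB a x' = BB a x' * BB a x := fun a x x' =>
    twg_comm ((B a).ρ l) (e a) (x : Gal K) (x' : Gal K) (hcomm a l x x.2 x' x'.2)
  have hTT : ∀ a b,
      SSx (fun x => (tpc (c a) (fun i => (gg i x : Matrix (Fin 2) (Fin 2) ℤ_[l]))
        (BB a x : Matrix (Fin (m a)) (Fin (m a)) ℤ_[l])).map (PadicInt.toZMod (p := l))) ∧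
      LFx (fun x => tpc (c a) (fun i => (gg i x : Matrix (Fin 2) (Fin 2) ℤ_[l]))
          (BB a x : Matrix (Fin (m a)) (Fin (m a)) ℤ_[l]))
        (fun x => tpc (c b) (fun i => (gg i x : Matrix (Fin 2) (Fin 2) ℤ_[l]))
          (BB b x : Matrix (Fin (m b)) (Fin (m b)) ℤ_[l])) := by
    intro a b
    have h1 := hTLH H l t gg hcond (m a) (m b) (BB a) (BB b) (hBc a) (hBc b) (c a) (c b) (hlc a)
      (hlc b)
    have h2 := hT a b l (hlT a b)
    exact ⟨h1.1 h2.1, h1.2 h2.2⟩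
  have hlft : Lft ((M.ρ l).comp φ) :=
    hSUY H n l k (fun a => (∀ i, Fin (c a i + 1)) × Fin (m a)) ((M.ρ l).comp φ)
      (fun a g => tpc (c a) (fun i => (gg i g : Matrix (Fin 2) (Fin 2) ℤ_[l]))
        (BB a g : Matrix (Fin (m a)) (Fin (m a)) ℤ_[l])) P' Q'
      (fun a => (hPQ' a).trans (one_dec _ _)) hPQ0' hQP' hPr
      (fun a => (hTT a a).1) (fun a b => (hTT a b).2)
  refine hSSL (Gal F) n l (M.ρ l) ⟨?_, ?_⟩
  · refine hAVS (Gal F) H (ZMod l) φ n (res (M.ρ l)) ?_ hlft.1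
    intro h0
    exact hldvd ((ZMod.natCast_eq_zero_iff _ _).1 h0)
  · exact hAVL (Gal F) H φ n n l (M.ρ l) (M.ρ l) hldvd (fun u hu => hlft.2 u hu)

theorem st_TNF (hFINC : ST_FINC) (hTRG : ST_TRG) : ST_TNF := by
  intro F _ _ S hS n w h
  obtain ⟨N, hN⟩ := hFINC F S hS n w h
  exact ⟨N, fun 𝒯 h𝒯 => hN 𝒯 fun M hM => hTRG F S hS n w h M (h𝒯 M hM).1 (h𝒯 M hM).2⟩

end REC
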