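import Pool.Agent.Helper85.REC.All4
import Pool.Agent.Helper85.REC.TRG
import Pool.Agent.Helper85.REC.BIG
import Pool.Agent.Helper85.REC.NRB
import Pool.Agent.Helper25.REC.ATC
import Pool.Agent.Helper56.REC.DKS
import Pool.Agent.Helper58.REC.JNT
import Pool.Agent.Helper58.REC.GOU
import Pool.Agent.Helper8.REC.PPT
import Pool.Agent.Helper19.REC.RIB
import Pool.Agent.Helper28.REC.SC2
import Pool.Agent.Helper19.REC.SCA
import Pool.Agent.Helper19.REC.SLG
import Pool.Agent.Helper19.REC.SUY
import Pool.Agent.Helper88.REC.SYF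
import Pool.Agent.Helper55.REC.TLH
import Pool.Agent.Helper19.REC.TM2
import Pool.Agent.Helper56.REC.DIH
import Pool.Agent.Helper3.REC.EMF
import Pool.Agent.Helper89.REC.PPG
import Pool.Agent.Helper17.REC.TCH
import Pool.Agent.Helper48.REC.TSR
import Pool.Agent.Helper15.REC.DIG
import Pool.Agent.Helper15.REC.FDC
import Pool.Agent.Helper88.REC.SPN

/-!
# Assembly, fifth part: the tensor category
-/

set_option autoImplicit false

open NumberField MU

namespace REC

theorem all_SYF : ST_SYF := st_SYF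
theorem all_SUY : ST_SUY := st_SUY all_SUG
theorem all_SCA : ST_SCA := st_SCA
theorem all_DKS : ST_DKS := st_DKS
theorem all_SLG : ST_SLG := st_SLG
theorem all_GOU : ST_GOU := Pool.Agent.Helper58.REC.GOU.st_GOU
theorem all_RIB : ST_RIB := st_RIB
theorem all_TM2 : ST_TM2 := Pool.Agent.Helper19.REC.st_TM2 st_FRB
theorem all_JNT : ST_JNT := Pool.Agent.Helper58.REC.JNT.st_JNT all_GOU all_RIB all_TM2
theorem all_SC2 : ST_SC2 := st_SC2 all_TRM all_TFR all_TRP all_SCA all_CLF
theorem all_NRB : ST_NRB := st_NRB all_TRM all_SCA all_CLF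

theorem all_SPN : ST_SPN := st_SPN all_SYF
theorem all_TLH : ST_TLH := st_TLH all_SYF all_SPN
theorem all_PPG : ST_PPG := st_PPG all_PBR all_ETL all_AVS all_AVL all_SSD
theorem all_PPT : ST_PPT := st_PPT all_PPG
theorem all_TSR : ST_TSR := st_TSR
theorem all_TCH : ST_TCH := st_TCH
theorem all_EMF : ST_EMF := st_EMF
theorem all_DIH : ST_DIH := st_DIH all_TSR

theorem all_DIG : ST_DIG := Pool.Agent.Helper15.REC.digits
theorem all_FDC : ST_FDC :=
  Pool.Agent.Helper15.REC.st_FDC all_TSR all_TCH all_DIG all_EMF st_OVP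
theorem all_ATC : ST_ATC := st_ATC all_CRG all_IRB all_FDC all_NF2 all_CMT
theorem all_BIG : ST_BIG := st_BIG all_ATC all_SLG all_DKS all_DIH all_NRB all_SC2
theorem all_TRG : ST_TRG :=
  st_TRG all_BIG all_JNT all_TLH all_PPT all_SUY all_SYF all_AVS all_AVL all_SSL all_IXB
theorem all_TNF : ST_TNF := st_TNF all_FINC all_TRG

end REC
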