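import Pool.Agent.Helper27.REC.StmtsT2
import Pool.Agent.Helper57.REC.XUN
import Pool.Agent.Helper93.REC.IXB
import Pool.Agent.Helper60.REC.BCT
import Pool.Agent.Helper27.REC.XWD

/-!
# Reciprocity, part 15, row BCF: restriction to extension fields
[helper85]
-/

set_option autoImplicit false

open scoped Classical
open NumberField Polynomial Topology

namespace REC

open Pool.Agent.Helper13.ZL (Pl q)
open MU

namespace Bcf

section

variable {F K : Type} [Field F] [NumberField F] [Field K] [NumberField K] [Algebra F K]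
  {j : AlgebraicClosure F ≃+* AlgebraicClosure K} {r : Gal K →* Gal F}

/-- the cyclotomic character over the larger field -/
theorem cyc_eq (hbc : IsBC F K j r) (l : ℕ) [Fact l.Prime] (g : Gal K) :
    cyc l K g = cyc l F (r g) := by
  apply Units.ext
  refine PadicInt.ext_of_toZModPow.mp fun n => ?_
  obtain ⟨ζ, hζ⟩ := HasEnoughRootsOfUnity.exists_primitiveRoot (AlgebraicClosure K) (l ^ n)
  have hl : l.Prime := Fact.out
  have hpos : NeZero (l ^ n) := ⟨pow_ne_zero _ hl.ne_zero⟩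
  have h1 : g ζ = ζ ^ (PadicInt.toZModPow n ((cyc l K g : ℤ_[l]ˣ) : ℤ_[l])).val :=
    cyclotomicCharacter.spec l (MulSemiringAction.toRingAut (Gal K) (AlgebraicClosure K) g) ζ
      hζ.pow_eq_one
  have h2 : (r g) (j.symm ζ) = (j.symm ζ) ^
      (PadicInt.toZModPow n ((cyc l F (r g) : ℤ_[l]ˣ) : ℤ_[l])).val :=
    cyclotomicCharacter.spec l (MulSemiringAction.toRingAut (Gal F) (AlgebraicClosure F) (r g))
      (j.symm ζ) (by rw [← map_pow, hζ.pow_eq_one, map_one])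
  have h3 : g ζ = ζ ^ (PadicInt.toZModPow n ((cyc l F (r g) : ℤ_[l]ˣ) : ℤ_[l])).val := by
    have h4 := hbc.act g (j.symm ζ)
    rw [h2, RingEquiv.apply_symm_apply, map_pow, RingEquiv.apply_symm_apply] at h4
    exact h4.symm
  rw [h1] at h3
  exact ZMod.val_injective _ (hζ.pow_inj (ZMod.val_lt _) (ZMod.val_lt _) h3)

end

section

variable {F L : Type} [Field F] [NumberField F] [Field L] [NumberField L] {n m : ℕ}
  {b : Blo n m L} {l : ℕ} [Fact l.Prime] {Ω : Type} [Field Ω] {G H : Type} [Group G] [Group H]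
  {ρ : G →* Matrix.GeneralLinearGroup (Fin n) ℤ_[l]} {ϑ : ℤ_[l] →+* Ω} {ι : 𝓞 L →+* Ω}

theorem at_uniq {R R' : G →* Matrix (Fin m) (Fin m) Ω} (h : b.At ρ ϑ ι R) (h' : b.At ρ ϑ ι R') :
    R = R' := by
  ext1 g
  refine Pool.Agent.Helper27.REC.blo_cancel b (ι := ι) h.1 ?_
  rw [← h.2 g, ← h'.2 g]

theorem at_comp {R : G →* Matrix (Fin m) (Fin m) Ω} (h : b.At ρ ϑ ι R) (φ : H →* G) :
    b.At (ρ.comp φ) ϑ ι (R.comp φ) := ⟨h.1, fun g => h.2 (φ g)⟩

/-- the representation over the larger field is the restriction -/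
theorem at_rs {F K : Type} [Field F] [NumberField F] [Field K] [NumberField K] {r : Gal K →* Gal F}
    {ρ : Fml F n} (hst : b.Stb ρ) {R' : Gal K →* Matrix (Fin m) (Fin m) Ω}
    (h : b.At (ρ.rs r l) ϑ ι R') :
    ∃ R : Gal F →* Matrix (Fin m) (Fin m) Ω, b.At (ρ l) ϑ ι R ∧ R' = R.comp r := by
  obtain ⟨R, hR⟩ := hst l Ω ϑ ι h.1
  exact ⟨R, hR, at_uniq h (at_comp hR r)⟩

end

theorem irr_mono {G H K : Type} [Group G] [Group H] [Field K] {n : ℕ}
    {r : G →* Matrix (Fin n) (Fin n) K} (φ : H →* G) (h : IsIrr (r.comp φ)) : IsIrr r := by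
  intro m B A hB
  exact h m B (fun g => A (φ g)) ⟨hB.1, fun g => hB.2 (φ g)⟩

/-- images of open subgroups under the restriction are open -/
theorem map_open {F K : Type} [Field F] [NumberField F] [Field K] [NumberField K] [Algebra F K]
    {j : AlgebraicClosure F ≃+* AlgebraicClosure K} {r : Gal K →* Gal F} (hbc : IsBC F K j r)
    (hr : IsOpen (r.range : Set (Gal F))) (H : Subgroup (Gal K)) (hH : IsOpen (H : Set (Gal K))) :
    IsOpen ((H.map r : Subgroup (Gal F)) : Set (Gal F)) := by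
  have hc : Continuous r := xun_cont hbc
  have hHc : IsClosed (H : Set (Gal K)) := Subgroup.isClosed_of_isOpen H hH
  have h1 : IsClosed ((H.map r : Subgroup (Gal F)) : Set (Gal F)) := by
    rw [Subgroup.coe_map]
    exact (hHc.isCompact.image hc).isClosed
  have h2 : Finite (Gal K ⧸ H) := Subgroup.quotient_finite_of_isOpen H hH
  have h3 : H.FiniteIndex := Subgroup.finiteIndex_of_finite_quotient
  have h4 : Finite (Gal F ⧸ r.range) := Subgroup.quotient_finite_of_isOpen _ hr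
  have h5 : r.range.FiniteIndex := Subgroup.finiteIndex_of_finite_quotient
  have h6 : (H.map r).index ≠ 0 := by
    rw [Subgroup.index_map]
    refine mul_ne_zero ?_ h5.index_ne_zero
    intro h7
    exact h3.index_ne_zero (Nat.eq_zero_of_zero_dvd (h7 ▸ Subgroup.index_dvd_of_le le_sup_left))
  have h8 : (H.map r).FiniteIndex := ⟨h6⟩
  exact Subgroup.isOpen_of_isClosed_of_finiteIndex _ h1

end Bcf

open Bcf

section

variable {F K : Type} [Field F] [NumberField F] [Field K] [NumberField K] [Algebra F K]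
  {j : AlgebraicClosure F ≃+* AlgebraicClosure K} {r : Gal K →* Gal F}
  {L : Type} [Field L] [NumberField L] {n m : ℕ} {b : Blo n m L} {ρ : Fml F n}

theorem Bcf.stb (hst : b.Stb ρ) (r : Gal K →* Gal F) : b.Stb (ρ.rs r) := by
  intro l _ Ω _ ϑ ι hN
  obtain ⟨R, hR⟩ := hst l Ω ϑ ι hN
  exact ⟨R.comp r, at_comp hR r⟩

theorem Bcf.cmp (hBCT : ST_BCT) (hbc : IsBC F K j r) (hst : b.Stb ρ) (S : Finset ℕ)
    (h : b.Cmp S ρ) : b.Cmp S (ρ.rs r) := by
  intro p hp hpS 𝔔 hQ k σ hk hσ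
  obtain ⟨𝔓, h1, h2, -⟩ := hBCT F K j r hbc 𝔔
  have hP := xun_over p 𝔔 hQ 𝔓 h1
  obtain ⟨Φ, hΦ⟩ := h p hp hpS 𝔓 hP k (r σ) hk ((h2 _ σ).1 hσ)
  refine ⟨Φ, fun l _ hl Ω _ ϑ ι R' hR' => ?_⟩
  obtain ⟨R, hR, rfl⟩ := at_rs hst hR'
  have h3 := hΦ l hl Ω ϑ ι R hR
  rw [← map_inv] at h3
  exact h3

theorem Bcf.flc (hbc : IsBC F K j r) (hst : b.Stb ρ) (h : Fin n → ℕ) (d : Prop)
    (hf : b.FLc h d ρ) : b.FLc h d (ρ.rs r) := by
  obtain ⟨c, hc⟩ := hf
  refine ⟨c, fun l _ hl Ω _ ϑ ι R' hl0 hR' θ => ?_⟩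
  obtain ⟨R, hR, rfl⟩ := at_rs hst hR'
  obtain ⟨a, s, ha, hs, h1⟩ := hc l hl Ω ϑ ι R hl0 hR (θ.comp (Pool.Agent.Helper60.REC7.phi j))
  refine ⟨a, s, ha, hs, fun σ y z hσ hy hz => ?_⟩
  obtain ⟨y', rfl⟩ := Pool.Agent.Helper60.REC7.phi_surj j y
  obtain ⟨z', rfl⟩ := Pool.Agent.Helper60.REC7.phi_surj j z
  have hinj : Function.Injective (Pool.Agent.Helper60.REC7.phi j) := by
    intro x x' hxx
    apply Subtype.ext
    apply j.injective
    exact congrArg Subtype.val hxx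
  have h2 : CongPow (RingHom.ker (θ.comp (Pool.Agent.Helper60.REC7.phi j))) 1 (r σ) := by
    intro x x' hx
    change Zb F at x x'
    have h3 := hσ (Pool.Agent.Helper60.REC7.phi j x) (Pool.Agent.Helper60.REC7.phi j x') (by
      rw [Pool.Agent.Helper60.REC7.phi_coe, Pool.Agent.Helper60.REC7.phi_coe]
      erw [hx]
      exact hbc.act σ _)
    have h4 : Pool.Agent.Helper60.REC7.phi j (x' - x ^ 1) ∈ RingHom.ker θ := by
      rw [map_sub, map_pow]
      exact h3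
    exact h4
  have h4 := h1 (r σ) y' z' h2 (hinj (by rw [map_pow, map_natCast]; exact hy)) (by
    apply j.injective
    rw [map_mul, hbc.act]
    exact hz)
  rw [← map_inv] at h4
  exact h4

theorem Bcf.sir (hIXB : ST_IXB) (hbc : IsBC F K j r) (hst : b.Stb ρ) (h : b.Sir ρ) :
    b.Sir (ρ.rs r) := by
  intro H hH
  obtain ⟨c, hc⟩ := h (H.map r) (map_open hbc (hIXB F K j r hbc).1 H hH)
  refine ⟨c, fun l _ hl Ω _ ϑ ι R' hl0 hR' => ?_⟩
  obtain ⟨R, hR, rfl⟩ := at_rs hst hR'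
  have h1 := hc l hl Ω ϑ ι R hl0 hR
  intro k B A hB
  refine h1 k B (fun g => A ⟨g.2.choose, g.2.choose_spec.1⟩) ⟨hB.1, fun g => ?_⟩
  have h2 := hB.2 ⟨g.2.choose, g.2.choose_spec.1⟩
  have h3 : r g.2.choose = g := g.2.choose_spec.2
  calc (R.comp (H.map r).subtype) g * B = R (r g.2.choose) * B := by rw [h3]; rfl
    _ = _ := h2

theorem Bcf.si0 (hIXB : ST_IXB) (hbc : IsBC F K j r) (hst : b.Stb ρ) (h : b.Si0 ρ) :
    b.Si0 (ρ.rs r) := by
  intro H hH l _ Ω _ _ ϑ ι R' hR'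
  obtain ⟨R, hR, rfl⟩ := at_rs hst hR'
  have h1 := h (H.map r) (map_open hbc (hIXB F K j r hbc).1 H hH) l Ω ϑ ι R hR
  intro k B A hB
  refine h1 k B (fun g => A ⟨g.2.choose, g.2.choose_spec.1⟩) ⟨hB.1, fun g => ?_⟩
  have h2 := hB.2 ⟨g.2.choose, g.2.choose_spec.1⟩
  have h3 : r g.2.choose = g := g.2.choose_spec.2
  calc (R.comp (H.map r).subtype) g * B = R (r g.2.choose) * B := by rw [h3]; rfl
    _ = _ := h2

end

/-- powers of matrices congruent to `1` -/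
theorem Bcf.pow_close {l : ℕ} [Fact l.Prime] {m : ℕ} (x : Matrix (Fin m) (Fin m) ℤ_[l]) (N D : ℕ)
    (hD : Nat.Coprime D l) (n : ℕ) : ∃ (k : ℕ) (z : Matrix (Fin m) (Fin m) ℤ_[l]),
      (1 + (l : ℤ_[l]) ^ (N + 1) • x) ^ (D * k) =
        (1 + (l : ℤ_[l]) ^ (N + 1) • x) + (l : ℤ_[l]) ^ n • z := by
  have hl : l.Prime := Fact.out
  rcases Nat.eq_zero_or_pos n with hn | hn
  · subst hn
    refine ⟨0, 1 - (1 + (l : ℤ_[l]) ^ (N + 1) • x), ?_⟩
    rw [mul_zero, pow_zero, pow_zero, one_smul]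
    abel
  have h1 : Nat.Coprime D (l ^ n) := Nat.Coprime.pow_right n hD
  have h2 : 1 < l ^ n := Nat.one_lt_pow hn.ne' hl.one_lt
  obtain ⟨k, hk⟩ := Nat.exists_mul_mod_eq_one_of_coprime h1 h2
  have hk' : D * k = 1 + l ^ n * (D * k / l ^ n) := by
    have := Nat.mod_add_div (D * k) (l ^ n)
    omega
  set t := D * k / l ^ n with ht
  let a : ℤ_[l][X] := 1 + C ((l : ℤ_[l]) ^ (N + 1)) * Polynomial.X
  have h3 : ((l : ℕ) : ℤ_[l][X]) ∣ a - 1 := by
    refine ⟨C ((l : ℤ_[l]) ^ N) * Polynomial.X, ?_⟩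
    have : ((l : ℕ) : ℤ_[l][X]) = C ((l : ℕ) : ℤ_[l]) := by simp
    rw [this, ← mul_assoc, ← C_mul, ← pow_succ']
    simp [a]
  have h4 := dvd_sub_pow_of_dvd_sub h3 n
  rw [one_pow] at h4
  have h5 : (l : ℤ_[l][X]) ^ n ∣ a ^ (D * k) - a := by
    have h6 : a ^ (D * k) - a = a * ((a ^ l ^ n) ^ t - 1 ^ t) := by
      rw [hk', pow_add, pow_one, pow_mul, one_pow, mul_sub, mul_one]
    rw [h6]
    refine Dvd.dvd.mul_left ?_ _
    exact ((pow_dvd_pow _ (Nat.le_succ n)).trans h4).trans (sub_dvd_pow_sub_pow _ _ _)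
  obtain ⟨w, hw⟩ := h5
  refine ⟨k, aeval x w, ?_⟩
  have h7 := congrArg (aeval x) hw
  have h8 : aeval x a = 1 + (l : ℤ_[l]) ^ (N + 1) • x := by
    simp only [a, map_add, map_one, map_mul, aeval_C, aeval_X, Algebra.algebraMap_eq_smul_one,
      Matrix.smul_mul, Matrix.one_mul]
  rw [map_sub, map_pow, h8, map_mul, map_pow, map_natCast] at h7
  rw [sub_eq_iff_eq_add'] at h7
  rw [h7]
  congr 1
  rw [← map_natCast (algebraMap ℤ_[l] (Matrix (Fin m) (Fin m) ℤ_[l])) l, ← map_pow,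
    Algebra.algebraMap_eq_smul_one, Matrix.smul_mul, Matrix.one_mul]

section

variable {F K : Type} [Field F] [NumberField F] [Field K] [NumberField K] [Algebra F K]
  {j : AlgebraicClosure F ≃+* AlgebraicClosure K} {r : Gal K →* Gal F}
  {L : Type} [Field L] [NumberField L] {n m : ℕ} {b : Blo n m L} {ρ : Fml F n}

/-- continuity of the summand over `ℚ_l` -/
theorem Bcf.cont_at {l : ℕ} [Fact l.Prime] (hc : Continuous (ρ l)) {ι : 𝓞 L →+* ℚ_[l]}
    {R : Gal F →* Matrix (Fin m) (Fin m) ℚ_[l]} (hR : b.At (ρ l) (algebraMap ℤ_[l] ℚ_[l]) ι R) :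
    Continuous R := by
  have h1 : ∀ g, R g = (b.N : ℚ_[l])⁻¹ • (b.P.map ι *
      (ρ l g : Matrix (Fin n) (Fin n) ℤ_[l]).map (algebraMap ℤ_[l] ℚ_[l]) * b.Q.map ι) := by
    intro g
    rw [hR.2 g, Matrix.mul_assoc, Pool.Agent.Helper27.REC.blo_PQ, Matrix.mul_smul, Matrix.mul_one,
      smul_smul, inv_mul_cancel₀ hR.1, one_smul]
  have h2 : (R : Gal F → Matrix (Fin m) (Fin m) ℚ_[l]) = fun g => (b.N : ℚ_[l])⁻¹ • (b.P.map ι *
      (ρ l g : Matrix (Fin n) (Fin n) ℤ_[l]).map (algebraMap ℤ_[l] ℚ_[l]) * b.Q.map ι) :=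
    funext h1
  rw [h2]
  have h3 : Continuous fun g : Gal F => (ρ l g : Matrix (Fin n) (Fin n) ℤ_[l]).map
      (algebraMap ℤ_[l] ℚ_[l]) := by
    have h4 : Continuous fun g : Gal F => (ρ l g : Matrix (Fin n) (Fin n) ℤ_[l]) :=
      Units.continuous_val.comp hc
    exact h4.matrix_map continuous_subtype_val
  have h5 : Continuous fun g : Gal F => b.P.map ι *
      (ρ l g : Matrix (Fin n) (Fin n) ℤ_[l]).map (algebraMap ℤ_[l] ℚ_[l]) * b.Q.map ι :=
    (continuous_const.matrix_mul h3).matrix_mul continuous_const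
  exact h5.const_smul ((b.N : ℚ_[l])⁻¹)

theorem Bcf.big (hIXB : ST_IXB) (hbc : IsBC F K j r) (hst : b.Stb ρ)
    (hcont : ∀ (l : ℕ) [Fact l.Prime], Continuous (ρ l)) (h : b.Big ρ) : b.Big (ρ.rs r) := by
  obtain ⟨hro, -⟩ := hIXB F K j r hbc
  have : Finite (Gal F ⧸ r.range) := Subgroup.quotient_finite_of_isOpen _ hro
  have : r.range.FiniteIndex := Subgroup.finiteIndex_of_finite_quotient
  obtain ⟨c, hc⟩ := h
  set V := r.range.normalCore with hV
  have hVi : V.index ≠ 0 := Subgroup.FiniteIndex.index_ne_zero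
  refine ⟨max c V.index, fun l _ hl ι R' hR' => ?_⟩
  have hlp : l.Prime := Fact.out
  have hcop : Nat.Coprime V.index l := by
    rw [Nat.coprime_comm, hlp.coprime_iff_not_dvd]
    intro hd
    have h1 := Nat.le_of_dvd (Nat.pos_of_ne_zero hVi) hd
    have h2 := lt_of_le_of_lt (le_max_right c V.index) hl
    omega
  obtain ⟨R, hR, rfl⟩ := at_rs hst hR'
  obtain ⟨N, hN⟩ := hc l (lt_of_le_of_lt (le_max_left _ _) hl) ι R hR
  refine ⟨N + 1, fun x hx => ?_⟩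
  set y : Matrix (Fin m) (Fin m) ℤ_[l] := 1 + (l : ℤ_[l]) ^ (N + 1) • x with hy
  have hy' : y = 1 + (l : ℤ_[l]) ^ N • ((l : ℤ_[l]) • x) := by
    rw [hy, smul_smul, pow_succ]
  obtain ⟨g₀, hg₀⟩ := hN ((l : ℤ_[l]) • x) (by rw [← hy']; exact hx)
  rw [← hy'] at hg₀
  obtain ⟨g₁, hg₁⟩ : g₀ ^ V.index ∈ r.range :=
    Subgroup.normalCore_le _ (Subgroup.pow_index_mem V g₀)
  have hpow : ∀ k : ℕ, (R.comp r) (g₁ ^ k) = (y ^ (V.index * k)).map (algebraMap ℤ_[l] ℚ_[l]) := by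
    intro k
    have h1 : ((algebraMap ℤ_[l] ℚ_[l]).mapMatrix (m := Fin m)) (y ^ (V.index * k)) =
        (((algebraMap ℤ_[l] ℚ_[l]).mapMatrix (m := Fin m)) y) ^ (V.index * k) := map_pow _ _ _
    change R (r (g₁ ^ k)) = ((algebraMap ℤ_[l] ℚ_[l]).mapMatrix (m := Fin m)) (y ^ (V.index * k))
    rw [h1, map_pow, hg₁, map_pow, map_pow, hg₀, ← pow_mul]
    rfl
  choose k z hkz using fun i => Bcf.pow_close x N V.index hcop i
  have hclosed : IsClosed (Set.range (R.comp r)) :=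
    (isCompact_range ((Bcf.cont_at (hcont l) hR).comp (xun_cont hbc))).isClosed
  have hlim : Filter.Tendsto (fun i => (R.comp r) (g₁ ^ k i)) Filter.atTop
      (𝓝 (y.map (algebraMap ℤ_[l] ℚ_[l]))) := by
    refine tendsto_pi_nhds.2 fun a => tendsto_pi_nhds.2 fun a' => ?_
    rw [tendsto_iff_norm_sub_tendsto_zero]
    have hb : ∀ i, ‖(R.comp r) (g₁ ^ k i) a a' - y.map (algebraMap ℤ_[l] ℚ_[l]) a a'‖ ≤
        ((l : ℝ)⁻¹) ^ i := by
      intro i
      rw [hpow, hkz i, Matrix.map_apply, Matrix.map_apply, Matrix.add_apply, Matrix.smul_apply,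
        map_add, add_sub_cancel_left, smul_eq_mul, map_mul, norm_mul, map_pow, map_natCast,
        norm_pow, Padic.norm_p]
      have h2 : ‖algebraMap ℤ_[l] ℚ_[l] (z i a a')‖ ≤ 1 := PadicInt.norm_le_one _
      have h3 : (0 : ℝ) ≤ ((l : ℝ)⁻¹) ^ i := by positivity
      calc _ ≤ ((l : ℝ)⁻¹) ^ i * 1 := mul_le_mul_of_nonneg_left h2 h3
        _ = _ := mul_one _
    have h4 : Filter.Tendsto (fun i : ℕ => ((l : ℝ)⁻¹) ^ i) Filter.atTop (𝓝 0) := by
      refine tendsto_pow_atTop_nhds_zero_of_lt_one (by positivity) ?_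
      exact inv_lt_one_of_one_lt₀ (by exact_mod_cast hlp.one_lt)
    exact squeeze_zero (fun _ => norm_nonneg _) hb h4
  exact hclosed.mem_of_tendsto hlim (Filter.Eventually.of_forall fun i => ⟨_, rfl⟩)

end

/-- BCF -/
theorem BCF (hBCT : ST_BCT) (hIXB : ST_IXB) : ST_BCF := by
  intro F K _ _ _ _ _ j r hbc
  refine ⟨fun l _ g => Bcf.cyc_eq hbc l g, fun L _ _ n m b ρ hst => ?_⟩
  exact ⟨Bcf.stb hst r, fun S h => Bcf.cmp hBCT hbc hst S h, fun h d hf => Bcf.flc hbc hst h d hf,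
    fun hc hb => Bcf.big hIXB hbc hst hc hb, fun h => Bcf.sir hIXB hbc hst h,
    fun h => Bcf.si0 hIXB hbc hst h⟩

end REC
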