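import Pool.Agent.Helper85.REC.BCF
import Pool.Agent.Helper78.REC.DNE
import Pool.Agent.Helper48.REC.HKL
import Pool.Agent.Helper85.MU.Stmts

/-!
# Reciprocity, part 15, row GNK: generic elements over extension fields
[helper85]
-/

set_option autoImplicit false

open scoped Classical
open NumberField Polynomial

namespace REC

open Pool.Agent.Helper13.ZL (Pl q)
open MU

namespace Gnk

/-- the eigenvalues of powers -/
theorem charpoly_pow {K : Type} [Field K] [CharZero K] {m : ℕ} (A : Matrix (Fin m) (Fin m) K)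
    (α : Fin m → K) (h : A.charpoly = ∏ x, (Polynomial.X - C (α x))) (f : ℕ) (hf : 0 < f) :
    (A ^ f).charpoly = ∏ x, (Polynomial.X - C (α x ^ f)) := by
  have : CharZero (AlgebraicClosure K) := charZero_of_injective_algebraMap
    (algebraMap K (AlgebraicClosure K)).injective
  set i := algebraMap K (AlgebraicClosure K) with hi
  have hprod : ∀ g : Fin m → AlgebraicClosure K,
      (∏ x, (Polynomial.X - C (g x))).roots = Finset.univ.val.map g := by
    intro g
    have h1 : (∏ x, (Polynomial.X - C (g x))) =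
        ((Finset.univ.val.map g).map fun a => Polynomial.X - C a).prod := by
      rw [Multiset.map_map]
      rfl
    rw [h1, Polynomial.roots_multiset_prod_X_sub_C]
  have h1 : (A.map i).charpoly = ∏ x, (Polynomial.X - C (i (α x))) := by
    rw [Matrix.charpoly_map, h, Polynomial.map_prod]
    simp
  have h2 : ((A.map i) ^ f).charpoly.roots = Finset.univ.val.map fun x => i (α x ^ f) := by
    rw [hkl_roots_pow (A.map i) f hf, h1, hprod, Multiset.map_map]
    simp only [map_pow]
    rfl
  have h3 : ((A.map i) ^ f).charpoly = ∏ x, (Polynomial.X - C (i (α x ^ f))) := by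
    have h4 := (IsAlgClosed.splits ((A.map i) ^ f).charpoly).eq_prod_roots
    rw [(Matrix.charpoly_monic _).leadingCoeff, C_1, one_mul, h2, Multiset.map_map] at h4
    rw [h4]
    rfl
  apply Polynomial.map_injective i i.injective
  have h5 : (A.map i) ^ f = (A ^ f).map i := by
    change (i.mapMatrix A) ^ f = i.mapMatrix (A ^ f)
    rw [map_pow]
  rw [← Matrix.charpoly_map, ← h5, h3, Polynomial.map_prod]
  simp

/-- the product of numbers with an involution with two fixed points -/
theorem prod_inv {K : Type} [Field K] {m : ℕ} (α : Fin m → K) (q : K)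
    (s : Fin m → Fin m) (hs : ∀ u, α u * α (s u) = q) (hss : ∀ u, s (s u) = u) (x y : Fin m)
    (hx : s x = x) (hy : s y = y) (hxy : α y = -α x) (hx0 : α x ≠ 0) (hne : x ≠ y)
    (hfix : ∀ u, s u = u → u = x ∨ u = y) :
    ∃ r : ℕ, m = 2 * r ∧ ∏ u, α u = -q ^ r := by
  have hq : q = α x ^ 2 := by
    have := hs x
    rw [hx] at this
    rw [← this, sq]
  have h1 : ∏ u ∈ Finset.univ.erase y, (α u / α x) = 1 := by
    refine Finset.prod_involution (fun u _ => s u) ?_ ?_ ?_ ?_
    · intro u _
      have : α u / α x * (α (s u) / α x) = (α u * α (s u)) / (α x * α x) := by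
        field_simp
      rw [this, hs, hq, sq]
      exact div_self (mul_ne_zero hx0 hx0)
    · intro u hu hu1 hu2
      rcases hfix u hu2 with rfl | rfl
      · exact hu1 (div_self hx0)
      · exact (Finset.mem_erase.1 hu).1 rfl
    · intro u hu
      refine Finset.mem_erase.2 ⟨fun h => ?_, Finset.mem_univ _⟩
      have : u = y := by rw [← hss u, h, hy]
      exact (Finset.mem_erase.1 hu).1 this
    · intro u _
      exact hss u
  have h2 : ∏ u ∈ (Finset.univ.erase y).erase x, (-1 : ℤ) = 1 := by
    refine Finset.prod_involution (fun u _ => s u) ?_ ?_ ?_ ?_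
    · intro u _
      norm_num
    · intro u hu _ hu2
      rcases hfix u hu2 with rfl | rfl
      · exact (Finset.mem_erase.1 hu).1 rfl
      · exact (Finset.mem_erase.1 (Finset.mem_erase.1 hu).2).1 rfl
    · intro u hu
      refine Finset.mem_erase.2 ⟨fun h => ?_, Finset.mem_erase.2 ⟨fun h => ?_, Finset.mem_univ _⟩⟩
      · have : u = x := by rw [← hss u, h, hx]
        exact (Finset.mem_erase.1 hu).1 this
      · have : u = y := by rw [← hss u, h, hy]
        exact (Finset.mem_erase.1 (Finset.mem_erase.1 hu).2).1 this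
    · intro u _
      exact hss u
  have hcard : ((Finset.univ.erase y).erase x).card = m - 2 := by
    rw [Finset.card_erase_of_mem (Finset.mem_erase.2 ⟨hne, Finset.mem_univ _⟩),
      Finset.card_erase_of_mem (Finset.mem_univ _), Finset.card_univ, Fintype.card_fin]
    omega
  rw [Finset.prod_const, hcard] at h2
  have hm2 : 2 ≤ m := by
    by_contra h
    apply hne
    have : m ≤ 1 := by omega
    apply Fin.ext
    have := x.2
    have := y.2
    omega
  have heven : Even (m - 2) := by
    by_contra h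
    rw [Nat.not_even_iff_odd] at h
    rw [h.neg_one_pow] at h2
    norm_num at h2
  obtain ⟨r', hr'⟩ := heven
  refine ⟨r' + 1, by omega, ?_⟩
  have h3 : ∏ u, (α u / α x) = -1 := by
    rw [← Finset.mul_prod_erase Finset.univ _ (Finset.mem_univ y), h1, mul_one, hxy, neg_div,
      div_self hx0]
  rw [Finset.prod_div_distrib, Finset.prod_const, Finset.card_univ, Fintype.card_fin,
    div_eq_iff (pow_ne_zero _ hx0)] at h3
  rw [h3, hq, ← pow_mul, neg_one_mul]
  congr 2
  omega

/-- relations between powers -/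
theorem norel_pow {K : Type} [Field K] [CharZero K] {t : ℕ} {m : Fin t → ℕ} (z : Fin t → Prop)
    (q : Fin t → K) (α : ∀ i, Fin (m i) → K) (f D : ℕ) (hf : 0 < f) (hα : ∀ i x, α i x ≠ 0)
    (hp : ∀ i, ¬ z i → ∀ x, ∃ w, α i x * α i w = q i)
    (hdet : ∀ i, ¬ z i → ∀ r : ℕ, m i = 2 * r → ∏ x, α i x = q i ^ r)
    (hN : NoRel z q (f * (D + 2)) α) :
    NoRel z (fun i => q i ^ f) D (fun i x => α i x ^ f) := by
  have hf' : (f : ℤ) ≠ 0 := by exact_mod_cast hf.ne'
  have hfpos : (0 : ℤ) < f := by exact_mod_cast hf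
  have hinj : ∀ i, Function.Injective (α i) :=
    DNEw.inj_of_noRel z q (f * (D + 2)) α hα (by nlinarith) hN hp
  -- multiples of `f`
  have key : ∀ e : ∀ i, Fin (m i) → ℤ, (∀ i x, |e i x| ≤ (D : ℤ) + 2) → (∀ i, ∑ x, e i x = 0) →
      ∏ i, ∏ x, (α i x ^ f) ^ e i x = 1 →
      ∀ i x, (z i → e i x = 0) ∧ (¬ z i → ∀ y, α i x * α i y = q i → e i x = e i y) := by
    intro e he hs hpr i x
    have h1 := hN (fun i x => (f : ℤ) * e i x) ?_ ?_ ?_ i x
    · refine ⟨fun hz => ?_, fun hz y hy => ?_⟩
      · exact (mul_eq_zero.1 (h1.1 hz)).resolve_left hf'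
      · exact mul_left_cancel₀ hf' (h1.2 hz y hy)
    · intro i x
      rw [abs_mul, abs_of_pos hfpos]
      push_cast
      exact mul_le_mul_of_nonneg_left (he i x) hfpos.le
    · intro i
      rw [← Finset.mul_sum, hs, mul_zero]
    · rw [← hpr]
      refine Finset.prod_congr rfl fun i _ => Finset.prod_congr rfl fun x _ => ?_
      rw [zpow_mul, zpow_natCast]
  intro e he hs hpr i x
  have h1 := key e (fun i x => (he i x).trans (by norm_num)) hs hpr i x
  refine ⟨h1.1, fun hz y hy => ?_⟩
  obtain ⟨w, hw⟩ := hp i hz x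
  by_cases hyw : y = w
  · subst hyw
    exact h1.2 hz y hw
  exfalso
  have hyf : α i y ^ f = α i w ^ f := by
    have h2 : α i x ^ f * α i y ^ f = α i x ^ f * α i w ^ f := by
      rw [hy, ← mul_pow, hw]
    exact mul_left_cancel₀ (pow_ne_zero _ (hα i x)) h2
  have h2 := DNEw.prod_single (fun i x => α i x ^ f) (fun i x => pow_ne_zero _ (hα i x)) i y w hyf
  have h3 := key _ ?_ ?_ h2
  · have h4 := fun u v huv => (h3 i u).2 hz v huv
    simp only [Pi.single_eq_same, Pi.sub_apply] at h4
    -- `w = x`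
    have h5 := h4 w x (by rw [mul_comm]; exact hw)
    rw [Pi.single_eq_of_ne (Ne.symm hyw), Pi.single_eq_same, zero_sub] at h5
    have hwx : x = w := by
      by_contra h
      rw [Pi.single_eq_of_ne h, sub_zero] at h5
      by_cases h6 : x = y
      · rw [h6, Pi.single_eq_same] at h5
        norm_num at h5
      · rw [Pi.single_eq_of_ne h6] at h5
        norm_num at h5
    subst hwx
    choose s hs' using hp i hz
    have hsy : s y = y := by
      have h6 := h4 y (s y) (hs' y)
      rw [Pi.single_eq_same, Pi.single_eq_of_ne hyw, sub_zero] at h6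
      by_contra h
      rw [Pi.single_eq_of_ne h, zero_sub] at h6
      by_cases h7 : s y = x
      · rw [h7, Pi.single_eq_same] at h6
        norm_num at h6
      · rw [Pi.single_eq_of_ne h7] at h6
        norm_num at h6
    have hsx : s x = x := by
      apply hinj i
      exact mul_left_cancel₀ (hα i x) ((hs' x).trans hw.symm)
    have hss : ∀ u, s (s u) = u := by
      intro u
      apply hinj i
      have h6 := hs' (s u)
      rw [← hs' u, mul_comm (α i u)] at h6
      exact mul_left_cancel₀ (hα i (s u)) h6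
    have hsq : ∀ u, s u = u → α i u = α i x ∨ α i u = -α i x := by
      intro u hu
      have h6 := hs' u
      rw [hu, ← hw] at h6
      exact mul_self_eq_mul_self_iff.1 h6
    have hyx : α i y = -α i x :=
      (hsq y hsy).resolve_left fun h => hyw (hinj i h)
    obtain ⟨r, hr, hpr'⟩ := prod_inv (α i) (q i) s hs' hss x y hsx hsy hyx (hα i x)
      (fun h => hyw h.symm) (fun u hu => by
        rcases hsq u hu with h | h
        · exact Or.inl (hinj i h)
        · exact Or.inr (hinj i (h.trans hyx.symm)))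
    rw [hdet i hz r hr] at hpr'
    have hq0 : q i ^ r ≠ 0 := by
      rw [← hw]
      exact pow_ne_zero _ (mul_ne_zero (hα i x) (hα i x))
    have h7 : (2 : K) * q i ^ r = 0 := by
      rw [two_mul]
      nth_rewrite 1 [hpr']
      exact neg_add_cancel _
    exact (mul_ne_zero two_ne_zero hq0) h7
  · intro i' x'
    by_cases hi : i' = i
    · subst hi
      rw [Pi.single_eq_same, Pi.sub_apply]
      have h0 : ∀ u : Fin (m i'), |(Pi.single u 1 : Fin (m i') → ℤ) x'| ≤ 1 := by
        intro u
        by_cases hu : x' = u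
        · rw [hu, Pi.single_eq_same]; norm_num
        · rw [Pi.single_eq_of_ne hu]; norm_num
      have h6 := abs_sub ((Pi.single y 1 : Fin (m i') → ℤ) x')
        ((Pi.single w 1 : Fin (m i') → ℤ) x')
      have h7 := h0 y
      have h8 := h0 w
      have h9 : (0 : ℤ) ≤ D := Int.natCast_nonneg D
      linarith
    · rw [Pi.single_eq_of_ne hi, Pi.zero_apply, abs_zero]
      positivity
  · intro i'
    by_cases hi : i' = i
    · subst hi
      rw [Pi.single_eq_same]
      simp
    · rw [Pi.single_eq_of_ne hi]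
      simp

theorem det_prod {K : Type} [Field K] {m : ℕ} (A : Matrix (Fin m) (Fin m) K) (α : Fin m → K)
    (h : A.charpoly = ∏ x, (Polynomial.X - C (α x))) : A.det = ∏ x, α x := by
  rw [Matrix.det_eq_sign_charpoly_coeff, h, Polynomial.coeff_zero_eq_eval_zero,
    Polynomial.eval_prod]
  simp only [eval_sub, eval_X, eval_C, zero_sub]
  rw [Finset.prod_neg, Finset.card_univ, Fintype.card_fin, ← mul_assoc, ← mul_pow]
  norm_num

section

variable {F K : Type} [Field F] [NumberField F] [Field K] [NumberField K] [Algebra F K]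
  {j : AlgebraicClosure F ≃+* AlgebraicClosure K} {r : Gal K →* Gal F}

/-- primes over the larger field -/
theorem exists_prime (hbc : IsBC F K j r) (p : ℕ) (𝔓 : Ideal (Zb F)) (hP : Over p 𝔓) :
    ∃ 𝔔 : Ideal (Zb K), Over p 𝔔 ∧ ∀ (a : ℕ) (σ : Gal K), CongPow 𝔓 a (r σ) → CongPow 𝔔 a σ := by
  have hint : ∀ x : Zb K, IsIntegral ℤ (j.symm (x : AlgebraicClosure K)) := fun x =>
    x.2.map (j.symm : AlgebraicClosure K →+* AlgebraicClosure F).toIntAlgHom
  let jz : Zb K →+* Zb F :=
    { toFun := fun x => ⟨j.symm (x : AlgebraicClosure K), hint x⟩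
      map_one' := Subtype.ext (map_one j.symm)
      map_mul' := fun x y => Subtype.ext (map_mul j.symm _ _)
      map_zero' := Subtype.ext (map_zero j.symm)
      map_add' := fun x y => Subtype.ext (map_add j.symm _ _) }
  obtain ⟨hPp, hpP⟩ := hP
  refine ⟨𝔓.comap jz, ⟨?_, ?_⟩, fun a σ h => ?_⟩
  · have h5 : 𝔓.IsPrime := hPp
    have h6 : (𝔓.comap jz).IsPrime := Ideal.IsPrime.comap jz
    exact h6
  · change jz (p : Zb K) ∈ 𝔓
    rw [map_natCast]
    exact hpP
  · intro x y hy
    change Zb K at x y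
    have h1 : jz y - jz x ^ a ∈ 𝔓 := by
      refine h (jz x) (jz y) ?_
      show j.symm (y : AlgebraicClosure K) = r σ (j.symm (x : AlgebraicClosure K))
      apply j.injective
      rw [hbc.act, RingEquiv.apply_symm_apply, RingEquiv.apply_symm_apply]
      exact hy
    have h2 : jz (y - x ^ a) = jz y - jz x ^ a := by rw [map_sub, map_pow]
    rw [← h2] at h1
    exact h1

end

end Gnk

open Gnk

/-- GNK -/
theorem GNK (hCPW : ST_CPW) (hIXB : ST_IXB) (hCYC : ST_CYC) : ST_GNK := by
  intro F K _ _ _ _ _ j r hbc L _ _ t n₂ m S J w b ρ hJ hF hG D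
  obtain ⟨hro, -⟩ := hIXB F K j r hbc
  have : Finite (Gal F ⧸ r.range) := Subgroup.quotient_finite_of_isOpen _ hro
  have : r.range.FiniteIndex := Subgroup.finiteIndex_of_finite_quotient
  set V := r.range.normalCore with hV
  have hVi : 0 < V.index := Nat.pos_of_ne_zero Subgroup.FiniteIndex.index_ne_zero
  set f := V.index with hf
  obtain ⟨p, 𝔓, k, σ, hp, hpS, hP, hk, hσ, l, _, Ω, _, _, ϑ, ι, R, α, hlp, hR, hN⟩ :=
    hG (f * (D + 2))
  -- the power in the subgroup
  obtain ⟨σ', hσ'⟩ : σ ^ f ∈ r.range :=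
    Subgroup.normalCore_le _ (Subgroup.pow_index_mem V σ)
  have hpow : ∀ i : ℕ, CongPow 𝔓 (p ^ (k * i)) (σ ^ i : Gal F) := by
    intro i
    induction i with
    | zero =>
      intro x y hy
      change Zb F at x y
      have : y = x := Subtype.ext hy
      rw [this, mul_zero, pow_zero, pow_one, sub_self]
      exact 𝔓.zero_mem
    | succ i ih =>
      rw [mul_add, mul_one, pow_add, pow_succ]
      exact (hCPW F p 𝔓 hp hP).1 _ _ _ _ ih hσ
  obtain ⟨𝔔, hQ, hcong⟩ := exists_prime hbc p 𝔓 hP
  refine ⟨p, 𝔔, k * f, σ', hp, hpS, hQ, Nat.mul_pos hk hVi, hcong _ _ (by rw [hσ']; exact hpow f),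
    l, ‹_›, Ω, ‹_›, ‹_›, ϑ, ι, fun i => (R i).comp r, fun i x => α i x ^ f, hlp, fun i => ⟨?_, ?_⟩,
    ?_⟩
  · exact Bcf.at_comp (hR i).1 r
  · have h1 : ((R i).comp r) σ'⁻¹ = (R i σ⁻¹) ^ f := by
      rw [MonoidHom.comp_apply, map_inv, hσ', ← inv_pow, map_pow]
    rw [h1]
    exact charpoly_pow _ _ (hR i).2 f hVi
  · -- the relations
    have hdet0 : ∀ i, (R i σ⁻¹).det ≠ 0 := by
      intro i h0
      have h1 : R i σ⁻¹ * R i σ = 1 := by rw [← map_mul, inv_mul_cancel, map_one]
      have h3 := congrArg Matrix.det h1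
      rw [Matrix.det_mul, h0, zero_mul, Matrix.det_one] at h3
      exact zero_ne_one h3
    have hcyv : cyv ϑ σ⁻¹ = (p : Ω) ^ k := by
      unfold cyv
      rw [inv_inv, hCYC F F l p hp (Ne.symm hlp) 𝔓 hP k σ hσ, map_pow, map_natCast]
    have hα0 : ∀ i x, α i x ≠ 0 := fun i x => DNEw.root_ne_zero _ _ (hdet0 i) (hR i).2 x
    have hJdet : ∀ i, J i ≠ 0 → (jm Ω J i).det ≠ 0 := by
      intro i h0 hd
      have h1 := ((hJ i).2.resolve_left h0).1
      have h3 := congrArg (fun M => Matrix.map M (Int.castRingHom Ω)) h1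
      rw [Matrix.map_mul, Matrix.transpose_map] at h3
      have h4 := congrArg Matrix.det h3
      have h5 : ((J i).map (Int.castRingHom Ω)).det = 0 := hd
      rw [Matrix.det_mul, h5, zero_mul, Matrix.map_one _ (map_zero _) (map_one _),
        Matrix.det_one] at h4
      exact zero_ne_one h4
    have hq : ∀ i, cyv ϑ σ⁻¹ ^ w i = (p : Ω) ^ (k * w i) := fun i => by
      rw [hcyv, ← pow_mul]
    have h1 := norel_pow (fun i => J i = 0) (fun i => (p : Ω) ^ (k * w i)) α f D hVi hα0
      (fun i hi x => DNEw.partner (R i σ⁻¹) (jm Ω J i) _ (α i) (hdet0 i) (hJdet i hi) (by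
        rw [← hq]
        exact (hF i l Ω ϑ ι (R i) (hR i).1 σ⁻¹).1) (hR i).2 x)
      (fun i hi s hs => by
        rw [← det_prod _ _ (hR i).2, ← hq]
        exact (hF i l Ω ϑ ι (R i) (hR i).1 σ⁻¹).2 hi s hs) hN
    have h2 : (fun i => (p : Ω) ^ (k * f * w i)) = fun i => ((p : Ω) ^ (k * w i)) ^ f := by
      funext i
      rw [← pow_mul]
      congr 1
      ring
    rw [h2]
    exact h1

end REC
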