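import Pool.Agent.Helper85.REC.Stmts6

/-!
# Reciprocity, part 8a: irreducible motives of rank two
Proofs: /team-store/rec_blueprint8a.md   [helper85]
-/

set_option autoImplicit false

open scoped Classical
open NumberField Polynomial

namespace REC

open Pool.Agent.Helper13.ZL (Pl q)
open MU

/-- INL: the cyclotomic character modulo `l` on the inertia groups over large primes `l`. -/
def ST_INL : Prop :=
  ∀ (F : Type) [Field F] [NumberField F] (K : ℕ), 0 < K → ∃ c : ℕ, ∀ (l : ℕ) [Fact l.Prime],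
    c < l → ∀ 𝔓 : Ideal (Zb F), Over l 𝔓 → ∃ σ : Gal F, CongPow 𝔓 1 σ ∧
      (PadicInt.toZMod ((cyc l F σ : ℤ_[l]ˣ) : ℤ_[l])) ^ K ≠ 1

/-- TRP: polynomial identities between the coefficients of the characteristic polynomials on an
open set are independent of `l` (from FRB). -/
def ST_TRP : Prop :=
  ∀ (F : Type) [Field F] [NumberField F] (S : Finset ℕ), (∀ p ∈ S, p.Prime) →
    ∀ (n w : ℕ) (h : Fin n → ℕ) (M : Mot F S n w h) (U : Set (Gal F)), IsOpen U →
    ∀ (Q : MvPolynomial ℕ ℤ) (l₀ l : ℕ) [Fact l₀.Prime] [Fact l.Prime],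
      (∀ σ ∈ U, MvPolynomial.aeval (fun i => ((M.ρ l₀ σ : Matrix.GeneralLinearGroup (Fin n) ℤ_[l₀]) :
        Matrix (Fin n) (Fin n) ℤ_[l₀]).charpoly.coeff i) Q = 0) →
      ∀ σ ∈ U, MvPolynomial.aeval (fun i => ((M.ρ l σ : Matrix.GeneralLinearGroup (Fin n) ℤ_[l]) :
        Matrix (Fin n) (Fin n) ℤ_[l]).charpoly.coeff i) Q = 0

/-- CL2: Clifford's theorem for an invariant line in rank two. -/
def ST_CL2 : Prop :=
  ∀ (G K : Type) [Group G] [Field K] (r : G →* Matrix (Fin 2) (Fin 2) K) (H : Subgroup G),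
    H.Normal → IsIrr r →
    ∀ (B : Matrix (Fin 2) (Fin 1) K) (A : H → Matrix (Fin 1) (Fin 1) K),
      IsSub (r.comp H.subtype) B A →
      (∃ G' : Subgroup G, H ≤ G' ∧ G' ≠ ⊤ ∧ ∀ g : G, g ∉ G' → (r g).trace = 0) ∨
      ∀ g ∈ H, (r g).trace ^ 2 = 4 * (r g).det

/-- IRB: irreducible motives of rank two are residually irreducible for almost all `l`
(from RLN, REL1, HS2, LIN0, TRP, INL, CL2). -/
def ST_IRB : Prop :=
  ∀ (F : Type) [Field F] [NumberField F] (S : Finset ℕ), (∀ p ∈ S, p.Prime) →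
    ∀ (w : ℕ) (h : Fin 2 → ℕ) (M : Mot F S 2 w h), h 0 ≠ h 1 →
      (∀ (l : ℕ) [Fact l.Prime], IsIrr (rat (M.ρ l))) → Reg0 M

end REC
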