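import Pool.Agent.Helper85.REC.Stmts7
import Pool.Agent.Helper85.REC.Stmts8

/-!
# Reciprocity, part 8b: irreducible motives of rank three
Proofs: /team-store/rec_blueprint8b.md   [helper85]
-/

set_option autoImplicit false

open scoped Classical
open NumberField Polynomial

namespace REC

open Pool.Agent.Helper13.ZL (Pl q)
open MU

/-! ## A. Orthogonal groups in three variables -/

/-- `ψ` is a nondegenerate symmetric form, and `r` preserves it up to the factors `ν` -/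
def IsForm {G K : Type} [Group G] [Field K] {n : ℕ} (r : G →* Matrix (Fin n) (Fin n) K)
    (ψ : Matrix (Fin n) (Fin n) K) (ν : G → K) : Prop :=
  ψ.det ≠ 0 ∧ ψ.transpose = ψ ∧ ∀ g, (r g).transpose * ψ * r g = ν g • ψ

/-- the representation over a larger field -/
def mapk {G K k : Type} [Group G] [Field K] [Field k] {n : ℕ} (κ : K →+* k)
    (r : G →* Matrix (Fin n) (Fin n) K) : G →* Matrix (Fin n) (Fin n) k :=
  (κ.mapMatrix (m := Fin n)).toMonoidHom.comp r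

/-- SYM: a motive of odd rank, irreducible at `l`, is orthogonal at `l` (from FRB). -/
def ST_SYM : Prop :=
  ∀ (F : Type) [Field F] [NumberField F] (S : Finset ℕ), (∀ p ∈ S, p.Prime) →
    ∀ (n w : ℕ) (h : Fin n → ℕ) (M : Mot F S n w h), Odd n →
    ∀ (l : ℕ) [Fact l.Prime], IsIrr (rat (M.ρ l)) →
      ∃ ψ : Matrix (Fin n) (Fin n) ℚ_[l], IsForm (rat (M.ρ l)) ψ
        (fun g => ((((cyc l F g)⁻¹ : ℤ_[l]ˣ) : ℤ_[l]) : ℚ_[l]) ^ w)

/-- MXL: maximal integral lattices for a symmetric form. -/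
def ST_MXL : Prop :=
  ∀ (G : Type) [Group G] (n l : ℕ) [Fact l.Prime], 0 < n →
    ∀ (r : G →* Matrix.GeneralLinearGroup (Fin n) ℤ_[l]) (ψ : Matrix (Fin n) (Fin n) ℚ_[l])
      (ν : G → ℚ_[l]), IsForm (rat r) ψ ν →
    ∃ (r' : G →* Matrix.GeneralLinearGroup (Fin n) ℤ_[l]) (Ψ X : Matrix (Fin n) (Fin n) ℤ_[l])
      (ν' : G → ℤ_[l]), EqvQ r r' ∧ Ψ.transpose = Ψ ∧ X.transpose = X ∧
      Ψ * X = (l : ℤ_[l]) • (1 : Matrix (Fin n) (Fin n) ℤ_[l]) ∧ (∀ g, (ν' g : ℚ_[l]) = ν g) ∧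
      (∀ g, (r' g : Matrix (Fin n) (Fin n) ℤ_[l]).transpose * Ψ * r' g = ν' g • Ψ) ∧
      ∀ g, (r' g : Matrix (Fin n) (Fin n) ℤ_[l]) * X * (r' g : Matrix (Fin n) (Fin n) ℤ_[l]).transpose
        = ν' g • X

/-- RS3: reducible residual representations in rank three. Either all constituents are characters
over `k`, or there are a character `χ` and a subgroup `G'` of index two (one plus dihedral). -/
def ST_RS3 : Prop :=
  ∀ (G : Type) [Group G] (K k : Type) [Field K] [Field k] [IsAlgClosed k] (κ : K →+* k)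
    (r : G →* Matrix (Fin 3) (Fin 3) K) (Ψ X : Matrix (Fin 3) (Fin 3) K) (ν : G → K),
    (2 : K) ≠ 0 → Ψ.transpose = Ψ → X.transpose = X → Ψ * X = 0 → Ψ.rank + X.rank = 3 →
    (∀ g, (r g).transpose * Ψ * r g = ν g • Ψ) → (∀ g, r g * X * (r g).transpose = ν g • X) →
    ¬ IsIrr r →
    (∃ (B₁ : Matrix (Fin 3) (Fin 1) k) (A₁ : G → Matrix (Fin 1) (Fin 1) k)
      (B₂ : Matrix (Fin 3) (Fin 2) k) (A₂ : G → Matrix (Fin 2) (Fin 2) k)
      (Y : Matrix (Fin 2) (Fin 1) k), IsSub (mapk κ r) B₁ A₁ ∧ IsSub (mapk κ r) B₂ A₂ ∧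
        B₁ = B₂ * Y) ∨
    ∃ (G' : Subgroup G) (χ : G → K), G'.index = 2 ∧ (∀ g, r g = 1 → g ∈ G') ∧
      (∀ g, χ g ^ 2 = ν g) ∧
      (∀ g, g ∉ G' → (r g).charpoly = (Polynomial.X : K[X]) ^ 3 - C (χ g) * (Polynomial.X : K[X]) ^ 2 - C (χ g ^ 2) * (Polynomial.X : K[X]) + C (χ g ^ 3)) ∧
      ((∃ (B : Matrix (Fin 3) (Fin 1) K) (A : G → Matrix (Fin 1) (Fin 1) K), IsSub r B A ∧
          ∀ g, (A g).det = χ g) ∨
        ∃ (B : Matrix (Fin 3) (Fin 2) K) (A : G → Matrix (Fin 2) (Fin 2) K), IsSub r B A ∧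
          ∀ g, (A g).det * χ g = (r g).det)

/-- INV3: a subgroup of index two whose complement consists of involutions (up to scalars). -/
def ST_INV3 : Prop :=
  ∀ (G K : Type) [Group G] [Field K], (2 : K) ≠ 0 → ∀ (r : G →* Matrix (Fin 3) (Fin 3) K)
    (ψ : Matrix (Fin 3) (Fin 3) K) (ν : G → K), IsForm r ψ ν →
    ∀ G' : Subgroup G, G'.index = 2 →
      (∀ g, g ∉ G' → (r g).charpoly.coeff 1 = -(r g).charpoly.coeff 2 ^ 2 ∧
        (r g).charpoly.coeff 0 = -(r g).charpoly.coeff 2 ^ 3) → ¬ IsIrr r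

/-- CL3: Clifford's theorem for an invariant line in an orthogonal representation. -/
def ST_CL3 : Prop :=
  ∀ (G K : Type) [Group G] [Field K], (2 : K) ≠ 0 → ∀ (r : G →* Matrix (Fin 3) (Fin 3) K)
    (ψ : Matrix (Fin 3) (Fin 3) K) (ν : G → K), IsForm r ψ ν → IsIrr r →
    ∀ (H : Subgroup G), H.Normal → ∀ (B : Matrix (Fin 3) (Fin 1) K)
      (A : H → Matrix (Fin 1) (Fin 1) K), IsSub (r.comp H.subtype) B A →
      ∀ g ∈ H, r g * r g = ν g • (1 : Matrix (Fin 3) (Fin 3) K)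

/-- GO3: the group lemma in rank three. If the eigenvalues of all `N`-th powers are in `ℚ_l`, then an
open subgroup has a stable line. -/
def ST_GO3 : Prop :=
  ∀ (l : ℕ) [Fact l.Prime] (Γ : Type) [Group Γ] [TopologicalSpace Γ] [IsTopologicalGroup Γ]
    (r : Γ →* Matrix.GeneralLinearGroup (Fin 3) ℤ_[l]), Continuous r →
    ∀ ψ : Matrix (Fin 3) (Fin 3) ℚ_[l], IsForm (rat r) ψ (fun _ => 1) →
    (∀ g, (r g : Matrix (Fin 3) (Fin 3) ℤ_[l]).det = 1) → ∀ N : ℕ, 0 < N →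
    (∀ g, IsSquare ((((r g : Matrix (Fin 3) (Fin 3) ℤ_[l]) ^ N).trace - 3) *
      (((r g : Matrix (Fin 3) (Fin 3) ℤ_[l]) ^ N).trace + 1))) →
    ∃ H : Subgroup Γ, IsOpen (H : Set Γ) ∧ ∃ (B : Matrix (Fin 3) (Fin 1) ℚ_[l])
      (A : H → Matrix (Fin 1) (Fin 1) ℚ_[l]), IsSub ((rat r).comp H.subtype) B A

/-! ## B. Residual data -/

variable {F : Type} [Field F] [NumberField F] {S : Finset ℕ} {n w : ℕ} {h : Fin n → ℕ}

/-- the product of the conjugates of `u` over the place `v`, with exponents `e` -/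
noncomputable def tmp {k : Type} [Field k] (ι : 𝓞 (AlgebraicClosure F) →+* k) (v : Pl F)
    (e : (F →+* AlgebraicClosure F) → ℕ) (u : 𝓞 F) : k :=
  ∏ τ : F →+* AlgebraicClosure F,
    if RingHom.ker (ι.comp (RingOfIntegers.mapRingHom τ)) = v.asIdeal then
      ι (RingOfIntegers.mapRingHom τ u) ^ e τ else 1

/-- The theory of Fontaine and Laffaille for all stable lattices `ρ'` in the `l`-adic realization
(`l` large) and all stable subspaces `U` (columns of `B`) of the reduction modulo `l`: on inertia the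
determinant is a power of the cyclotomic character; for subspaces `U ⊆ U'` of the reduction over a
field `k ⊇ 𝔽_l` the determinants are products of conjugates of the tame character. The exponents
are given by Hodge types. -/
def FLT (M : Mot F S n w h) : Prop :=
  ∃ c : ℕ, ∀ (l : ℕ) [Fact l.Prime], c < l →
    ∀ ρ' : Gal F →* Matrix.GeneralLinearGroup (Fin n) ℤ_[l], EqvQ (M.ρ l) ρ' →
    (∀ (m : ℕ) (B : Matrix (Fin n) (Fin m) (ZMod l)) (A : Gal F → Matrix (Fin m) (Fin m) (ZMod l)),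
      IsSub (res ρ') B A → ∀ 𝔓 : Ideal (Zb F), Over l 𝔓 →
      ∃ J : Finset (Fin n), J.card = m ∧ ∀ σ : Gal F, CongPow 𝔓 1 σ →
        (A σ).det * (PadicInt.toZMod ((cyc l F σ : ℤ_[l]ˣ) : ℤ_[l])) ^ (∑ j ∈ J, h j) = 1) ∧
    ∀ (k : Type) [Field k] (κ : ZMod l →+* k) (ι : 𝓞 (AlgebraicClosure F) →+* k) (m m' : ℕ)
      (B : Matrix (Fin n) (Fin m) k) (A : Gal F → Matrix (Fin m) (Fin m) k)
      (B' : Matrix (Fin n) (Fin m') k) (A' : Gal F → Matrix (Fin m') (Fin m') k)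
      (Y : Matrix (Fin m') (Fin m) k), IsSub (mapk κ (res ρ')) B A → IsSub (mapk κ (res ρ')) B' A' →
      B = B' * Y → ∀ v : Pl F, (l : 𝓞 F) ∈ v.asIdeal →
      ∃ J J' : (F →+* AlgebraicClosure F) → Finset (Fin n),
        (∀ τ, J τ ⊆ J' τ ∧ (J τ).card = m ∧ (J' τ).card = m') ∧
        ∀ (π : 𝓞 F), π ∈ v.asIdeal → π ∉ v.asIdeal ^ 2 → ∀ 𝔓 : Ideal (Zb F), OverP v 𝔓 →
          ∀ σ : Gal F, CongPow 𝔓 1 σ → ∀ u : 𝓞 F, u ∉ v.asIdeal → Tm v 𝔓 π σ u →
            (A σ).det * tmp ι v (fun τ => ∑ j ∈ J τ, h j) u = 1 ∧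
            (A' σ).det * tmp ι v (fun τ => ∑ j ∈ J' τ, h j) u = 1

/-- The residual representation at `l` has over `k` the characters `δ i` as constituents; on
inertia they are given by the Hodge types. -/
def FDat (M : Mot F S n w h) (l : ℕ) [Fact l.Prime] : Prop :=
  ∃ (k : Type) (_ : Field k) (κ : ZMod l →+* k) (ι : 𝓞 (AlgebraicClosure F) →+* k)
    (δ : Fin n → Gal F →* kˣ) (e : Fin n → (F →+* AlgebraicClosure F) → ℕ),
    (∀ τ, ∃ s : Equiv.Perm (Fin n), ∀ i, e i τ = h (s i)) ∧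
    (∀ i, IsOpen ((δ i).ker : Set (Gal F))) ∧
    (∀ i (v : Pl F), (l : 𝓞 F) ∉ v.asIdeal → Unr (δ i) v) ∧
    (∀ i (v : Pl F), (l : 𝓞 F) ∈ v.asIdeal → ∀ (π : 𝓞 F), π ∈ v.asIdeal → π ∉ v.asIdeal ^ 2 →
      ∀ 𝔓 : Ideal (Zb F), OverP v 𝔓 → ∀ σ : Gal F, CongPow 𝔓 1 σ → ∀ u : 𝓞 F, u ∉ v.asIdeal →
        Tm v 𝔓 π σ u → ((δ i σ : kˣ) : k) * tmp ι v (e i) u = 1) ∧
    ∀ g : Gal F, (res (M.ρ l) g).charpoly.map κ = ∏ i, (Polynomial.X - C ((δ i g : kˣ) : k))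

/-- The other case: outside a subgroup of index two, unramified everywhere, the residual
representation at `l` consists of involutions up to scalars. -/
def EDat (M : Mot F S n w h) (l : ℕ) [Fact l.Prime] : Prop :=
  ∃ G' : Subgroup (Gal F), IsOpen (G' : Set (Gal F)) ∧ G'.index = 2 ∧
    (∀ p : ℕ, p.Prime → ∀ 𝔓 : Ideal (Zb F), Over p 𝔓 → ∀ σ : Gal F, CongPow 𝔓 1 σ → σ ∈ G') ∧
    ∀ σ : Gal F, σ ∉ G' →
      (res (M.ρ l) σ).charpoly.coeff 1 = -(res (M.ρ l) σ).charpoly.coeff 2 ^ 2 ∧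
      (res (M.ρ l) σ).charpoly.coeff 0 = -(res (M.ρ l) σ).charpoly.coeff 2 ^ 3

/-- DAT: the two cases (from SYM, MXL, RS3, INL, OVP). -/
def ST_DAT : Prop :=
  ∀ (F : Type) [Field F] [NumberField F] (S : Finset ℕ), (∀ p ∈ S, p.Prime) →
    ∀ (w : ℕ) (h : Fin 3 → ℕ) (M : Mot F S 3 w h), Function.Injective h →
      (∀ i, ∃ j, h i + h j = w) → FLT M → (∀ (l : ℕ) [Fact l.Prime], IsIrr (rat (M.ρ l))) →
      ∃ c : ℕ, ∀ (l : ℕ) [Fact l.Prime], c < l → ¬ IsIrr (res (M.ρ l)) → FDat M l ∨ EDat M l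

/-! ## C. Global arguments -/

/-- TRM: polynomial identities modulo infinitely many `l` between the coefficients of the
characteristic polynomials on an open set (from FRB). -/
def ST_TRM : Prop :=
  ∀ (F : Type) [Field F] [NumberField F] (S : Finset ℕ), (∀ p ∈ S, p.Prime) →
    ∀ (n w : ℕ) (h : Fin n → ℕ) (M : Mot F S n w h) (U : Set (Gal F)), IsOpen U →
    ∀ Q : MvPolynomial ℕ ℤ, (∀ c : ℕ, ∃ (l : ℕ) (_ : Fact l.Prime), c < l ∧
      ∀ σ ∈ U, MvPolynomial.aeval (fun i => (res (M.ρ l) σ).charpoly.coeff i) Q = 0) →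
    ∀ (l : ℕ) [Fact l.Prime], ∀ σ ∈ U, MvPolynomial.aeval
      (fun i => ((M.ρ l σ : Matrix.GeneralLinearGroup (Fin n) ℤ_[l]) :
        Matrix (Fin n) (Fin n) ℤ_[l]).charpoly.coeff i) Q = 0

/-- PIN: different exponents give different values. -/
def ST_PIN : Prop :=
  ∀ (F L : Type) [Field F] [NumberField F] [Field L] [NumberField L] [IsGalois ℚ L]
    (e e' : (F →+* L) → ℕ), e ≠ e' → ∀ (m c : ℕ), 0 < m →
    ∃ (p : ℕ) (v : Pl F), p.Prime ∧ c < p ∧ (p : 𝓞 F) ∈ v.asIdeal ∧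
      ∀ x : 𝓞 F, Ideal.span {x} = v.asIdeal ^ m →
        ∏ τ : F →+* L, RingOfIntegers.mapRingHom τ x ^ e τ ≠
          ∏ τ : F →+* L, RingOfIntegers.mapRingHom τ x ^ e' τ

/-- CNV: embeddings in `L` and in the algebraic closure. -/
def ST_CNV : Prop :=
  ∀ (F L : Type) [Field F] [NumberField F] [Field L] [NumberField L] [IsGalois ℚ L]
    [Nonempty (F →+* L)], ∃ j : L →+* AlgebraicClosure F,
      Function.Bijective (fun τ : F →+* L => j.comp τ)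

/-- The exact relation: if `(x) = v ^ m`, `x` totally positive, then the numbers
`∏ τ, τ x ^ (e i τ)` are the eigenvalues of the `m`-th power of the geometric Frobenius at `v` (and
the same for the `j`-th powers). -/
def RelF (M : Mot F S n w h) (L : Type) [Field L] [NumberField L] (e : Fin n → (F →+* L) → ℕ) :
    Prop :=
  (∀ τ, ∃ s : Equiv.Perm (Fin n), ∀ i, e i τ = h (s i)) ∧ ∃ S' : Finset ℕ, S ⊆ S' ∧
    ∀ (v : Pl F) (p : ℕ) (𝔓 : Ideal (Zb F)) (j m : ℕ) (σ : Gal F) (x : 𝓞 F) (P : ℤ[X]),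
      p.Prime → p ∉ S' → (p : 𝓞 F) ∈ v.asIdeal → OverP v 𝔓 → 0 < j → 0 < m →
      CongPow 𝔓 (q v ^ j) σ → TotPos (x : F) → Ideal.span {x} = v.asIdeal ^ m →
      (∀ (l : ℕ) [Fact l.Prime], l ≠ p →
        (((M.ρ l (σ ^ m))⁻¹ : Matrix.GeneralLinearGroup (Fin n) ℤ_[l]) :
          Matrix (Fin n) (Fin n) ℤ_[l]).charpoly = P.map (Int.castRingHom ℤ_[l])) →
      P.map (Int.castRingHom (𝓞 L)) =
        ∏ i, (Polynomial.X - C (∏ τ : F →+* L, RingOfIntegers.mapRingHom τ x ^ (e i τ * j)))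

/-- REL3: the exact relation from the data at infinitely many `l` (from LART, EV, FRV, CNV). -/
def ST_REL3 : Prop :=
  ∀ (F L : Type) [Field F] [NumberField F] [Field L] [NumberField L] [IsGalois ℚ L]
    [Nonempty (F →+* L)] (S : Finset ℕ), (∀ p ∈ S, p.Prime) →
    ∀ (n w : ℕ) (h : Fin n → ℕ) (M : Mot F S n w h),
      (∀ c : ℕ, ∃ (l : ℕ) (_ : Fact l.Prime), c < l ∧ FDat M l) →
      ∃ e : Fin n → (F →+* L) → ℕ, RelF M L e

/-- LIN3: the exact relation gives a line stable under an open subgroup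
(from SPQ, FRB, OVP, SYM, GO3). -/
def ST_LIN3 : Prop :=
  ∀ (F L : Type) [Field F] [NumberField F] [Field L] [NumberField L] [IsGalois ℚ L]
    [Nonempty (F →+* L)] (S : Finset ℕ), (∀ p ∈ S, p.Prime) →
    ∀ (w : ℕ) (h : Fin 3 → ℕ) (M : Mot F S 3 w h) (e : Fin 3 → (F →+* L) → ℕ), RelF M L e →
      (∀ (l : ℕ) [Fact l.Prime], IsIrr (rat (M.ρ l))) →
      ∃ (l : ℕ) (_ : Fact l.Prime) (H : Subgroup (Gal F)), IsOpen (H : Set (Gal F)) ∧
        ∃ (B : Matrix (Fin 3) (Fin 1) ℚ_[l]) (A : H → Matrix (Fin 1) (Fin 1) ℚ_[l]),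
          IsSub ((rat (M.ρ l)).comp H.subtype) B A

/-- NFD: the first case occurs for finitely many `l` only (from REL3, LIN3, SYM, CL3, PIN, OVP). -/
def ST_NFD : Prop :=
  ∀ (F : Type) [Field F] [NumberField F] (S : Finset ℕ), (∀ p ∈ S, p.Prime) →
    ∀ (w : ℕ) (h : Fin 3 → ℕ) (M : Mot F S 3 w h), Function.Injective h →
      (∀ (l : ℕ) [Fact l.Prime], IsIrr (rat (M.ρ l))) →
      ∃ c : ℕ, ∀ (l : ℕ) [Fact l.Prime], c < l → ¬ FDat M l

/-- NED: the second case occurs for finitely many `l` only (from TRM, INV3, SYM, `MU.ST_HER`). -/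
def ST_NED : Prop :=
  ∀ (F : Type) [Field F] [NumberField F] (S : Finset ℕ), (∀ p ∈ S, p.Prime) →
    ∀ (w : ℕ) (h : Fin 3 → ℕ) (M : Mot F S 3 w h),
      (∀ (l : ℕ) [Fact l.Prime], IsIrr (rat (M.ρ l))) →
      ∃ c : ℕ, ∀ (l : ℕ) [Fact l.Prime], c < l → ¬ EDat M l

/-- IR3: irreducible motives of rank three (from DAT, NFD, NED). -/
def ST_IR3 : Prop :=
  ∀ (F : Type) [Field F] [NumberField F] (S : Finset ℕ), (∀ p ∈ S, p.Prime) →
    ∀ (w : ℕ) (h : Fin 3 → ℕ) (M : Mot F S 3 w h), Function.Injective h →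
      (∀ i, ∃ j, h i + h j = w) → FLT M → (∀ (l : ℕ) [Fact l.Prime], IsIrr (rat (M.ρ l))) →
      Reg0 M

end REC
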