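import Pool.Agent.Helper57.REC.Stmts6b
import Pool.Agent.Helper85.REC.Stmts9

/-!
# Reciprocity, part 9: direct sums of motives of rank at most three
Proofs: /team-store/rec_blueprint9.md   [helper85]
-/

set_option autoImplicit false

open scoped Classical
open NumberField Polynomial

namespace REC

open Pool.Agent.Helper13.ZL (Pl q)
open MU

/-! ## A. Finiteness for semisimple motives with liftable reductions -/

/-- every stable subspace (with basis the columns of `B`) of the reduction modulo `l` is the image of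
the reduction of an idempotent which commutes with `r` -/
def Cpl {G : Type} [Group G] {n l : ℕ} [Fact l.Prime]
    (r : G →* Matrix.GeneralLinearGroup (Fin n) ℤ_[l]) : Prop :=
  ∀ (m : ℕ) (B : Matrix (Fin n) (Fin m) (ZMod l)) (A : G → Matrix (Fin m) (Fin m) (ZMod l)),
    IsSub (res r) B A → ∃ (e : Matrix (Fin n) (Fin n) ℤ_[l]) (D : Matrix (Fin m) (Fin n) (ZMod l)),
      e * e = e ∧ (∀ g, e * (r g : Matrix (Fin n) (Fin n) ℤ_[l]) = r g * e) ∧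
      e.map (PadicInt.toZMod (p := l)) = B * D ∧ D * B = 1

section

variable {F : Type} [Field F] [NumberField F] {S : Finset ℕ} {n w : ℕ} {h : Fin n → ℕ}

/-- completely reducible rational realizations, and almost all reductions are liftable -/
def Reg2 (M : Mot F S n w h) : Prop :=
  (∀ (l : ℕ) [Fact l.Prime], IsSS (rat (M.ρ l))) ∧
  ∃ c : ℕ, ∀ (l : ℕ) [Fact l.Prime], c < l → Cpl (M.ρ l)

end

/-- UNQ: one class of lattices if the reduction is liftable. -/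
def ST_UNQ : Prop :=
  ∀ (G : Type) [Group G] (n l : ℕ) [Fact l.Prime]
    (r : G →* Matrix.GeneralLinearGroup (Fin n) ℤ_[l]), Cpl r →
    ∀ (s : G →* Matrix.GeneralLinearGroup (Fin n) ℤ_[l])
      (g : Matrix.GeneralLinearGroup (Fin n) ℚ_[l]),
      (∀ x, (g : Matrix (Fin n) (Fin n) ℚ_[l]) * rat s x = rat r x * g) →
      ∃ (a : Matrix.GeneralLinearGroup (Fin n) ℚ_[l]) (u : Matrix.GeneralLinearGroup (Fin n) ℤ_[l]),
        (∀ x, (a : Matrix (Fin n) (Fin n) ℚ_[l]) * rat r x = rat r x * a) ∧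
        (g : Matrix (Fin n) (Fin n) ℚ_[l]) =
          a * (u : Matrix (Fin n) (Fin n) ℤ_[l]).map (algebraMap ℤ_[l] ℚ_[l])

/-- finitely many classes of stable lattices; `X` acts on `V` by the maps `ρ x` -/
def FinL (O : Type) [CommRing O] {K V X : Type} [Field K] [Algebra O K] [AddCommGroup V]
    [Module K V] [Module O V] [IsScalarTower O K V] (ρ : X → V →ₗ[K] V) : Prop :=
  ∃ T : Set (Submodule O V), T.Finite ∧ ∀ Λ : Submodule O V, Λ.FG →
    Submodule.span K (Λ : Set V) = ⊤ → (∀ x, ∀ v ∈ Λ, ρ x v ∈ Λ) →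
    ∃ f : V ≃ₗ[K] V, (∀ x v, f (ρ x v) = ρ x (f v)) ∧
      Λ.map ((f : V →ₗ[K] V).restrictScalars O) ∈ T

/-- EXT: lattices in a direct sum. -/
def ST_EXT : Prop :=
  ∀ (O K V₁ V₂ X : Type) [CommRing O] [IsDomain O] [IsPrincipalIdealRing O] [Field K] [Algebra O K]
    [IsFractionRing O K] [AddCommGroup V₁] [Module K V₁] [Module O V₁] [IsScalarTower O K V₁]
    [FiniteDimensional K V₁] [AddCommGroup V₂] [Module K V₂] [Module O V₂] [IsScalarTower O K V₂]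
    [FiniteDimensional K V₂], (∀ a : O, a ≠ 0 → Finite (O ⧸ Ideal.span {a})) →
    ∀ (ρ₁ : X → V₁ →ₗ[K] V₁) (ρ₂ : X → V₂ →ₗ[K] V₂), FinL O ρ₁ → FinL O ρ₂ →
      FinL O (fun x => (ρ₁ x).prodMap (ρ₂ x))

/-- CRD: lattices in completely reducible modules (from EXT). -/
def ST_CRD : Prop :=
  ∀ (O K V X : Type) [CommRing O] [IsDomain O] [IsPrincipalIdealRing O] [Field K] [Algebra O K]
    [IsFractionRing O K] [AddCommGroup V] [Module K V] [Module O V] [IsScalarTower O K V]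
    [FiniteDimensional K V], (∀ a : O, a ≠ 0 → Finite (O ⧸ Ideal.span {a})) →
    ∀ (ρ : X → V →ₗ[K] V),
      (∀ W : Submodule K V, (∀ x, ∀ v ∈ W, ρ x v ∈ W) →
        ∃ W' : Submodule K V, (∀ x, ∀ v ∈ W', ρ x v ∈ W') ∧ IsCompl W W') →
      (∀ (W : Submodule K V) (hW : ∀ x, ∀ v ∈ W, ρ x v ∈ W),
        (∀ W' : Submodule K V, (∀ x, ∀ v ∈ W', ρ x v ∈ W') → W' ≤ W → W' = ⊥ ∨ W' = W) →
        FinL O (fun x => (ρ x).restrict (hW x))) →
      FinL O ρ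

/-- JZD: lattices in a division algebra, up to right multiplication. -/
def ST_JZD : Prop :=
  ∀ (D : Type) [DivisionRing D] [Algebra ℚ D] [FiniteDimensional ℚ D] (Γ : Subring D),
    Submodule.FG (AddSubgroup.toIntSubmodule Γ.toAddSubgroup) →
    Submodule.span ℚ (Γ : Set D) = ⊤ →
    ∃ T : Set (Submodule ℤ D), T.Finite ∧ ∀ J : Submodule ℤ D, J.FG →
      Submodule.span ℚ (J : Set D) = ⊤ → (∀ γ ∈ Γ, ∀ x ∈ J, γ * x ∈ J) →
      ∃ d : D, d ≠ 0 ∧ J.map (LinearMap.mulRight ℤ d) ∈ T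

/-- JZS: lattices in irreducible modules over `ℚ` (from JZD). -/
def ST_JZS : Prop :=
  ∀ (V X : Type) [AddCommGroup V] [Module ℚ V] [FiniteDimensional ℚ V] (ρ : X → V →ₗ[ℚ] V),
    (∀ W : Submodule ℚ V, (∀ x, ∀ v ∈ W, ρ x v ∈ W) → W = ⊥ ∨ W = ⊤) → FinL ℤ ρ

/-- LTS: finitely many classes of lattices in a completely reducible representation
(from CRD, LTH). -/
def ST_LTS : Prop :=
  ∀ (G : Type) [Group G] (n l : ℕ) [Fact l.Prime]
    (r : G →* Matrix.GeneralLinearGroup (Fin n) ℤ_[l]), IsSS (rat r) →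
    ∃ T : Finset (Matrix.GeneralLinearGroup (Fin n) ℚ_[l]),
      ∀ (s : G →* Matrix.GeneralLinearGroup (Fin n) ℤ_[l])
        (g : Matrix.GeneralLinearGroup (Fin n) ℚ_[l]),
        (∀ x, (g : Matrix (Fin n) (Fin n) ℚ_[l]) * rat s x = rat r x * g) →
        ∃ t ∈ T, ∃ (a : Matrix.GeneralLinearGroup (Fin n) ℚ_[l])
          (u : Matrix.GeneralLinearGroup (Fin n) ℤ_[l]),
          (∀ x, (a : Matrix (Fin n) (Fin n) ℚ_[l]) * rat r x = rat r x * a) ∧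
          (g : Matrix (Fin n) (Fin n) ℚ_[l]) =
            a * t * (u : Matrix (Fin n) (Fin n) ℤ_[l]).map (algebraMap ℤ_[l] ℚ_[l])

/-- SEM: completely reducible representations with the same trace are isomorphic. -/
def ST_SEM : Prop :=
  ∀ (G K : Type) [Group G] [Field K] [CharZero K] (n : ℕ) (r s : G →* Matrix (Fin n) (Fin n) K),
    IsSS r → IsSS s → (∀ g, (r g).trace = (s g).trace) →
    ∃ u : Matrix.GeneralLinearGroup (Fin n) K, ∀ g, (u : Matrix (Fin n) (Fin n) K) * r g = s g * u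

/-- ADE2: finitely many adelic realizations (from SEM, LTS, UNQ). -/
def ST_ADE2 : Prop :=
  ∀ (F : Type) [Field F] [NumberField F] (S : Finset ℕ), (∀ p ∈ S, p.Prime) →
    ∀ (n w : ℕ) (h : Fin n → ℕ), ∃ (κ : Type) (_ : Finite κ) (col : Mot F S n w h → κ),
      ∀ M M' : Mot F S n w h, Reg2 M → Reg2 M' → col M = col M' → M.AdelicIso M'

/-- integral matrices -/
def Itg {n : ℕ} (x : Matrix (Fin n) (Fin n) ℚ) : Prop :=
  ∃ z : Matrix (Fin n) (Fin n) ℤ, x = z.map (algebraMap ℤ ℚ)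

/-- JZ: the theorem of Jordan and Zassenhaus (from CRD, JZS), for the lattices `g ℤ^n` stable under `N` times the
integral elements of a subalgebra `B` for which `ℚ^n` is completely reducible. -/
def ST_JZ : Prop :=
  ∀ (n : ℕ) (B : Subalgebra ℚ (Matrix (Fin n) (Fin n) ℚ)),
    (∀ W : Submodule ℚ (Fin n → ℚ), (∀ b ∈ B, ∀ x ∈ W, Matrix.mulVec b x ∈ W) →
      ∃ e : Matrix (Fin n) (Fin n) ℚ, (∀ b ∈ B, e * b = b * e) ∧ (∀ x, e.mulVec x ∈ W) ∧
        ∀ x ∈ W, e.mulVec x = x) →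
    ∀ N : ℕ, 0 < N → ∃ T : Finset (Matrix.GeneralLinearGroup (Fin n) ℚ),
      ∀ g : Matrix.GeneralLinearGroup (Fin n) ℚ,
        (∀ b ∈ B, Itg b → Itg ((N : ℚ) •
          (((g⁻¹ : Matrix.GeneralLinearGroup (Fin n) ℚ) : Matrix (Fin n) (Fin n) ℚ) * b *
            (g : Matrix (Fin n) (Fin n) ℚ)))) →
        ∃ t ∈ T, ∃ (a : Matrix.GeneralLinearGroup (Fin n) ℚ)
          (u : Matrix.GeneralLinearGroup (Fin n) ℤ),
          (∀ b ∈ B, (a : Matrix (Fin n) (Fin n) ℚ) * b = b * a) ∧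
          (g : Matrix (Fin n) (Fin n) ℚ) =
            a * t * (u : Matrix (Fin n) (Fin n) ℤ).map (algebraMap ℤ ℚ)

/-- ISO2: finitely many isomorphism classes in an isogeny class (from JZ, LTS, UNQ). -/
def ST_ISO2 : Prop :=
  ∀ (F : Type) [Field F] [NumberField F] (S : Finset ℕ) (n w : ℕ) (h : Fin n → ℕ)
    (M₀ : Mot F S n w h), Reg2 M₀ → TateHom M₀ M₀ → ∃ N : ℕ, ∀ 𝒯 : Set (Mot F S n w h),
      (∀ M ∈ 𝒯, M.Isog M₀) →
      ∃ T : Finset (Mot F S n w h), (T : Set (Mot F S n w h)) ⊆ 𝒯 ∧ T.card ≤ N ∧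
        ∀ M ∈ 𝒯, ∃ M' ∈ T, M.Iso M'

/-- FINC: finiteness (from ADE2, ISO2, TIS). -/
def ST_FINC : Prop :=
  ∀ (F : Type) [Field F] [NumberField F] (S : Finset ℕ), (∀ p ∈ S, p.Prime) →
    ∀ (n w : ℕ) (h : Fin n → ℕ), ∃ N : ℕ, ∀ 𝒯 : Set (Mot F S n w h), (∀ M ∈ 𝒯, Reg2 M) →
      (∃ T : Finset (Mot F S n w h), (T : Set (Mot F S n w h)) ⊆ 𝒯 ∧ T.card ≤ N ∧
          ∀ M ∈ 𝒯, ∃ M' ∈ T, M.AdelicIso M') ∧
      ((∀ M ∈ 𝒯, ∀ M' ∈ 𝒯, TateHom M M') →
        ∃ T : Finset (Mot F S n w h), (T : Set (Mot F S n w h)) ⊆ 𝒯 ∧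
          ∀ M ∈ 𝒯, ∃ M' ∈ T, M.Iso M')

/-! ## B. Direct sums -/

section

variable {F : Type} [Field F] [NumberField F] {S : Finset ℕ} {w : ℕ}

/-- `M` is isogenous to the direct sum of the motives `M' i`, with projections `P i` and inclusions
`Q i` -/
def IsSum {n : ℕ} {h : Fin n → ℕ} {r : ℕ} {m : Fin r → ℕ} {h' : ∀ i, Fin (m i) → ℕ}
    (M : Mot F S n w h) (M' : ∀ i, Mot F S (m i) w (h' i)) : Prop :=
  ∃ (P : ∀ i, Matrix (Fin (m i)) (Fin n) ℚ) (Q : ∀ i, Matrix (Fin n) (Fin (m i)) ℚ),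
    (∀ i, P i * Q i = 1) ∧ (∀ i j, i ≠ j → P i * Q j = 0) ∧ ∑ i, Q i * P i = 1 ∧
    ∀ (i : Fin r) (l : ℕ) [Fact l.Prime] (g : Gal F),
      (P i).map (algebraMap ℚ ℚ_[l]) * rat (M.ρ l) g =
        rat ((M' i).ρ l) g * (P i).map (algebraMap ℚ ℚ_[l])

/-- completely reducible rational realizations and almost all reductions -/
def SSr {n : ℕ} {h : Fin n → ℕ} (M : Mot F S n w h) : Prop :=
  (∀ (l : ℕ) [Fact l.Prime], IsSS (rat (M.ρ l))) ∧
  ∃ c : ℕ, ∀ (l : ℕ) [Fact l.Prime], c < l → IsSS (res (M.ρ l))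

/-- the homomorphisms of almost all reductions lift -/
def HLp {n : ℕ} {h : Fin n → ℕ} {n' : ℕ} {h' : Fin n' → ℕ} (M : Mot F S n w h)
    (M' : Mot F S n' w h') : Prop :=
  ∃ c : ℕ, ∀ (l : ℕ) [Fact l.Prime], c < l → ∀ u : Matrix (Fin n') (Fin n) (ZMod l),
    (∀ g, u * res (M.ρ l) g = res (M'.ρ l) g * u) → ∃ x : Matrix (Fin n') (Fin n) ℤ_[l],
      x.map (PadicInt.toZMod (p := l)) = u ∧ ∀ g, x * (M.ρ l g : Matrix (Fin n) (Fin n) ℤ_[l]) =
        (M'.ρ l g : Matrix (Fin n') (Fin n') ℤ_[l]) * x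

/-- irreducible rational realizations, almost all reductions are irreducible with scalar
endomorphisms -/
def Atm {n : ℕ} {h : Fin n → ℕ} (M : Mot F S n w h) : Prop :=
  (∀ (l : ℕ) [Fact l.Prime], IsIrr (rat (M.ρ l))) ∧
  ∃ c : ℕ, ∀ (l : ℕ) [Fact l.Prime], c < l → IsIrr (res (M.ρ l)) ∧
    ∀ u : Matrix (Fin n) (Fin n) (ZMod l), (∀ g, u * res (M.ρ l) g = res (M.ρ l) g * u) →
      ∃ a : ZMod l, u = a • (1 : Matrix (Fin n) (Fin n) (ZMod l))

/-- commutative completely reducible motives of rank two; the powers of some elements are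
regular -/
def Cmr {n : ℕ} {h : Fin n → ℕ} (M : Mot F S n w h) : Prop :=
  n = 2 ∧ (∀ (l : ℕ) [Fact l.Prime], IsSS (rat (M.ρ l))) ∧
  (∀ (l : ℕ) [Fact l.Prime] (g g' : Gal F), M.ρ l g * M.ρ l g' = M.ρ l g' * M.ρ l g) ∧
  ∀ (N : ℕ), 0 < N → ∀ (l : ℕ) [Fact l.Prime], ∃ g : Gal F,
    ((M.ρ l g : Matrix (Fin n) (Fin n) ℤ_[l]) ^ N).trace ^ 2 ≠
      4 * ((M.ρ l g : Matrix (Fin n) (Fin n) ℤ_[l]) ^ N).det

/-- Small motives: those of rank one; those of rank two with two different Hodge types and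
completely reducible realizations; those of rank three with three different (symmetric) Hodge types
and irreducible realizations. -/
def Sml {n : ℕ} {h : Fin n → ℕ} (M : Mot F S n w h) : Prop :=
  n = 1 ∨ (n = 2 ∧ Function.Injective h ∧ FLT M ∧ ∀ (l : ℕ) [Fact l.Prime], IsSS (rat (M.ρ l))) ∨
  (n = 3 ∧ Function.Injective h ∧ (∀ i, ∃ j, h i + h j = w) ∧ FLT M ∧
    ∀ (l : ℕ) [Fact l.Prime], IsIrr (rat (M.ρ l)))

/-- isogenous to a direct sum of small motives -/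
def SumSml {n : ℕ} {h : Fin n → ℕ} (M : Mot F S n w h) : Prop :=
  ∃ (r : ℕ) (m : Fin r → ℕ) (h' : ∀ i, Fin (m i) → ℕ) (M' : ∀ i, Mot F S (m i) w (h' i)),
    IsSum M M' ∧ ∀ i, Sml (M' i)

end

/-- IDL: lifting idempotents. -/
def ST_IDL : Prop :=
  ∀ (n l : ℕ) [Fact l.Prime] (x : Matrix (Fin n) (Fin n) ℤ_[l]),
    (x.map (PadicInt.toZMod (p := l))) * (x.map (PadicInt.toZMod (p := l))) =
      x.map (PadicInt.toZMod (p := l)) →
    ∃ e : Matrix (Fin n) (Fin n) ℤ_[l], e * e = e ∧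
      e.map (PadicInt.toZMod (p := l)) = x.map (PadicInt.toZMod (p := l)) ∧
      ∀ y : Matrix (Fin n) (Fin n) ℤ_[l], y * x = x * y → y * e = e * y

/-- SUM: direct sums (from IDL). -/
def ST_SUM : Prop :=
  ∀ (F : Type) [Field F] [NumberField F] (S : Finset ℕ) (n w : ℕ) (h : Fin n → ℕ)
    (M : Mot F S n w h) (r : ℕ) (m : Fin r → ℕ) (h' : ∀ i, Fin (m i) → ℕ)
    (M' : ∀ i, Mot F S (m i) w (h' i)), IsSum M M' → (∀ i, SSr (M' i)) →
    (∀ i j, HLp (M' i) (M' j)) → Reg2 M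

/-- ATP: pairs of atoms (from FRB; `MU.st_BNS`, `MU.st_LARGE`). -/
def ST_ATP : Prop :=
  ∀ (F : Type) [Field F] [NumberField F] (S : Finset ℕ), (∀ p ∈ S, p.Prime) →
    ∀ (n n' w : ℕ) (h : Fin n → ℕ) (h' : Fin n' → ℕ) (M : Mot F S n w h) (M' : Mot F S n' w h'),
      Atm M → Atm M' → SSr M ∧ HLp M M'

/-- CMP: pairs of commutative motives of rank two (from FRB, SEM, MAT). -/
def ST_CMP : Prop :=
  ∀ (F : Type) [Field F] [NumberField F] (S : Finset ℕ), (∀ p ∈ S, p.Prime) →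
    ∀ (n n' w : ℕ) (h : Fin n → ℕ) (h' : Fin n' → ℕ) (M : Mot F S n w h) (M' : Mot F S n' w h'),
      Cmr M → Cmr M' → SSr M ∧ HLp M M'

/-- CMA: commutative motives and atoms (from FRB). -/
def ST_CMA : Prop :=
  ∀ (F : Type) [Field F] [NumberField F] (S : Finset ℕ), (∀ p ∈ S, p.Prime) →
    ∀ (n n' w : ℕ) (h : Fin n → ℕ) (h' : Fin n' → ℕ) (M : Mot F S n w h) (M' : Mot F S n' w h'),
      Cmr M → Atm M' → HLp M M' ∧ HLp M' M

/-! ## C. Small motives -/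

/-- FD2: a stable line over `k` gives the data of `FDat` (from OVP; see DAT). -/
def ST_FD2 : Prop :=
  ∀ (F : Type) [Field F] [NumberField F] (S : Finset ℕ), (∀ p ∈ S, p.Prime) →
    ∀ (w : ℕ) (h : Fin 2 → ℕ) (M : Mot F S 2 w h), FLT M →
      ∃ c : ℕ, ∀ (l : ℕ) [Fact l.Prime], c < l → ∀ (k : Type) [Field k] [IsAlgClosed k]
        (κ : ZMod l →+* k) (B : Matrix (Fin 2) (Fin 1) k) (A : Gal F → Matrix (Fin 1) (Fin 1) k),
        IsSub (mapk κ (res (M.ρ l))) B A → FDat M l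

/-- FD3: a stable flag over `k` gives the data of `FDat` (from OVP; see DAT). -/
def ST_FD3 : Prop :=
  ∀ (F : Type) [Field F] [NumberField F] (S : Finset ℕ), (∀ p ∈ S, p.Prime) →
    ∀ (w : ℕ) (h : Fin 3 → ℕ) (M : Mot F S 3 w h), FLT M →
      ∃ c : ℕ, ∀ (l : ℕ) [Fact l.Prime], c < l → ∀ (k : Type) [Field k] [IsAlgClosed k]
        (κ : ZMod l →+* k) (B₁ : Matrix (Fin 3) (Fin 1) k) (A₁ : Gal F → Matrix (Fin 1) (Fin 1) k)
        (B₂ : Matrix (Fin 3) (Fin 2) k) (A₂ : Gal F → Matrix (Fin 2) (Fin 2) k)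
        (Y : Matrix (Fin 2) (Fin 1) k), IsSub (mapk κ (res (M.ρ l))) B₁ A₁ →
        IsSub (mapk κ (res (M.ρ l))) B₂ A₂ → B₁ = B₂ * Y → FDat M l

/-- NF2: in rank two `FDat` occurs for finitely many `l` only
(from REL3, LIN0, TRP, CL2, PIN, OVP). -/
def ST_NF2 : Prop :=
  ∀ (F : Type) [Field F] [NumberField F] (S : Finset ℕ), (∀ p ∈ S, p.Prime) →
    ∀ (w : ℕ) (h : Fin 2 → ℕ) (M : Mot F S 2 w h), Function.Injective h →
      (∀ (l : ℕ) [Fact l.Prime], IsIrr (rat (M.ρ l))) →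
      ∃ c : ℕ, ∀ (l : ℕ) [Fact l.Prime], c < l → ¬ FDat M l

/-- CMT: irreducible representations of rank two or three over `𝔽_l` whose endomorphisms are not
all scalar. -/
def ST_CMT : Prop :=
  ∀ (G : Type) [Group G] (l : ℕ) [Fact l.Prime] (k : Type) [Field k] [IsAlgClosed k]
    (κ : ZMod l →+* k),
    (∀ (r : G →* Matrix (Fin 2) (Fin 2) (ZMod l)) (u : Matrix (Fin 2) (Fin 2) (ZMod l)), IsIrr r →
      (∀ g, u * r g = r g * u) → (∀ a : ZMod l, u ≠ a • (1 : Matrix (Fin 2) (Fin 2) (ZMod l))) →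
      ∃ (B : Matrix (Fin 2) (Fin 1) k) (A : G → Matrix (Fin 1) (Fin 1) k), IsSub (mapk κ r) B A) ∧
    ∀ (r : G →* Matrix (Fin 3) (Fin 3) (ZMod l)) (u : Matrix (Fin 3) (Fin 3) (ZMod l)), IsIrr r →
      (∀ g, u * r g = r g * u) → (∀ a : ZMod l, u ≠ a • (1 : Matrix (Fin 3) (Fin 3) (ZMod l))) →
      ∃ (B₁ : Matrix (Fin 3) (Fin 1) k) (A₁ : G → Matrix (Fin 1) (Fin 1) k)
        (B₂ : Matrix (Fin 3) (Fin 2) k) (A₂ : G → Matrix (Fin 2) (Fin 2) k)
        (Y : Matrix (Fin 2) (Fin 1) k), IsSub (mapk κ r) B₁ A₁ ∧ IsSub (mapk κ r) B₂ A₂ ∧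
        B₁ = B₂ * Y

/-- CRG: reducible completely reducible motives of rank two (from CMC, INF, TRP). -/
def ST_CRG : Prop :=
  ∀ (F : Type) [Field F] [NumberField F] (S : Finset ℕ), (∀ p ∈ S, p.Prime) →
    ∀ (w : ℕ) (h : Fin 2 → ℕ) (M : Mot F S 2 w h), Function.Injective h →
      (∀ (l : ℕ) [Fact l.Prime], IsSS (rat (M.ρ l))) →
      (∀ (l : ℕ) [Fact l.Prime], IsIrr (rat (M.ρ l))) ∨ Cmr M

/-- SML: small motives are atoms or commutative
(from CRG, IRB, FD2, NF2, CMT, IR3, FD3, NFD). -/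
def ST_SML : Prop :=
  ∀ (F : Type) [Field F] [NumberField F] (S : Finset ℕ), (∀ p ∈ S, p.Prime) →
    ∀ (n w : ℕ) (h : Fin n → ℕ) (M : Mot F S n w h), Sml M → Atm M ∨ Cmr M

/-- FDS: finiteness for direct sums of small motives (from FINC, SUM, ATP, CMP, CMA, SML). -/
def ST_FDS : Prop :=
  ∀ (F : Type) [Field F] [NumberField F] (S : Finset ℕ), (∀ p ∈ S, p.Prime) →
    ∀ (n w : ℕ) (h : Fin n → ℕ), ∃ N : ℕ, ∀ 𝒯 : Set (Mot F S n w h), (∀ M ∈ 𝒯, SumSml M) →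
      (∃ T : Finset (Mot F S n w h), (T : Set (Mot F S n w h)) ⊆ 𝒯 ∧ T.card ≤ N ∧
          ∀ M ∈ 𝒯, ∃ M' ∈ T, M.AdelicIso M') ∧
      ((∀ M ∈ 𝒯, ∀ M' ∈ 𝒯, TateHom M M') →
        ∃ T : Finset (Mot F S n w h), (T : Set (Mot F S n w h)) ⊆ 𝒯 ∧
          ∀ M ∈ 𝒯, ∃ M' ∈ T, M.Iso M')

end REC
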