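import Pool.Agent.Helper85.REC.Gl2

/-!
# The group lemma in rank two
-/

set_option autoImplicit false

namespace REC

variable {l : ℕ} [Fact l.Prime]

/-- the discriminant of an element close to `1` is a square in the diagonal case: `q r = 0` -/
theorem gl_qr (k : ℕ) (hk : 2 ≤ k) (x y d u : ℤ_[l]) (hx : IsUnit x) (hu : IsUnit u)
    (hd : x - y = d) (hdu : d = (l : ℤ_[l]) ^ k * u) (B : Matrix (Fin 2) (Fin 2) ℤ_[l])
    (hB : Cg (2 * k) B)
    (h : ∀ n : ℕ, IsSquare (dsc (Matrix.diagonal ![x ^ n, y ^ n] * B))) : B 0 1 * B 1 0 = 0 := by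
  have hl : l.Prime := Fact.out
  obtain ⟨z, hz⟩ := hx.exists_right_inv
  have hz' : IsUnit z := IsUnit.of_mul_eq_one x (by rw [mul_comm]; exact hz)
  have hkl : k + 2 ≤ l * k := by
    have := hl.two_le
    nlinarith
  have h00 : (l : ℤ_[l]) ^ (2 * k) ∣ B 0 0 - 1 := by simpa using hB 0 0
  have h11 : (l : ℤ_[l]) ^ (2 * k) ∣ B 1 1 - 1 := by simpa using hB 1 1
  have h01 : (l : ℤ_[l]) ^ (2 * k) ∣ B 0 1 := by simpa using hB 0 1
  have hkk : (l : ℤ_[l]) ^ k ∣ (l : ℤ_[l]) ^ (2 * k) := pow_dvd_pow _ (by omega)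
  have hsu : IsUnit (B 1 1) := gl_unit_of_dvd (k := 2 * k) (by omega) h11
  obtain ⟨s', hs'⟩ := hsu.exists_right_inv
  have hQ := gl_core k hkl (y * z) (-(u * z)) (B 1 1) (B 0 0) (B 0 1 * B 1 0 * s')
    (hu.mul hz').neg ?_ (hkk.trans h11) (hkk.trans h00)
    (Dvd.dvd.mul_right (h01.mul_right _) _) ?_
  · have : B 0 1 * B 1 0 = B 0 1 * B 1 0 * s' * B 1 1 := by
      linear_combination -(B 0 1 * B 1 0) * hs'
    rw [this, hQ, zero_mul]
  · have : y = x - (l : ℤ_[l]) ^ k * u := by rw [← hdu, ← hd]; ring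
    rw [this]
    linear_combination hz
  · intro n
    obtain ⟨v, hv⟩ := h n
    have h1 : dsc (Matrix.diagonal ![x ^ n, y ^ n] * B) =
        (x ^ n * B 0 0 + y ^ n * B 1 1) ^ 2 -
          4 * (x ^ n * y ^ n) * (B 0 0 * B 1 1 - B 0 1 * B 1 0) := by
      simp [dsc, Matrix.mul_apply, Matrix.diagonal]
      ring
    rw [h1] at hv
    refine ⟨z ^ n * v, ?_⟩
    have hzn : x ^ n * z ^ n = 1 := by rw [← mul_pow, hz, one_pow]
    have e1 : z ^ n * v * (z ^ n * v) = (z ^ n) ^ 2 * (v * v) := by ring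
    rw [e1, ← hv, mul_pow]
    linear_combination (-(z ^ n * x ^ n + 1) * B 0 0 ^ 2
      + 2 * (z ^ n * y ^ n) * B 0 0 * B 1 1 * (-1) * 1
      + 4 * (z ^ n * y ^ n) * (B 0 0 * B 1 1 - B 0 1 * B 1 0)) * hzn
      + 4 * (y ^ n * z ^ n) * (B 0 1 * B 1 0) * hs'

/-- the degenerate case -/
theorem gl_deg {R : Type} [CommRing R] [IsDomain R] [CharZero R] (A B : Matrix (Fin 2) (Fin 2) R)
    (hA : A.det ≠ 0) (hB : B.det ≠ 0) (h1 : dsc A = 0) (h2 : dsc B = 0) (h3 : dsc (A * B) = 0)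
    (h4 : dsc (A * A * B) = 0) :
    (A 0 0 - A 1 1) * B 0 0 + 2 * A 0 1 * B 1 0 + 2 * A 1 0 * B 0 1 + (A 1 1 - A 0 0) * B 1 1 = 0 := by
  set x := (A 0 0 - A 1 1) * B 0 0 + 2 * A 0 1 * B 1 0 + 2 * A 1 0 * B 0 1 + (A 1 1 - A 0 0) * B 1 1
    with hx
  set T := A 0 0 + A 1 1 with hT
  set V := B 0 0 + B 1 1 with hV
  have hTA : T ^ 2 = 4 * A.det := by
    rw [Matrix.det_fin_two]
    rw [dsc] at h1
    linear_combination h1
  have hTB : V ^ 2 = 4 * B.det := by
    rw [Matrix.det_fin_two]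
    rw [dsc] at h2
    linear_combination h2
  have hT0 : T ≠ 0 := by
    intro h
    rw [h, zero_pow two_ne_zero] at hTA
    rcases mul_eq_zero.mp hTA.symm with h5 | h5
    · exact absurd h5 (by norm_num)
    · exact hA h5
  have hV0 : V ≠ 0 := by
    intro h
    rw [h, zero_pow two_ne_zero] at hTB
    rcases mul_eq_zero.mp hTB.symm with h5 | h5
    · exact absurd h5 (by norm_num)
    · exact hB h5
  have e1 : x * (x + 2 * (T * V)) = 0 := by
    have e : 4 * dsc (A * B) = (x + T * V) ^ 2 - 16 * A.det * B.det := by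
      rw [dsc_eq, Matrix.det_mul, Matrix.trace_fin_two]
      simp only [Matrix.mul_apply, Fin.sum_univ_two, hx, hT, hV]
      ring
    rw [h3] at e
    have e2 : 16 * A.det * B.det = T ^ 2 * V ^ 2 := by rw [hTA, hTB]; ring
    linear_combination -e + e2
  have e3 : T ^ 2 * (4 * (x * (x + T * V))) = 0 := by
    have e : 16 * dsc (A * A * B) = (2 * T * x + T ^ 2 * V) ^ 2 - 64 * A.det ^ 2 * B.det := by
      rw [dsc_eq, Matrix.det_mul, Matrix.det_mul, Matrix.trace_fin_two]
      have e5 : 4 * ((A * A * B) 0 0 + (A * A * B) 1 1) = 2 * T * x + T ^ 2 * V := by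
        rw [dsc] at h1
        simp only [Matrix.mul_apply, Fin.sum_univ_two, hx, hT, hV]
        linear_combination (B 0 0 + B 1 1) * h1
      linear_combination (4 * ((A * A * B) 0 0 + (A * A * B) 1 1) + (2 * T * x + T ^ 2 * V)) * e5
    rw [h4] at e
    have e2 : 64 * A.det ^ 2 * B.det = T ^ 4 * V ^ 2 := by
      rw [hTB]
      have : T ^ 4 = (4 * A.det) ^ 2 := by rw [← hTA]; ring
      rw [this]; ring
    linear_combination -e + e2
  have e4 : x * (x + T * V) = 0 := by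
    rcases mul_eq_zero.mp e3 with h | h
    · exact absurd h (pow_ne_zero 2 hT0)
    · exact (mul_eq_zero.mp h).resolve_left (by norm_num)
  have e5 : x * (T * V) = 0 := by linear_combination e1 - e4
  exact (mul_eq_zero.mp e5).resolve_right (mul_ne_zero hT0 hV0)

/-- the unit power of `l` in an element whose square is divisible -/
theorem gl_val (d : ℤ_[l]) (hd : d ≠ 0) (K : ℕ) (h : (l : ℤ_[l]) ^ (2 * K) ∣ d ^ 2) :
    ∃ (k : ℕ) (u : ℤ_[l]), K ≤ k ∧ IsUnit u ∧ d = (l : ℤ_[l]) ^ k * u := by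
  refine ⟨d.valuation, (PadicInt.unitCoeff hd : ℤ_[l]ˣ), ?_, Units.isUnit _, ?_⟩
  · have h1 : (l : ℤ_[l]) ^ K ∣ d := by
      rw [mul_comm, pow_mul] at h
      exact (UniqueFactorizationMonoid.pow_dvd_pow_iff_dvd two_ne_zero).mp h
    rw [← Ideal.mem_span_singleton, PadicInt.mem_span_pow_iff_le_valuation _ hd] at h1
    exact h1
  · rw [mul_comm]
    exact PadicInt.unitCoeff_spec hd

/-- THE GROUP LEMMA IN RANK TWO -/
theorem gl2_line {Γ : Type} [Group Γ] [TopologicalSpace Γ] [IsTopologicalGroup Γ]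
    (r : Γ →* Matrix.GeneralLinearGroup (Fin 2) ℤ_[l]) (hr : Continuous r) (G : Subgroup Γ)
    (hG : IsOpen (G : Set Γ)) (N : ℕ) (hN : N ≠ 0)
    (hsq : ∀ g ∈ G, IsSquare (dsc ((r g : Matrix (Fin 2) (Fin 2) ℤ_[l]) ^ N))) :
    ∃ H : Subgroup Γ, IsOpen (H : Set Γ) ∧ H ≤ G ∧ ∃ v : Fin 2 → ℤ_[l], v ≠ 0 ∧ ∀ h ∈ H,
      v 0 * (r h : Matrix (Fin 2) (Fin 2) ℤ_[l]).mulVec v 1 =
        v 1 * (r h : Matrix (Fin 2) (Fin 2) ℤ_[l]).mulVec v 0 := by
  have hl : l.Prime := Fact.out
  -- the open subgroup on which the discriminants are squares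
  obtain ⟨K, hK2, hKN⟩ : ∃ K : ℕ, 2 ≤ K ∧ ¬ (l : ℤ_[l]) ^ K ∣ (N : ℤ_[l]) := by
    refine ⟨N + 2, by omega, ?_⟩
    intro h
    have h1 : (l : ℤ_[l]) ^ (N + 2) ∣ ((N : ℤ) : ℤ_[l]) := by exact_mod_cast h
    rw [PadicInt.pow_p_dvd_int_iff] at h1
    have h2 : l ^ (N + 2) ∣ N := by exact_mod_cast h1
    have h3 := Nat.le_of_dvd (Nat.pos_of_ne_zero hN) h2
    have h4 : N + 2 < l ^ (N + 2) := Nat.lt_pow_self hl.one_lt
    omega
  obtain ⟨G₁, hG₁, hG₁m⟩ := gl_open r hr K
  have hsq1 : ∀ g ∈ G ⊓ G₁, IsSquare (dsc (r g : Matrix (Fin 2) (Fin 2) ℤ_[l])) := by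
    intro g hg
    exact gl_sq_root K N hKN _ ((hG₁m g).mp hg.2) (hsq g hg.1)
  have hop : IsOpen ((G ⊓ G₁ : Subgroup Γ) : Set Γ) := by
    rw [Subgroup.coe_inf]
    exact hG.inter hG₁
  by_cases hcase : ∀ g ∈ G ⊓ G₁, dsc (r g : Matrix (Fin 2) (Fin 2) ℤ_[l]) = 0
  · -- the degenerate case
    refine ⟨G ⊓ G₁, hop, inf_le_left, ?_⟩
    by_cases hsc : ∃ g ∈ G ⊓ G₁, ∃ v : Fin 2 → ℤ_[l], v ≠ 0 ∧
        ((v 0 = 2 * (r g : Matrix (Fin 2) (Fin 2) ℤ_[l]) 0 1 ∧
          v 1 = (r g : Matrix (Fin 2) (Fin 2) ℤ_[l]) 1 1 -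
            (r g : Matrix (Fin 2) (Fin 2) ℤ_[l]) 0 0) ∨
        (v 0 = (r g : Matrix (Fin 2) (Fin 2) ℤ_[l]) 0 0 -
            (r g : Matrix (Fin 2) (Fin 2) ℤ_[l]) 1 1 ∧
          v 1 = 2 * (r g : Matrix (Fin 2) (Fin 2) ℤ_[l]) 1 0))
    · obtain ⟨g, hg, v, hv, hvg⟩ := hsc
      refine ⟨v, hv, fun h hh => ?_⟩
      have hdet : ∀ x : Γ, (r x : Matrix (Fin 2) (Fin 2) ℤ_[l]).det ≠ 0 := fun x =>
        ((Matrix.isUnit_iff_isUnit_det _).mp (Units.isUnit (r x))).ne_zero
      have h1 := gl_deg (r g : Matrix (Fin 2) (Fin 2) ℤ_[l]) (r h) (hdet g) (hdet h) (hcase g hg)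
        (hcase h hh) (by
          have := hcase (g * h) (mul_mem hg hh)
          rwa [map_mul, Units.val_mul] at this) (by
          have := hcase (g * g * h) (mul_mem (mul_mem hg hg) hh)
          rwa [map_mul, map_mul, Units.val_mul, Units.val_mul] at this)
      have h2 := hcase g hg
      rw [dsc] at h2
      simp only [Matrix.mulVec, dotProduct, Fin.sum_univ_two]
      rcases hvg with ⟨h3, h4⟩ | ⟨h3, h4⟩
      · rw [h3, h4]
        linear_combination 2 * (r g : Matrix (Fin 2) (Fin 2) ℤ_[l]) 0 1 * h1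
          - (r h : Matrix (Fin 2) (Fin 2) ℤ_[l]) 0 1 * h2
      · rw [h3, h4]
        linear_combination -2 * (r g : Matrix (Fin 2) (Fin 2) ℤ_[l]) 1 0 * h1
          + (r h : Matrix (Fin 2) (Fin 2) ℤ_[l]) 1 0 * h2
    · push Not at hsc
      refine ⟨![1, 0], fun h => one_ne_zero (congrFun h 0), fun h hh => ?_⟩
      have h1 := hsc h hh ![(r h : Matrix (Fin 2) (Fin 2) ℤ_[l]) 0 0 -
            (r h : Matrix (Fin 2) (Fin 2) ℤ_[l]) 1 1,
            2 * (r h : Matrix (Fin 2) (Fin 2) ℤ_[l]) 1 0]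
      have h2 : (r h : Matrix (Fin 2) (Fin 2) ℤ_[l]) 1 0 = 0 := by
        by_contra hcon
        have h3 := (h1 (fun hz => ?_)).2 rfl
        · exact h3 rfl
        · have := congrFun hz 1
          simp only [Matrix.cons_val_one, Pi.zero_apply] at this
          rcases mul_eq_zero.mp this with h4 | h4
          · exact absurd h4 (by norm_num)
          · exact hcon h4
      simp [Matrix.mulVec, dotProduct, Fin.sum_univ_two, h2]
  · push Not at hcase
    obtain ⟨g, hg, hgd⟩ := hcase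
    set A : Matrix (Fin 2) (Fin 2) ℤ_[l] := (r g : Matrix (Fin 2) (Fin 2) ℤ_[l]) with hA
    obtain ⟨d, hd⟩ := hsq1 g hg
    have hAc : Cg K A := (hG₁m g).mp hg.2
    have hAdu : IsUnit A.det := (Matrix.isUnit_iff_isUnit_det _).mp (Units.isUnit (r g))
    have hd0 : d ≠ 0 := by
      rintro rfl
      exact hgd (by rw [hd]; ring)
    have hdA : dsc A = d * d := hd
    clear hd
    rename' hdA => hd
    rw [dsc] at hd
    -- the eigenvalues
    obtain ⟨x, hx⟩ : ∃ x : ℤ_[l], A 0 0 + A 1 1 + d = 2 * x := by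
      have h1 : (2 : ℤ_[l]) ∣ (A 0 0 + A 1 1 + d) ^ 2 := by
        refine ⟨(A 0 0 + A 1 1) * (A 0 0 + A 1 1 + d) -
          2 * (A 0 0 * A 1 1 - A 0 1 * A 1 0), ?_⟩
        linear_combination -hd
      rcases eq_or_ne l 2 with h2 | h2
      · have hp : ∀ (l : ℕ) [Fact l.Prime], l = 2 → Prime (2 : ℤ_[l]) := by
          intro l _ h
          subst h
          exact_mod_cast PadicInt.prime_p (p := 2)
        exact (hp l h2).dvd_of_dvd_pow h1
      · have hu2 : IsUnit (2 : ℤ_[l]) := by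
          have h3 : ¬ (l : ℤ) ∣ 2 := by
            intro h4
            have h5 : l ∣ 2 := by exact_mod_cast h4
            exact h2 ((Nat.prime_dvd_prime_iff_eq hl Nat.prime_two).mp h5)
          have h6 : ‖((2 : ℤ) : ℤ_[l])‖ = 1 := by
            by_contra h7
            have h8 : ‖((2 : ℤ) : ℤ_[l])‖ < 1 := lt_of_le_of_ne (PadicInt.norm_le_one _) h7
            exact h3 ((PadicInt.norm_int_lt_one_iff_dvd 2).mp h8)
          have := PadicInt.isUnit_iff.mpr h6
          exact_mod_cast this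
        exact hu2.dvd
    have h2ne : (2 : ℤ_[l]) ≠ 0 := by norm_num
    set y := x - d with hy
    have hxy1 : x + y = A 0 0 + A 1 1 := by
      apply mul_left_cancel₀ h2ne
      rw [hy]
      linear_combination -2 * hx
    have hxy2 : x * y = A 0 0 * A 1 1 - A 0 1 * A 1 0 := by
      have h4 : (4 : ℤ_[l]) ≠ 0 := by norm_num
      apply mul_left_cancel₀ h4
      have h5 : 2 * y = A 0 0 + A 1 1 - d := by rw [hy]; linear_combination -hx
      have h6 : 4 * (x * y) = (2 * x) * (2 * y) := by ring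
      rw [h6, h5, ← hx]
      linear_combination hd
    have hxu : IsUnit x := by
      have : IsUnit (x * y) := by
        rw [hxy2, ← Matrix.det_fin_two]
        exact hAdu
      exact isUnit_of_mul_isUnit_left this
    have hxy : x ≠ y := by
      intro h
      apply hd0
      have : x - y = d := by rw [hy]; ring
      rw [← this, h, sub_self]
    -- the valuation of the difference
    obtain ⟨k, u, hKk, hu, hdu⟩ := gl_val d hd0 K (by
      have h00 : (l : ℤ_[l]) ^ K ∣ A 0 0 - 1 := by simpa using hAc 0 0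
      have h11 : (l : ℤ_[l]) ^ K ∣ A 1 1 - 1 := by simpa using hAc 1 1
      have h01 : (l : ℤ_[l]) ^ K ∣ A 0 1 := by simpa using hAc 0 1
      have h10 : (l : ℤ_[l]) ^ K ∣ A 1 0 := by simpa using hAc 1 0
      obtain ⟨a, ha⟩ := h00
      obtain ⟨b, hb⟩ := h11
      obtain ⟨c, hc⟩ := h01
      obtain ⟨e, he⟩ := h10
      refine ⟨(a - b) ^ 2 + 4 * (c * e), ?_⟩
      have h1 : A 0 0 = 1 + (l : ℤ_[l]) ^ K * a := by rw [← ha]; ring
      have h2 : A 1 1 = 1 + (l : ℤ_[l]) ^ K * b := by rw [← hb]; ring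
      rw [pow_two, ← hd, h1, h2, hc, he]
      ring)
    obtain ⟨P, hP, hAP⟩ := gl_eig A x y hxy hxy1 hxy2
    obtain ⟨c, hc⟩ := gl_base P hP
    obtain ⟨G₂, hG₂, hG₂m⟩ := gl_open r hr (c + 2 * k)
    have hApow : ∀ n : ℕ, A ^ n * P = P * Matrix.diagonal ![x ^ n, y ^ n] := by
      intro n
      induction n with
      | zero =>
        have : Matrix.diagonal ![x ^ 0, y ^ 0] = (1 : Matrix (Fin 2) (Fin 2) ℤ_[l]) := by
          ext i j
          fin_cases i <;> fin_cases j <;> simp [Matrix.diagonal]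
        rw [this, pow_zero, Matrix.one_mul, Matrix.mul_one]
      | succ n ih =>
        rw [pow_succ, Matrix.mul_assoc, hAP, ← Matrix.mul_assoc, ih, Matrix.mul_assoc]
        congr 1
        rw [Matrix.diagonal_mul_diagonal]
        congr 1
        funext i
        fin_cases i <;> simp [pow_succ]
    have key : ∀ h ∈ G ⊓ G₁ ⊓ G₂, ∃ B : Matrix (Fin 2) (Fin 2) ℤ_[l],
        (r h : Matrix (Fin 2) (Fin 2) ℤ_[l]) * P = P * B ∧ Cg (2 * k) B ∧ B 0 1 * B 1 0 = 0 := by
      intro h hh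
      obtain ⟨B, hB1, hB2⟩ := hc (2 * k) _ ((hG₂m h).mp hh.2)
      refine ⟨B, hB1, hB2, ?_⟩
      refine gl_qr k (hK2.trans hKk) x y d u hxu hu (by rw [hy]; ring) hdu B hB2 fun n => ?_
      have h1 : dsc (A ^ n * (r h : Matrix (Fin 2) (Fin 2) ℤ_[l])) =
          dsc (Matrix.diagonal ![x ^ n, y ^ n] * B) := by
        refine dsc_conj _ _ P hP ?_
        rw [Matrix.mul_assoc, hB1, ← Matrix.mul_assoc, hApow, Matrix.mul_assoc]
      rw [← h1]
      have h2 := hsq1 (g ^ n * h) (mul_mem (pow_mem hg n) hh.1)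
      rwa [map_mul, map_pow, Units.val_mul, Units.val_pow_eq_pow_val] at h2
    have hunit : ∀ B : Matrix (Fin 2) (Fin 2) ℤ_[l], Cg (2 * k) B → B 0 0 ≠ 0 := by
      intro B hB
      have h00 : (l : ℤ_[l]) ^ (2 * k) ∣ B 0 0 - 1 := by simpa using hB 0 0
      exact (gl_unit_of_dvd (k := 2 * k) (by omega) h00).ne_zero
    refine ⟨G ⊓ G₁ ⊓ G₂, ?_, inf_le_left.trans inf_le_left, ?_⟩
    · rw [Subgroup.coe_inf]
      exact hop.inter hG₂
    · by_cases h10 : ∀ h ∈ G ⊓ G₁ ⊓ G₂, ∀ B : Matrix (Fin 2) (Fin 2) ℤ_[l],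
        (r h : Matrix (Fin 2) (Fin 2) ℤ_[l]) * P = P * B → B 1 0 = 0
      · refine ⟨fun i => P i 0, ?_, fun h hh => ?_⟩
        · intro h
          apply hP
          rw [Matrix.det_fin_two, show P 0 0 = 0 from congrFun h 0,
            show P 1 0 = 0 from congrFun h 1]
          ring
        · obtain ⟨B, hB1, -, -⟩ := key h hh
          have hB0 := h10 h hh B hB1
          have e1 : ∀ i, (r h : Matrix (Fin 2) (Fin 2) ℤ_[l]).mulVec (fun i => P i 0) i =
              P i 0 * B 0 0 := by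
            intro i
            have := congrFun (congrFun hB1 i) 0
            rw [Matrix.mul_apply, Matrix.mul_apply, Fin.sum_univ_two (fun j => P i j * B j 0),
              hB0, mul_zero, add_zero] at this
            exact this
          rw [e1, e1]
          ring
      · push Not at h10
        obtain ⟨h', hh', B', hB'1, hB'0⟩ := h10
        refine ⟨fun i => P i 1, ?_, fun h hh => ?_⟩
        · intro h
          apply hP
          rw [Matrix.det_fin_two, show P 0 1 = 0 from congrFun h 0,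
            show P 1 1 = 0 from congrFun h 1]
          ring
        · obtain ⟨B, hB1, hB2, hB3⟩ := key h hh
          obtain ⟨B'', hB''1, hB''2, hB''3⟩ := key h' hh'
          obtain rfl : B' = B'' := gl_cancel _ _ P hP (hB'1.symm.trans hB''1)
          have hB0 : B 0 1 = 0 := by
            by_contra hcon
            have h1 : B' 0 1 = 0 := (mul_eq_zero.mp hB''3).resolve_right hB'0
            have h2 : B 1 0 = 0 := (mul_eq_zero.mp hB3).resolve_left hcon
            obtain ⟨Z, hZ1, -, hZ3⟩ := key (h * h') (mul_mem hh hh')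
            rw [map_mul, Units.val_mul, Matrix.mul_assoc, hB'1, ← Matrix.mul_assoc, hB1,
              Matrix.mul_assoc] at hZ1
            obtain rfl := gl_cancel _ _ P hP hZ1
            rw [Matrix.mul_apply, Matrix.mul_apply, Fin.sum_univ_two, Fin.sum_univ_two, h1, h2]
              at hZ3
            rcases mul_eq_zero.mp hZ3 with h3 | h3
            · rw [mul_zero, zero_add] at h3
              rcases mul_eq_zero.mp h3 with h4 | h4
              · exact hcon h4
              · have h11 : (l : ℤ_[l]) ^ (2 * k) ∣ B' 1 1 - 1 := by simpa using hB''2 1 1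
                exact (gl_unit_of_dvd (k := 2 * k) (by omega) h11).ne_zero h4
            · rw [zero_mul, zero_add] at h3
              rcases mul_eq_zero.mp h3 with h4 | h4
              · have h11 : (l : ℤ_[l]) ^ (2 * k) ∣ B 1 1 - 1 := by simpa using hB2 1 1
                exact (gl_unit_of_dvd (k := 2 * k) (by omega) h11).ne_zero h4
              · exact hB'0 h4
          have e1 : ∀ i, (r h : Matrix (Fin 2) (Fin 2) ℤ_[l]).mulVec (fun i => P i 1) i =
              P i 1 * B 1 1 := by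
            intro i
            have := congrFun (congrFun hB1 i) 1
            rw [Matrix.mul_apply, Matrix.mul_apply, Fin.sum_univ_two (fun j => P i j * B j 1),
              hB0, mul_zero, zero_add] at this
            exact this
          rw [e1, e1]
          ring

end REC
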