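import Pool.Agent.Helper61.REC.EV
import Pool.Agent.Helper98.REC.OVP
import Pool.Agent.Helper72.REC.CPW
import Pool.Agent.Helper48.REC.APX
import Pool.Agent.Helper48.REC.PRT
import Pool.Agent.Helper28.REC.RCG
import Pool.Agent.Helper25.REC.RDU
import Pool.Agent.Helper34.REC.GEN
import Pool.Agent.Helper34.REC.EUL
import Pool.Agent.Helper95.REC.GLP
import Pool.Agent.Helper72.REC.WSP
import Pool.Agent.Helper65.REC.TEN
import Pool.Agent.Helper65.REC.PUN
import Pool.Agent.Helper14.REC.SUMI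
import Pool.Agent.Helper14.REC.INTB
import Pool.Agent.Helper78.REC.PZC
import Pool.Agent.Helper80.REC.LBD
import Pool.Agent.Helper80.REC.SND
import Pool.Agent.Helper20.REC.SPY
import Pool.Agent.Helper2.REC.DN1
import Pool.Agent.Helper25.REC.HRB
import Pool.Agent.Helper25.REC.QDV
import Pool.Agent.Helper25.REC.HEV
import Pool.Agent.Helper93.REC.HERB
import Pool.Agent.Helper93.REC.HES
import Pool.Agent.Helper19.REC.POV
import Pool.Agent.Helper19.REC.UNV
import Pool.Agent.Helper61.REC.INFP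
import Pool.Agent.Helper53.REC.SUN
import Pool.Agent.Helper52.REC.H1S
import Pool.Agent.Helper78.REC.SUX
import Pool.Agent.Helper84.REC.SEX
import Pool.Agent.Helper40.REC.NBL
import Pool.Agent.Helper40.REC.VHI
import Pool.Agent.Helper78.REC.CBS
import Pool.Agent.Helper78.REC.NIX
import Pool.Agent.Helper28.REC.THE
import Pool.Agent.Helper59.REC.TRL
import Pool.Agent.Helper84.REC.FST
import Pool.Agent.Helper52.REC.AXP
import Pool.Agent.Helper61.REC.CYP
import Pool.Agent.Helper8.REC.TRK1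
import Pool.Agent.Helper22.REC.TRK2
import Pool.Agent.Helper68.REC.REQ
import Pool.Agent.Helper22.REC.REC
import Pool.Agent.Helper18.REC.LAR0
import Pool.Agent.Helper19.REC.LNM
import Pool.Agent.Helper19.REC.LARK
import Pool.Agent.Helper20.REC.RLN
import Pool.Agent.Helper89.REC.LLN
import Pool.Agent.Helper18.REC.REL1
import Pool.Agent.Helper89.REC.RELK
import Pool.Agent.Helper66.REC.HS2
import Pool.Agent.Helper98.REC.SPQ
import Pool.Agent.Helper93.REC.LTH
import Pool.Agent.Helper66.REC.ADE0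
import Pool.Agent.Helper93.REC.ISO0
import Pool.Agent.Helper98.REC.FIN0
import Pool.Agent.Helper85.REC.IR2
import Pool.Agent.Helper69.REC.CBI
import Pool.Agent.Helper61.REC.PATC
import Pool.Agent.Helper13.ZL.All

/-!
# Assembly: the reciprocity law, and the finiteness theorem for motives of rank two
-/

set_option autoImplicit false

open NumberField MU

namespace REC

/-! ## The reciprocity law -/

theorem all_EV : ST_EV := Pool.Agent.Helper61.REC.st_EV
theorem all_FRV : ST_FRV := st_FRV st_OVP st_CPW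
theorem all_APX : ST_APX := Pool.Agent.Helper48.REC.st_APX
theorem all_PRT : ST_PRT := Pool.Agent.Helper48.REC.st_PRT
theorem all_RCG : ST_RCG := Pool.Agent.Helper28.RC.st_RCG
theorem all_RDU : ST_RDU := st_RDU all_EV
theorem all_XSG : ST_XSG := st_XSG all_RCG all_RDU all_EV
theorem all_RST : ST_RST := st_RST all_RCG all_PRT all_RDU all_EV
theorem all_WSP : ST_WSP := st_WSP st_TEN
theorem all_GBD : ST_GBD := st_GBD all_WSP
theorem all_GLP : ST_GLP := st_GLP st_TEN all_WSP all_GBD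
theorem all_GEN : ST_GEN := st_GEN (st_PUN st_TEN)
theorem all_PZC : ST_PZC := Pool.Agent.Helper78.REC.st_PZC all_GEN all_GBD all_GLP st_SUMI st_INTB
theorem all_LBD : ST_LBD := st_LBD all_RCG all_RDU all_PZC (st_EUL all_EV) all_EV
theorem all_SPY : ST_SPY := Pool.Agent.Helper20.REC.st_SPY
theorem all_SND : ST_SND := st_SND Pool.Agent.Helper13.ZL.all_PZ all_LBD all_SPY all_XSG
theorem all_DN1 : ST_DN1 := st_DN1 all_SPY
theorem all_HEV : ST_HEV := st_HEV st_HRB st_QDV
theorem all_HERB : ST_HERB := Pool.Agent.Helper93.REC.st_HERB all_HEV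
theorem all_HES : ST_HES := Pool.Agent.Helper93.REC.st_HES all_HERB
theorem all_INFP : ST_INFP := Pool.Agent.Helper61.REC.st_INFP
theorem all_H1S : ST_H1S := st_H1S st_POV
theorem all_SUX : ST_SUX := Pool.Agent.Helper78.REC.st_SUX all_HES st_POV all_INFP st_SUN all_H1S
theorem all_VHI : ST_VHI := st_VHI st_NBL st_POV
theorem all_CBI : ST_CBI := Pool.Agent.Helper69.REC.st_CBI all_VHI all_HERB st_POV
theorem all_PATC : ST_PATC := Pool.Agent.Helper61.REC.st_PATC st_OVP
theorem all_CBS : ST_CBS := Pool.Agent.Helper78.REC.st_CBS all_CBI all_INFP all_APX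
theorem all_NIX : ST_NIX :=
  Pool.Agent.Helper78.REC.st_NIX all_CBS all_SUX st_UNV st_POV
theorem all_THE : ST_THE := Pool.Agent.Helper28.TH.st_THE all_EV all_APX st_UNV st_POV
theorem all_FST : ST_FST :=
  Pool.Agent.Helper84.REC.st_FST st_TRL Pool.Agent.Helper84.REC.st_SEX all_NIX all_THE all_XSG
theorem all_TRK1 : ST_TRK1 := st_TRK1 all_SND all_FST all_XSG all_DN1 all_FRV
theorem all_TRK2 : ST_TRK2 :=
  st_TRK2 all_TRK1 Pool.Agent.Helper61.REC.st_CYP st_AXP all_DN1 all_RST all_FRV st_OVP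
theorem all_REQ : ST_REQ := st_REQ all_TRK2 all_FST st_OVP
theorem all_REC : ST_REC := st_REC all_REQ all_EV all_FRV st_OVP

/-! ## Characters with cyclotomic exponents -/

theorem all_LAR0 : ST_LAR0 :=
  Pool.Agent.Helper18.REC.st_LAR0 all_REC all_APX all_EV all_FRV st_OVP st_CYC
theorem all_LARK : ST_LARK := st_LARK all_LAR0

/-! ## Motives of rank two -/

theorem all_RLN : ST_RLN := st_RLN all_FRV st_OVP st_CPW
theorem all_LLN : ST_LLN := Pool.Agent.Helper89.REC.st_LLN all_FRV st_OVP st_CPW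
theorem all_REL1 : ST_REL1 := Pool.Agent.Helper18.REC.st_REL1 all_LARK all_EV
theorem all_RELK : ST_RELK := Pool.Agent.Helper89.REC.st_RELK all_LARK all_EV
theorem all_LIN0 : ST_LIN0 := st_LIN0 st_SPQ st_FRB st_OVP
theorem all_IR2 : ST_IR2 :=
  st_IR2 all_RLN all_LLN all_REL1 all_RELK all_PATC st_HS2 all_LIN0
theorem all_FIN0 : ST_FIN0 := st_FIN0 st_ADE0 (Pool.Agent.Helper93.REC.st_ISO0
  Pool.Agent.Helper93.REC.st_LTH)

/-- finiteness for motives of rank two -/
theorem finiteness_two {F : Type} [Field F] [NumberField F]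
    {S : Finset ℕ} (hS : ∀ p ∈ S, p.Prime) (w : ℕ) (h : Fin 2 → ℕ) (hh : h 0 ≠ h 1) :
    ∃ N : ℕ, ∀ 𝒯 : Set (Mot F S 2 w h), (NoCM F ∨ ∀ M ∈ 𝒯, StIrr M) →
      (∃ T : Finset (Mot F S 2 w h), (T : Set (Mot F S 2 w h)) ⊆ 𝒯 ∧ T.card ≤ N ∧
        ∀ M ∈ 𝒯, ∃ M' ∈ T, M.AdelicIso M') ∧
      ((∀ M ∈ 𝒯, ∀ M' ∈ 𝒯, M.AdelicIso M' → M.Isog M') →
        ∃ T : Finset (Mot F S 2 w h), (T : Set (Mot F S 2 w h)) ⊆ 𝒯 ∧ T.card ≤ N ∧
          ∀ M ∈ 𝒯, ∃ M' ∈ T, M.Iso M') := by
  obtain ⟨N, hN⟩ := all_FIN0 F S hS 2 w h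
  refine ⟨N, fun 𝒯 h𝒯 => hN 𝒯 fun M hM => ?_⟩
  exact all_IR2 F S hS w h M hh (h𝒯.imp id fun h => h M hM)

end REC
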