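import Pool.Agent.Helper85.REC.All
import Pool.Agent.Helper85.REC.Stmts9
import Pool.Agent.Helper17.REC.IRB
import Pool.Agent.Helper60.REC.CL2
import Pool.Agent.Helper60.REC.TRP
import Pool.Agent.Helper89.REC.INL
import Pool.Agent.Helper19.REC.LART
import Pool.Agent.Helper19.REC.NFR
import Pool.Agent.Helper60.REC.BCT
import Pool.Agent.Helper60.REC.PRL
import Pool.Agent.Helper53.REC.TAL
import Pool.Agent.Helper78.REC.KUM
import Pool.Agent.Helper78.REC.PRK
import Pool.Agent.Helper90.REC.BCH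
import Pool.Agent.Helper89.REC.SYB
import Pool.Agent.Helper18.REC.TAK
import Pool.Agent.Helper20.REC.TAM

/-!
# Assembly, second part: irreducible motives of rank two, the power reciprocity law, tame characters
-/

set_option autoImplicit false

open NumberField MU

namespace REC

/-! ## The power reciprocity law and tame characters -/

theorem all_SYB : ST_SYB := Pool.Agent.Helper89.REC.st_SYB
theorem all_KUM : ST_KUM := Pool.Agent.Helper78.REC.st_KUM all_SYB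
theorem all_PRK : ST_PRK := Pool.Agent.Helper78.REC.st_PRK all_REC all_KUM all_SYB all_EV all_APX
theorem all_PRL : ST_PRL := Pool.Agent.Helper60.REC7.st_PRL all_PRK all_SYB all_EV
theorem all_TAK : ST_TAK :=
  Pool.Agent.Helper18.REC.st_TAK all_REC all_KUM all_PRL all_SYB all_EV all_FRV st_OVP all_APX
theorem all_BCT : ST_BCT := Pool.Agent.Helper60.REC7.st_BCT
theorem all_NFR : ST_NFR := st_NFR all_BCT all_EV
theorem all_TAM : ST_TAM := st_TAM all_TAK st_BCH all_BCT all_NFR all_REC all_EV all_APX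
theorem all_TAL : ST_TAL := st_TAL all_TAM all_REC all_EV all_APX
theorem all_LART : ST_LART := st_LART all_TAL

/-! ## Irreducible motives of rank two -/

theorem all_TRP : ST_TRP := Pool.Agent.Helper60.REC8.st_TRP st_FRB
theorem all_CL2 : ST_CL2 := Pool.Agent.Helper60.REC8.st_CL2
theorem all_INL : ST_INL := Pool.Agent.Helper89.REC.st_INL
theorem all_IRB : ST_IRB := st_IRB all_RLN all_REL1 st_HS2 all_LIN0 all_TRP all_INL all_CL2

theorem reg_two {F : Type} [Field F] [NumberField F] {S : Finset ℕ} (hS : ∀ p ∈ S, p.Prime)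
    {w : ℕ} {h : Fin 2 → ℕ} (M : Mot F S 2 w h) (hh : h 0 ≠ h 1)
    (hM : NoCM F ∨ ∀ (l : ℕ) [Fact l.Prime], IsIrr (rat (M.ρ l))) : Reg0 M := by
  rcases hM with hM | hM
  · exact all_IR2 F S hS w h M hh (Or.inl hM)
  · exact all_IRB F S hS w h M hh hM

/-- finiteness for motives of rank two -/
theorem finiteness_two_irr {F : Type} [Field F] [NumberField F] {S : Finset ℕ}
    (hS : ∀ p ∈ S, p.Prime) (w : ℕ) (h : Fin 2 → ℕ) (hh : h 0 ≠ h 1) :
    ∃ N : ℕ, ∀ 𝒯 : Set (Mot F S 2 w h),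
      (NoCM F ∨ ∀ M ∈ 𝒯, ∀ (l : ℕ) [Fact l.Prime], IsIrr (rat (M.ρ l))) →
      (∃ T : Finset (Mot F S 2 w h), (T : Set (Mot F S 2 w h)) ⊆ 𝒯 ∧ T.card ≤ N ∧
        ∀ M ∈ 𝒯, ∃ M' ∈ T, M.AdelicIso M') ∧
      ((∀ M ∈ 𝒯, ∀ M' ∈ 𝒯, M.AdelicIso M' → M.Isog M') →
        ∃ T : Finset (Mot F S 2 w h), (T : Set (Mot F S 2 w h)) ⊆ 𝒯 ∧ T.card ≤ N ∧
          ∀ M ∈ 𝒯, ∃ M' ∈ T, M.Iso M') := by
  obtain ⟨N, hN⟩ := all_FIN0 F S hS 2 w h
  refine ⟨N, fun 𝒯 h𝒯 => hN 𝒯 fun M hM => ?_⟩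
  exact reg_two hS M hh (h𝒯.imp id fun h => h M hM)

end REC
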