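import Pool.Agent.Helper57.REC.All6b
import Pool.Agent.Helper34.REC.IR3
import Pool.Agent.Helper34.REC.CNV
import Pool.Agent.Helper34.REC.TRM
import Pool.Agent.Helper34.REC.CL3
import Pool.Agent.Helper34.REC.NFD
import Pool.Agent.Helper53.REC.MXL
import Pool.Agent.Helper17.REC.PIN
import Pool.Agent.Helper72.REC.REL3
import Pool.Agent.Helper28.REC.NED
import Pool.Agent.Helper8.REC.LIN3
import Pool.Agent.Helper78.REC.INV3
import Pool.Agent.Helper78.REC.SYM
import Pool.Agent.Helper32.REC.GO3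
import Pool.Agent.Helper61.REC.DAT
import Pool.Agent.Helper20.REC.RS3
import Pool.Agent.Helper61.REC.UNQ
import Pool.Agent.Helper34.REC.EXT
import Pool.Agent.Helper34.REC.CRD
import Pool.Agent.Helper34.REC.JZD
import Pool.Agent.Helper20.REC.JZS
import Pool.Agent.Helper53.REC.SEM
import Pool.Agent.Helper53.REC.LTS
import Pool.Agent.Helper87.REC.ADE2
import Pool.Agent.Helper89.REC.JZ
import Pool.Agent.Helper78.REC.ISO2
import Pool.Agent.Helper89.REC.FINC
import Pool.Agent.Helper51.REC.IDL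
import Pool.Agent.Helper51.REC.SUM
import Pool.Agent.Helper8.REC.ATP
import Pool.Agent.Helper72.REC.CMP
import Pool.Agent.Helper72.REC.CMA
import Pool.Agent.Helper52.REC.FD2
import Pool.Agent.Helper52.REC.FD3
import Pool.Agent.Helper34.REC.NF2
import Pool.Agent.Helper52.REC.CMT
import Pool.Agent.Helper25.REC.CRG
import Pool.Agent.Helper89.REC.SML
import Pool.Agent.Helper25.REC.FDS

/-!
# Assembly, third part: irreducible motives of rank three, direct sums of small motives
-/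

set_option autoImplicit false

open NumberField MU

namespace REC

/-! ## Rank three -/

theorem all_SYM : ST_SYM := Pool.Agent.Helper78.REC.st_SYM st_FRB
theorem all_MXL : ST_MXL := st_MXL
theorem all_RS3 : ST_RS3 := st_RS3
theorem all_INV3 : ST_INV3 := Pool.Agent.Helper78.REC.st_INV3
theorem all_CL3 : ST_CL3 := Pool.Agent.Helper34.REC.st_CL3
theorem all_GO3 : ST_GO3 := Pool.Agent.Helper32.REC.st_GO3
theorem all_DAT : ST_DAT := Pool.Agent.Helper61.REC.st_DAT all_SYM all_MXL all_RS3 all_INL st_OVP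
theorem all_TRM : ST_TRM := Pool.Agent.Helper34.REC.st_TRM st_FRB
theorem all_PIN : ST_PIN := st_PIN st_SPQ
theorem all_CNV : ST_CNV := Pool.Agent.Helper34.REC.st_CNV
theorem all_REL3 : ST_REL3 :=
  Pool.Agent.Helper72.REC.R3.st_REL3 all_LART all_EV all_FRV all_CNV
theorem all_LIN3 : ST_LIN3 := st_LIN3 st_SPQ st_FRB st_OVP all_SYM all_GO3
theorem all_NFD : ST_NFD :=
  Pool.Agent.Helper34.REC.st_NFD all_REL3 all_LIN3 all_SYM all_CL3 all_PIN st_OVP
theorem all_NED : ST_NED :=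
  Pool.Agent.Helper28.REC9.st_NED all_TRM all_INV3 all_SYM MU.st_HER st_FRB
theorem all_IR3 : ST_IR3 := Pool.Agent.Helper34.REC.st_IR3 all_DAT all_NFD all_NED

/-! ## Lattices -/

theorem all_UNQ : ST_UNQ := Pool.Agent.Helper61.REC.st_UNQ
theorem all_EXT : ST_EXT := Pool.Agent.Helper34.REC.st_EXT
theorem all_CRD : ST_CRD := Pool.Agent.Helper34.REC.st_CRD all_EXT
theorem all_JZD : ST_JZD := Pool.Agent.Helper34.REC.st_JZD
theorem all_JZS : ST_JZS := st_JZS all_JZD
theorem all_LTS : ST_LTS := st_LTS all_CRD Pool.Agent.Helper93.REC.st_LTH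
theorem all_SEM : ST_SEM := st_SEM
theorem all_ADE2 : ST_ADE2 := st_ADE2 all_SEM all_LTS all_UNQ
theorem all_JZ : ST_JZ := st_JZ all_CRD all_JZS
theorem all_ISO2 : ST_ISO2 := Pool.Agent.Helper78.REC.st_ISO2 all_JZ all_LTS all_UNQ
theorem all_FINC : ST_FINC := st_FINC all_ADE2 all_ISO2 all_TIS

/-! ## Direct sums -/

theorem all_IDL : ST_IDL := st_IDL
theorem all_SUM : ST_SUM := st_SUM all_IDL
theorem all_ATP : ST_ATP := st_ATP st_FRB
theorem all_CMP : ST_CMP := Pool.Agent.Helper72.REC.C2.st_CMP st_FRB all_MAT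
theorem all_CMA : ST_CMA := Pool.Agent.Helper72.REC.C2.st_CMA st_FRB
theorem all_FD2 : ST_FD2 := Pool.Agent.Helper52.REC.st_FD2 st_OVP
theorem all_FD3 : ST_FD3 := Pool.Agent.Helper52.REC.st_FD3 st_OVP
theorem all_NF2 : ST_NF2 :=
  Pool.Agent.Helper34.REC.st_NF2 all_REL3 all_LIN0 all_TRP all_CL2 all_PIN st_OVP
theorem all_CMT : ST_CMT := Pool.Agent.Helper52.REC.st_CMT
theorem all_CRG : ST_CRG := st_CRG all_CMC all_INF all_TRP
theorem all_SML : ST_SML :=
  st_SML all_CRG all_IRB all_FD2 all_NF2 all_CMT all_IR3 all_FD3 all_NFD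
theorem all_FDS : ST_FDS := st_FDS all_FINC all_SUM all_ATP all_CMP all_CMA all_SML

end REC
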