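import Pool.Agent.Helper85.REC.Stmts12
import Pool.Agent.Helper25.REC.PCD
import Pool.Agent.Helper57.REC.All6b

/-!
# The final theorem from its ingredients
-/

set_option autoImplicit false

open NumberField

namespace REC

open MU

theorem grd_cpl {G : Type} [Group G] {n l : ℕ} [Fact l.Prime]
    (r : G →* Matrix.GeneralLinearGroup (Fin n) ℤ_[l]) (h : IsIrr (res r)) : Cpl r := by
  intro m B A hBA
  rcases h m B A hBA with h0 | h0
  · subst h0
    refine ⟨0, 0, by rw [Matrix.mul_zero], fun g => by rw [Matrix.zero_mul, Matrix.mul_zero], ?_,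
      Subsingleton.elim _ _⟩
    rw [Matrix.mul_zero]
    ext i j
    simp
  · subst h0
    obtain ⟨⟨C, hC⟩, hA⟩ := hBA
    have hC' : B * C = 1 := mul_eq_one_comm.mp hC
    refine ⟨1, C, by rw [Matrix.one_mul], fun g => by rw [Matrix.one_mul, Matrix.mul_one], ?_, hC⟩
    rw [hC']
    exact Matrix.map_one _ (map_zero _) (map_one _)

section

variable {F : Type} [Field F] [NumberField F] {S : Finset ℕ} {n w : ℕ} {h : Fin n → ℕ}

theorem grd_reg (M : Mot F S n w h) (hM : Reg0 M) : Reg2 M := by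
  obtain ⟨h1, c, hc⟩ := hM
  exact ⟨fun l _ => isSS_of_isIrr _ (h1 l), c, fun l _ hl => grd_cpl _ (hc l hl)⟩

theorem grd_cmr (M : Mot F S n w h) (hM : Cmr M) : Pab M :=
  ⟨hM.2.1, ⊤, isOpen_univ, fun l _ g _ g' _ => hM.2.2.1 l g g'⟩

theorem grd_one (hSUM : ST_SUM) (M : Mot F S n w h) (h1 : SSr M) (h2 : HLp M M) : Reg2 M := by
  refine hSUM F S n w h M 1 (fun _ => n) (fun _ => h) (fun _ => M)
    ⟨fun _ => 1, fun _ => 1, fun _ => by rw [Matrix.one_mul], ?_, ?_, ?_⟩ (fun _ => h1)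
    fun _ _ => h2
  · intro i j hij
    exact absurd (Subsingleton.elim i j) hij
  · simp
  · intro i l _ g
    have h3 : (1 : Matrix (Fin n) (Fin n) ℚ).map (algebraMap ℚ ℚ_[l]) = 1 :=
      Matrix.map_one _ (map_zero _) (map_one _)
    rw [h3, Matrix.one_mul, Matrix.mul_one]

end

/-- the summands are potentially abelian or atoms -/
theorem grd_small (hSML : ST_SML) (hUNA : ST_UNA) (hSEA : ST_SEA) {F : Type} [Field F]
    [NumberField F] {S : Finset ℕ} (hS : ∀ p ∈ S, p.Prime) {n w : ℕ} {h : Fin n → ℕ}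
    (M : Mot F S n w h) (hM : Smm M) : Pab M ∨ Atm M := by
  rcases hM with hM | hM | hM | hM | hM | hM
  · exact Or.inl hM
  · exact Or.inr hM
  · rcases hSML F S hS n w h M (Or.inr (Or.inl hM)) with h1 | h1
    · exact Or.inr h1
    · exact Or.inl (grd_cmr M h1)
  · rcases hSML F S hS n w h M (Or.inr (Or.inr hM)) with h1 | h1
    · exact Or.inr h1
    · exact Or.inl (grd_cmr M h1)
  · rcases hUNA F S hS n w h M hM with hn | hr
    · exact Or.inl (pcd_small M hn)
    · exact Or.inr hr.1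
  · rcases hSEA F S hS n w h M hM with hn | hr
    · exact Or.inl (pcd_small M hn)
    · exact Or.inr hr.1

theorem grd_reg2 (hSUM : ST_SUM) (hSMK : ST_SMK) (hPPB : ST_PPB) (hPAA : ST_PAA) (hATP : ST_ATP)
    (hSML : ST_SML) (hUNA : ST_UNA) (hSEA : ST_SEA) (hCRG : ST_CRG) (hIRB : ST_IRB)
    (hIR2 : ST_IR2) {F : Type} [Field F]
    [NumberField F] {S : Finset ℕ} (hS : ∀ p ∈ S, p.Prime) {n w : ℕ} {h : Fin n → ℕ}
    (M : Mot F S n w h) (hM : Good M) : Reg2 M := by
  rcases hM with hM | ⟨hn, hinj, hM⟩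
  · obtain ⟨K, _, _, _, j, r, S', k, m, h', M', hbc, hS', hs, hpc⟩ := hM
    have hac : ∀ i, Pab (M' i) ∨ Atm (M' i) := fun i => grd_small hSML hUNA hSEA hS' (M' i) (hpc i)
    refine hSMK F K j r hbc S S' n w h M k m h' M' hs (fun i => ?_) fun i i' => ?_
    · rcases hac i with hi | hi
      · exact (hPPB K S' hS' _ _ w _ _ (M' i) (M' i) hi hi).1
      · exact (hATP K S' hS' _ _ w _ _ (M' i) (M' i) hi hi).1
    · rcases hac i with hi | hi <;> rcases hac i' with hj | hj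
      · exact (hPPB K S' hS' _ _ w _ _ (M' i) (M' i') hi hj).2
      · exact (hPAA K S' hS' _ _ w _ _ (M' i) (M' i') hi hj).1
      · exact (hPAA K S' hS' _ _ w _ _ (M' i') (M' i) hj hi).2
      · exact (hATP K S' hS' _ _ w _ _ (M' i) (M' i') hi hj).2
  · subst hn
    have hh : h 0 ≠ h 1 := fun h0 => absurd (hinj h0) (by decide)
    rcases hM with hM | hM
    · exact grd_reg M (hIR2 F S hS w h M hh (Or.inl hM))
    · rcases hCRG F S hS w h M hinj hM with h1 | h1
      · exact grd_reg M (hIRB F S hS w h M hh h1)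
      · have h2 := hPPB F S hS _ _ w _ _ M M (grd_cmr M h1) (grd_cmr M h1)
        exact grd_one hSUM M h2.1 h2.2

theorem st_GRD (hFINC : ST_FINC) (hSUM : ST_SUM) (hSMK : ST_SMK) (hPPB : ST_PPB)
    (hPAA : ST_PAA) (hATP : ST_ATP) (hSML : ST_SML) (hUNA : ST_UNA) (hSEA : ST_SEA)
    (hCRG : ST_CRG) (hIRB : ST_IRB) (hIR2 : ST_IR2) : ST_GRD := by
  intro F _ _ S hS n w h
  obtain ⟨N, hN⟩ := hFINC F S hS n w h
  exact ⟨N, fun 𝒯 h𝒯 => hN 𝒯 fun M hM =>
    grd_reg2 hSUM hSMK hPPB hPAA hATP hSML hUNA hSEA hCRG hIRB hIR2 hS M (h𝒯 M hM)⟩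

end REC
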