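import Pool.Agent.Helper85.REC.All3
import Pool.Agent.Helper85.REC.GRD
import Pool.Agent.Helper61.REC.AVS
import Pool.Agent.Helper72.REC.AVL
import Pool.Agent.Helper79.REC.SSL
import Pool.Agent.Helper79.REC.SUG
import Pool.Agent.Helper53.REC.SSD
import Pool.Agent.Helper53.REC.CLF
import Pool.Agent.Helper93.REC.IXB
import Pool.Agent.Helper93.REC.SMK
import Pool.Agent.Helper72.REC.ETL
import Pool.Agent.Helper48.REC.TFR
import Pool.Agent.Helper48.REC.HKL
import Pool.Agent.Helper20.REC.PB0
import Pool.Agent.Helper53.REC.PBR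
import Pool.Agent.Helper72.REC.PPB
import Pool.Agent.Helper72.REC.UNA
import Pool.Agent.Helper8.REC.PAA

/-!
# Assembly, fourth part: motives which are direct sums of small motives over a finite extension
-/

set_option autoImplicit false

open NumberField MU

namespace REC

theorem all_AVS : ST_AVS := Pool.Agent.Helper61.REC.st_AVS
theorem all_AVL : ST_AVL := Pool.Agent.Helper72.REC.Avl.st_AVL
theorem all_SSL : ST_SSL := st_SSL all_IDL
theorem all_SSD : ST_SSD := st_SSD
theorem all_SUG : ST_SUG := st_SUG all_SSD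
theorem all_CLF : ST_CLF := st_CLF
theorem all_IXB : ST_IXB := st_IXB
theorem all_SMK : ST_SMK := st_SMK all_AVS all_AVL all_SSL all_SSD all_SUG all_IXB
theorem all_ETL : ST_ETL := Pool.Agent.Helper72.REC.Etl.st_ETL
theorem all_TFR : ST_TFR := st_TFR
theorem all_HKL : ST_HKL := st_HKL
theorem all_PB0 : ST_PB0 := st_PB0 all_TFR all_HKL
theorem all_PBR : ST_PBR := st_PBR all_PB0 all_HKL all_CLF
theorem all_PPB : ST_PPB :=
  Pool.Agent.Helper72.REC.Ppb.st_PPB all_PBR all_ETL all_AVS all_AVL all_SSD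
theorem all_UNA : ST_UNA := Pool.Agent.Helper72.REC.Una.st_UNA
theorem all_SEA : ST_SEA := Pool.Agent.Helper72.REC.Una.st_SEA
theorem all_PAA : ST_PAA := st_PAA st_FRB all_PPB all_CLF all_SEM
theorem all_GRD : ST_GRD :=
  st_GRD all_FINC all_SUM all_SMK all_PPB all_PAA all_ATP all_SML all_UNA all_SEA all_CRG all_IRB
    all_IR2

end REC
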