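import Mathlib

/-!
# Density of the powers of `t` in `1 + l^k ℤ_l`, and the quadratic core of the group lemma
-/

set_option autoImplicit false

namespace REC

variable {l : ℕ} [Fact l.Prime]

/-- the powers of `t = 1 + l ^ k u` are dense in `1 + l ^ k ℤ_l` -/
theorem gl_dense (k : ℕ) (hk : k + 2 ≤ l * k) (t u y : ℤ_[l]) (hu : IsUnit u)
    (ht : t = 1 + (l : ℤ_[l]) ^ k * u) (hy : (l : ℤ_[l]) ^ k ∣ y - 1) (j : ℕ) :
    ∃ n : ℕ, (l : ℤ_[l]) ^ (j + k) ∣ t ^ n - y := by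
  have hl : l.Prime := Fact.out
  have hk0 : k ≠ 0 := by
    rintro rfl
    omega
  set φ : ℤ_[l] →+* ZMod (l ^ (j + k)) := PadicInt.toZModPow (j + k) with hφ
  have hne : NeZero (l ^ (j + k)) := ⟨pow_ne_zero _ hl.ne_zero⟩
  -- `u` is an integer modulo `l ^ (j + k)`
  obtain ⟨a, ha⟩ : ∃ a : ℤ, (a : ZMod (l ^ (j + k))) = φ u := by
    refine ⟨((φ u).val : ℤ), ?_⟩
    rw [Int.cast_natCast, ZMod.natCast_zmod_val]
  have hla : ¬ (l : ℤ) ∣ a := by
    rintro ⟨b, rfl⟩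
    have h1 : IsUnit (φ u) := hu.map φ
    rw [← ha] at h1
    push_cast at h1
    have h2 : IsUnit ((l : ℕ) : ZMod (l ^ (j + k))) := isUnit_of_mul_isUnit_left h1
    rw [ZMod.isUnit_iff_coprime] at h2
    have h3 : l.Coprime l := Nat.Coprime.coprime_dvd_right (dvd_pow_self l (by omega)) h2
    rw [Nat.coprime_self] at h3
    exact hl.one_lt.ne' h3
  have hord := ZMod.orderOf_one_add_mul_prime_pow hl k hk0 hk a hla j
  have hφt : φ t = 1 + (l : ZMod (l ^ (j + k))) ^ k * a := by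
    rw [ht, map_add, map_one, map_mul, map_pow, map_natCast, ha]
  -- the finite set
  let A : Finset (ZMod (l ^ (j + k))) :=
    (Finset.range (l ^ j)).image fun n => (φ t) ^ n
  let B : Finset (ZMod (l ^ (j + k))) :=
    (Finset.range (l ^ j)).image fun r : ℕ => 1 + (l : ZMod (l ^ (j + k))) ^ k * (r : ZMod (l ^ (j + k)))
  have hBmem : ∀ c : ZMod (l ^ (j + k)), 1 + (l : ZMod (l ^ (j + k))) ^ k * c ∈ B := by
    intro c
    refine Finset.mem_image.mpr ⟨c.val % l ^ j,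
      Finset.mem_range.mpr (Nat.mod_lt _ (pow_pos hl.pos _)), ?_⟩
    congr 1
    conv_rhs => rw [← ZMod.natCast_zmod_val c, ← Nat.mod_add_div c.val (l ^ j)]
    push_cast
    rw [mul_add, ← mul_assoc, ← pow_add, add_comm k j]
    have : ((l : ZMod (l ^ (j + k))) ^ (j + k)) = 0 := by
      rw [← Nat.cast_pow, ZMod.natCast_self]
    rw [this, zero_mul, add_zero]
  have hAB : A ⊆ B := by
    intro x hx
    obtain ⟨n, -, rfl⟩ := Finset.mem_image.mp hx
    obtain ⟨c, hc⟩ : ∃ c, (φ t) ^ n = 1 + (l : ZMod (l ^ (j + k))) ^ k * c := by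
      clear hx
      induction n with
      | zero => exact ⟨0, by simp⟩
      | succ n ih =>
        obtain ⟨c, hc⟩ := ih
        refine ⟨a + c + c * (l : ZMod (l ^ (j + k))) ^ k * a, ?_⟩
        rw [pow_succ, hc, hφt]
        ring
    rw [hc]
    exact hBmem c
  have hcard : B.card ≤ A.card := by
    have h1 : A.card = l ^ j := by
      rw [Finset.card_image_of_injOn, Finset.card_range]
      intro x hx y hy hxy
      rw [← hφt] at hord
      have hx' : x < orderOf (φ t) := by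
        rw [hord]
        exact Finset.mem_range.mp hx
      have hy' : y < orderOf (φ t) := by
        rw [hord]
        exact Finset.mem_range.mp hy
      exact pow_injOn_Iio_orderOf hx' hy' hxy
    rw [h1]
    exact Finset.card_image_le.trans (Finset.card_range _).le
  have hEq : A = B := Finset.eq_of_subset_of_card_le hAB hcard
  obtain ⟨z, hz⟩ := hy
  have hyB : φ y ∈ B := by
    have : y = 1 + (l : ℤ_[l]) ^ k * z := by rw [← hz]; ring
    rw [this, map_add, map_one, map_mul, map_pow, map_natCast]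
    exact hBmem _
  rw [← hEq] at hyB
  obtain ⟨n, -, hn⟩ := Finset.mem_image.mp hyB
  refine ⟨n, ?_⟩
  rw [← Ideal.mem_span_singleton, ← PadicInt.ker_toZModPow, RingHom.mem_ker, map_sub, map_pow]
  exact sub_eq_zero.mpr hn

/-- the squares of `ℤ_l` form a closed set -/
theorem gl_sq_closed : IsClosed {x : ℤ_[l] | IsSquare x} := by
  have : {x : ℤ_[l] | IsSquare x} = Set.range fun x : ℤ_[l] => x * x := by
    ext x
    exact ⟨fun ⟨y, hy⟩ => ⟨y, hy.symm⟩, fun ⟨y, hy⟩ => ⟨y, hy.symm⟩⟩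
  rw [this]
  exact (isCompact_range (by fun_prop)).isClosed

/-- `x ^ 2 + 1` is not always a square -/
theorem gl_not_sq : ∃ x : ℤ_[l], ¬ IsSquare (x ^ 2 + 1) := by
  by_contra hcon
  push Not at hcon
  have h1 : ∀ n : ℕ, IsSquare (n : ℤ_[l]) := by
    intro n
    induction n with
    | zero => exact ⟨0, by simp⟩
    | succ n ih =>
      obtain ⟨x, hx⟩ := ih
      have := hcon x
      rw [pow_two, ← hx] at this
      push_cast
      exact this
  obtain ⟨x, hx⟩ := h1 l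
  have hp : Prime (l : ℤ_[l]) := PadicInt.prime_p
  exact hp.irreducible.not_isSquare ⟨x, hx⟩

theorem gl_unit_of_dvd {k : ℕ} (hk : k ≠ 0) {x : ℤ_[l]} (hx : (l : ℤ_[l]) ^ k ∣ x - 1) :
    IsUnit x := by
  by_contra hcon
  have h1 : (l : ℤ_[l]) ∣ x := by
    rw [← Ideal.mem_span_singleton, ← PadicInt.maximalIdeal_eq_span_p]
    exact hcon
  have h2 : (l : ℤ_[l]) ∣ x - 1 := (dvd_pow_self _ hk).trans hx
  have h3 : (l : ℤ_[l]) ∣ 1 := by
    have := dvd_sub h1 h2
    rwa [sub_sub_cancel] at this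
  exact PadicInt.prime_p.not_isUnit (isUnit_of_dvd_one h3)

/-- the quadratic core: `(t^n A - P)^2 + 4 t^n A Q` is not always a square -/
theorem gl_core (k : ℕ) (hk : k + 2 ≤ l * k) (t u A P Q : ℤ_[l]) (hu : IsUnit u)
    (ht : t = 1 + (l : ℤ_[l]) ^ k * u) (hA : (l : ℤ_[l]) ^ k ∣ A - 1)
    (hP : (l : ℤ_[l]) ^ k ∣ P - 1) (hQ : (l : ℤ_[l]) ^ (2 * k) ∣ Q)
    (hD : ∀ n : ℕ, IsSquare ((t ^ n * A - P) ^ 2 + 4 * (t ^ n * A * Q))) : Q = 0 := by
  have hl : l.Prime := Fact.out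
  have hk0 : k ≠ 0 := by
    rintro rfl
    omega
  have hp : Prime (l : ℤ_[l]) := PadicInt.prime_p
  have hAu := gl_unit_of_dvd hk0 hA
  have hPu := gl_unit_of_dvd hk0 hP
  -- all `y`
  have hD' : ∀ y : ℤ_[l], (l : ℤ_[l]) ^ k ∣ y - 1 →
      IsSquare ((y * A - P) ^ 2 + 4 * (y * A * Q)) := by
    intro y hy
    let f : ℤ_[l] → ℤ_[l] := fun y => (y * A - P) ^ 2 + 4 * (y * A * Q)
    have hf : Continuous f := by fun_prop
    have hcl : IsClosed (f ⁻¹' {x : ℤ_[l] | IsSquare x}) := gl_sq_closed.preimage hf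
    change y ∈ f ⁻¹' {x : ℤ_[l] | IsSquare x}
    rw [← hcl.closure_eq, Metric.mem_closure_iff]
    intro ε hε
    have hl1 : (1 : ℝ) < l := by exact_mod_cast hl.one_lt
    obtain ⟨j, hj⟩ : ∃ j : ℕ, ((l : ℝ)⁻¹) ^ j < ε :=
      exists_pow_lt_of_lt_one hε (inv_lt_one_of_one_lt₀ hl1)
    obtain ⟨n, hn⟩ := gl_dense k hk t u y hu ht hy j
    refine ⟨t ^ n, hD n, ?_⟩
    rw [dist_comm, dist_eq_norm]
    have h2 : ‖t ^ n - y‖ ≤ (l : ℝ) ^ (-(↑(j + k) : ℤ)) := by
      rw [PadicInt.norm_le_pow_iff_mem_span_pow, Ideal.mem_span_singleton]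
      exact hn
    have h3 : (l : ℝ) ^ (-(↑(j + k) : ℤ)) ≤ ((l : ℝ)⁻¹) ^ j := by
      rw [zpow_neg, zpow_natCast, ← inv_pow]
      exact pow_le_pow_of_le_one (by positivity) (inv_le_one_of_one_le₀ hl1.le) (by omega)
    linarith
  -- all `x`
  have hx : ∀ x : ℤ_[l], (l : ℤ_[l]) ^ k ∣ x → IsSquare (x ^ 2 + 4 * Q * (P - Q)) := by
    intro x hx
    obtain ⟨B, hB⟩ := hAu.exists_left_inv
    have h1 := hD' (B * (P + x - 2 * Q)) ?_
    · have h2 : B * (P + x - 2 * Q) * A = P + x - 2 * Q := by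
        rw [mul_right_comm, hB, one_mul]
      rw [h2] at h1
      convert h1 using 1
      ring
    · have h3 : B * (P + x - 2 * Q) - 1 = B * (P - 1 + x - 2 * Q - (A - 1)) := by
        linear_combination hB
      rw [h3]
      refine Dvd.dvd.mul_left ?_ _
      refine dvd_sub (dvd_sub (dvd_add hP hx) (Dvd.dvd.mul_left ?_ _)) hA
      exact (pow_dvd_pow _ (by omega)).trans hQ
  -- `4 Q (P - Q) = b ^ 2`
  obtain ⟨b, hb⟩ := hx 0 (dvd_zero _)
  rw [zero_pow two_ne_zero, zero_add, ← pow_two] at hb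
  have hbd : (l : ℤ_[l]) ^ k ∣ b := by
    have h1 : (l : ℤ_[l]) ^ (2 * k) ∣ b ^ 2 := by
      rw [← hb]
      exact (hQ.mul_left 4).mul_right _
    rw [mul_comm, pow_mul] at h1
    exact (UniqueFactorizationMonoid.pow_dvd_pow_iff_dvd two_ne_zero).mp h1
  have hb0 : b = 0 := by
    by_contra hb0
    obtain ⟨x, hx'⟩ := gl_not_sq (l := l)
    apply hx'
    obtain ⟨w, hw⟩ := hx (b * x) (hbd.mul_right x)
    rw [hb] at hw
    have h1 : b ^ 2 ∣ w ^ 2 := ⟨x ^ 2 + 1, by rw [pow_two w, ← hw]; ring⟩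
    obtain ⟨v, rfl⟩ := (UniqueFactorizationMonoid.pow_dvd_pow_iff_dvd two_ne_zero).mp h1
    refine ⟨v, ?_⟩
    have h2 : b ^ 2 * (x ^ 2 + 1) = b ^ 2 * (v * v) := by linear_combination hw
    exact mul_left_cancel₀ (pow_ne_zero 2 hb0) h2
  rw [hb0, zero_pow two_ne_zero] at hb
  have h4 : (4 : ℤ_[l]) ≠ 0 := by norm_num
  have hPQ : IsUnit (P - Q) := by
    refine gl_unit_of_dvd hk0 ?_
    have : P - Q - 1 = P - 1 - Q := by ring
    rw [this]
    exact dvd_sub hP ((pow_dvd_pow _ (by omega)).trans hQ)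
  rcases mul_eq_zero.mp hb with h5 | h5
  · exact (mul_eq_zero.mp h5).resolve_left h4
  · exact absurd h5 hPQ.ne_zero

end REC
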