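import Pool.Agent.Helper85.REC.Unl

/-!
# Multiplicative relations between the conjugates of units: patterns of exponents

If `∏ τ, τ u ^ e τ = 1` for all units `u` of `F` then `e` is constant, if `F` contains no CM field
(Weil's theorem on the infinity types of algebraic Hecke characters).
-/

set_option autoImplicit false

open NumberField NumberField.InfinitePlace

namespace REC

/-- a number field with a nontrivial automorphism which is the complex conjugation in all
embeddings is a CM field -/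
theorem cm_of_conj (K : Type) [Field K] [NumberField K] (σ : K ≃ₐ[ℚ] K) (hσ1 : σ ≠ 1)
    (hσ : ∀ φ : K →+* ℂ, ComplexEmbedding.IsConj φ σ) : IsCMField K := by
  have htc : IsTotallyComplex K := ⟨fun w => by
    rw [← not_isReal_iff_isComplex]
    intro hw
    have h1 : ComplexEmbedding.IsReal w.embedding := isReal_iff.mp hw
    exact (ComplexEmbedding.isConj_ne_one_iff (hσ w.embedding)).mp hσ1 h1⟩
  let φ : K →+* ℂ := Classical.choice (inferInstance : Nonempty _)
  have hσ' : Nat.card (Subgroup.zpowers σ) = 2 := by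
    rw [Nat.card_zpowers, ComplexEmbedding.orderOf_isConj_two_of_ne_one (hσ φ) hσ1]
  let L : IntermediateField ℚ K := IntermediateField.fixedField (Subgroup.zpowers σ)
  have : IsTotallyReal L := ⟨fun w ↦ by
    obtain ⟨W, rfl⟩ := w.comap_surjective (K := K)
    dsimp only
    rw [← mk_embedding W, comap_mk, isReal_mk_iff, ComplexEmbedding.isReal_iff]
    ext x
    have h1 := (hσ W.embedding).eq (x : K)
    have h2 : σ (x : K) = x :=
      (IntermediateField.mem_fixedField_iff _ _).mp x.2 σ (Subgroup.mem_zpowers σ)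
    rw [h2] at h1
    exact h1.symm⟩
  have : Algebra.IsQuadraticExtension L K := ⟨by
    rw [IntermediateField.finrank_fixedField_eq_card, hσ']⟩
  exact IsCMField.ofCMExtension L K

variable {F L : Type} [Field F] [NumberField F] [Field L] [NumberField L] [IsGalois ℚ L]

/-- extension of embeddings -/
theorem ext_emb (τ : F →+* L) (ψ : F →+* ℂ) : ∃ Ψ : L →+* ℂ, Ψ.comp τ = ψ := by
  let := τ.toAlgebra
  let := ψ.toAlgebra
  have : IsScalarTower ℚ F L := IsScalarTower.of_algebraMap_eq' (Subsingleton.elim _ _)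
  have : Algebra.IsAlgebraic F L := Algebra.IsAlgebraic.tower_top (K := ℚ) F
  refine ⟨((IsAlgClosed.lift : L →ₐ[F] ℂ) : L →+* ℂ), ?_⟩
  ext x
  exact (IsAlgClosed.lift : L →ₐ[F] ℂ).commutes x

/-- two embeddings of a Galois extension -/
theorem emb_conj (φ Ψ : L →+* ℂ) : ∃ g : L ≃ₐ[ℚ] L, Ψ = φ.comp (g : L →+* L) := by
  obtain ⟨σ, hσ⟩ := NumberField.ComplexEmbedding.exists_comp_symm_eq_of_comp_eq (k := ℚ) φ Ψ
    (Subsingleton.elim _ _)
  exact ⟨σ.symm, hσ.symm⟩

/-- complex conjugation -/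
theorem exists_conj (φ : L →+* ℂ) : ∃ c : L ≃ₐ[ℚ] L, ComplexEmbedding.IsConj φ c :=
  emb_conj φ (ComplexEmbedding.conjugate φ)

theorem comp_bij [Nonempty (F →+* L)] (φ : L →+* ℂ) :
    Function.Bijective (fun τ : F →+* L => φ.comp τ) := by
  constructor
  · intro τ τ' h
    ext x
    exact φ.injective (RingHom.congr_fun h x)
  · intro ψ
    obtain ⟨τ₀⟩ := ‹Nonempty (F →+* L)›
    obtain ⟨Ψ, hΨ⟩ := ext_emb τ₀ ψ
    obtain ⟨g, rfl⟩ := emb_conj φ Ψ
    exact ⟨(g : L →+* L).comp τ₀, hΨ⟩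

/-- the relation between the exponents at an embedding and at its complex conjugate -/
theorem pat_pair [Nonempty (F →+* L)] (e : (F →+* L) → ℤ)
    (h : ∀ u : (𝓞 F)ˣ, ∏ τ : F →+* L, τ (u : F) ^ e τ = 1) (φ : L →+* ℂ) (c : L ≃ₐ[ℚ] L)
    (hc : ComplexEmbedding.IsConj φ c) (τ τ' : F →+* L) :
    e τ + e ((c : L →+* L).comp τ) = e τ' + e ((c : L →+* L).comp τ') := by
  let ε : (F →+* L) ≃ (F →+* ℂ) := Equiv.ofBijective _ (comp_bij φ)
  have hε : ∀ τ, ε τ = φ.comp τ := fun _ => rfl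
  have hsum : ∀ u : (𝓞 F)ˣ, ∑ ψ : F →+* ℂ, (e (ε.symm ψ) : ℝ) * Real.log ‖ψ (u : F)‖ = 0 := by
    intro u
    have h1 : ∑ ψ : F →+* ℂ, (e (ε.symm ψ) : ℝ) * Real.log ‖ψ (u : F)‖ =
        ∑ τ : F →+* L, (e τ : ℝ) * Real.log ‖φ (τ (u : F))‖ := by
      rw [← Equiv.sum_comp ε]
      refine Finset.sum_congr rfl fun τ _ => ?_
      rw [Equiv.symm_apply_apply, hε, RingHom.comp_apply]
    rw [h1]
    have h2 := congrArg (fun x => Real.log ‖φ x‖) (h u)
    simp only [map_prod, map_zpow₀, norm_prod, norm_zpow, map_one, norm_one, Real.log_one] at h2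
    have hne : ∀ τ : F →+* L, ‖φ (τ (u : F))‖ ≠ 0 := by
      intro τ
      rw [norm_ne_zero_iff, map_ne_zero, map_ne_zero]
      exact Units.coe_ne_zero u
    rw [Real.log_prod (fun τ _ => zpow_ne_zero _ (hne τ))] at h2
    rw [← h2]
    refine Finset.sum_congr rfl fun τ _ => ?_
    rw [Real.log_zpow]
  have h3 := log_emb (fun ψ => (e (ε.symm ψ) : ℝ)) hsum (ε τ) (ε τ')
  have h4 : ∀ τ, ε.symm (ComplexEmbedding.conjugate (ε τ)) = (c : L →+* L).comp τ := by
    intro τ
    rw [Equiv.symm_apply_eq]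
    ext x
    rw [hε, hε]
    exact (hc.eq (τ x)).symm
  simp only [Equiv.symm_apply_apply, h4] at h3
  exact_mod_cast h3

/-- the sum does not depend on the complex conjugation either -/
theorem pat_const [Nonempty (F →+* L)] (e : (F →+* L) → ℤ)
    (h : ∀ u : (𝓞 F)ˣ, ∏ τ : F →+* L, τ (u : F) ^ e τ = 1) : ∃ κ : ℤ, ∀ (φ : L →+* ℂ)
    (c : L ≃ₐ[ℚ] L), ComplexEmbedding.IsConj φ c → ∀ τ : F →+* L,
      e τ + e ((c : L →+* L).comp τ) = κ := by
  classical
  obtain ⟨τ₀⟩ := ‹Nonempty (F →+* L)›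
  have : Nonempty (F →+* L) := ⟨τ₀⟩
  have hcard : (0 : ℤ) < Fintype.card (F →+* L) := by exact_mod_cast Fintype.card_pos
  -- the sum over all embeddings
  have hs : ∀ (φ : L →+* ℂ) (c : L ≃ₐ[ℚ] L), ComplexEmbedding.IsConj φ c → ∀ τ : F →+* L,
      (Fintype.card (F →+* L) : ℤ) * (e τ + e ((c : L →+* L).comp τ)) = 2 * ∑ τ, e τ := by
    intro φ c hc τ
    have h1 : ∑ τ' : F →+* L, (e τ' + e ((c : L →+* L).comp τ')) =
        (Fintype.card (F →+* L) : ℤ) * (e τ + e ((c : L →+* L).comp τ)) := by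
      rw [Finset.sum_congr rfl fun τ' _ => pat_pair e h φ c hc τ' τ, Finset.sum_const,
        Finset.card_univ, nsmul_eq_mul]
    rw [← h1, Finset.sum_add_distrib, two_mul]
    congr 1
    have hinv : ∀ g : L ≃ₐ[ℚ] L, ∀ τ : F →+* L,
        ((g.symm : L ≃ₐ[ℚ] L) : L →+* L).comp ((g : L →+* L).comp τ) = τ := by
      intro g τ
      ext x
      exact g.symm_apply_apply _
    let ρ : (F →+* L) ≃ (F →+* L) :=
      { toFun := fun τ => (c : L →+* L).comp τ
        invFun := fun τ => ((c.symm : L ≃ₐ[ℚ] L) : L →+* L).comp τ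
        left_inv := fun τ => hinv c τ
        right_inv := fun τ => by
          ext x
          exact c.apply_symm_apply _ }
    exact Equiv.sum_comp ρ e
  obtain ⟨φ₀⟩ : Nonempty (L →+* ℂ) := inferInstance
  obtain ⟨c₀, hc₀⟩ := exists_conj φ₀
  refine ⟨e τ₀ + e ((c₀ : L →+* L).comp τ₀), fun φ c hc τ => ?_⟩
  have h1 := hs φ c hc τ
  have h2 := hs φ₀ c₀ hc₀ τ₀
  exact mul_left_cancel₀ hcard.ne' (h1.trans h2.symm)

/-- `F` contains no CM field -/
def NoCM (F : Type) [Field F] : Prop :=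
  ∀ (K : Type) [Field K] [NumberField K] [IsCMField K], IsEmpty (K →+* F)

omit [NumberField F] in
/-- a field with a real embedding contains no CM field -/
theorem noCM_of_real (ψ : F →+* ℂ) (hψ : ComplexEmbedding.IsReal ψ) : NoCM F := by
  intro K _ _ _
  refine ⟨fun f => ?_⟩
  exact IsTotallyComplex.complexEmbedding_not_isReal (ψ.comp f) (hψ.comp f)

/-- Weil's theorem: without CM subfields the exponents are constant -/
theorem pat_eq [Nonempty (F →+* L)] (hF : NoCM F) (e : (F →+* L) → ℤ)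
    (h : ∀ u : (𝓞 F)ˣ, ∏ τ : F →+* L, τ (u : F) ^ e τ = 1) (τ τ' : F →+* L) : e τ = e τ' := by
  classical
  obtain ⟨κ, hκ⟩ := pat_const e h
  obtain ⟨τ₀⟩ := ‹Nonempty (F →+* L)›
  obtain ⟨φ₀⟩ : Nonempty (L →+* ℂ) := inferInstance
  obtain ⟨c, hc⟩ := exists_conj φ₀
  -- all embeddings are conjugate
  have htr : ∀ τ : F →+* L, ∃ g : L ≃ₐ[ℚ] L, τ = (g : L →+* L).comp τ₀ := by
    intro τ
    obtain ⟨Ψ, hΨ⟩ := ext_emb τ₀ (φ₀.comp τ)
    obtain ⟨g, rfl⟩ := emb_conj φ₀ Ψ
    refine ⟨g, ?_⟩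
    ext x
    exact φ₀.injective (RingHom.congr_fun hΨ x).symm
  let E : (L ≃ₐ[ℚ] L) → ℤ := fun g => e ((g : L →+* L).comp τ₀)
  have hmul : ∀ g g' : L ≃ₐ[ℚ] L,
      ((g * g' : L ≃ₐ[ℚ] L) : L →+* L).comp τ₀ = (g : L →+* L).comp ((g' : L →+* L).comp τ₀) := by
    intro g g'
    rfl
  -- `E (x c') = κ - E x` for all complex conjugations
  have hE : ∀ (x : L ≃ₐ[ℚ] L) (φ : L →+* ℂ) (c' : L ≃ₐ[ℚ] L), ComplexEmbedding.IsConj φ c' →
      E (x * c') = κ - E x := by
    intro x φ c' hc'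
    have h1 : ComplexEmbedding.IsConj (φ.comp ((x⁻¹ : L ≃ₐ[ℚ] L) : L →+* L)) (x * c' * x⁻¹) := by
      have := hc'.comp x⁻¹
      rwa [inv_inv] at this
    have h2 := hκ _ _ h1 ((x : L →+* L).comp τ₀)
    rw [← hmul, mul_assoc, mul_assoc, inv_mul_cancel, mul_one] at h2
    change E x + E (x * c') = κ at h2
    linarith
  let B : Subgroup (L ≃ₐ[ℚ] L) :=
    { carrier := {g | ∀ x, E (x * g) = E x}
      mul_mem' := fun {a b} ha hb x => by rw [← mul_assoc, hb, ha]
      one_mem' := fun x => by rw [mul_one]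
      inv_mem' := fun {a} ha x => by
        have := ha (x * a⁻¹)
        rw [mul_assoc, inv_mul_cancel, mul_one] at this
        exact this.symm }
  have hB : ∀ g, g ∈ B ↔ ∀ x, E (x * g) = E x := fun g => Iff.rfl
  by_cases hcB : c ∈ B
  · have h1 : ∀ g, 2 * E g = κ := by
      intro g
      have h2 := hE g φ₀ c hc
      rw [(hB c).mp hcB g] at h2
      linarith
    obtain ⟨g, rfl⟩ := htr τ
    obtain ⟨g', rfl⟩ := htr τ'
    have h3 := h1 g
    have h4 := h1 g'
    change E g = E g'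
    linarith
  -- the CM subfield
  exfalso
  let K : IntermediateField ℚ L := IntermediateField.fixedField B
  have hKB : K.fixingSubgroup = B := IntermediateField.fixingSubgroup_fixedField B
  -- `K` is contained in the image of `F`
  have hKF : ∀ x ∈ K, ∃ y : F, τ₀ y = x := by
    let τa : F →ₐ[ℚ] L := τ₀.toRatAlgHom
    have h1 : τa.fieldRange.fixingSubgroup ≤ B := by
      intro g hg x
      have h2 : ((x * g : L ≃ₐ[ℚ] L) : L →+* L).comp τ₀ = (x : L →+* L).comp τ₀ := by
        rw [hmul]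
        congr 1
        ext y
        rw [IntermediateField.mem_fixingSubgroup_iff] at hg
        exact hg (τ₀ y) ⟨y, rfl⟩
      change e _ = e _
      rw [h2]
    have h3 : K ≤ τa.fieldRange := by
      have h4 := IntermediateField.fixedField_antitone h1
      have h5 := IsGalois.fixedField_fixingSubgroup τa.fieldRange
      rw [← h5]
      exact h4
    intro x hx
    obtain ⟨y, hy⟩ := h3 hx
    exact ⟨y, hy⟩
  have hfix : ∀ x ∈ K, ∀ b ∈ B, b x = x := by
    intro x hx b hb
    exact (IntermediateField.mem_fixedField_iff B x).mp hx b hb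
  have hcc : c * c = 1 := by
    ext x
    apply φ₀.injective
    have h1 := hc.eq (c x)
    rw [hc.eq x, star_star] at h1
    exact h1
  -- `c` normalises `B`
  have hnor : ∀ b ∈ B, c * b * c ∈ B := by
    intro b hb x
    have h1 := hE (x * c * b) φ₀ c hc
    have h2 := hE x φ₀ c hc
    rw [← mul_assoc, ← mul_assoc, h1, (hB b).mp hb (x * c), h2]
    ring
  have hcK : ∀ x ∈ K, c x ∈ K := by
    intro x hx
    rw [IntermediateField.mem_fixedField_iff]
    intro b hb
    have h1 := hfix x hx (c * b * c) (hnor b hb)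
    have h2 : c (c (b (c x))) = c x := congrArg c h1
    have h3 : ∀ y, c (c y) = y := fun y => AlgEquiv.congr_fun hcc y
    rw [h3] at h2
    exact h2
  let σ : K ≃ₐ[ℚ] K := AlgEquiv.ofRingEquiv (f :=
    { toFun := fun x => ⟨c x, hcK x x.2⟩
      invFun := fun x => ⟨c x, hcK x x.2⟩
      left_inv := fun x => Subtype.ext (AlgEquiv.congr_fun hcc x)
      right_inv := fun x => Subtype.ext (AlgEquiv.congr_fun hcc x)
      map_mul' := fun x y => Subtype.ext (map_mul c _ _)
      map_add' := fun x y => Subtype.ext (map_add c _ _) })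
    (fun r => Subtype.ext (c.commutes r))
  have hσ : ∀ x : K, ((σ x : K) : L) = c x := fun _ => rfl
  have hσ1 : σ ≠ 1 := by
    intro h1
    apply hcB
    rw [← hKB, IntermediateField.mem_fixingSubgroup_iff]
    intro x hx
    have h2 := hσ ⟨x, hx⟩
    rw [h1] at h2
    exact h2.symm
  have hconj : ∀ φ : K →+* ℂ, ComplexEmbedding.IsConj φ σ := by
    intro φ
    -- extend `φ` to `L`
    obtain ⟨Ψ, hΨ⟩ : ∃ Ψ : L →+* ℂ, Ψ.comp (algebraMap K L) = φ := by
      have : NumberField K := inferInstance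
      exact ext_emb (F := K) (L := L) (algebraMap K L) φ
    obtain ⟨c', hc'⟩ := exists_conj Ψ
    have h1 : c' * c ∈ B := by
      intro x
      rw [← mul_assoc, hE _ φ₀ c hc, hE _ Ψ c' hc']
      ring
    have hc2 : ∀ y, c' (c' y) = y := by
      intro y
      apply Ψ.injective
      have h1 := hc'.eq (c' y)
      rw [hc'.eq y, star_star] at h1
      exact h1
    have h2 : ∀ x : K, c' (x : L) = c x := by
      intro x
      have h3 := hfix x x.2 _ h1
      have h4 : c' (c' (c x)) = c' x := congrArg c' h3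
      rw [hc2] at h4
      exact h4.symm
    rw [← hΨ]
    ext x
    change star (Ψ (x : L)) = Ψ ((σ x : K) : L)
    rw [hσ, ← h2 x, hc'.eq]
  have := cm_of_conj K σ hσ1 hconj
  -- the embedding of `K` in `F`
  have hF2 := hF K
  choose f hf using fun x : K => hKF x x.2
  refine hF2.false
    { toFun := f
      map_one' := τ₀.injective (by rw [hf, map_one]; rfl)
      map_mul' := fun x y => τ₀.injective (by rw [hf, map_mul, hf, hf]; rfl)
      map_zero' := τ₀.injective (by rw [hf, map_zero]; rfl)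
      map_add' := fun x y => τ₀.injective (by rw [hf, map_add, hf, hf]; rfl) }

/-- the same for the `m`-th powers of the units -/
theorem pat_pow [Nonempty (F →+* L)] (hF : NoCM F) (e : (F →+* L) → ℤ) (m : ℕ) (hm : m ≠ 0)
    (h : ∀ u : (𝓞 F)ˣ, (∏ τ : F →+* L, τ (u : F) ^ e τ) ^ m = 1) (τ τ' : F →+* L) :
    e τ = e τ' := by
  have h1 := pat_eq hF (fun τ => e τ * m) (fun u => by
    rw [← h u, ← Finset.prod_pow]
    refine Finset.prod_congr rfl fun τ _ => ?_
    rw [zpow_mul, zpow_natCast]) τ τ'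
  have h2 : (m : ℤ) ≠ 0 := by exact_mod_cast hm
  exact mul_right_cancel₀ h2 h1

end REC
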