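import Pool.Agent.Helper85.REC.Stmts10
import Pool.Agent.Helper85.MU.DefsA
import Pool.Agent.Helper3.MV.SEPG

/-!
# Reciprocity, part 10: motives which are direct sums of small motives over a finite extension
Proofs: /team-store/rec_blueprint10.md   [helper85]
-/

set_option autoImplicit false

open scoped Classical
open NumberField Polynomial

namespace REC

open Pool.Agent.Helper13.ZL (Pl q)
open MU

/-! ## A. Subgroups of finite index -/

/-- AVS: complete reducibility can be tested on a subgroup of finite index. -/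
def ST_AVS : Prop :=
  ∀ (G H K : Type) [Group G] [Group H] [Field K] (φ : H →* G) (n : ℕ)
    (r : G →* Matrix (Fin n) (Fin n) K), (φ.range.index : K) ≠ 0 → IsSS (r.comp φ) → IsSS r

/-- AVL: lifting homomorphisms can be tested on a subgroup of finite index. -/
def ST_AVL : Prop :=
  ∀ (G H : Type) [Group G] [Group H] (φ : H →* G) (n m l : ℕ) [Fact l.Prime]
    (r : G →* Matrix.GeneralLinearGroup (Fin n) ℤ_[l])
    (s : G →* Matrix.GeneralLinearGroup (Fin m) ℤ_[l]), ¬ l ∣ φ.range.index →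
    (∀ u : Matrix (Fin m) (Fin n) (ZMod l), (∀ a, u * res r (φ a) = res s (φ a) * u) →
      ∃ x : Matrix (Fin m) (Fin n) ℤ_[l], x.map (PadicInt.toZMod (p := l)) = u ∧
        ∀ a, x * (r (φ a) : Matrix (Fin n) (Fin n) ℤ_[l]) =
          (s (φ a) : Matrix (Fin m) (Fin m) ℤ_[l]) * x) →
    ∀ u : Matrix (Fin m) (Fin n) (ZMod l), (∀ g, u * res r g = res s g * u) →
      ∃ x : Matrix (Fin m) (Fin n) ℤ_[l], x.map (PadicInt.toZMod (p := l)) = u ∧
        ∀ g, x * (r g : Matrix (Fin n) (Fin n) ℤ_[l]) =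
          (s g : Matrix (Fin m) (Fin m) ℤ_[l]) * x

/-- completely reducible reduction, and its endomorphisms lift -/
def Lft {G : Type} [Group G] {n l : ℕ} [Fact l.Prime]
    (r : G →* Matrix.GeneralLinearGroup (Fin n) ℤ_[l]) : Prop :=
  IsSS (res r) ∧ ∀ u : Matrix (Fin n) (Fin n) (ZMod l), (∀ g, u * res r g = res r g * u) →
    ∃ x : Matrix (Fin n) (Fin n) ℤ_[l], x.map (PadicInt.toZMod (p := l)) = u ∧
      ∀ g, x * (r g : Matrix (Fin n) (Fin n) ℤ_[l]) = r g * x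

/-- SSL: (from IDL). -/
def ST_SSL : Prop :=
  ∀ (G : Type) [Group G] (n l : ℕ) [Fact l.Prime]
    (r : G →* Matrix.GeneralLinearGroup (Fin n) ℤ_[l]), Lft r → Cpl r

/-- SSD: direct sums of completely reducible representations. -/
def ST_SSD : Prop :=
  ∀ (G K : Type) [Group G] [Field K] (n k : ℕ) (m : Fin k → ℕ) (r : G →* Matrix (Fin n) (Fin n) K)
    (s : ∀ i, G →* Matrix (Fin (m i)) (Fin (m i)) K) (P : ∀ i, Matrix (Fin (m i)) (Fin n) K)
    (Q : ∀ i, Matrix (Fin n) (Fin (m i)) K), (∀ i, P i * Q i = 1) →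
    (∀ i j, i ≠ j → P i * Q j = 0) → ∑ i, Q i * P i = 1 → (∀ i g, P i * r g = s i g * P i) →
    (∀ i, IsSS (s i)) → IsSS r

/-- SUG: direct sums (from SSD). -/
def ST_SUG : Prop :=
  ∀ (G : Type) [Group G] (n l k : ℕ) [Fact l.Prime] (m : Fin k → ℕ)
    (r : G →* Matrix.GeneralLinearGroup (Fin n) ℤ_[l])
    (s : ∀ i, G →* Matrix.GeneralLinearGroup (Fin (m i)) ℤ_[l])
    (P : ∀ i, Matrix (Fin (m i)) (Fin n) ℤ_[l]) (Q : ∀ i, Matrix (Fin n) (Fin (m i)) ℤ_[l]),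
    (∀ i, P i * Q i = 1) → (∀ i j, i ≠ j → P i * Q j = 0) → ∑ i, Q i * P i = 1 →
    (∀ i g, P i * (r g : Matrix (Fin n) (Fin n) ℤ_[l]) =
      (s i g : Matrix (Fin (m i)) (Fin (m i)) ℤ_[l]) * P i) →
    (∀ i, IsSS (res (s i))) →
    (∀ i j, ∀ u : Matrix (Fin (m j)) (Fin (m i)) (ZMod l),
      (∀ g, u * res (s i) g = res (s j) g * u) → ∃ x : Matrix (Fin (m j)) (Fin (m i)) ℤ_[l],
        x.map (PadicInt.toZMod (p := l)) = u ∧
        ∀ g, x * (s i g : Matrix (Fin (m i)) (Fin (m i)) ℤ_[l]) =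
          (s j g : Matrix (Fin (m j)) (Fin (m j)) ℤ_[l]) * x) → Lft r

/-- CLF: Clifford's theorem. -/
def ST_CLF : Prop :=
  ∀ (G H K : Type) [Group G] [Group H] [Field K] (φ : H →* G) (n : ℕ)
    (r : G →* Matrix (Fin n) (Fin n) K), φ.range.Normal → IsSS r → IsSS (r.comp φ)

/-- IXB: the image of the restriction is open of finite index. -/
def ST_IXB : Prop :=
  ∀ (F K : Type) [Field F] [NumberField F] [Field K] [NumberField K] [Algebra F K]
    (j : AlgebraicClosure F ≃+* AlgebraicClosure K) (r : Gal K →* Gal F), IsBC F K j r →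
    IsOpen (r.range : Set (Gal F)) ∧ r.range.index ≠ 0

/-- FXF: fields of open subgroups (from BCH). -/
def ST_FXF : Prop :=
  ∀ (F : Type) [Field F] [NumberField F] (H : Subgroup (Gal F)), IsOpen (H : Set (Gal F)) →
    ∃ (K : Type) (_ : Field K) (_ : NumberField K) (_ : Algebra F K)
      (j : AlgebraicClosure F ≃+* AlgebraicClosure K) (r : Gal K →* Gal F), IsBC F K j r ∧
      r.range ≤ H ∧ r.range.Normal

/-! ## B. Potentially abelian families -/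

/-- ETL: lifting for matrices annihilated by a separable polynomial. -/
def ST_ETL : Prop :=
  ∀ R : ℤ[X], R.Monic → (R.map (Int.castRingHom ℚ)).Separable → ∃ c : ℕ,
    ∀ (l : ℕ) [Fact l.Prime], c < l → ∀ (n m : ℕ) (s : Matrix (Fin n) (Fin n) ℤ_[l])
      (t : Matrix (Fin m) (Fin m) ℤ_[l]), aeval s R = 0 → aeval t R = 0 →
      (∀ u : Matrix (Fin m) (Fin n) (ZMod l), u * s.map (PadicInt.toZMod (p := l)) =
          t.map (PadicInt.toZMod (p := l)) * u → ∃ x : Matrix (Fin m) (Fin n) ℤ_[l],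
        x.map (PadicInt.toZMod (p := l)) = u ∧ x * s = t * x) ∧
      ∀ (k : ℕ) (B : Matrix (Fin n) (Fin k) (ZMod l)) (a : Matrix (Fin k) (Fin k) (ZMod l)),
        (∃ C : Matrix (Fin k) (Fin n) (ZMod l), C * B = 1) →
        s.map (PadicInt.toZMod (p := l)) * B = B * a → ∃ D : Matrix (Fin k) (Fin n) (ZMod l),
          D * B = 1 ∧ D * s.map (PadicInt.toZMod (p := l)) = a * D

/-- the number of different eigenvalues -/
noncomputable def nde {K : Type} [Field K] {n : ℕ} (A : Matrix (Fin n) (Fin n) K) : ℕ :=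
  (A.charpoly.aroots (AlgebraicClosure K)).toFinset.card

/-- the ratios of different eigenvalues are not roots of unity -/
def Srg {K : Type} [Field K] {n : ℕ} (A : Matrix (Fin n) (Fin n) K) : Prop :=
  ∀ a ∈ A.charpoly.aroots (AlgebraicClosure K), ∀ b ∈ A.charpoly.aroots (AlgebraicClosure K),
    ∀ N : ℕ, 0 < N → a ^ N = b ^ N → a = b

/-- TFR: eigenvalues of matrices congruent to `1`. -/
def ST_TFR : Prop :=
  ∀ (n l : ℕ) [Fact l.Prime] (A C : Matrix (Fin n) (Fin n) ℤ_[l]),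
    A = 1 + (l : ℤ_[l]) ^ 2 • C → Srg (A.map (algebraMap ℤ_[l] ℚ_[l]))

/-- PB0: strongly regular elements of commutative subgroups (from TFR, CLF). -/
def ST_PB0 : Prop :=
  ∀ (Γ : Type) [Group Γ] [TopologicalSpace Γ] [IsTopologicalGroup Γ] [CompactSpace Γ]
    (n l : ℕ) [Fact l.Prime] (r : Γ →* Matrix.GeneralLinearGroup (Fin n) ℤ_[l]), Continuous r →
    ∀ H : Subgroup Γ, IsOpen (H : Set Γ) → (∀ g ∈ H, ∀ g' ∈ H, r g * r g' = r g' * r g) →
      IsSS (rat r) → ∃ (U Y : Subgroup Γ) (s : Γ), U.Normal ∧ IsOpen (U : Set Γ) ∧ U ≤ H ∧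
        Y.Normal ∧ IsOpen (Y : Set Γ) ∧ Y ≤ U ∧ s ∈ U ∧ ∀ s' : Γ, s⁻¹ * s' ∈ Y →
          Srg (rat r s') ∧ ∀ g ∈ U, nde (rat r g) ≤ nde (rat r s')

/-- HKL: the number of eigenvalues is the rank of a Hankel matrix. -/
def ST_HKL : Prop :=
  ∀ (K : Type) [Field K] [CharZero K] (n : ℕ) (A : Matrix (Fin n) (Fin n) K),
    nde A = (Matrix.of fun a b : Fin n => (A ^ ((a : ℕ) + (b : ℕ))).trace).rank ∧
    ∀ k : ℕ, k ≤ nde A ↔ k = 0 ∨ ∃ m : ℕ, k ≤ m ∧ (Matrix.of fun a b : Fin m =>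
      (A ^ ((a : ℕ) + (b : ℕ))).trace).det ≠ 0

/-- compatible families of integral representations -/
def IsFam {F : Type} [Field F] [NumberField F] (S : Finset ℕ) {n : ℕ}
    (ρ : ∀ (l : ℕ) [Fact l.Prime], Gal F →* Matrix.GeneralLinearGroup (Fin n) ℤ_[l]) : Prop :=
  (∀ (l : ℕ) [Fact l.Prime], Continuous (ρ l)) ∧ ∀ p : ℕ, p.Prime → p ∉ S →
    ∀ 𝔓 : Ideal (Zb F), Over p 𝔓 → ∀ (k : ℕ) (σ : Gal F), 1 ≤ k → CongPow 𝔓 (p ^ k) σ →
      ∃ P : ℤ[X], ∀ (l : ℕ) [Fact l.Prime], l ≠ p →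
        ((ρ l σ⁻¹ : Matrix.GeneralLinearGroup (Fin n) ℤ_[l]) :
          Matrix (Fin n) (Fin n) ℤ_[l]).charpoly = P.map (Int.castRingHom ℤ_[l])

/-- PBR: an element which is regular at almost all `l` (from PB0, HKL, CLF). -/
def ST_PBR : Prop :=
  ∀ (F : Type) [Field F] [NumberField F] (S : Finset ℕ) (n : ℕ)
    (ρ : ∀ (l : ℕ) [Fact l.Prime], Gal F →* Matrix.GeneralLinearGroup (Fin n) ℤ_[l]),
    IsFam S ρ → (∀ (l : ℕ) [Fact l.Prime], IsSS (rat (ρ l))) →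
    ∀ H : Subgroup (Gal F), IsOpen (H : Set (Gal F)) →
      (∀ (l : ℕ) [Fact l.Prime], ∀ g ∈ H, ∀ g' ∈ H, ρ l g * ρ l g' = ρ l g' * ρ l g) →
      ∃ (U : Subgroup (Gal F)) (s : Gal F) (R : ℤ[X]) (c : ℕ), U.Normal ∧
        IsOpen (U : Set (Gal F)) ∧ U ≤ H ∧ s ∈ U ∧ R.Monic ∧
        (R.map (Int.castRingHom ℚ)).Separable ∧ ∀ (l : ℕ) [Fact l.Prime], c < l →
          aeval (ρ l s : Matrix (Fin n) (Fin n) ℤ_[l]) R = 0 ∧
          ∀ x : Matrix (Fin n) (Fin n) ℤ_[l],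
            x * (ρ l s : Matrix (Fin n) (Fin n) ℤ_[l]) = ρ l s * x →
            ∀ g ∈ U, x * (ρ l g : Matrix (Fin n) (Fin n) ℤ_[l]) = ρ l g * x

section

variable {F : Type} [Field F] [NumberField F] {S : Finset ℕ} {w : ℕ}

/-- potentially abelian motives with completely reducible realizations -/
def Pab {n : ℕ} {h : Fin n → ℕ} (M : Mot F S n w h) : Prop :=
  (∀ (l : ℕ) [Fact l.Prime], IsSS (rat (M.ρ l))) ∧ ∃ H : Subgroup (Gal F),
    IsOpen (H : Set (Gal F)) ∧ ∀ (l : ℕ) [Fact l.Prime], ∀ g ∈ H, ∀ g' ∈ H,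
      M.ρ l g * M.ρ l g' = M.ρ l g' * M.ρ l g

/-- on every open subgroup almost all reductions are noncommutative -/
def Nra {n : ℕ} {h : Fin n → ℕ} (M : Mot F S n w h) : Prop :=
  ∀ H : Subgroup (Gal F), IsOpen (H : Set (Gal F)) → ∃ c : ℕ, ∀ (l : ℕ) [Fact l.Prime], c < l →
    ∃ g ∈ H, ∃ g' ∈ H, res (M.ρ l) g * res (M.ρ l) g' ≠ res (M.ρ l) g' * res (M.ρ l) g

/-- The theory of Fontaine and Laffaille holds for `M` and for its restrictions to all finite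
extensions of `F`, which are motives. -/
def Str {n : ℕ} {h : Fin n → ℕ} (M : Mot F S n w h) : Prop :=
  FLT M ∧ ∀ (K : Type) [Field K] [NumberField K] [Algebra F K]
    (j : AlgebraicClosure F ≃+* AlgebraicClosure K) (r : Gal K →* Gal F), IsBC F K j r →
    ∃ M' : Mot K S n w h, FLT M' ∧ ∀ (l : ℕ) [Fact l.Prime] (g : Gal K),
      M'.ρ l g = M.ρ l (r g)

/-- The direct summands: potentially abelian motives of any rank; motives whose rational
realizations are irreducible and whose reductions are almost all absolutely irreducible, and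
noncommutative on open subgroups; motives of rank two or three with different
Hodge types; motives with maximally unipotent monodromy, or suitable Jordan types at several
primes. -/
def Pc {n : ℕ} {h : Fin n → ℕ} (M : Mot F S n w h) : Prop :=
  Pab M ∨ (Atm M ∧ Nra M) ∨
  (n = 2 ∧ Function.Injective h ∧ Str M ∧ ∀ (l : ℕ) [Fact l.Prime], IsSS (rat (M.ρ l))) ∨
  (n = 3 ∧ Function.Injective h ∧ (∀ i, ∃ j, h i + h j = w) ∧ Str M ∧
    ∀ (l : ℕ) [Fact l.Prime], IsIrr (rat (M.ρ l))) ∨ M.Unip ∨ M.SepG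

end

/-- PPB: pairs of potentially abelian motives (from PBR, ETL, AVS, AVL). -/
def ST_PPB : Prop :=
  ∀ (F : Type) [Field F] [NumberField F] (S : Finset ℕ), (∀ p ∈ S, p.Prime) →
    ∀ (n n' w : ℕ) (h : Fin n → ℕ) (h' : Fin n' → ℕ) (M : Mot F S n w h) (M' : Mot F S n' w h'),
      Pab M → Pab M' → SSr M ∧ HLp M M'

/-- MXP: mixed pairs. -/
def ST_MXP : Prop :=
  ∀ (F : Type) [Field F] [NumberField F] (S : Finset ℕ) (n n' w : ℕ) (h : Fin n → ℕ)
    (h' : Fin n' → ℕ) (M : Mot F S n w h) (M' : Mot F S n' w h'),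
      Pab M → Atm M' → Nra M' → HLp M M' ∧ HLp M' M

/-- UNA: maximally unipotent motives (see `MU.finiteness_unip`). -/
def ST_UNA : Prop :=
  ∀ (F : Type) [Field F] [NumberField F] (S : Finset ℕ), (∀ p ∈ S, p.Prime) →
    ∀ (n w : ℕ) (h : Fin n → ℕ) (M : Mot F S n w h), M.Unip → n ≤ 1 ∨ (Atm M ∧ Nra M)

/-- SEA: the motives of `MU.sep_regular`. -/
def ST_SEA : Prop :=
  ∀ (F : Type) [Field F] [NumberField F] (S : Finset ℕ), (∀ p ∈ S, p.Prime) →
    ∀ (n w : ℕ) (h : Fin n → ℕ) (M : Mot F S n w h), M.SepG → n ≤ 1 ∨ (Atm M ∧ Nra M)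

/-- DEQ: the characters of `FDat` are not all equal (from REL3, PIN, OVP; see NFD). -/
def ST_DEQ : Prop :=
  ∀ (F : Type) [Field F] [NumberField F] (S : Finset ℕ), (∀ p ∈ S, p.Prime) →
    ∀ (n w : ℕ) (h : Fin n → ℕ) (M : Mot F S n w h), Function.Injective h → 2 ≤ n →
      ∃ c : ℕ, ∀ (l : ℕ) [Fact l.Prime], c < l → FDat M l →
        ∃ σ : Gal F, ∀ a : ZMod l, (res (M.ρ l) σ).charpoly ≠ (Polynomial.X - C a) ^ n

/-- R2D: rank two (from CRG, SML, FD2, NF2, CLF, FXF, IXB). -/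
def ST_R2D : Prop :=
  ∀ (F : Type) [Field F] [NumberField F] (S : Finset ℕ), (∀ p ∈ S, p.Prime) →
    ∀ (w : ℕ) (h : Fin 2 → ℕ) (M : Mot F S 2 w h), Function.Injective h → Str M →
      (∀ (l : ℕ) [Fact l.Prime], IsSS (rat (M.ρ l))) → Pab M ∨ (Atm M ∧ Nra M)

/-- SC3: scalar restrictions in rank three (from CL3, SYM, TRP, CLF). -/
def ST_SC3 : Prop :=
  ∀ (F : Type) [Field F] [NumberField F] (S : Finset ℕ), (∀ p ∈ S, p.Prime) →
    ∀ (w : ℕ) (h : Fin 3 → ℕ) (M : Mot F S 3 w h), Atm M → ∀ (l₀ : ℕ) [Fact l₀.Prime]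
      (H : Subgroup (Gal F)), H.Normal → IsOpen (H : Set (Gal F)) →
      ¬ IsIrr ((rat (M.ρ l₀)).comp H.subtype) →
      ∃ (H' : Subgroup (Gal F)) (c : ℕ), H'.Normal ∧ IsOpen (H' : Set (Gal F)) ∧
        ∀ (l : ℕ) [Fact l.Prime], c < l → ∀ g ∈ H', ∃ a : ZMod l,
          res (M.ρ l) g = a • (1 : Matrix (Fin 3) (Fin 3) (ZMod l))

/-- R3D: rank three (from SML, SC3, FD3, NFD, DEQ, FXF, IXB). -/
def ST_R3D : Prop :=
  ∀ (F : Type) [Field F] [NumberField F] (S : Finset ℕ), (∀ p ∈ S, p.Prime) →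
    ∀ (w : ℕ) (h : Fin 3 → ℕ) (M : Mot F S 3 w h), Function.Injective h →
      (∀ i, ∃ j, h i + h j = w) → Str M → (∀ (l : ℕ) [Fact l.Prime], IsIrr (rat (M.ρ l))) →
      Atm M ∧ Nra M

/-! ## C. Sums over extension fields -/

/-- Over the extension `K` of `F` the motive `M` is isogenous to the direct sum of the motives
`M' i`; `r` is the restriction of automorphisms. -/
def IsSumK {F K : Type} [Field F] [NumberField F] [Field K] [NumberField K]
    (r : Gal K →* Gal F) {S S' : Finset ℕ} {n w : ℕ} {h : Fin n → ℕ} (M : Mot F S n w h)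
    {k : ℕ} {m : Fin k → ℕ} {h' : ∀ i, Fin (m i) → ℕ} (M' : ∀ i, Mot K S' (m i) w (h' i)) :
    Prop :=
  ∃ (P : ∀ i, Matrix (Fin (m i)) (Fin n) ℚ) (Q : ∀ i, Matrix (Fin n) (Fin (m i)) ℚ),
    (∀ i, P i * Q i = 1) ∧ (∀ i j, i ≠ j → P i * Q j = 0) ∧ ∑ i, Q i * P i = 1 ∧
    ∀ (i : Fin k) (l : ℕ) [Fact l.Prime] (g : Gal K),
      (P i).map (algebraMap ℚ ℚ_[l]) * rat (M.ρ l) (r g) =
        rat ((M' i).ρ l) g * (P i).map (algebraMap ℚ ℚ_[l])

/-- The motives of the theorem: those which over some finite extension of `F` are isogenous to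
direct sums of motives with the property `Pc`. -/
def PSum {F : Type} [Field F] [NumberField F] {S : Finset ℕ} {n w : ℕ} {h : Fin n → ℕ}
    (M : Mot F S n w h) : Prop :=
  ∃ (K : Type) (_ : Field K) (_ : NumberField K) (_ : Algebra F K)
    (j : AlgebraicClosure F ≃+* AlgebraicClosure K) (r : Gal K →* Gal F) (S' : Finset ℕ) (k : ℕ)
    (m : Fin k → ℕ) (h' : ∀ i, Fin (m i) → ℕ) (M' : ∀ i, Mot K S' (m i) w (h' i)),
    IsBC F K j r ∧ (∀ p ∈ S', p.Prime) ∧ IsSumK r M M' ∧ ∀ i, Pc (M' i)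

/-- SMK: direct sums over `K` (from AVS, AVL, SSL, SSD, SUG, IXB). -/
def ST_SMK : Prop :=
  ∀ (F K : Type) [Field F] [NumberField F] [Field K] [NumberField K] [Algebra F K]
    (j : AlgebraicClosure F ≃+* AlgebraicClosure K) (r : Gal K →* Gal F), IsBC F K j r →
    ∀ (S S' : Finset ℕ) (n w : ℕ) (h : Fin n → ℕ) (M : Mot F S n w h) (k : ℕ) (m : Fin k → ℕ)
      (h' : ∀ i, Fin (m i) → ℕ) (M' : ∀ i, Mot K S' (m i) w (h' i)), IsSumK r M M' →
      (∀ i, SSr (M' i)) → (∀ i i', HLp (M' i) (M' i')) → Reg2 M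

/-- PCD: the summands are potentially abelian or absolutely irreducible
(from UNA, SEA, R2D, R3D). -/
def ST_PCD : Prop :=
  ∀ (F : Type) [Field F] [NumberField F] (S : Finset ℕ), (∀ p ∈ S, p.Prime) →
    ∀ (n w : ℕ) (h : Fin n → ℕ) (M : Mot F S n w h), Pc M → Pab M ∨ (Atm M ∧ Nra M)

/-- FPS: finiteness (from FINC, SMK, PCD, PPB, MXP, ATP). -/
def ST_FPS : Prop :=
  ∀ (F : Type) [Field F] [NumberField F] (S : Finset ℕ), (∀ p ∈ S, p.Prime) →
    ∀ (n w : ℕ) (h : Fin n → ℕ), ∃ N : ℕ, ∀ 𝒯 : Set (Mot F S n w h), (∀ M ∈ 𝒯, PSum M) →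
      (∃ T : Finset (Mot F S n w h), (T : Set (Mot F S n w h)) ⊆ 𝒯 ∧ T.card ≤ N ∧
          ∀ M ∈ 𝒯, ∃ M' ∈ T, M.AdelicIso M') ∧
      ((∀ M ∈ 𝒯, ∀ M' ∈ 𝒯, TateHom M M') →
        ∃ T : Finset (Mot F S n w h), (T : Set (Mot F S n w h)) ⊆ 𝒯 ∧
          ∀ M ∈ 𝒯, ∃ M' ∈ T, M.Iso M')

end REC
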