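import Pool.Agent.Helper85.REC.Stmts11

/-!
# Reciprocity, part 11: the class of the final theorem
-/

set_option autoImplicit false

open scoped Classical
open NumberField Polynomial

namespace REC

open MU

/-- PAA: potentially abelian motives and atoms (from PPB, CLF, SEM, FRB). -/
def ST_PAA : Prop :=
  ∀ (F : Type) [Field F] [NumberField F] (S : Finset ℕ), (∀ p ∈ S, p.Prime) →
    ∀ (n n' w : ℕ) (h : Fin n → ℕ) (h' : Fin n' → ℕ) (M : Mot F S n w h) (M' : Mot F S n' w h'),
      Pab M → Atm M' → HLp M M' ∧ HLp M' M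

section

variable {F : Type} [Field F] [NumberField F] {S : Finset ℕ} {n w : ℕ} {h : Fin n → ℕ}

/-- The direct summands of the theorem: potentially abelian motives of any rank; motives
whose rational realizations are irreducible and whose reductions are almost all absolutely
irreducible; semisimple motives of rank two with two different Hodge types, and irreducible motives
of rank three with three different (symmetric) Hodge types, with the theory of Fontaine
and Laffaille; motives with maximally unipotent monodromy; motives with suitable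
Jordan types at several primes. -/
def Smm (M : Mot F S n w h) : Prop :=
  Pab M ∨ Atm M ∨
  (n = 2 ∧ Function.Injective h ∧ FLT M ∧ ∀ (l : ℕ) [Fact l.Prime], IsSS (rat (M.ρ l))) ∨
  (n = 3 ∧ Function.Injective h ∧ (∀ i, ∃ j, h i + h j = w) ∧ FLT M ∧
    ∀ (l : ℕ) [Fact l.Prime], IsIrr (rat (M.ρ l))) ∨ M.Unip ∨ M.SepG

/-- motives which over some finite extension `K` of `F` are isogenous to direct sums of
motives `M' i` with the property `Smm` -/
def PSm (M : Mot F S n w h) : Prop :=
  ∃ (K : Type) (_ : Field K) (_ : NumberField K) (_ : Algebra F K)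
    (j : AlgebraicClosure F ≃+* AlgebraicClosure K) (r : Gal K →* Gal F) (S' : Finset ℕ) (k : ℕ)
    (m : Fin k → ℕ) (h' : ∀ i, Fin (m i) → ℕ) (M' : ∀ i, Mot K S' (m i) w (h' i)),
    IsBC F K j r ∧ (∀ p ∈ S', p.Prime) ∧ IsSumK r M M' ∧ ∀ i, Smm (M' i)

/-- The motives of the theorem: those with the property `PSm`, and all semisimple motives of rank
two with two different Hodge types (all motives of rank two with two different Hodge types, if
`F` contains no CM field). -/
def Good (M : Mot F S n w h) : Prop :=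
  PSm M ∨ (n = 2 ∧ Function.Injective h ∧
    (NoCM F ∨ ∀ (l : ℕ) [Fact l.Prime], IsSS (rat (M.ρ l))))

end

/-- GRD: the final theorem. -/
def ST_GRD : Prop :=
  ∀ (F : Type) [Field F] [NumberField F] (S : Finset ℕ), (∀ p ∈ S, p.Prime) →
    ∀ (n w : ℕ) (h : Fin n → ℕ), ∃ N : ℕ, ∀ 𝒯 : Set (Mot F S n w h), (∀ M ∈ 𝒯, Good M) →
      (∃ T : Finset (Mot F S n w h), (T : Set (Mot F S n w h)) ⊆ 𝒯 ∧ T.card ≤ N ∧
          ∀ M ∈ 𝒯, ∃ M' ∈ T, M.AdelicIso M') ∧
      ((∀ M ∈ 𝒯, ∀ M' ∈ 𝒯, TateHom M M') →
        ∃ T : Finset (Mot F S n w h), (T : Set (Mot F S n w h)) ⊆ 𝒯 ∧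
          ∀ M ∈ 𝒯, ∃ M' ∈ T, M.Iso M')

end REC
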