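import Pool.Agent.Helper85.REC.Stmts12

/-!
# Reciprocity, part 14: symmetric powers and tensor products of motives of rank two
Proofs: /team-store/rec_blueprint14.md   [helper85]
-/

set_option autoImplicit false

open scoped Classical
open NumberField Polynomial

namespace REC

open Pool.Agent.Helper13.ZL (Pl q)
open MU

/-! ## A. Symmetric powers and tensor products of matrices -/

/-- the `c`-th symmetric power of a matrix with two rows, in the basis `X₁ ^ (c - j) X₂ ^ j` -/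
noncomputable def symM {R : Type} [CommRing R] (c : ℕ) (g : Matrix (Fin 2) (Fin 2) R) :
    Matrix (Fin (c + 1)) (Fin (c + 1)) R :=
  Matrix.of fun i j => ((C (g 0 0) + C (g 1 0) * Polynomial.X) ^ (c - (j : ℕ)) *
    (C (g 0 1) + C (g 1 1) * Polynomial.X) ^ (j : ℕ) : R[X]).coeff (i : ℕ)

/-- the tensor product of the symmetric powers of exponents `c i` of the matrices `g i` -/
noncomputable def tenM {R : Type} [CommRing R] {t : ℕ} (c : Fin t → ℕ)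
    (g : Fin t → Matrix (Fin 2) (Fin 2) R) :
    Matrix (∀ i, Fin (c i + 1)) (∀ i, Fin (c i + 1)) R :=
  Matrix.of fun x y => ∏ i, symM (c i) (g i) (x i) (y i)

/-- the tensor product of `tenM c g` and `B` -/
noncomputable def tpc {R : Type} [CommRing R] {t m : ℕ} (c : Fin t → ℕ)
    (g : Fin t → Matrix (Fin 2) (Fin 2) R) (B : Matrix (Fin m) (Fin m) R) :
    Matrix ((∀ i, Fin (c i + 1)) × Fin m) ((∀ i, Fin (c i + 1)) × Fin m) R :=
  Matrix.kroneckerMap (· * ·) (tenM c g) B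

/-- SYF: functoriality. -/
def ST_SYF : Prop :=
  ∀ (R : Type) [CommRing R],
    (∀ (c : ℕ) (g g' : Matrix (Fin 2) (Fin 2) R), symM c (g * g') = symM c g * symM c g') ∧
    (∀ c : ℕ, symM c (1 : Matrix (Fin 2) (Fin 2) R) = 1) ∧
    (∀ (t : ℕ) (c : Fin t → ℕ) (g g' : Fin t → Matrix (Fin 2) (Fin 2) R),
      tenM c (fun i => g i * g' i) = tenM c g * tenM c g') ∧
    (∀ (t : ℕ) (c : Fin t → ℕ), tenM c (fun _ => (1 : Matrix (Fin 2) (Fin 2) R)) = 1) ∧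
    (∀ (t m : ℕ) (c : Fin t → ℕ) (g g' : Fin t → Matrix (Fin 2) (Fin 2) R)
      (B B' : Matrix (Fin m) (Fin m) R),
      tpc c (fun i => g i * g' i) (B * B') = tpc c g B * tpc c g' B') ∧
    ∀ (R' : Type) [CommRing R'] (f : R →+* R') (t m : ℕ) (c : Fin t → ℕ)
      (g : Fin t → Matrix (Fin 2) (Fin 2) R) (B : Matrix (Fin m) (Fin m) R),
      (tenM c g).map f = tenM c (fun i => (g i).map f) ∧
      (tpc c g B).map f = tpc c (fun i => (g i).map f) (B.map f)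

/-- SPN: the matrices `tenM c g`, `g i` in `SL_2(𝔽_l)`, span all matrices if `c i < l`; the
representations for different exponents have different annihilators (from SYF). -/
def ST_SPN : Prop :=
  ∀ (l t : ℕ) [Fact l.Prime] (c : Fin t → ℕ), (∀ i, c i < l) →
    Submodule.span (ZMod l) {z : Matrix (∀ i, Fin (c i + 1)) (∀ i, Fin (c i + 1)) (ZMod l) |
      ∃ g : Fin t → Matrix (Fin 2) (Fin 2) (ZMod l), (∀ i, (g i).det = 1) ∧ z = tenM c g} = ⊤ ∧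
    ∀ c' : Fin t → ℕ, (∀ i, c' i < l) → c ≠ c' →
      ∃ (N : ℕ) (a : Fin N → ZMod l) (g : Fin N → Fin t → Matrix (Fin 2) (Fin 2) (ZMod l)),
        (∀ b i, (g b i).det = 1) ∧
        ((∑ b, a b • tenM c (g b) = 0 ∧ ∑ b, a b • tenM c' (g b) ≠ 0) ∨
          (∑ b, a b • tenM c (g b) ≠ 0 ∧ ∑ b, a b • tenM c' (g b) = 0))

/-! ## B. Representations with other index types -/

/-- completely reducible -/
def SSx {G K ι : Type} [Field K] [Fintype ι] (r : G → Matrix ι ι K) : Prop :=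
  ∀ W : Submodule K (ι → K), (∀ g, ∀ x ∈ W, (r g).mulVec x ∈ W) →
    ∃ e : Matrix ι ι K, (∀ g, e * r g = r g * e) ∧ (∀ x, e.mulVec x ∈ W) ∧
      ∀ x ∈ W, e.mulVec x = x

/-- the homomorphisms modulo `l` lift -/
def LFx {G ι ι' : Type} {l : ℕ} [Fact l.Prime] [Fintype ι] [Fintype ι'] (r : G → Matrix ι ι ℤ_[l])
    (s : G → Matrix ι' ι' ℤ_[l]) : Prop :=
  ∀ u : Matrix ι' ι (ZMod l), (∀ g, u * (r g).map (PadicInt.toZMod (p := l)) =
      (s g).map (PadicInt.toZMod (p := l)) * u) →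
    ∃ x : Matrix ι' ι ℤ_[l], x.map (PadicInt.toZMod (p := l)) = u ∧ ∀ g, x * r g = s g * x

/-- SUY: direct sums (from SUG). -/
def ST_SUY : Prop :=
  ∀ (G : Type) [Group G] (n l k : ℕ) [Fact l.Prime] (ι : Fin k → Type) [∀ a, Fintype (ι a)]
    (r : G →* Matrix.GeneralLinearGroup (Fin n) ℤ_[l])
    (s : ∀ a, G → Matrix (ι a) (ι a) ℤ_[l])
    (P : ∀ a, Matrix (ι a) (Fin n) ℤ_[l]) (Q : ∀ a, Matrix (Fin n) (ι a) ℤ_[l]),
    (∀ a, P a * Q a = 1) → (∀ a b, a ≠ b → P a * Q b = 0) → ∑ a, Q a * P a = 1 →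
    (∀ a g, P a * (r g : Matrix (Fin n) (Fin n) ℤ_[l]) = s a g * P a) →
    (∀ a, SSx (fun g => (s a g).map (PadicInt.toZMod (p := l)))) →
    (∀ a b, LFx (s a) (s b)) → Lft r

/-- TLH: tensor products with commutative representations (from SYF, SPN). -/
def ST_TLH : Prop :=
  ∀ (G : Type) [Group G] (l t : ℕ) [Fact l.Prime]
    (g : Fin t → G →* Matrix.GeneralLinearGroup (Fin 2) ℤ_[l]),
    (∀ Y : Fin t → Matrix (Fin 2) (Fin 2) (ZMod l), (∀ i, (Y i).det = 1) →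
      ∃ x ∈ commutator G, ∀ i, res (g i) x = Y i) →
    ∀ (m m' : ℕ) (B : G →* Matrix.GeneralLinearGroup (Fin m) ℤ_[l])
      (B' : G →* Matrix.GeneralLinearGroup (Fin m') ℤ_[l]),
      (∀ x x', B x * B x' = B x' * B x) → (∀ x x', B' x * B' x' = B' x' * B' x) →
      ∀ c c' : Fin t → ℕ, (∀ i, c i < l) → (∀ i, c' i < l) →
        (SSx (fun x => (B x : Matrix (Fin m) (Fin m) ℤ_[l]).map (PadicInt.toZMod (p := l))) →
          SSx (fun x => (tpc c (fun i => (g i x : Matrix (Fin 2) (Fin 2) ℤ_[l]))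
            (B x : Matrix (Fin m) (Fin m) ℤ_[l])).map (PadicInt.toZMod (p := l)))) ∧
        (LFx (fun x => (B x : Matrix (Fin m) (Fin m) ℤ_[l]))
            (fun x => (B' x : Matrix (Fin m') (Fin m') ℤ_[l])) →
          LFx (fun x => tpc c (fun i => (g i x : Matrix (Fin 2) (Fin 2) ℤ_[l]))
              (B x : Matrix (Fin m) (Fin m) ℤ_[l]))
            (fun x => tpc c' (fun i => (g i x : Matrix (Fin 2) (Fin 2) ℤ_[l]))
              (B' x : Matrix (Fin m') (Fin m') ℤ_[l])))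

/-- PPG: pairs of potentially abelian families (see PPB; from PBR, ETL, AVS, AVL). -/
def ST_PPG : Prop :=
  ∀ (F : Type) [Field F] [NumberField F] (S : Finset ℕ) (m m' : ℕ)
    (B : ∀ (l : ℕ) [Fact l.Prime], Gal F →* Matrix.GeneralLinearGroup (Fin m) ℤ_[l])
    (B' : ∀ (l : ℕ) [Fact l.Prime], Gal F →* Matrix.GeneralLinearGroup (Fin m') ℤ_[l]),
    IsFam S B → IsFam S B' → (∀ (l : ℕ) [Fact l.Prime], IsSS (rat (B l))) →
    (∀ (l : ℕ) [Fact l.Prime], IsSS (rat (B' l))) → ∀ H : Subgroup (Gal F),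
    IsOpen (H : Set (Gal F)) →
    (∀ (l : ℕ) [Fact l.Prime], ∀ g ∈ H, ∀ g' ∈ H, B l g * B l g' = B l g' * B l g) →
    (∀ (l : ℕ) [Fact l.Prime], ∀ g ∈ H, ∀ g' ∈ H, B' l g * B' l g' = B' l g' * B' l g) →
    ∃ c : ℕ, ∀ (l : ℕ) [Fact l.Prime], c < l →
      SSx (fun g : H => (B l g : Matrix (Fin m) (Fin m) ℤ_[l]).map (PadicInt.toZMod (p := l))) ∧
      LFx (fun g : H => (B l g : Matrix (Fin m) (Fin m) ℤ_[l]))
        (fun g : H => (B' l g : Matrix (Fin m') (Fin m') ℤ_[l]))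

/-- the twist by the power `a` of the cyclotomic character -/
noncomputable def twc {F : Type} [Field F] [NumberField F] {m l : ℕ} [Fact l.Prime]
    (B : Gal F →* Matrix.GeneralLinearGroup (Fin m) ℤ_[l]) (a : ℤ) (g : Gal F) :
    Matrix (Fin m) (Fin m) ℤ_[l] :=
  (((cyc l F g ^ a : ℤ_[l]ˣ) : ℤ_[l])) • (B g : Matrix (Fin m) (Fin m) ℤ_[l])

/-- PPT: twists (from PPG). -/
def ST_PPT : Prop :=
  ∀ (F : Type) [Field F] [NumberField F] (S S' : Finset ℕ), (∀ p ∈ S, p.Prime) →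
    (∀ p ∈ S', p.Prime) → ∀ (m m' w w' : ℕ) (h : Fin m → ℕ) (h' : Fin m' → ℕ) (B : Mot F S m w h)
      (B' : Mot F S' m' w' h'), Pab B → Pab B' → ∀ (a a' : ℤ) (H : Subgroup (Gal F)),
    IsOpen (H : Set (Gal F)) →
    (∀ (l : ℕ) [Fact l.Prime], ∀ g ∈ H, ∀ g' ∈ H, B.ρ l g * B.ρ l g' = B.ρ l g' * B.ρ l g) →
    (∀ (l : ℕ) [Fact l.Prime], ∀ g ∈ H, ∀ g' ∈ H, B'.ρ l g * B'.ρ l g' = B'.ρ l g' * B'.ρ l g) →
    ∃ c : ℕ, ∀ (l : ℕ) [Fact l.Prime], c < l →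
      SSx (fun g : H => (twc (B.ρ l) a g).map (PadicInt.toZMod (p := l))) ∧
      LFx (fun g : H => twc (B.ρ l) a g) (fun g : H => twc (B'.ρ l) a' g)

/-! ## C. Subgroups of `GL_2(𝔽_l)` -/

/-- SCA: completely reducible representations of rank two with double eigenvalues are scalar. -/
def ST_SCA : Prop :=
  ∀ (G K : Type) [Group G] [Field K] [CharZero K] (r : G →* Matrix (Fin 2) (Fin 2) K), IsSS r →
    (∀ g, (r g).trace ^ 2 = 4 * (r g).det) →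
    ∀ g, ∃ a : K, r g = a • (1 : Matrix (Fin 2) (Fin 2) K)

/-- DKS: finite subgroups of `GL_2(k)` of order prime to the characteristic. -/
def ST_DKS : Prop :=
  ∀ (k : Type) [Field k] [IsAlgClosed k] (G : Subgroup (Matrix.GeneralLinearGroup (Fin 2) k)),
    Finite G → ((Nat.card G : ℕ) : k) ≠ 0 →
    (∃ v : Fin 2 → k, v ≠ 0 ∧ ∀ g ∈ G, ∃ a : k,
      (g : Matrix (Fin 2) (Fin 2) k).mulVec v = a • v) ∨
    (∃ C : Subgroup (Matrix.GeneralLinearGroup (Fin 2) k), C ≤ G ∧ C.relIndex G = 2 ∧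
      (∀ g ∈ C, ∀ g' ∈ C, g * g' = g' * g) ∧
      ∀ g ∈ G, g ∉ C → (g : Matrix (Fin 2) (Fin 2) k).trace = 0) ∨
    ∀ g ∈ G, ∃ a : k, ((g : Matrix (Fin 2) (Fin 2) k)) ^ 120 = a • (1 : Matrix (Fin 2) (Fin 2) k)

/-- SLG: normal subgroups of irreducible groups whose order is divisible by `l`. -/
def ST_SLG : Prop :=
  ∀ (l : ℕ) [Fact l.Prime] (G N : Subgroup (Matrix.GeneralLinearGroup (Fin 2) (ZMod l))),
    N ≤ G → (∀ g ∈ G, ∀ x ∈ N, g * x * g⁻¹ ∈ N) →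
    (∀ v : Fin 2 → ZMod l, v ≠ 0 → ∃ g ∈ G, ∀ a : ZMod l,
      (g : Matrix (Fin 2) (Fin 2) (ZMod l)).mulVec v ≠ a • v) →
    l ∣ Nat.card N → ∀ Y : Matrix (Fin 2) (Fin 2) (ZMod l), Y.det = 1 →
      ∃ x ∈ N, (x : Matrix (Fin 2) (Fin 2) (ZMod l)) = Y

/-- GOU: subgroups of `SL_2 × SL_2` with full projections. -/
def ST_GOU : Prop :=
  ∀ (l : ℕ) [Fact l.Prime], 5 < l →
    ∀ Γ : Subgroup (Matrix.SpecialLinearGroup (Fin 2) (ZMod l) ×
        Matrix.SpecialLinearGroup (Fin 2) (ZMod l)),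
      (∀ a, ∃ x ∈ Γ, x.1 = a) → (∀ b, ∃ x ∈ Γ, x.2 = b) → Γ = ⊤ ∨
      ∃ u : Matrix.GeneralLinearGroup (Fin 2) (ZMod l), ∀ x ∈ Γ,
        (x.2 : Matrix (Fin 2) (Fin 2) (ZMod l)) =
            (u : Matrix (Fin 2) (Fin 2) (ZMod l)) * (x.1 : Matrix (Fin 2) (Fin 2) (ZMod l)) *
              ((u⁻¹ : Matrix.GeneralLinearGroup (Fin 2) (ZMod l)) :
                Matrix (Fin 2) (Fin 2) (ZMod l)) ∨
          (x.2 : Matrix (Fin 2) (Fin 2) (ZMod l)) =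
            -((u : Matrix (Fin 2) (Fin 2) (ZMod l)) * (x.1 : Matrix (Fin 2) (Fin 2) (ZMod l)) *
              ((u⁻¹ : Matrix.GeneralLinearGroup (Fin 2) (ZMod l)) :
                Matrix (Fin 2) (Fin 2) (ZMod l)))

/-- RIB: subgroups of a power of `SL_2(𝔽_l)` with full projections to the pairs. -/
def ST_RIB : Prop :=
  ∀ (l t : ℕ) [Fact l.Prime], 5 < l →
    ∀ Γ : Subgroup (Fin t → Matrix.SpecialLinearGroup (Fin 2) (ZMod l)),
      (∀ i a, ∃ x ∈ Γ, x i = a) → (∀ i j, i ≠ j → ∀ a b, ∃ x ∈ Γ, x i = a ∧ x j = b) → Γ = ⊤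

/-! ## D. Motives of rank two -/

section

variable {F : Type} [Field F] [NumberField F] {S S' : Finset ℕ} {n w w' : ℕ}

/-- The theory of Fontaine and Laffaille for the inertia groups at the primes over large `l`: on
the semisimplification of the reduction modulo `l` they act by powers of the fundamental
character `z` of some level `r` (defined by a root `y` of order `l ^ r - 1` of `l`); the digits
of the exponents are given by Hodge types. -/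
def FLC {h : Fin n → ℕ} (M : Mot F S n w h) : Prop :=
  ∃ c : ℕ, ∀ (l : ℕ) [Fact l.Prime], c < l → ∀ (k : Type) [Field k] (κ : ZMod l →+* k)
    (θ : Zb F →+* k), ∃ (r : ℕ) (s : Fin r → Equiv.Perm (Fin n)), 0 < r ∧
      ∀ (σ : Gal F) (y z : Zb F), CongPow (RingHom.ker θ) 1 σ → y ^ (l ^ r - 1) = l →
        (z : AlgebraicClosure F) * (y : AlgebraicClosure F) = σ (y : AlgebraicClosure F) →
        (res (M.ρ l) σ⁻¹).charpoly.map κ =
          ∏ b, (Polynomial.X - C (θ z ^ (∑ i : Fin r, l ^ (i : ℕ) * h (s i b))))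

/-- on every open subgroup almost all residual images contain `SL_2(𝔽_l)` -/
def SL2M {h : Fin 2 → ℕ} (M : Mot F S 2 w h) : Prop :=
  ∀ H : Subgroup (Gal F), IsOpen (H : Set (Gal F)) → ∃ c : ℕ, ∀ (l : ℕ) [Fact l.Prime], c < l →
    ∀ Y : Matrix (Fin 2) (Fin 2) (ZMod l), Y.det = 1 → ∃ g ∈ H, res (M.ρ l) g = Y

/-- `M` and `M'` are not twists of each other by characters on any open subgroup -/
def Unr2 {h h' : Fin 2 → ℕ} (M : Mot F S 2 w h) (M' : Mot F S' 2 w' h') : Prop :=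
  ∀ H : Subgroup (Gal F), IsOpen (H : Set (Gal F)) → ∃ (l : ℕ) (_ : Fact l.Prime), ∃ g ∈ H,
    (rat (M.ρ l) g).trace ^ 2 * (rat (M'.ρ l) g).det ≠
      (rat (M'.ρ l) g).trace ^ 2 * (rat (M.ρ l) g).det

end

/-- TSR: surjectivity of the fundamental character of level `r`. -/
def ST_TSR : Prop :=
  ∀ (F : Type) [Field F] [NumberField F], ∃ c : ℕ, ∀ (l : ℕ) [Fact l.Prime], c < l →
    ∀ (k : Type) [Field k] (θ : Zb F →+* k), θ l = 0 → ∀ r : ℕ, 0 < r →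
      ∃ (σ : Gal F) (y z : Zb F), CongPow (RingHom.ker θ) 1 σ ∧ y ^ (l ^ r - 1) = l ∧
        (z : AlgebraicClosure F) * (y : AlgebraicClosure F) = σ (y : AlgebraicClosure F) ∧
        orderOf (θ z) = l ^ r - 1

/-- FDC: a stable line over `k` gives the data of `FDat` (from TSR, OVP, CNV). -/
def ST_FDC : Prop :=
  ∀ (F : Type) [Field F] [NumberField F] (S : Finset ℕ), (∀ p ∈ S, p.Prime) →
    ∀ (w : ℕ) (h : Fin 2 → ℕ) (M : Mot F S 2 w h), FLC M →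
      ∃ c : ℕ, ∀ (l : ℕ) [Fact l.Prime], c < l → ∀ (k : Type) [Field k] [IsAlgClosed k]
        (κ : ZMod l →+* k) (B : Matrix (Fin 2) (Fin 1) k) (A : Gal F → Matrix (Fin 1) (Fin 1) k),
        IsSub (mapk κ (res (M.ρ l))) B A → FDat M l

/-- ATC: rank two (from CRG, IRB, FDC, NF2, CMT). -/
def ST_ATC : Prop :=
  ∀ (F : Type) [Field F] [NumberField F] (S : Finset ℕ), (∀ p ∈ S, p.Prime) →
    ∀ (w : ℕ) (h : Fin 2 → ℕ) (M : Mot F S 2 w h), Function.Injective h → FLC M →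
      (∀ (l : ℕ) [Fact l.Prime], IsSS (rat (M.ρ l))) → Pab M ∨ Atm M

/-- SC2: residual representations with scalar powers (from TRM, TFR, TRP, SCA, CLF). -/
def ST_SC2 : Prop :=
  ∀ (F : Type) [Field F] [NumberField F] (S : Finset ℕ), (∀ p ∈ S, p.Prime) →
    ∀ (w : ℕ) (h : Fin 2 → ℕ) (M : Mot F S 2 w h), (∀ (l : ℕ) [Fact l.Prime], IsSS (rat (M.ρ l))) →
    ∀ N : ℕ, 0 < N → (∀ c : ℕ, ∃ (l : ℕ) (_ : Fact l.Prime), c < l ∧ ∀ g : Gal F, ∃ a : ZMod l,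
      (res (M.ρ l) g) ^ N = a • (1 : Matrix (Fin 2) (Fin 2) (ZMod l))) → Pab M

/-- NRB: commutative residual representations on an open subgroup (from TRM, SCA, CLF, SEM). -/
def ST_NRB : Prop :=
  ∀ (F : Type) [Field F] [NumberField F] (S : Finset ℕ), (∀ p ∈ S, p.Prime) →
    ∀ (w : ℕ) (h : Fin 2 → ℕ) (M : Mot F S 2 w h), Atm M → ∀ Y : Subgroup (Gal F), Y.Normal →
      IsOpen (Y : Set (Gal F)) → (∀ c : ℕ, ∃ (l : ℕ) (_ : Fact l.Prime), c < l ∧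
        ∀ g ∈ Y, ∀ g' ∈ Y, res (M.ρ l) g * res (M.ρ l) g' = res (M.ρ l) g' * res (M.ρ l) g) →
      Pab M

/-- DIH: inertia at `l` in the dihedral case (from TSR). -/
def ST_DIH : Prop :=
  ∀ (F : Type) [Field F] [NumberField F] (S : Finset ℕ), (∀ p ∈ S, p.Prime) →
    ∀ (w : ℕ) (h : Fin 2 → ℕ) (M : Mot F S 2 w h), Function.Injective h → FLC M →
      ∃ c : ℕ, ∀ (l : ℕ) [Fact l.Prime], c < l → ∀ Y : Subgroup (Gal F), Y.index = 2 →
        (∀ g, g ∉ Y → (res (M.ρ l) g).trace = 0) →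
        ∀ 𝔓 : Ideal (Zb F), Over l 𝔓 → ∀ σ : Gal F, CongPow 𝔓 1 σ → σ ∈ Y

/-- BIG: large residual images (from ATC, SLG, DKS, DIH, NRB, SC2, `MU.ST_HER`). -/
def ST_BIG : Prop :=
  ∀ (F : Type) [Field F] [NumberField F] (S : Finset ℕ), (∀ p ∈ S, p.Prime) →
    ∀ (w : ℕ) (h : Fin 2 → ℕ) (M : Mot F S 2 w h), Function.Injective h → FLC M →
      (∀ (l : ℕ) [Fact l.Prime], IsSS (rat (M.ρ l))) → Pab M ∨ SL2M M

/-- TM2: identities modulo infinitely many `l` between the coefficients of the characteristic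
polynomials of two motives (see TRM; from FRB). -/
def ST_TM2 : Prop :=
  ∀ (F : Type) [Field F] [NumberField F] (S S' : Finset ℕ), (∀ p ∈ S, p.Prime) →
    (∀ p ∈ S', p.Prime) → ∀ (n n' w w' : ℕ) (h : Fin n → ℕ) (h' : Fin n' → ℕ) (M : Mot F S n w h)
      (M' : Mot F S' n' w' h') (U : Set (Gal F)), IsOpen U →
    ∀ Q : MvPolynomial (ℕ ⊕ ℕ) ℤ, (∀ c : ℕ, ∃ (l : ℕ) (_ : Fact l.Prime), c < l ∧
      ∀ σ ∈ U, MvPolynomial.aeval (Sum.elim (fun i => (res (M.ρ l) σ).charpoly.coeff i)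
        (fun i => (res (M'.ρ l) σ).charpoly.coeff i)) Q = 0) →
    ∀ (l : ℕ) [Fact l.Prime], ∀ σ ∈ U, MvPolynomial.aeval
      (Sum.elim (fun i => (rat (M.ρ l) σ).charpoly.coeff i)
        (fun i => (rat (M'.ρ l) σ).charpoly.coeff i)) Q = 0

/-- JNT: joint images (from GOU, RIB, TM2). -/
def ST_JNT : Prop :=
  ∀ (F : Type) [Field F] [NumberField F] (t : ℕ) (S : Fin t → Finset ℕ) (w : Fin t → ℕ)
    (h : Fin t → Fin 2 → ℕ) (M : ∀ i, Mot F (S i) 2 (w i) (h i)), (∀ i, ∀ p ∈ S i, p.Prime) →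
    (∀ i, SL2M (M i)) → (∀ i j, i ≠ j → Unr2 (M i) (M j)) → ∀ H : Subgroup (Gal F),
    IsOpen (H : Set (Gal F)) → ∃ c : ℕ, ∀ (l : ℕ) [Fact l.Prime], c < l →
      ∀ Y : Fin t → Matrix (Fin 2) (Fin 2) (ZMod l), (∀ i, (Y i).det = 1) →
        ∃ x ∈ commutator H, ∀ i, res ((M i).ρ l) (x : Gal F) = Y i

/-! ## E. The tensor category -/

section

variable {F : Type} [Field F] [NumberField F] {S : Finset ℕ} {n w : ℕ}

/-- Over some finite extension `K` of `F` the motive `M` is isogenous to a direct sum of motives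
`Sym ^ (c 1) N₁ ⊗ ⋯ ⊗ Sym ^ (c t) N_t ⊗ B (e)`, where `N₁, …, N_t` are motives of rank two over
`K` with different Hodge types, which are not potentially abelian and not related by twists, and `B`
is potentially abelian, twisted by the power `e` of the cyclotomic character. -/
def TCt {h : Fin n → ℕ} (M : Mot F S n w h) : Prop :=
  ∃ (K : Type) (_ : Field K) (_ : NumberField K) (_ : Algebra F K)
    (j : AlgebraicClosure F ≃+* AlgebraicClosure K) (r : Gal K →* Gal F)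
    (t : ℕ) (S₂ : Fin t → Finset ℕ) (w₂ : Fin t → ℕ) (h₂ : Fin t → Fin 2 → ℕ)
    (N : ∀ i, Mot K (S₂ i) 2 (w₂ i) (h₂ i))
    (k : ℕ) (c : Fin k → Fin t → ℕ) (m : Fin k → ℕ) (S₁ : Fin k → Finset ℕ) (w₁ : Fin k → ℕ)
    (h₁ : ∀ a, Fin (m a) → ℕ) (B : ∀ a, Mot K (S₁ a) (m a) (w₁ a) (h₁ a)) (e : Fin k → ℤ)
    (P : ∀ a, Matrix ((∀ i, Fin (c a i + 1)) × Fin (m a)) (Fin n) ℚ)
    (Q : ∀ a, Matrix (Fin n) ((∀ i, Fin (c a i + 1)) × Fin (m a)) ℚ),
    IsBC F K j r ∧ (∀ i, ∀ p ∈ S₂ i, p.Prime) ∧ (∀ a, ∀ p ∈ S₁ a, p.Prime) ∧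
    (∀ i, Function.Injective (h₂ i) ∧ FLC (N i) ∧ ¬ Pab (N i) ∧
      ∀ (l : ℕ) [Fact l.Prime], IsSS (rat ((N i).ρ l))) ∧
    (∀ i i', i ≠ i' → Unr2 (N i) (N i')) ∧ (∀ a, Pab (B a)) ∧
    (∀ a, P a * Q a = 1) ∧ (∀ a b, a ≠ b → P a * Q b = 0) ∧ ∑ a, Q a * P a = 1 ∧
    ∀ (a : Fin k) (l : ℕ) [Fact l.Prime] (g : Gal K),
      (P a).map (algebraMap ℚ ℚ_[l]) * rat (M.ρ l) (r g) =
        tpc (c a) (fun i => rat ((N i).ρ l) g)
          ((twc ((B a).ρ l) (e a) g).map (algebraMap ℤ_[l] ℚ_[l])) *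
            (P a).map (algebraMap ℚ ℚ_[l])

end

/-- TRG: the reductions are liftable (from BIG, JNT, TLH, PPT, SUY, SYF, AVS, AVL, SSL, IXB). -/
def ST_TRG : Prop :=
  ∀ (F : Type) [Field F] [NumberField F] (S : Finset ℕ), (∀ p ∈ S, p.Prime) →
    ∀ (n w : ℕ) (h : Fin n → ℕ) (M : Mot F S n w h), (∀ (l : ℕ) [Fact l.Prime], IsSS (rat (M.ρ l))) →
      TCt M → Reg2 M

/-- TNF: finiteness (from FINC, TRG). -/
def ST_TNF : Prop :=
  ∀ (F : Type) [Field F] [NumberField F] (S : Finset ℕ), (∀ p ∈ S, p.Prime) →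
    ∀ (n w : ℕ) (h : Fin n → ℕ), ∃ N : ℕ, ∀ 𝒯 : Set (Mot F S n w h),
      (∀ M ∈ 𝒯, (∀ (l : ℕ) [Fact l.Prime], IsSS (rat (M.ρ l))) ∧ TCt M) →
      (∃ T : Finset (Mot F S n w h), (T : Set (Mot F S n w h)) ⊆ 𝒯 ∧ T.card ≤ N ∧
          ∀ M ∈ 𝒯, ∃ M' ∈ T, M.AdelicIso M') ∧
      ((∀ M ∈ 𝒯, ∀ M' ∈ 𝒯, TateHom M M') →
        ∃ T : Finset (Mot F S n w h), (T : Set (Mot F S n w h)) ⊆ 𝒯 ∧
          ∀ M ∈ 𝒯, ∃ M' ∈ T, M.Iso M')

end REC
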