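import Pool.Agent.Helper57.REC.Stmts5
import Pool.Agent.Helper85.REC.Pat
import Pool.Agent.Helper85.REC.Line

/-!
# Reciprocity, part 6: motives of rank two
Proofs: /team-store/rec_blueprint6.md   [helper85]
-/

set_option autoImplicit false

open scoped Classical
open NumberField Polynomial

namespace REC

open Pool.Agent.Helper13.ZL (Pl q)
open MU

/-! ## A. Stable lines and exact relations -/

variable {F : Type} [Field F] [NumberField F] {S : Finset ℕ} {n w : ℕ} {h : Fin n → ℕ}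

/-- The character `ε` is everywhere an eigenvalue of the `l`-adic realization modulo `l ^ k`; it is
unramified outside `l`, and on the inertia groups at the places `v` over `l` it is the power `- e v`
of the cyclotomic character, where `e v` is a Hodge type. -/
def Con (M : Mot F S n w h) (l : ℕ) [Fact l.Prime] (k : ℕ) (ε : Gal F →* (ZMod (l ^ k))ˣ)
    (e : Pl F → ℕ) : Prop :=
  (∃ (Bl : Finset (Pl F)) (φ : Pl F → (ZMod (l ^ k))ˣ),
    IsCyE l k ε (MonoidHom.id _) (fun v => (e v : ℤ)) Bl φ ∧ ∀ v ∈ Bl, ∃ i, e v = h i) ∧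
  ∀ σ : Gal F, (((M.ρ l σ : Matrix.GeneralLinearGroup (Fin n) ℤ_[l]) :
    Matrix (Fin n) (Fin n) ℤ_[l]).map (PadicInt.toZModPow k) -
      ((ε σ : (ZMod (l ^ k))ˣ) : ZMod (l ^ k)) • (1 : Matrix (Fin n) (Fin n) (ZMod (l ^ k)))).det = 0

/-- RLN: stable lines of the residual representations (from FRV, OVP, CPW). -/
def ST_RLN : Prop :=
  ∀ (F : Type) [Field F] [NumberField F] (S : Finset ℕ), (∀ p ∈ S, p.Prime) →
    ∀ (n w : ℕ) (h : Fin n → ℕ) (M : Mot F S n w h), ∃ c : ℕ, ∀ (l : ℕ) [Fact l.Prime], c < l →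
      ∀ (B : Matrix (Fin n) (Fin 1) (ZMod l)) (A : Gal F → Matrix (Fin 1) (Fin 1) (ZMod l)),
        IsSub (res (M.ρ l)) B A → ∃ (ε : Gal F →* (ZMod (l ^ 1))ˣ) (e : Pl F → ℕ), Con M l 1 ε e

/-- LLN: stable lines of the rational representations (from FRV, OVP, CPW). -/
def ST_LLN : Prop :=
  ∀ (F : Type) [Field F] [NumberField F] (S : Finset ℕ), (∀ p ∈ S, p.Prime) →
    ∀ (n w : ℕ) (h : Fin n → ℕ) (M : Mot F S n w h) (l : ℕ) [Fact l.Prime]
      (B : Matrix (Fin n) (Fin 1) ℚ_[l]) (A : Gal F → Matrix (Fin 1) (Fin 1) ℚ_[l]),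
        IsSub (rat (M.ρ l)) B A → ∃ e : Pl F → ℕ, ∀ k : ℕ, 0 < k →
          ∃ ε : Gal F →* (ZMod (l ^ k))ˣ, Con M l k ε e

/-- The exact relation: `e τ` are Hodge types, and if `(x) = v ^ m`, `x` totally positive, then
`∏ τ, τ x ^ (e τ)` is an eigenvalue of the `m`-th power of the geometric Frobenius at `v` (and the
same for the `j`-th powers). -/
def Rel (M : Mot F S n w h) (L : Type) [Field L] [NumberField L] (e : (F →+* L) → ℕ) : Prop :=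
  (∀ τ, ∃ i, e τ = h i) ∧ ∃ S' : Finset ℕ, S ⊆ S' ∧
    ∀ (v : Pl F) (p : ℕ) (𝔓 : Ideal (Zb F)) (j m : ℕ) (σ : Gal F) (x : 𝓞 F) (P : ℤ[X]),
      p.Prime → p ∉ S' → (p : 𝓞 F) ∈ v.asIdeal → OverP v 𝔓 → 0 < j → 0 < m →
      CongPow 𝔓 (q v ^ j) σ → TotPos (x : F) → Ideal.span {x} = v.asIdeal ^ m →
      (∀ (l : ℕ) [Fact l.Prime], l ≠ p →
        (((M.ρ l (σ ^ m))⁻¹ : Matrix.GeneralLinearGroup (Fin n) ℤ_[l]) :
          Matrix (Fin n) (Fin n) ℤ_[l]).charpoly = P.map (Int.castRingHom ℤ_[l])) →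
      aeval (∏ τ : F →+* L, RingOfIntegers.mapRingHom τ x ^ (e τ * j) : 𝓞 L) P = 0

/-- REL1: infinitely many `l` (from LARK, EV). -/
def ST_REL1 : Prop :=
  ∀ (F L : Type) [Field F] [NumberField F] [Field L] [NumberField L] [IsGalois ℚ L]
    [Nonempty (F →+* L)] (S : Finset ℕ), (∀ p ∈ S, p.Prime) →
    ∀ (n w : ℕ) (h : Fin n → ℕ) (M : Mot F S n w h),
      (∀ c : ℕ, ∃ (l : ℕ) (_ : Fact l.Prime), c < l ∧
        ∃ (ε : Gal F →* (ZMod (l ^ 1))ˣ) (e : Pl F → ℕ), Con M l 1 ε e) →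
      ∃ e : (F →+* L) → ℕ, Rel M L e

/-- RELK: one `l`, all powers (from LARK, EV). -/
def ST_RELK : Prop :=
  ∀ (F L : Type) [Field F] [NumberField F] [Field L] [NumberField L] [IsGalois ℚ L]
    [Nonempty (F →+* L)] (S : Finset ℕ), (∀ p ∈ S, p.Prime) →
    ∀ (n w : ℕ) (h : Fin n → ℕ) (M : Mot F S n w h) (l : ℕ) [Fact l.Prime] (e₀ : Pl F → ℕ),
      (∀ k : ℕ, 0 < k → ∃ ε : Gal F →* (ZMod (l ^ k))ˣ, Con M l k ε e₀) →
      ∃ e : (F →+* L) → ℕ, Rel M L e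

/-- PATC: fields without CM subfields (from `pat_pow`, FRE or OVP). -/
def ST_PATC : Prop :=
  ∀ (F L : Type) [Field F] [NumberField F] [Field L] [NumberField L] [IsGalois ℚ L]
    [Nonempty (F →+* L)] (S : Finset ℕ), (∀ p ∈ S, p.Prime) →
    ∀ (n w : ℕ) (h : Fin n → ℕ) (M : Mot F S n w h), 0 < n → NoCM F →
      ∀ e : (F →+* L) → ℕ, Rel M L e → ∃ c : ℕ, (∀ τ, e τ = c) ∧ 2 * c = w

/-- HS2: the Hodge types of a motive of rank two (from BAL, TRI). -/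
def ST_HS2 : Prop :=
  ∀ (F : Type) [Field F] [NumberField F] (S : Finset ℕ), (∀ p ∈ S, p.Prime) →
    ∀ (w : ℕ) (h : Fin 2 → ℕ) (_ : Mot F S 2 w h), h 0 + h 1 = w

/-- SPQ: a number field embeds in infinitely many `ℚ_l`. -/
def ST_SPQ : Prop :=
  ∀ (L : Type) [Field L] [NumberField L] (c : ℕ), ∃ (l : ℕ) (_ : Fact l.Prime), c < l ∧
    Nonempty (L →+* ℚ_[l])

/-- LIN0: the relation gives a line stable under an open subgroup (from SPQ, FRB, OVP). -/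
def ST_LIN0 : Prop :=
  ∀ (F L : Type) [Field F] [NumberField F] [Field L] [NumberField L] [IsGalois ℚ L]
    [Nonempty (F →+* L)] (S : Finset ℕ), (∀ p ∈ S, p.Prime) →
    ∀ (w : ℕ) (h : Fin 2 → ℕ) (M : Mot F S 2 w h) (e : (F →+* L) → ℕ), Rel M L e →
      ∃ (l : ℕ) (_ : Fact l.Prime) (H : Subgroup (Gal F)), IsOpen (H : Set (Gal F)) ∧
        ∃ (B : Matrix (Fin 2) (Fin 1) ℚ_[l]) (A : H → Matrix (Fin 1) (Fin 1) ℚ_[l]),
          IsSub ((rat (M.ρ l)).comp H.subtype) B A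

/-- The `l`-adic realizations are irreducible over every finite extension of `F`. -/
def StIrr (M : Mot F S n w h) : Prop :=
  ∀ (l : ℕ) [Fact l.Prime] (H : Subgroup (Gal F)), IsOpen (H : Set (Gal F)) →
    IsIrr ((rat (M.ρ l)).comp H.subtype)

/-- The rational realizations and almost all residual ones are irreducible. -/
def Reg0 (M : Mot F S n w h) : Prop :=
  (∀ (l : ℕ) [Fact l.Prime], IsIrr (rat (M.ρ l))) ∧
  ∃ c : ℕ, ∀ (l : ℕ) [Fact l.Prime], c < l → IsIrr (res (M.ρ l))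

/-- IR2: irreducibility in rank two (from RLN, LLN, REL1, RELK, PATC, HS2, LIN0). -/
def ST_IR2 : Prop :=
  ∀ (F : Type) [Field F] [NumberField F] (S : Finset ℕ), (∀ p ∈ S, p.Prime) →
    ∀ (w : ℕ) (h : Fin 2 → ℕ) (M : Mot F S 2 w h), h 0 ≠ h 1 → NoCM F ∨ StIrr M → Reg0 M

/-! ## B. Finiteness without conditions on the endomorphisms -/

/-- LTH: stable lattices in an irreducible representation, up to homothety. -/
def ST_LTH : Prop :=
  ∀ (G : Type) [Group G] (n l : ℕ) [Fact l.Prime]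
    (r : G →* Matrix.GeneralLinearGroup (Fin n) ℤ_[l]), IsIrr (rat r) →
    ∃ T : Finset (Matrix (Fin n) (Fin n) ℚ_[l]), (IsIrr (res r) → T = {1}) ∧
      ∀ (s : G →* Matrix.GeneralLinearGroup (Fin n) ℤ_[l])
        (g : Matrix.GeneralLinearGroup (Fin n) ℚ_[l]),
        (∀ x, (g : Matrix (Fin n) (Fin n) ℚ_[l]) * rat s x = rat r x * g) →
        ∃ t ∈ T, ∃ (c : ℚ_[l]) (u : Matrix.GeneralLinearGroup (Fin n) ℤ_[l]), c ≠ 0 ∧
          (g : Matrix (Fin n) (Fin n) ℚ_[l]) =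
            c • (t * (u : Matrix (Fin n) (Fin n) ℤ_[l]).map (algebraMap ℤ_[l] ℚ_[l]))

/-- ADE0: finitely many adelic realizations (adapt `MU.ade_regular`). -/
def ST_ADE0 : Prop :=
  ∀ (F : Type) [Field F] [NumberField F] (S : Finset ℕ), (∀ p ∈ S, p.Prime) →
    ∀ (n w : ℕ) (h : Fin n → ℕ), ∃ (κ : Type) (_ : Finite κ) (col : Mot F S n w h → κ),
      ∀ M M' : Mot F S n w h, Reg0 M → Reg0 M' → col M = col M' → M.AdelicIso M'

/-- ISO0: finitely many classes in an isogeny class, uniformly (from LTH). -/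
def ST_ISO0 : Prop :=
  ∀ (F : Type) [Field F] [NumberField F] (S : Finset ℕ) (n w : ℕ) (h : Fin n → ℕ)
    (M₀ : Mot F S n w h), Reg0 M₀ → ∃ N : ℕ, ∀ 𝒯 : Set (Mot F S n w h),
      (∀ M ∈ 𝒯, M.AdelicIso M₀) → (∀ M ∈ 𝒯, ∀ M' ∈ 𝒯, M.Isog M') →
      ∃ T : Finset (Mot F S n w h), (T : Set (Mot F S n w h)) ⊆ 𝒯 ∧ T.card ≤ N ∧
        ∀ M ∈ 𝒯, ∃ M' ∈ T, M.Iso M'

/-- FIN0: finiteness (from ADE0, ISO0). -/
def ST_FIN0 : Prop :=
  ∀ (F : Type) [Field F] [NumberField F] (S : Finset ℕ), (∀ p ∈ S, p.Prime) →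
    ∀ (n w : ℕ) (h : Fin n → ℕ), ∃ N : ℕ, ∀ 𝒯 : Set (Mot F S n w h), (∀ M ∈ 𝒯, Reg0 M) →
      (∃ T : Finset (Mot F S n w h), (T : Set (Mot F S n w h)) ⊆ 𝒯 ∧ T.card ≤ N ∧
          ∀ M ∈ 𝒯, ∃ M' ∈ T, M.AdelicIso M') ∧
      ((∀ M ∈ 𝒯, ∀ M' ∈ 𝒯, M.AdelicIso M' → M.Isog M') →
        ∃ T : Finset (Mot F S n w h), (T : Set (Mot F S n w h)) ⊆ 𝒯 ∧ T.card ≤ N ∧
          ∀ M ∈ 𝒯, ∃ M' ∈ T, M.Iso M')

end REC
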