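import Pool.Agent.Helper57.REC.Stmts5

/-!
# Reciprocity, part 7: the power reciprocity law and tame characters
Proofs: /team-store/rec_blueprint7.md   [helper85]
-/

set_option autoImplicit false

open scoped Classical
open NumberField

namespace REC

open Pool.Agent.Helper13.ZL (Pl q)
open MU (Gal Zb Over CongPow)

/-! ## A. Power residue symbols and the power reciprocity law -/

variable {K : Type} [Field K] [NumberField K]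

/-- `ζ` is the power residue symbol of `γ` at `w` -/
def IsSy (n : ℕ) (γ : 𝓞 K) (w : Pl K) (ζ : (𝓞 K)ˣ) : Prop :=
  ζ ^ n = 1 ∧ (ζ : 𝓞 K) - γ ^ ((q w - 1) / n) ∈ w.asIdeal

/-- the power residue symbol -/
noncomputable def sy (n : ℕ) (γ : 𝓞 K) (w : Pl K) : (𝓞 K)ˣ :=
  if h : (n : 𝓞 K) ∉ w.asIdeal ∧ γ ∉ w.asIdeal ∧ ∃ ζ : (𝓞 K)ˣ, IsSy n γ w ζ then h.2.2.choose else 1

/-- `K` contains the `n`-th roots of unity -/
def HasRt (K : Type) [Field K] [NumberField K] (n : ℕ) : Prop :=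
  0 < n ∧ ∃ ζ : (𝓞 K)ˣ, IsPrimitiveRoot ζ n

/-- SYB: basic properties of the symbol. -/
def ST_SYB : Prop :=
  ∀ (K : Type) [Field K] [NumberField K] (n : ℕ), HasRt K n →
    (∀ (γ : 𝓞 K) (w : Pl K), (n : 𝓞 K) ∉ w.asIdeal → γ ∉ w.asIdeal → IsSy n γ w (sy n γ w)) ∧
    (∀ (γ : 𝓞 K) (w : Pl K) (ζ : (𝓞 K)ˣ), (n : 𝓞 K) ∉ w.asIdeal → γ ∉ w.asIdeal →
      IsSy n γ w ζ → ζ = sy n γ w) ∧
    (∀ (γ γ' : 𝓞 K) (w : Pl K), γ ∉ w.asIdeal → γ' ∉ w.asIdeal →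
      sy n (γ * γ') w = sy n γ w * sy n γ' w) ∧
    (∀ (γ γ' : 𝓞 K) (w : Pl K), γ - γ' ∈ w.asIdeal → sy n γ w = sy n γ' w) ∧
    ∀ (ζ ζ' : (𝓞 K)ˣ) (w : Pl K), ζ ^ n = 1 → ζ' ^ n = 1 → (n : 𝓞 K) ∉ w.asIdeal →
      (ζ : 𝓞 K) - ζ' ∈ w.asIdeal → ζ = ζ'

/-- `κ` is the Kummer character of `γ` -/
def IsKum (n : ℕ) (γ : 𝓞 K) (κ : Gal K →* (𝓞 K)ˣ) : Prop :=
  ∀ (σ : Gal K) (y : AlgebraicClosure K), y ^ n = algebraMap K (AlgebraicClosure K) (γ : K) →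
    σ y = algebraMap K (AlgebraicClosure K) (((κ σ : (𝓞 K)ˣ) : 𝓞 K) : K) * y

/-- KUM: Kummer characters (from SYB). -/
def ST_KUM : Prop :=
  ∀ (K : Type) [Field K] [NumberField K] (n : ℕ), HasRt K n → ∀ γ : 𝓞 K, γ ≠ 0 →
    ∃ κ : Gal K →* (𝓞 K)ˣ, IsKum n γ κ ∧ IsOpen (κ.ker : Set (Gal K)) ∧ (∀ σ, κ σ ^ n = 1) ∧
      ∀ w : Pl K, (n : 𝓞 K) ∉ w.asIdeal → γ ∉ w.asIdeal → IsFr κ w (sy n γ w)

/-- PRK: the symbol of `γ` is trivial at the elements close to `1` (from REC, KUM, SYB, EV, APX). -/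
def ST_PRK : Prop :=
  ∀ (K : Type) [Field K] [NumberField K] (n : ℕ), HasRt K n → ∀ γ y : 𝓞 K, γ ≠ 0 → y ≠ 0 →
    TotPos (y : K) → y - 1 ∈ Ideal.span {(n : 𝓞 K)} ^ 3 →
    (∀ w : Pl K, γ ∈ w.asIdeal → y - 1 ∈ w.asIdeal) → ev (sy n γ) (Ideal.span {y}) = 1

/-- PRL: the power reciprocity law (from PRK, SYB, EV). -/
def ST_PRL : Prop :=
  ∀ (K : Type) [Field K] [NumberField K] (n : ℕ), HasRt K n → ∀ α β : 𝓞 K, α ≠ 0 → β ≠ 0 →
    TotPos (α : K) → TotPos (β : K) → α - 1 ∈ Ideal.span {(n : 𝓞 K)} ^ 3 →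
    β - 1 ∈ Ideal.span {(n : 𝓞 K)} ^ 3 → (∀ w : Pl K, α ∈ w.asIdeal → β ∉ w.asIdeal) →
    ev (sy n α) (Ideal.span {β}) = ev (sy n β) (Ideal.span {α})

/-! ## B. Tame characters -/

variable {F : Type} [Field F] [NumberField F]

/-- `u` is congruent to the value at `σ` of the tame character of the inertia group at `𝔓`
defined by the uniformizer `π` at `v` -/
def Tm (v : Pl F) (𝔓 : Ideal (Zb F)) (π : 𝓞 F) (σ : Gal F) (u : 𝓞 F) : Prop :=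
  ∀ y ζ c : Zb F, (y : AlgebraicClosure F) ^ (q v - 1) = algebraMap F (AlgebraicClosure F) (π : F) →
    (ζ : AlgebraicClosure F) * (y : AlgebraicClosure F) = σ (y : AlgebraicClosure F) →
    (c : AlgebraicClosure F) = algebraMap F (AlgebraicClosure F) (u : F) → ζ - c ∈ 𝔓

/-- `ε` is on the inertia groups at the places over `v` the inverse of `f` of the tame character -/
def IsTame {A : Type} [CommGroup A] (ε : Gal F →* A) (v : Pl F) (π : 𝓞 F)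
    (f : (𝓞 F ⧸ v.asIdeal)ˣ →* A) : Prop :=
  (π ∈ v.asIdeal ∧ π ∉ v.asIdeal ^ 2) ∧
    ∀ 𝔓 : Ideal (Zb F), OverP v 𝔓 → ∀ σ : Gal F, CongPow 𝔓 1 σ → ∀ (u : 𝓞 F)
      (U : (𝓞 F ⧸ v.asIdeal)ˣ), (U : 𝓞 F ⧸ v.asIdeal) = Ideal.Quotient.mk v.asIdeal u →
      Tm v 𝔓 π σ u → ε σ * f U = 1

/-- TAK: tame reciprocity for fields with sufficiently many roots of unity
(from REC, KUM, PRL, SYB, EV, FRV, OVP, APX). -/
def ST_TAK : Prop :=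
  ∀ (F : Type) [Field F] [NumberField F] (v : Pl F) (A : Type) [CommGroup A] (ε : Gal F →* A)
    (B : Finset (Pl F)) (φ : Pl F → A) (π : 𝓞 F) (f : (𝓞 F ⧸ v.asIdeal)ˣ →* A),
    HasRt F (q v - 1) → IsOpen (ε.ker : Set (Gal F)) → v ∈ B → IsPhi ε B φ → IsTame ε v π f →
    ∃ N : ℕ, 0 < N ∧ ∀ x : 𝓞 F, Ray (B.erase v) N x → ∀ X : (𝓞 F ⧸ v.asIdeal)ˣ,
      (X : 𝓞 F ⧸ v.asIdeal) = Ideal.Quotient.mk v.asIdeal x → ev φ (Ideal.span {x}) * f X = 1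

/-- `j` and `r` compare the algebraic closures and the Galois groups of `F` and of `K ⊇ F` -/
structure IsBC (F K : Type) [Field F] [NumberField F] [Field K] [NumberField K] [Algebra F K]
    (j : AlgebraicClosure F ≃+* AlgebraicClosure K) (r : Gal K →* Gal F) : Prop where
  base : ∀ x : F, j (algebraMap F (AlgebraicClosure F) x) =
    algebraMap K (AlgebraicClosure K) (algebraMap F K x)
  act : ∀ (σ : Gal K) (x : AlgebraicClosure F), j (r σ x) = σ (j x)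
  cont : ∀ Y : Subgroup (Gal F), IsOpen (Y : Set (Gal F)) → IsOpen ((Y.comap r : Subgroup (Gal K)) :
    Set (Gal K))

/-- BCH: existence of the base change. -/
def ST_BCH : Prop :=
  ∀ (F K : Type) [Field F] [NumberField F] [Field K] [NumberField K] [Algebra F K],
    ∃ (j : AlgebraicClosure F ≃+* AlgebraicClosure K) (r : Gal K →* Gal F), IsBC F K j r

/-- BCT: primes, Frobenius elements and base change. -/
def ST_BCT : Prop :=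
  ∀ (F K : Type) [Field F] [NumberField F] [Field K] [NumberField K] [Algebra F K]
    (j : AlgebraicClosure F ≃+* AlgebraicClosure K) (r : Gal K →* Gal F), IsBC F K j r →
    ∀ 𝔔 : Ideal (Zb K), ∃ 𝔓 : Ideal (Zb F),
      (∀ (x : Zb F) (y : Zb K), (y : AlgebraicClosure K) = j (x : AlgebraicClosure F) →
        (x ∈ 𝔓 ↔ y ∈ 𝔔)) ∧
      (∀ (a : ℕ) (σ : Gal K), CongPow 𝔔 a σ ↔ CongPow 𝔓 a (r σ)) ∧
      ∀ (v : Pl F) (w : Pl K), OvL v w → OverP w 𝔔 → OverP v 𝔓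

/-- NFR: Frobenius elements and norms (from BCT, EV, OVP, FRV). -/
def ST_NFR : Prop :=
  ∀ (F K : Type) [Field F] [NumberField F] [Field K] [NumberField K] [Algebra F K]
    (j : AlgebraicClosure F ≃+* AlgebraicClosure K) (r : Gal K →* Gal F), IsBC F K j r →
    ∀ (A : Type) [CommGroup A] (ε : Gal F →* A) (B : Finset (Pl F)) (φ : Pl F → A),
      IsPhi ε B φ → ∃ (B' : Finset (Pl K)) (φ' : Pl K → A),
        (∀ w : Pl K, w ∈ B' ↔ ∃ v ∈ B, OvL v w) ∧ IsPhi (ε.comp r) B' φ' ∧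
        ∀ y : 𝓞 K, y ≠ 0 → (∀ w ∈ B', y ∉ w.asIdeal) →
          ev φ' (Ideal.span {y}) = ev φ (Ideal.span {RingOfIntegers.norm F y})

/-- TAM: tame reciprocity at one place (from TAK, BCH, BCT, NFR, REC, EV, APX). -/
def ST_TAM : Prop :=
  ∀ (F : Type) [Field F] [NumberField F] (v : Pl F) (A : Type) [CommGroup A] (ε : Gal F →* A)
    (B : Finset (Pl F)) (φ : Pl F → A) (π : 𝓞 F) (f : (𝓞 F ⧸ v.asIdeal)ˣ →* A),
    IsOpen (ε.ker : Set (Gal F)) → v ∈ B → IsPhi ε B φ → IsTame ε v π f →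
    ∃ N : ℕ, 0 < N ∧ ∀ x : 𝓞 F, Ray (B.erase v) N x → ∀ X : (𝓞 F ⧸ v.asIdeal)ˣ,
      (X : 𝓞 F ⧸ v.asIdeal) = Ideal.Quotient.mk v.asIdeal x → ev φ (Ideal.span {x}) * f X = 1

/-- TAL: tame reciprocity for characters ramified only at `Bl` (from TAM, REC, EV, APX). -/
def ST_TAL : Prop :=
  ∀ (F : Type) [Field F] [NumberField F] (A : Type) [CommGroup A] (ε : Gal F →* A)
    (Bl : Finset (Pl F)) (φ : Pl F → A) (π : Pl F → 𝓞 F)
    (f : ∀ v : Pl F, (𝓞 F ⧸ v.asIdeal)ˣ →* A),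
    IsOpen (ε.ker : Set (Gal F)) → IsPhi ε Bl φ → (∀ v ∈ Bl, IsTame ε v (π v) (f v)) →
    ∀ x : 𝓞 F, x ≠ 0 → TotPos (x : F) → ∀ X : ∀ v : Pl F, (𝓞 F ⧸ v.asIdeal)ˣ,
      (∀ v ∈ Bl, (X v : 𝓞 F ⧸ v.asIdeal) = Ideal.Quotient.mk v.asIdeal x) →
      ev φ (Ideal.span {x}) * ∏ v ∈ Bl, f v (X v) = 1

/-- LART: the formula in terms of embeddings (from TAL). The place `v` is the kernel of
`ι ∘ τ : 𝓞 F → k` for the embeddings `τ` over `v`. -/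
def ST_LART : Prop :=
  ∀ (F L : Type) [Field F] [NumberField F] [Field L] [NumberField L] [IsGalois ℚ L]
    [Nonempty (F →+* L)] (l : ℕ) [Fact l.Prime] (k : Type) [Field k] (ι : 𝓞 L →+* k),
    ι (l : 𝓞 L) = 0 → ∀ (ε : Gal F →* kˣ) (Bl : Finset (Pl F)) (φ : Pl F → kˣ) (π : Pl F → 𝓞 F)
    (e : (F →+* L) → ℕ), (∀ v : Pl F, v ∈ Bl ↔ (l : 𝓞 F) ∈ v.asIdeal) →
    IsOpen (ε.ker : Set (Gal F)) → IsPhi ε Bl φ →
    (∀ v ∈ Bl, (π v ∈ v.asIdeal ∧ π v ∉ v.asIdeal ^ 2) ∧ ∀ 𝔓 : Ideal (Zb F), OverP v 𝔓 →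
      ∀ σ : Gal F, CongPow 𝔓 1 σ → ∀ u : 𝓞 F, u ∉ v.asIdeal → Tm v 𝔓 (π v) σ u →
        ((ε σ : kˣ) : k) * ∏ τ : F →+* L,
          (if RingHom.ker (ι.comp (RingOfIntegers.mapRingHom τ)) = v.asIdeal then
            ι (RingOfIntegers.mapRingHom τ u) ^ e τ else 1) = 1) →
    ∀ x : 𝓞 F, x ≠ 0 → TotPos (x : F) → (∀ v ∈ Bl, x ∉ v.asIdeal) →
      ((ev φ (Ideal.span {x}) : kˣ) : k) *
        ∏ τ : F →+* L, ι (RingOfIntegers.mapRingHom τ x) ^ e τ = 1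

end REC
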