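import Mathlib

/-!
# Multiplicative relations between the conjugates of units

Linear relations between the logarithms of the absolute values of the conjugates of units, from
Dirichlet's unit theorem.
-/

set_option autoImplicit false

open NumberField NumberField.InfinitePlace NumberField.Units NumberField.Units.dirichletUnitTheorem

namespace REC

/-- a linear relation between the logarithms of the absolute values of units is trivial -/
theorem log_place {F : Type*} [Field F] [NumberField F] (c : InfinitePlace F → ℝ)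
    (h : ∀ u : (𝓞 F)ˣ, ∑ w : InfinitePlace F, c w * (mult w * Real.log (w (u : F))) = 0)
    (w w' : InfinitePlace F) : c w = c w' := by
  classical
  have key : ∀ w : InfinitePlace F, c w = c w₀ := by
    -- the linear form
    let f : logSpace F →ₗ[ℝ] ℝ :=
      ∑ w : {w : InfinitePlace F // w ≠ w₀}, (c w.1 - c w₀) • LinearMap.proj w
    have hf : ∀ x : logSpace F, f x =
        ∑ w : {w : InfinitePlace F // w ≠ w₀}, (c w.1 - c w₀) * x w := by
      intro x
      simp only [f, LinearMap.coe_sum, Finset.sum_apply, LinearMap.smul_apply,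
        LinearMap.proj_apply, smul_eq_mul]
    have h0 : f = 0 := by
      refine LinearMap.ext_on (unitLattice_span_eq_top F) ?_
      · rintro x ⟨u, -, rfl⟩
        rw [LinearMap.zero_apply]
        obtain ⟨v, rfl⟩ : ∃ v : (𝓞 F)ˣ, Additive.ofMul v = u := ⟨u.toMul, rfl⟩
        have e1 : f (logEmbedding F (Additive.ofMul v)) =
            ∑ w : {w : InfinitePlace F // w ≠ w₀}, (c w.1 - c w₀) *
              (mult w.1 * Real.log (w.1 (v : F))) := by
          rw [hf]
          rfl
        have e2 : ∑ w : InfinitePlace F, (c w - c w₀) * (mult w * Real.log (w (v : F))) = 0 := by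
          have h2 := sum_mult_mul_log v
          simp only [sub_mul, Finset.sum_sub_distrib]
          rw [h v, ← Finset.mul_sum, h2, mul_zero, sub_zero]
        rw [Fintype.sum_eq_add_sum_subtype_ne _ w₀, sub_self, zero_mul, zero_add] at e2
        exact e1.trans e2
    intro w
    by_cases hw : w = w₀
    · rw [hw]
    · have h3 := LinearMap.congr_fun h0 (Pi.single ⟨w, hw⟩ 1)
      rw [hf, LinearMap.zero_apply, Finset.sum_eq_single ⟨w, hw⟩, Pi.single_eq_same, mul_one] at h3
      · exact sub_eq_zero.mp h3
      · intro b _ hb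
        rw [Pi.single_eq_of_ne hb, mul_zero]
      · intro hh
        exact absurd (Finset.mem_univ _) hh
  rw [key w, key w']

/-- the same for embeddings -/
theorem log_emb {F : Type*} [Field F] [NumberField F] (e : (F →+* ℂ) → ℝ)
    (h : ∀ u : (𝓞 F)ˣ, ∑ τ : F →+* ℂ, e τ * Real.log ‖τ (u : F)‖ = 0) (τ τ' : F →+* ℂ) :
    e τ + e (ComplexEmbedding.conjugate τ) = e τ' + e (ComplexEmbedding.conjugate τ') := by
  classical
  set s : (F →+* ℂ) → ℝ := fun τ => e τ + e (ComplexEmbedding.conjugate τ) with hs
  have hsc : ∀ τ, s (ComplexEmbedding.conjugate τ) = s τ := by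
    intro τ
    simp only [hs]
    rw [show ComplexEmbedding.conjugate (ComplexEmbedding.conjugate τ) = τ from
      ComplexEmbedding.involutive_conjugate F τ, add_comm]
  have hsm : ∀ τ τ' : F →+* ℂ, InfinitePlace.mk τ = InfinitePlace.mk τ' → s τ = s τ' := by
    intro τ τ' ht
    rcases mk_eq_iff.mp ht with rfl | rfl
    · rfl
    · exact (hsc τ).symm
  let c : InfinitePlace F → ℝ := fun w => s w.embedding
  have hc : ∀ τ, c (InfinitePlace.mk τ) = s τ := fun τ => hsm _ _ (mk_embedding _)
  have hsum : ∀ u : (𝓞 F)ˣ, ∑ τ : F →+* ℂ, s τ * Real.log ‖τ (u : F)‖ = 0 := by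
    intro u
    simp only [hs, add_mul, Finset.sum_add_distrib]
    rw [h u, zero_add]
    have h1 : ∑ τ : F →+* ℂ, e (ComplexEmbedding.conjugate τ) * Real.log ‖τ (u : F)‖ =
        ∑ τ : F →+* ℂ, e τ * Real.log ‖τ (u : F)‖ := by
      refine Fintype.sum_equiv (ComplexEmbedding.involutive_conjugate F).toPerm _ _ fun τ => ?_
      rw [Function.Involutive.coe_toPerm]
      congr 2
      rw [ComplexEmbedding.conjugate_coe_eq, RCLike.norm_conj]
    rw [h1, h u]
  have h2 := log_place c (fun u => by
    rw [← hsum u, ← Finset.sum_fiberwise Finset.univ InfinitePlace.mk (fun τ : F →+* ℂ =>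
      s τ * Real.log ‖τ (u : F)‖)]
    refine Finset.sum_congr rfl fun w _ => ?_
    have h3 : ∀ τ ∈ Finset.univ.filter (fun τ : F →+* ℂ => InfinitePlace.mk τ = w),
        s τ * Real.log ‖τ (u : F)‖ = c w * Real.log (w (u : F)) := by
      intro τ hτ
      have h4 := (Finset.mem_filter.mp hτ).2
      rw [← h4, hc, InfinitePlace.apply]
    rw [Finset.sum_congr rfl h3, Finset.sum_const, card_filter_mk_eq, nsmul_eq_mul]
    ring) (InfinitePlace.mk τ) (InfinitePlace.mk τ')
  rw [hc, hc] at h2
  exact h2

end REC
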